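import Pool.Agent.Lib.HFC.Basic
import Pool.Agent.Lib.HFC.Plain
import Pool.Agent.Lib.HFC.Mg.G003

section

open Classical

namespace HFC

variable {α W : Type}

/-- Adjacency of the coloured scheme for double stars. -/
def f2adj (H : SimpleGraph α) (p q m : α) (Γ : SimpleGraph W) (k R : ℕ) :
    SV (Fin k × W) (W ⊕ (Fin k × Fin R × W)) {d : α // d ≠ p} →
      SV (Fin k × W) (W ⊕ (Fin k × Fin R × W)) {d : α // d ≠ p} → Prop
  | .hub, .hub => False
  | .hub, .sel _ => True
  | .sel _, .hub => True
  | .hub, .gad _ d => H.Adj p d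
  | .gad _ d, .hub => H.Adj p d
  | .sel s, .sel s' => s ≠ s'
  | .sel s, .gad (.inl j) d => d.1 = m ∧ (s.2 = j ∨ Γ.Adj s.2 j)
  | .gad (.inl j) d, .sel s => d.1 = m ∧ (s.2 = j ∨ Γ.Adj s.2 j)
  | .sel s, .gad (.inr t) d => d.1 = m ∧ s.1 = t.1
  | .gad (.inr t) d, .sel s => d.1 = m ∧ s.1 = t.1
  | .gad (.inl j) d, .gad (.inl j') d' =>
      (j = j' ∧ H.Adj d d') ∨ (j ≠ j' ∧ (d.1 = m ∨ d.1 = q) ∧ (d'.1 = m ∨ d'.1 = q))
  | .gad (.inr t) d, .gad (.inr t') d' =>
      (t = t' ∧ H.Adj d d') ∨ (t ≠ t' ∧ t.1 = t'.1 ∧ d.1 = m ∧ d'.1 = m)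
  | .gad (.inl _) _, .gad (.inr _) _ => False
  | .gad (.inr _) _, .gad (.inl _) _ => False

/-- The coloured scheme graph for double stars. -/
def f2Graph (H : SimpleGraph α) (p q m : α) (Γ : SimpleGraph W) (k R : ℕ) :
    SimpleGraph (SV (Fin k × W) (W ⊕ (Fin k × Fin R × W)) {d : α // d ≠ p}) where
  Adj := f2adj H p q m Γ k R
  symm := ⟨by
    intro a b h
    rcases a with _ | s | ⟨j | t, d⟩ <;> rcases b with _ | s' | ⟨j' | t', d'⟩ <;>
      simp only [f2adj] at h ⊢
    · exact h
    · exact h
    · exact fun e => h e.symm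
    · exact h
    · exact h
    · exact h
    · exact h
    · rcases h with ⟨h1, h2⟩ | ⟨h1, h2, h3⟩
      · exact Or.inl ⟨h1.symm, h2.symm⟩
      · exact Or.inr ⟨fun e => h1 e.symm, h3, h2⟩
    · exact h
    · exact h
    · rcases h with ⟨h1, h2⟩ | ⟨h1, h2, h3, h4⟩
      · exact Or.inl ⟨h1.symm, h2.symm⟩
      · exact Or.inr ⟨fun e => h1 e.symm, h2.symm, h4, h3⟩⟩
  loopless := ⟨by
    intro a h
    rcases a with _ | s | ⟨j | t, d⟩ <;> simp only [f2adj] at h
    · exact h rfl
    · rcases h with ⟨_, h2⟩ | ⟨h1, _⟩
      · exact H.ne_of_adj h2 rfl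
      · exact h1 rfl
    · rcases h with ⟨_, h2⟩ | ⟨h1, _⟩
      · exact H.ne_of_adj h2 rfl
      · exact h1 rfl⟩

/-- A double star: centres `p`, `q`; every other vertex is a leaf of exactly one centre. -/
structure DStar (H : SimpleGraph α) (p q : α) : Prop where
  pq : H.Adj p q
  one : ∀ w, w ≠ p → w ≠ q → (H.Adj p w ↔ ¬ H.Adj q w)
  ind : ∀ w w', w ≠ p → w ≠ q → w' ≠ p → w' ≠ q → ¬ H.Adj w w'

end HFC
end

section

open Classical

namespace HFC

variable {α C W : Type}

section contractadj
variable {U : Type} (G : SimpleGraph U) (F : Set (Sym2 U))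

lemma contract_adj_untouched {w w' : U} (hw : ∀ e ∈ F, w ∉ e) (hw' : ∀ e ∈ F, w' ∉ e) :
    (contract G F).Adj (Quotient.mk _ w) (Quotient.mk _ w') ↔ G.Adj w w' := by
  constructor
  · rintro ⟨_, x, y, hx, hy, hxy⟩
    have h1 := reach_untouched F w x hw ((mk_eq_iff F x w).1 hx).symm
    have h2 := reach_untouched F w' y hw' ((mk_eq_iff F y w').1 hy).symm
    rw [h1, h2]; exact hxy
  · intro h
    refine ⟨?_, w, w', rfl, rfl, h⟩
    intro e
    have := reach_untouched F w w' hw ((mk_eq_iff F w w').1 e)
    exact G.ne_of_adj h this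

lemma contract_adj_left {h w : U} (hw : ∀ e ∈ F, w ∉ e) (hne : w ≠ h) :
    (contract G F).Adj (Quotient.mk _ h) (Quotient.mk _ w) ↔
      ∃ t, (SimpleGraph.fromEdgeSet F).Reachable h t ∧ G.Adj t w := by
  constructor
  · rintro ⟨_, x, y, hx, hy, hxy⟩
    have h2 := reach_untouched F w y hw ((mk_eq_iff F y w).1 hy).symm
    refine ⟨x, ((mk_eq_iff F x h).1 hx).symm, ?_⟩
    rw [h2]; exact hxy
  · rintro ⟨t, ht, hadj⟩
    refine ⟨?_, t, w, (mk_eq_iff F t h).2 ht.symm, rfl, hadj⟩
    intro e
    exact hne (reach_untouched F w h hw ((mk_eq_iff F w h).1 e.symm))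

end contractadj

theorem Good.reduction [Fintype α] {H : SimpleGraph α} {p : Pat C} (g : Good H p) [Fintype W]
    (Γ : SimpleGraph W) (k R : ℕ) (hR : 2 * k + Fintype.card α ≤ R) :
    HasDomSet Γ k ↔ Contractible H (p.inst Γ R) k := by
  constructor
  · rintro ⟨D, hDk, hD⟩
    let D' : Finset (W ⊕ Fin R) := D.map ⟨Sum.inl, Sum.inl_injective⟩
    have hD' : ∀ j : W × Fin R, ∃ i ∈ D', domRel Γ R i j := by
      intro j
      obtain ⟨i, hi, hij⟩ := hD j.1
      exact ⟨Sum.inl i, by simp [D', hi], hij⟩
    obtain ⟨φ⟩ := contract_star p (domRel Γ R) D' g.hQB hD'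
    refine ⟨D'.image (fun i => s(SV.hub, SV.sel i)), ?_, ?_, ?_⟩
    · intro e he
      rw [Finset.mem_coe, Finset.mem_image] at he
      obtain ⟨i, _, rfl⟩ := he
      rw [SimpleGraph.mem_edgeSet]
      exact trivial
    · exact Finset.card_image_le.trans (by simpa [D'] using hDk)
    · refine ⟨fun f => ?_⟩
      exact (g.free _ _ _).false (φ.comp f)
  · rintro ⟨F, _, hFk, hfree⟩
    set G := p.inst Γ R with hG
    set FS : Set (Sym2 (SV (W ⊕ Fin R) (W × Fin R) C)) := (F : Set (Sym2 (SV (W ⊕ Fin R) (W × Fin R) C))) with hFS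
    let K : SV (W ⊕ Fin R) (W × Fin R) C → Prop := fun v =>
      (SimpleGraph.fromEdgeSet FS).Reachable .hub v
    let D : Finset W := Finset.univ.filter (fun i => K (.sel (.inl i)))
    refine ⟨D, ?_, ?_⟩
    · have h1 : (D.image (fun i => (SV.sel (Sum.inl i) : SV (W ⊕ Fin R) (W × Fin R) C))).card
          = D.card := by
        apply Finset.card_image_of_injective
        intro a b h
        injection h with h
        exact Sum.inl_injective h
      rw [← h1]
      refine (card_reach_le F .hub _ ?_).trans hFk
      intro v hv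
      rw [Finset.mem_image] at hv
      obtain ⟨i, hi, rfl⟩ := hv
      exact ⟨by simp, (Finset.mem_filter.1 hi).2⟩
    · by_contra hnd
      push Not at hnd
      obtain ⟨j0, hj0⟩ := hnd
      have hj0' : ∀ v : W ⊕ Fin R, ∀ r, K (.sel v) → ¬ domRel Γ R v (j0, r) := by
        intro v r hK hrel
        rcases v with i | i
        · have hi : i ∈ D := by simp [D, hK]
          have := hj0 i hi
          rcases hrel with h | h
          · exact this.1 h
          · exact this.2 h
        · exact hrel
      obtain ⟨g1, g1inj, hg1⟩ := exists_fresh (ι := α) F R k hFk hR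
        (fun v => match v with
          | .gad j _ => if j.1 = j0 then some j.2 else none
          | _ => none)
      obtain ⟨g2, g2inj, hg2⟩ := exists_fresh (ι := α) F R k hFk hR
        (fun v => match v with
          | .sel (.inr r) => some r
          | _ => none)
      have fr1 : ∀ a c, ∀ e ∈ FS, (SV.gad (j0, g1 a) c : SV (W ⊕ Fin R) (W × Fin R) C) ∉ e := by
        intro a c
        exact hg1 a (.gad (j0, g1 a) c) (by simp)
      have fr2 : ∀ a, ∀ e ∈ FS, (SV.sel (.inr (g2 a)) : SV (W ⊕ Fin R) (W × Fin R) C) ∉ e := by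
        intro a
        exact hg2 a (.sel (.inr (g2 a))) rfl
      have notK : ∀ a c, ¬ K (.gad (j0, g1 a) c) := by
        intro a c hK
        have := reach_untouched FS _ _ (fr1 a c) hK.symm
        cases this
      by_cases hbad : ∃ j c, K (.gad j c) ∧ ∃ d, p.M c (g.δ d) ∧ ¬ H.Adj g.x d
      · obtain ⟨j, c, hK, d, hM, hnd⟩ := hbad
        obtain ⟨u, f0, hu, hf0⟩ := g.penal c d hM hnd
        let m : SV α α C → SV (W ⊕ Fin R) (W × Fin R) C := fun v => match v with
          | .hub => .hub
          | .sel a => .sel (.inr (g2 a))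
          | .gad a c => .gad (j0, g1 a) c
        have minj : Function.Injective m := by
          intro a b h
          rcases a with _ | a | ⟨a, c⟩ <;> rcases b with _ | b | ⟨b, c'⟩ <;> simp only [m] at h
          · rfl
          · cases h
          · cases h
          · cases h
          · injection h with h
            rw [g2inj (Sum.inr_injective h)]
          · cases h
          · cases h
          · cases h
          · injection h with h h'
            rw [g1inj (Prod.ext_iff.1 h).2, h']
        have mfresh : ∀ v, v ≠ SV.hub → ∀ e ∈ FS, m v ∉ e := by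
          intro v hv
          rcases v with _ | a | ⟨a, c⟩
          · exact absurd rfl hv
          · exact fr2 a
          · exact fr1 a c
        have mhub : ∀ v, v ≠ SV.hub → m v ≠ SV.hub := by
          intro v hv h
          exact hv (minj h)
        have fne : ∀ w, w ≠ u → f0 w ≠ SV.hub := by
          intro w hw h
          exact hw (f0.injective (h.trans hf0.symm))
        -- adjacency between fresh vertices
        have madj : ∀ v v', v ≠ SV.hub → v' ≠ SV.hub →
            (G.Adj (m v) (m v') ↔
              (p.graph (fun c' => p.A c' ∨ p.M c c') (fun (_ : α) (_ : α) => False)).Adj v v') := by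
          intro v v' hv hv'
          rcases v with _ | a | ⟨a, c⟩
          · exact absurd rfl hv
          · rcases v' with _ | b | ⟨b, c'⟩
            · exact absurd rfl hv'
            · show (_ ≠ _ ∧ _) ↔ _
              rw [adj_sel_sel]
              constructor
              · rintro ⟨h1, h2⟩
                exact ⟨fun e => h1 (by rw [e]), h2⟩
              · rintro ⟨h1, h2⟩
                exact ⟨fun e => h1 (g2inj (Sum.inr_injective e)), h2⟩
            · rfl
          · rcases v' with _ | b | ⟨b, c'⟩
            · exact absurd rfl hv'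
            · rfl
            · show ((j0, g1 a) = (j0, g1 b) ∧ _) ∨ ((j0, g1 a) ≠ (j0, g1 b) ∧ _) ↔ _
              rw [adj_gad_gad]
              have : ((j0, g1 a) = (j0, g1 b)) ↔ a = b :=
                ⟨fun e => g1inj (Prod.ext_iff.1 e).2, fun e => by rw [e]⟩
              rw [Ne, this]
        have hubadj : ∀ w, w ≠ u → (contract G FS).Adj (Quotient.mk _ SV.hub)
            (Quotient.mk _ (m (f0 w))) := by
          intro w hw
          rw [contract_adj_left G FS (mfresh _ (fne w hw)) (mhub _ (fne w hw))]
          have h1 : (p.graph (fun c' => p.A c' ∨ p.M c c') (fun (_ : α) (_ : α) => False)).Adj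
              SV.hub (f0 w) := by
            rw [← hf0]
            exact f0.map_rel_iff.2 (hu w hw)
          rcases hv : f0 w with _ | a | ⟨a, c'⟩
          · exact absurd hv (fne w hw)
          · exact ⟨.hub, SimpleGraph.Reachable.refl _, trivial⟩
          · rw [hv] at h1
            rcases h1 with h1 | h1
            · exact ⟨.hub, SimpleGraph.Reachable.refl _, h1⟩
            · refine ⟨.gad j c, hK, ?_⟩
              show (j = (j0, g1 a) ∧ _) ∨ (j ≠ (j0, g1 a) ∧ _)
              refine Or.inr ⟨?_, h1⟩
              intro e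
              rw [e] at hK
              exact notK _ _ hK
        apply hfree.false
        refine ⟨⟨fun w => Quotient.mk _ (m (f0 w)), ?_⟩, ?_⟩
        · intro w w' h
          by_contra hne
          have h' := (mk_eq_iff FS _ _).1 h
          by_cases hw : w = u
          · have hw' : w' ≠ u := fun e => hne (hw.trans e.symm)
            have := reach_untouched FS _ _ (mfresh _ (fne w' hw')) h'.symm
            rw [hw, hf0] at this
            exact mhub _ (fne w' hw') this
          · have := reach_untouched FS _ _ (mfresh _ (fne w hw)) h'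
            exact hne (f0.injective (minj this))
        · intro w w'
          show (contract G FS).Adj (Quotient.mk _ (m (f0 w))) (Quotient.mk _ (m (f0 w'))) ↔ _
          by_cases hw : w = u
          · by_cases hw' : w' = u
            · rw [hw, hw']
              exact ⟨fun h => absurd rfl h.1, fun h => absurd rfl (H.ne_of_adj h)⟩
            · rw [hw, hf0]
              exact ⟨fun _ => hu w' hw', fun _ => hubadj w' hw'⟩
          · by_cases hw' : w' = u
            · rw [hw', hf0]
              exact ⟨fun _ => (hu w hw).symm, fun _ => (hubadj w hw).symm⟩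
            · rw [contract_adj_untouched G FS (mfresh _ (fne w hw)) (mfresh _ (fne w' hw')),
                madj _ _ (fne w hw) (fne w' hw')]
              exact f0.map_rel_iff
      · push Not at hbad
        let m : α → SV (W ⊕ Fin R) (W × Fin R) C := fun a =>
          if h : a = g.x then .hub else .gad (j0, g1 g.x) (g.δ ⟨a, h⟩)
        have mx : m g.x = .hub := by simp [m]
        have md : ∀ a (h : a ≠ g.x), m a = .gad (j0, g1 g.x) (g.δ ⟨a, h⟩) := by
          intro a h; simp [m, h]
        have mfresh : ∀ a, a ≠ g.x → ∀ e ∈ FS, m a ∉ e := by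
          intro a h; rw [md a h]; exact fr1 _ _
        have mhub : ∀ a, a ≠ g.x → m a ≠ .hub := by
          intro a h; rw [md a h]; simp
        have hubadj : ∀ a, a ≠ g.x → ((contract G FS).Adj (Quotient.mk _ SV.hub)
            (Quotient.mk _ (m a)) ↔ H.Adj g.x a) := by
          intro a ha
          rw [contract_adj_left G FS (mfresh a ha) (mhub a ha), md a ha]
          constructor
          · rintro ⟨t, ht, hadj⟩
            rcases t with _ | v | ⟨j, c⟩
            · exact (g.hA ⟨a, ha⟩).1 hadj
            · rcases hadj with ⟨h1, _⟩ | ⟨_, h2⟩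
              · exact absurd h1 (hj0' v _ ht)
              · exact g.hQ ⟨a, ha⟩ h2
            · rcases hadj with ⟨h1, _⟩ | ⟨_, h2⟩
              · rw [h1] at ht
                exact absurd ht (notK _ _)
              · exact hbad j c ht ⟨a, ha⟩ h2
          · intro h
            exact ⟨.hub, SimpleGraph.Reachable.refl _, (g.hA ⟨a, ha⟩).2 h⟩
        apply hfree.false
        refine ⟨⟨fun w => Quotient.mk _ (m w), ?_⟩, ?_⟩
        · intro w w' h
          by_contra hne
          have h' := (mk_eq_iff FS _ _).1 h
          by_cases hw : w = g.x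
          · have hw' : w' ≠ g.x := fun e => hne (hw.trans e.symm)
            have := reach_untouched FS _ _ (mfresh w' hw') h'.symm
            rw [hw, mx] at this
            exact mhub _ hw' this
          · have h2 := reach_untouched FS _ _ (mfresh w hw) h'
            by_cases hw' : w' = g.x
            · rw [hw', mx] at h2
              exact mhub _ hw h2
            · rw [md w hw, md w' hw'] at h2
              injection h2 with _ h3
              exact hne (congrArg Subtype.val (g.inj h3))
        · intro w w'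
          show (contract G FS).Adj (Quotient.mk _ (m w)) (Quotient.mk _ (m w')) ↔ _
          by_cases hw : w = g.x
          · by_cases hw' : w' = g.x
            · rw [hw, hw']
              exact ⟨fun h => absurd rfl h.1, fun h => absurd rfl (H.ne_of_adj h)⟩
            · rw [hw, mx]
              exact hubadj w' hw'
          · by_cases hw' : w' = g.x
            · rw [hw', mx]
              exact ⟨fun h => ((hubadj w hw).1 h.symm).symm, fun h => ((hubadj w hw).2 h.symm).symm⟩
            · rw [contract_adj_untouched G FS (mfresh w hw) (mfresh w' hw'), md w hw, md w' hw']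
              show ((j0, g1 g.x) = (j0, g1 g.x) ∧ p.I _ _) ∨ ((j0, g1 g.x) ≠ (j0, g1 g.x) ∧ _) ↔ _
              rw [g.hI]
              simp

end HFC
end

section

open Classical
open Pool.Agent.OWF

namespace HFC

theorem PolyReduces.fpt {P Q : ParamProblem} (h : PolyReduces P Q) : FPTReduces P Q := by
  obtain ⟨r, ⟨tm, e₀, e₁, p, hp⟩, h1, h2⟩ := h
  refine ⟨r, ⟨tm, e₀, e₁, fun _ => 1, Computable.const 1, p, ?_⟩, h1, id, Computable.id, h2⟩
  intro w
  rw [one_mul]
  exact hp w

theorem ones_eq : ∀ w, ones w = leadOnes w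
  | [] => rfl
  | true :: w => by
      show ones w + 1 = leadOnes w + 1
      rw [ones_eq w]
  | false :: _ => rfl

theorem kpar_eq (w : List Bool) : kpar w = (decd w).2.1 := by
  unfold kpar decd
  rw [ones_eq, ones_eq]

theorem kpar_enc {n : ℕ} (G : SimpleGraph (Fin n)) (k : ℕ) : kpar (enc G k) = k := by
  rw [kpar_eq, decd_enc]
  rfl

/-- the graph read off a bit string -/
def graphOf (n : ℕ) (w : List Bool) : SimpleGraph (Fin n) where
  Adj i j := i ≠ j ∧ bitAt n w i j = true ∧ bitAt n w j i = true
  symm := ⟨fun _ _ h => ⟨h.1.symm, h.2.2, h.2.1⟩⟩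
  loopless := ⟨fun _ h => h.1 rfl⟩

theorem graphOf_mat {n : ℕ} (G : SimpleGraph (Fin n)) : graphOf n (matBits G) = G := by
  ext i j
  show (i ≠ j ∧ bitAt n (matBits G) i j = true ∧ bitAt n (matBits G) j i = true) ↔ _
  rw [bitAt_mat, bitAt_mat, decide_eq_true_eq, decide_eq_true_eq]
  exact ⟨fun h => h.2.1, fun h => ⟨G.ne_of_adj h, h, h.symm⟩⟩

/-- symmetrised bits -/
def symBits (d : Dat) : List Bool :=
  (List.range d.1).flatMap (fun i => (List.range d.1).map (fun j =>
    !(decide (i = j)) && (bitAt d.1 d.2.2 i j && bitAt d.1 d.2.2 j i)))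

theorem symBits_eq (n k : ℕ) (w : List Bool) : symBits (n, k, w) = matBits (graphOf n w) := by
  unfold symBits matBits
  have hr : (List.range n) = (List.finRange n).map Fin.val := by simp
  simp only
  rw [hr, List.flatMap_map]
  congr 1
  funext i
  rw [List.map_map]
  congr 1
  funext j
  rw [Bool.eq_iff_iff]
  simp [graphOf, Fin.ext_iff]

/-- the string of the graph read off the data -/
def encD (d : Dat) : List Bool :=
  List.replicate d.1 true ++ false :: (List.replicate d.2.1 true ++ false :: symBits d)

theorem encD_eq (n k : ℕ) (w : List Bool) : encD (n, k, w) = enc (graphOf n w) k := by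
  unfold encD enc
  rw [symBits_eq]

theorem pf_symBits : PF eD eS symBits := by
  have hbit : PF (eP (eP eD eN) eN) eB (fun q =>
      !(decide (q.1.2 = q.2)) && (bitAt q.1.1.1 q.1.1.2.2 q.1.2 q.2 &&
        bitAt q.1.1.1 q.1.1.2.2 q.2 q.1.2)) := by
    have hd : PF (eP (eP eD eN) eN) eD (fun q => q.1.1) := PF.fst.comp PF.fst
    have hi : PF (eP (eP eD eN) eN) eN (fun q => q.1.2) := PF.snd.comp PF.fst
    have hj : PF (eP (eP eD eN) eN) eN (fun q => q.2) := PF.snd
    exact (PF.eqN hi hj).not.and ((pf_bitAt hd hi hj).and (pf_bitAt hd hj hi))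
  have hrow : PF (eP eD eN) eS (fun q => (List.range q.1.1).flatMap (fun j =>
      [!(decide (q.2 = j)) && (bitAt q.1.1 q.1.2.2 q.2 j && bitAt q.1.1 q.1.2.2 j q.2)])) :=
    PF.flatMapS (ea := eN) (ee := eP eD eN) (env := fun q : Dat × ℕ => q)
      (f := fun (q : Dat × ℕ) (j : ℕ) =>
        [!(decide (q.2 = j)) && (bitAt q.1.1 q.1.2.2 q.2 j && bitAt q.1.1 q.1.2.2 j q.2)])
      (PF.cons hbit (PF.const [])) PF.id (PF.range (PF.fst.comp PF.fst))
  have hall : PF eD eS (fun d => (List.range d.1).flatMap (fun i => (List.range d.1).flatMap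
      (fun j => [!(decide (i = j)) && (bitAt d.1 d.2.2 i j && bitAt d.1 d.2.2 j i)]))) :=
    PF.flatMapS (ea := eN) (ee := eD) (env := fun d : Dat => d)
      (f := fun (d : Dat) (i : ℕ) => (List.range d.1).flatMap
        (fun j => [!(decide (i = j)) && (bitAt d.1 d.2.2 i j && bitAt d.1 d.2.2 j i)]))
      hrow PF.id (PF.range PF.fst)
  refine hall.congr fun d => ?_
  unfold symBits
  congr 1
  funext i
  induction (List.range d.1) with
  | nil => rfl
  | cons y l ih => rw [List.flatMap_cons, ih, List.map_cons]; rfl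

theorem pf_encD : PF eD eS encD := by
  have h1 : PF eD eS (fun d => List.replicate d.1 true) := PF.replicate true PF.fst
  have h2 : PF eD eS (fun d => List.replicate d.2.1 true) := PF.replicate true (PF.fst' PF.snd)
  have h3 : PF eD eS (fun d => false :: symBits d) := PF.cons (PF.const false) pf_symBits
  exact PF.append h1 (PF.cons (PF.const false) (PF.append h2 h3))

/-- `w` encodes an instance -/
def chk (w : List Bool) : Bool := decide (encD (decd w) = w)

theorem pf_chk : PF eS eB chk := PF.eqS (pf_encD.comp pf_decd) PF.id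

theorem chk_enc {n : ℕ} (G : SimpleGraph (Fin n)) (k : ℕ) : chk (enc G k) = true := by
  unfold chk
  rw [decide_eq_true_eq, decd_enc]
  unfold dat
  rw [encD_eq, graphOf_mat]

theorem enc_of_chk {w : List Bool} (h : chk w = true) :
    ∃ (n : ℕ) (G : SimpleGraph (Fin n)) (k : ℕ), w = enc G k := by
  unfold chk at h
  rw [decide_eq_true_eq] at h
  refine ⟨(decd w).1, graphOf (decd w).1 (decd w).2.2, (decd w).2.1, ?_⟩
  conv_lhs => rw [← h]
  exact encD_eq _ _ _

theorem enc_injective {n n' : ℕ} {G : SimpleGraph (Fin n)} {G' : SimpleGraph (Fin n')} {k k' : ℕ}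
    (h : enc G k = enc G' k') : k = k' ∧ ∃ e : n = n', e ▸ G = G' := by
  have h1 := congrArg decd h
  rw [decd_enc, decd_enc] at h1
  unfold dat at h1
  simp only [Prod.mk.injEq] at h1
  obtain ⟨rfl, rfl, h2⟩ := h1
  refine ⟨rfl, rfl, ?_⟩
  show G = G'
  rw [← graphOf_mat G, h2, graphOf_mat]

theorem nil_ne_enc {n : ℕ} (G : SimpleGraph (Fin n)) (k : ℕ) : [] ≠ enc G k := by
  unfold enc
  intro h
  have := congrArg List.length h
  simp at this

theorem polyReduces_of {α : Type} {H : SimpleGraph α}
    (h : ∃ r : List Bool → List Bool, PolyTM r ∧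
      ∀ (n : ℕ) (Γ : SimpleGraph (Fin n)) (k : ℕ), ∃ (m : ℕ) (G' : SimpleGraph (Fin m)),
        r (enc Γ k) = enc G' k ∧ (HasDomSet Γ k ↔ Contractible H G' k)) :
    PolyReduces DominatingSet (HFreeContraction H) := by
  obtain ⟨r, hr, hred⟩ := h
  refine ⟨fun w => if chk w = true then r w else [], ?_, ?_, ?_⟩
  · have hr' : PolyTM (fun w => if chk w = true then r w else []) := by
      rw [polyTM_iff_pf] at hr ⊢
      exact PF.ite pf_chk hr (PF.const [])
    exact hr'
  · intro w
    by_cases hw : chk w = true
    · obtain ⟨n, Γ, k, rfl⟩ := enc_of_chk hw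
      obtain ⟨m, G', h1, h2⟩ := hred n Γ k
      simp only [hw, if_true, h1]
      constructor
      · rintro ⟨n', Γ', k', he, hd⟩
        obtain ⟨rfl, rfl, hG⟩ := enc_injective he
        have hG : Γ = Γ' := hG
        subst hG
        exact ⟨m, G', k, rfl, h2.1 hd⟩
      · rintro ⟨m', G'', k', he, hd⟩
        obtain ⟨rfl, rfl, hG⟩ := enc_injective he
        have hG : G' = G'' := hG
        subst hG
        exact ⟨n, Γ, k, rfl, h2.2 hd⟩
    · simp only [hw]
      constructor
      · rintro ⟨n', Γ', k', rfl, _⟩
        exact absurd (chk_enc Γ' k') hw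
      · rintro ⟨n', Γ', k', he, _⟩
        exact absurd he (nil_ne_enc Γ' k')
  · intro w
    by_cases hw : chk w = true
    · obtain ⟨n, Γ, k, rfl⟩ := enc_of_chk hw
      obtain ⟨m, G', h1, h2⟩ := hred n Γ k
      simp only [hw, if_true, h1]
      show kpar _ ≤ kpar _
      rw [kpar_enc, kpar_enc]
    · simp only [hw]
      exact Nat.zero_le _

/-- Contractibility only depends on the graph up to isomorphism. -/
theorem Contractible.of_iso {α U V : Type} {H : SimpleGraph α} {G : SimpleGraph U}
    {G' : SimpleGraph V} (e : G ≃g G') {k : ℕ} (h : Contractible H G k) : Contractible H G' k := by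
  obtain ⟨F, hF, hk, hfree⟩ := h
  refine ⟨F.map ⟨Sym2.map e, Sym2.map.injective e.injective⟩, ?_, ?_, ?_⟩
  · intro x hx
    simp only [Finset.coe_map, Function.Embedding.coeFn_mk, Set.mem_image] at hx
    obtain ⟨y, hy, rfl⟩ := hx
    have := hF hy
    induction y with
    | _ a b =>
      rw [Sym2.map_mk, SimpleGraph.mem_edgeSet]
      rw [SimpleGraph.mem_edgeSet] at this
      exact e.map_adj_iff.2 this
  · rw [Finset.card_map]; exact hk
  · set F' : Set (Sym2 V) := ((F.map ⟨Sym2.map e, Sym2.map.injective e.injective⟩ :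
      Finset (Sym2 V)) : Set (Sym2 V)) with hF'
    have hadj : ∀ a b, (SimpleGraph.fromEdgeSet F').Adj (e a) (e b) ↔
        (SimpleGraph.fromEdgeSet (F : Set (Sym2 U))).Adj a b := by
      intro a b
      rw [SimpleGraph.fromEdgeSet_adj, SimpleGraph.fromEdgeSet_adj, hF']
      have hne : e a ≠ e b ↔ a ≠ b := e.injective.ne_iff
      rw [hne]
      apply and_congr_left
      intro _
      simp only [Finset.coe_map, Function.Embedding.coeFn_mk, Set.mem_image, Finset.mem_coe]
      constructor
      · rintro ⟨y, hy, h⟩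
        have : y = s(a, b) := Sym2.map.injective e.injective (by rw [h, Sym2.map_mk])
        rw [← this]; exact hy
      · intro h
        exact ⟨s(a, b), h, by rw [Sym2.map_mk]⟩
    let e' : SimpleGraph.fromEdgeSet (F : Set (Sym2 U)) ≃g SimpleGraph.fromEdgeSet F' :=
      ⟨e.toEquiv, by intro a b; exact hadj a b⟩
    have hreach : ∀ a b, (SimpleGraph.fromEdgeSet F').Reachable (e a) (e b) ↔
        (SimpleGraph.fromEdgeSet (F : Set (Sym2 U))).Reachable a b := fun a b =>
      e'.reachable_iff
    have hemb : Nonempty (contract G' F' ↪g contract G (F : Set (Sym2 U))) := by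
      let f : V → Quotient (cset (F : Set (Sym2 U))) := fun v => Quotient.mk _ (e.symm v)
      have hmk : ∀ a b : U, Quotient.mk (cset F') (e a) = Quotient.mk (cset F') (e b) ↔
          Quotient.mk (cset (F : Set (Sym2 U))) a = Quotient.mk (cset (F : Set (Sym2 U))) b := by
        intro a b
        rw [mk_eq_iff, mk_eq_iff, hreach]
      have hl : ∀ a b : V, (cset F') a b → f a = f b := by
        intro a b h
        have h1 : Quotient.mk (cset F') a = Quotient.mk (cset F') b := Quotient.sound h
        have h2 := hmk (e.symm a) (e.symm b)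
        rw [e.apply_symm_apply, e.apply_symm_apply] at h2
        exact h2.1 h1
      let φ : Quotient (cset F') → Quotient (cset (F : Set (Sym2 U))) := Quotient.lift f hl
      have hφ : ∀ a, φ (Quotient.mk _ (e a)) = Quotient.mk _ a := by
        intro a
        show Quotient.mk _ (e.symm (e a)) = _
        rw [e.symm_apply_apply]
      have hsurj : ∀ q : Quotient (cset F'), ∃ a, q = Quotient.mk _ (e a) := by
        intro q
        induction q using Quotient.inductionOn with | h v => ?_
        exact ⟨e.symm v, by rw [e.apply_symm_apply]⟩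
      refine ⟨⟨⟨φ, ?_⟩, ?_⟩⟩
      · intro q q' h
        obtain ⟨a, rfl⟩ := hsurj q
        obtain ⟨b, rfl⟩ := hsurj q'
        rw [hφ, hφ] at h
        exact (hmk a b).2 h
      · intro q q'
        obtain ⟨a, rfl⟩ := hsurj q
        obtain ⟨b, rfl⟩ := hsurj q'
        show (contract G (F : Set (Sym2 U))).Adj (φ (Quotient.mk (cset F') (e a)))
          (φ (Quotient.mk (cset F') (e b))) ↔ _
        rw [hφ, hφ]
        constructor
        · rintro ⟨hne, x, y, hx, hy, hxy⟩
          exact ⟨fun h => hne ((hmk a b).1 h), e x, e y, (hmk x a).2 hx, (hmk y b).2 hy,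
            e.map_adj_iff.2 hxy⟩
        · rintro ⟨hne, x, y, hx, hy, hxy⟩
          refine ⟨fun h => hne ((hmk a b).2 h), e.symm x, e.symm y, ?_, ?_, ?_⟩
          · apply (hmk _ _).1
            rw [e.apply_symm_apply]; exact hx
          · apply (hmk _ _).1
            rw [e.apply_symm_apply]; exact hy
          · rw [← e.map_adj_iff, e.apply_symm_apply, e.apply_symm_apply]; exact hxy
    obtain ⟨φ⟩ := hemb
    exact ⟨fun f => hfree.false (φ.comp f)⟩

theorem Contractible.iso_iff {α U V : Type} {H : SimpleGraph α} {G : SimpleGraph U}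
    {G' : SimpleGraph V} (e : G ≃g G') (k : ℕ) : Contractible H G k ↔ Contractible H G' k :=
  ⟨fun h => h.of_iso e, fun h => h.of_iso e.symm⟩

end HFC
end
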