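import Pool.Agent.Lib.HFC.Mg.G001
import Pool.Agent.Lib.HFC.Tools
import Pool.Agent.Lib.HFC.Mg.G003

section

open Classical

namespace HFC

variable {α W : Type}

/-- adjacency after the contraction of the hub with one selector of each colour -/
def f2sadj (H : SimpleGraph α) (p q m : α) (Γ : SimpleGraph W) (k R : ℕ) :
    SV (Fin k × W) (W ⊕ (Fin k × Fin R × W)) {d : α // d ≠ p} →
      SV (Fin k × W) (W ⊕ (Fin k × Fin R × W)) {d : α // d ≠ p} → Prop
  | .hub, .hub => False
  | .hub, .sel _ => True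
  | .sel _, .hub => True
  | .hub, .gad _ d => H.Adj p d ∨ d.1 = m
  | .gad _ d, .hub => H.Adj p d ∨ d.1 = m
  | .sel s, .sel s' => s ≠ s'
  | .sel s, .gad (.inl j) d => d.1 = m ∧ (s.2 = j ∨ Γ.Adj s.2 j)
  | .gad (.inl j) d, .sel s => d.1 = m ∧ (s.2 = j ∨ Γ.Adj s.2 j)
  | .sel s, .gad (.inr t) d => d.1 = m ∧ s.1 = t.1
  | .gad (.inr t) d, .sel s => d.1 = m ∧ s.1 = t.1
  | .gad (.inl j) d, .gad (.inl j') d' =>
      (j = j' ∧ H.Adj d d') ∨ (j ≠ j' ∧ (d.1 = m ∨ d.1 = q) ∧ (d'.1 = m ∨ d'.1 = q))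
  | .gad (.inr t) d, .gad (.inr t') d' =>
      (t = t' ∧ H.Adj d d') ∨ (t ≠ t' ∧ t.1 = t'.1 ∧ d.1 = m ∧ d'.1 = m)
  | .gad (.inl _) _, .gad (.inr _) _ => False
  | .gad (.inr _) _, .gad (.inl _) _ => False

/-- the contracted graph -/
def f2Star (H : SimpleGraph α) (p q m : α) (Γ : SimpleGraph W) (k R : ℕ) :
    SimpleGraph (SV (Fin k × W) (W ⊕ (Fin k × Fin R × W)) {d : α // d ≠ p}) where
  Adj := f2sadj H p q m Γ k R
  symm := ⟨by
    intro a b h
    rcases a with _ | s | ⟨j | t, d⟩ <;> rcases b with _ | s' | ⟨j' | t', d'⟩ <;>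
      simp only [f2sadj] at h ⊢
    · exact h
    · exact h
    · exact fun e => h e.symm
    · exact h
    · exact h
    · exact h
    · exact h
    · rcases h with ⟨h1, h2⟩ | ⟨h1, h2, h3⟩
      · exact Or.inl ⟨h1.symm, h2.symm⟩
      · exact Or.inr ⟨fun e => h1 e.symm, h3, h2⟩
    · exact h
    · exact h
    · rcases h with ⟨h1, h2⟩ | ⟨h1, h2, h3, h4⟩
      · exact Or.inl ⟨h1.symm, h2.symm⟩
      · exact Or.inr ⟨fun e => h1 e.symm, h2.symm, h4, h3⟩⟩
  loopless := ⟨by
    intro a h
    rcases a with _ | s | ⟨j | t, d⟩ <;> simp only [f2sadj] at h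
    · exact h rfl
    · rcases h with ⟨_, h2⟩ | ⟨h1, _⟩
      · exact H.ne_of_adj h2 rfl
      · exact h1 rfl
    · rcases h with ⟨_, h2⟩ | ⟨h1, _⟩
      · exact H.ne_of_adj h2 rfl
      · exact h1 rfl⟩

section staradj
variable (H : SimpleGraph α) (p q m : α) (Γ : SimpleGraph W) (k R : ℕ)
variable (s s' : Fin k × W) (j j' : W) (t t' : Fin k × Fin R × W) (d d' : {d : α // d ≠ p})
  (g : W ⊕ (Fin k × Fin R × W))

@[simp] lemma st_hub_hub : (f2Star H p q m Γ k R).Adj .hub .hub ↔ False := Iff.rfl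
@[simp] lemma st_hub_sel : (f2Star H p q m Γ k R).Adj .hub (.sel s) ↔ True := Iff.rfl
@[simp] lemma st_sel_hub : (f2Star H p q m Γ k R).Adj (.sel s) .hub ↔ True := Iff.rfl
@[simp] lemma st_hub_gad :
    (f2Star H p q m Γ k R).Adj .hub (.gad g d) ↔ (H.Adj p d ∨ d.1 = m) := Iff.rfl
@[simp] lemma st_gad_hub :
    (f2Star H p q m Γ k R).Adj (.gad g d) .hub ↔ (H.Adj p d ∨ d.1 = m) := by
  rcases g with _ | _ <;> exact Iff.rfl
@[simp] lemma st_sel_sel :
    (f2Star H p q m Γ k R).Adj (.sel s) (.sel s') ↔ s ≠ s' := Iff.rfl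
@[simp] lemma st_sel_inl :
    (f2Star H p q m Γ k R).Adj (.sel s) (.gad (.inl j) d) ↔
      (d.1 = m ∧ (s.2 = j ∨ Γ.Adj s.2 j)) := Iff.rfl
@[simp] lemma st_inl_sel :
    (f2Star H p q m Γ k R).Adj (.gad (.inl j) d) (.sel s) ↔
      (d.1 = m ∧ (s.2 = j ∨ Γ.Adj s.2 j)) := Iff.rfl
@[simp] lemma st_sel_inr :
    (f2Star H p q m Γ k R).Adj (.sel s) (.gad (.inr t) d) ↔ (d.1 = m ∧ s.1 = t.1) := Iff.rfl
@[simp] lemma st_inr_sel :
    (f2Star H p q m Γ k R).Adj (.gad (.inr t) d) (.sel s) ↔ (d.1 = m ∧ s.1 = t.1) := Iff.rfl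
@[simp] lemma st_inl_inl :
    (f2Star H p q m Γ k R).Adj (.gad (.inl j) d) (.gad (.inl j') d') ↔
      ((j = j' ∧ H.Adj d d') ∨ (j ≠ j' ∧ (d.1 = m ∨ d.1 = q) ∧ (d'.1 = m ∨ d'.1 = q))) := Iff.rfl
@[simp] lemma st_inr_inr :
    (f2Star H p q m Γ k R).Adj (.gad (.inr t) d) (.gad (.inr t') d') ↔
      ((t = t' ∧ H.Adj d d') ∨ (t ≠ t' ∧ t.1 = t'.1 ∧ d.1 = m ∧ d'.1 = m)) := Iff.rfl
@[simp] lemma st_inl_inr :
    (f2Star H p q m Γ k R).Adj (.gad (.inl j) d) (.gad (.inr t') d') ↔ False := Iff.rfl
@[simp] lemma st_inr_inl :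
    (f2Star H p q m Γ k R).Adj (.gad (.inr t) d) (.gad (.inl j') d') ↔ False := Iff.rfl

end staradj

section free
variable {H : SimpleGraph α} {p q m : α} {Γ : SimpleGraph W} {k R : ℕ}

/-- abbreviation for the vertex type of the scheme -/
abbrev FV (p : α) (W : Type) (k R : ℕ) : Type :=
  SV (Fin k × W) (W ⊕ (Fin k × Fin R × W)) {d : α // d ≠ p}

/-- two adjacent centres with two independent sets of leaves -/
structure Conf (H : SimpleGraph α) (p q m : α) (Γ : SimpleGraph W) (k R b : ℕ)
    (c1 c2 : FV p W k R) (L1 L2 : Finset (FV p W k R)) : Prop where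
  adj : (f2Star H p q m Γ k R).Adj c1 c2
  h1 : ∀ x ∈ L1, (f2Star H p q m Γ k R).Adj x c1 ∧ ¬ (f2Star H p q m Γ k R).Adj x c2 ∧ x ≠ c2
  h2 : ∀ x ∈ L2, (f2Star H p q m Γ k R).Adj x c2 ∧ ¬ (f2Star H p q m Γ k R).Adj x c1 ∧ x ≠ c1
  ind : ∀ x, x ∈ L1 ∨ x ∈ L2 → ∀ y, y ∈ L1 ∨ y ∈ L2 → ¬ (f2Star H p q m Γ k R).Adj x y
  b0 : 1 ≤ b
  b1 : b ≤ L1.card
  b2 : b ≤ L2.card
  four : 4 ≤ L1.card + L2.card

lemma Conf.swap {b : ℕ} {c1 c2 : FV p W k R} {L1 L2 : Finset (FV p W k R)}
    (h : Conf H p q m Γ k R b c1 c2 L1 L2) : Conf H p q m Γ k R b c2 c1 L2 L1 :=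
  ⟨h.adj.symm, h.h2, h.h1, fun x hx y hy => h.ind x hx.symm y hy.symm, h.b0, h.b2, h.b1, by
    have := h.four; omega⟩

lemma Conf.ne1 {b : ℕ} {c1 c2 : FV p W k R} {L1 L2 : Finset (FV p W k R)}
    (h : Conf H p q m Γ k R b c1 c2 L1 L2) : ∃ x, x ∈ L1 := by
  have h0 := h.b0
  have h1 := h.b1
  exact Finset.card_pos.1 (by omega)

/-- vertices on the same gadget below the centre `q`, without `m` -/
lemma f2_card_lt [Fintype α] (hm : H.Adj q m) (hmp : m ≠ p) (g : W ⊕ (Fin k × Fin R × W))
    (S : Finset (FV p W k R))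
    (hS : ∀ x ∈ S, ∃ d : {d : α // d ≠ p}, x = .gad g d ∧ H.Adj q d ∧ d.1 ≠ m) :
    S.card < (Finset.univ.filter (fun w => w ≠ p ∧ H.Adj q w)).card := by
  have hmem : m ∈ Finset.univ.filter (fun w => w ≠ p ∧ H.Adj q w) := by
    simp [hm, hmp]
  have h1 : S.card ≤ ((Finset.univ.filter (fun w => w ≠ p ∧ H.Adj q w)).erase m).card := by
    refine Finset.card_le_card_of_injOn
      (fun x => match x with
        | .gad _ d => d.1
        | _ => m) ?_ ?_
    · intro x hx
      obtain ⟨d, rfl, hd, hdm⟩ := hS x hx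
      rw [Finset.mem_coe, Finset.mem_erase, Finset.mem_filter]
      exact ⟨hdm, Finset.mem_univ _, d.2, hd⟩
    · intro x hx y hy hxy
      obtain ⟨d, rfl, hd, hdm⟩ := hS x hx
      obtain ⟨d', rfl, hd', hdm'⟩ := hS y hy
      have : d = d' := Subtype.ext hxy
      rw [this]
  rw [Finset.card_erase_of_mem hmem] at h1
  have h2 : 0 < (Finset.univ.filter (fun w => w ≠ p ∧ H.Adj q w)).card :=
    Finset.card_pos.2 ⟨m, hmem⟩
  omega

lemma DStar.centre (hs : DStar H p q) {d e : α} (hd : d ≠ p) (he : e ≠ p) (h : H.Adj d e) :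
    d = q ∨ e = q := by
  by_contra hc
  push Not at hc
  exact hs.ind d e hd hc.1 he hc.2 h

lemma DStar.not_both (hs : DStar H p q) {d : α} (h1 : H.Adj p d) (h2 : H.Adj q d) : False :=
  ((hs.one d (H.ne_of_adj h1).symm (H.ne_of_adj h2).symm).1 h1) h2

lemma f2_pendant (hs : DStar H p q) {g : W ⊕ (Fin k × Fin R × W)} {d : {d : α // d ≠ p}}
    (hdq : d.1 ≠ q) (hdm : d.1 ≠ m) {x y : FV p W k R}
    (hx : (f2Star H p q m Γ k R).Adj x (.gad g d)) (hy : (f2Star H p q m Γ k R).Adj y (.gad g d)) :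
    x = y := by
  have key : ∀ x : FV p W k R, (f2Star H p q m Γ k R).Adj x (.gad g d) →
      (x = .hub ∧ H.Adj p d) ∨ (∃ e : {d : α // d ≠ p}, x = .gad g e ∧ e.1 = q ∧ H.Adj q d) := by
    intro x hx
    rcases x with _ | s | ⟨j | t, e⟩ <;> rcases g with j' | t'
    · rw [st_hub_gad] at hx
      exact Or.inl ⟨rfl, hx.resolve_right hdm⟩
    · rw [st_hub_gad] at hx
      exact Or.inl ⟨rfl, hx.resolve_right hdm⟩
    · rw [st_sel_inl] at hx
      exact absurd hx.1 hdm
    · rw [st_sel_inr] at hx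
      exact absurd hx.1 hdm
    · rw [st_inl_inl] at hx
      rcases hx with ⟨h1, h2⟩ | ⟨h1, h2, h3⟩
      · have h4 := (hs.centre e.2 d.2 h2).resolve_right hdq
        exact Or.inr ⟨e, by rw [h1], h4, h4 ▸ h2⟩
      · rcases h3 with h3 | h3
        · exact absurd h3 hdm
        · exact absurd h3 hdq
    · exact absurd hx (by simp)
    · exact absurd hx (by simp)
    · rw [st_inr_inr] at hx
      rcases hx with ⟨h1, h2⟩ | ⟨h1, h2, h3, h4⟩
      · have h4 := (hs.centre e.2 d.2 h2).resolve_right hdq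
        exact Or.inr ⟨e, by rw [h1], h4, h4 ▸ h2⟩
      · exact absurd h4 hdm
  rcases key x hx with ⟨h1, h2⟩ | ⟨e, h1, h2, h3⟩ <;> rcases key y hy with ⟨h1', h2'⟩ | ⟨e', h1', h2', h3'⟩
  · rw [h1, h1']
  · exact (hs.not_both h2 h3').elim
  · exact (hs.not_both h2' h3).elim
  · rw [h1, h1']
    congr 1
    exact Subtype.ext (h2.trans h2'.symm)

lemma Conf.class1 (hs : DStar H p q) {b : ℕ} {g : W ⊕ (Fin k × Fin R × W)}
    {d : {d : α // d ≠ p}} {c2 : FV p W k R} {L1 L2 : Finset (FV p W k R)}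
    (h : Conf H p q m Γ k R b (.gad g d) c2 L1 L2) : d.1 = q ∨ d.1 = m := by
  by_contra hc
  push Not at hc
  obtain ⟨x, hx⟩ := h.ne1
  have h1 := h.h1 x hx
  exact h1.2.2 (f2_pendant hs hc.1 hc.2 h1.1 h.adj.symm)

lemma nb_sel {v : Fin k × W} {x : FV p W k R}
    (hx : (f2Star H p q m Γ k R).Adj x (.sel v)) :
    x = .hub ∨ (∃ s, s ≠ v ∧ x = .sel s) ∨
      (∃ j, ∃ e : {d : α // d ≠ p}, x = .gad (.inl j) e ∧ e.1 = m) ∨
      (∃ t : Fin k × Fin R × W, ∃ e : {d : α // d ≠ p},
        x = .gad (.inr t) e ∧ e.1 = m ∧ v.1 = t.1) := by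
  rcases x with _ | s | ⟨j | t, e⟩
  · exact Or.inl rfl
  · rw [st_sel_sel] at hx
    exact Or.inr (Or.inl ⟨s, hx, rfl⟩)
  · rw [st_inl_sel] at hx
    exact Or.inr (Or.inr (Or.inl ⟨j, e, rfl, hx.1⟩))
  · rw [st_inr_sel] at hx
    exact Or.inr (Or.inr (Or.inr ⟨t, e, rfl, hx.1, hx.2⟩))

lemma nb_q (hmq : m ≠ q) {g : W ⊕ (Fin k × Fin R × W)} {d : {d : α // d ≠ p}}
    (hd : d.1 = q) {x : FV p W k R} (hx : (f2Star H p q m Γ k R).Adj x (.gad g d)) :
    x = .hub ∨ (∃ e : {d : α // d ≠ p}, x = .gad g e ∧ H.Adj q e) ∨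
      (∃ j j', ∃ e : {d : α // d ≠ p}, g = .inl j ∧ x = .gad (.inl j') e ∧ j' ≠ j ∧
        (e.1 = m ∨ e.1 = q)) := by
  rcases x with _ | s | ⟨j | t, e⟩ <;> rcases g with j' | t'
  · exact Or.inl rfl
  · exact Or.inl rfl
  · rw [st_sel_inl] at hx
    exact absurd (hx.1.symm.trans hd) hmq
  · rw [st_sel_inr] at hx
    exact absurd (hx.1.symm.trans hd) hmq
  · rw [st_inl_inl] at hx
    rcases hx with ⟨h1, h2⟩ | ⟨h1, h2, h3⟩
    · rw [hd] at h2
      exact Or.inr (Or.inl ⟨e, by rw [h1], h2.symm⟩)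
    · exact Or.inr (Or.inr ⟨j', j, e, rfl, rfl, h1, h2⟩)
  · exact absurd hx (by simp)
  · exact absurd hx (by simp)
  · rw [st_inr_inr] at hx
    rcases hx with ⟨h1, h2⟩ | ⟨h1, h2, h3, h4⟩
    · rw [hd] at h2
      exact Or.inr (Or.inl ⟨e, by rw [h1], h2.symm⟩)
    · exact absurd (h4.symm.trans hd) hmq

lemma nb_m (hs : DStar H p q) (hmq : m ≠ q) {g : W ⊕ (Fin k × Fin R × W)}
    {d : {d : α // d ≠ p}}
    (hd : d.1 = m) {x : FV p W k R} (hx : (f2Star H p q m Γ k R).Adj x (.gad g d)) :
    x = .hub ∨ (∃ s, x = .sel s) ∨ (∃ e : {d : α // d ≠ p}, x = .gad g e ∧ e.1 = q) ∨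
      (∃ j j', ∃ e : {d : α // d ≠ p}, g = .inl j ∧ x = .gad (.inl j') e ∧ j' ≠ j ∧
        (e.1 = m ∨ e.1 = q)) ∨
      (∃ t t' : Fin k × Fin R × W, ∃ e : {d : α // d ≠ p}, g = .inr t ∧ x = .gad (.inr t') e ∧
        t' ≠ t ∧ t'.1 = t.1 ∧ e.1 = m) := by
  rcases x with _ | s | ⟨j | t, e⟩ <;> rcases g with j' | t'
  · exact Or.inl rfl
  · exact Or.inl rfl
  · exact Or.inr (Or.inl ⟨s, rfl⟩)
  · exact Or.inr (Or.inl ⟨s, rfl⟩)
  · rw [st_inl_inl] at hx
    rcases hx with ⟨h1, h2⟩ | ⟨h1, h2, h3⟩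
    · have h4 := (hs.centre e.2 d.2 h2).resolve_right (by rw [hd]; exact hmq)
      exact Or.inr (Or.inr (Or.inl ⟨e, by rw [h1], h4⟩))
    · exact Or.inr (Or.inr (Or.inr (Or.inl ⟨j', j, e, rfl, rfl, h1, h2⟩)))
  · exact absurd hx (by simp)
  · exact absurd hx (by simp)
  · rw [st_inr_inr] at hx
    rcases hx with ⟨h1, h2⟩ | ⟨h1, h2, h3, h4⟩
    · have h4 := (hs.centre e.2 d.2 h2).resolve_right (by rw [hd]; exact hmq)
      exact Or.inr (Or.inr (Or.inl ⟨e, by rw [h1], h4⟩))
    · exact Or.inr (Or.inr (Or.inr (Or.inr ⟨t', t, e, rfl, rfl, h1, h2, h3⟩)))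

lemma card_le_classes {U : Type} (n : ℕ) (S : Finset U) (κ : U → Fin n)
    (h : ∀ x ∈ S, ∀ y ∈ S, κ x = κ y → x = y) : S.card ≤ n := by
  have := Finset.card_le_card_of_injOn (s := S) (t := (Finset.univ : Finset (Fin n))) κ
    (fun _ _ => Finset.mem_coe.2 (Finset.mem_univ _)) (fun x hx y hy e => h x hx y hy e)
  simpa using this

lemma Conf.card_union {b : ℕ} {c1 c2 : FV p W k R} {L1 L2 : Finset (FV p W k R)}
    (h : Conf H p q m Γ k R b c1 c2 L1 L2) : 4 ≤ (L1 ∪ L2).card := by
  rw [Finset.card_union_of_disjoint]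
  · exact h.four
  · rw [Finset.disjoint_left]
    intro x hx hx'
    exact (h.h2 x hx').2.1 (h.h1 x hx).1

lemma eq_or_adj_inl {j j' : W} {e e' : {d : α // d ≠ p}} (he : e.1 = m) (he' : e'.1 = m) :
    (SV.gad (.inl j) e : FV p W k R) = .gad (.inl j') e' ∨
      (f2Star H p q m Γ k R).Adj (.gad (.inl j) e) (.gad (.inl j') e') := by
  by_cases hj : j = j'
  · left
    rw [hj, Subtype.ext (he.trans he'.symm)]
  · right
    rw [st_inl_inl]
    exact Or.inr ⟨hj, Or.inl he, Or.inl he'⟩

lemma eq_or_adj_inr {t t' : Fin k × Fin R × W} {e e' : {d : α // d ≠ p}} (ht : t.1 = t'.1)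
    (he : e.1 = m) (he' : e'.1 = m) :
    (SV.gad (.inr t) e : FV p W k R) = .gad (.inr t') e' ∨
      (f2Star H p q m Γ k R).Adj (.gad (.inr t) e) (.gad (.inr t') e') := by
  by_cases hj : t = t'
  · left
    rw [hj, Subtype.ext (he.trans he'.symm)]
  · right
    rw [st_inr_inr]
    exact Or.inr ⟨hj, ht, he, he'⟩

lemma conf_sel_sel {b : ℕ} {v w : Fin k × W}
    {L1 L2 : Finset (FV p W k R)} (h : Conf H p q m Γ k R b (.sel v) (.sel w) L1 L2) : False := by
  have hv : ∀ x, x ∈ L1 ∨ x ∈ L2 →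
      (∃ j, ∃ e : {d : α // d ≠ p}, x = .gad (.inl j) e ∧ e.1 = m) ∨
      (∃ t : Fin k × Fin R × W, ∃ e : {d : α // d ≠ p},
        x = .gad (.inr t) e ∧ e.1 = m ∧ (t.1 = v.1 ∨ t.1 = w.1)) := by
    rintro x (hx | hx)
    · obtain ⟨h1, h2, h3⟩ := h.h1 x hx
      rcases nb_sel h1 with rfl | ⟨s, hs', rfl⟩ | ⟨j, e, rfl, he⟩ | ⟨t, e, rfl, he, ht⟩
      · exact absurd trivial h2
      · exfalso
        apply h2
        rw [st_sel_sel]
        intro e
        exact h3 (by rw [e])
      · exact Or.inl ⟨j, e, rfl, he⟩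
      · exact Or.inr ⟨t, e, rfl, he, Or.inl ht.symm⟩
    · obtain ⟨h1, h2, h3⟩ := h.h2 x hx
      rcases nb_sel h1 with rfl | ⟨s, hs', rfl⟩ | ⟨j, e, rfl, he⟩ | ⟨t, e, rfl, he, ht⟩
      · exact absurd trivial h2
      · exfalso
        apply h2
        rw [st_sel_sel]
        intro e
        exact h3 (by rw [e])
      · exact Or.inl ⟨j, e, rfl, he⟩
      · exact Or.inr ⟨t, e, rfl, he, Or.inr ht.symm⟩
  have h4 := h.card_union
  have h3 : (L1 ∪ L2).card ≤ 3 := by
    refine card_le_classes 3 _ (fun x => match x with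
      | .gad (.inr t) _ => if t.1 = v.1 then 1 else 2
      | _ => 0) ?_
    intro x hx y hy hxy
    rw [Finset.mem_union] at hx hy
    have hna := h.ind x hx y hy
    rcases hv x hx with ⟨j, e, rfl, he⟩ | ⟨t, e, rfl, he, ht⟩ <;>
      rcases hv y hy with ⟨j', e', rfl, he'⟩ | ⟨t', e', rfl, he', ht'⟩
    · exact (eq_or_adj_inl he he').resolve_right hna
    · exfalso
      simp only at hxy
      split_ifs at hxy <;> simp at hxy
    · exfalso
      simp only at hxy
      split_ifs at hxy <;> simp at hxy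
    · have htt : t.1 = t'.1 := by
        simp only at hxy
        by_cases h5 : t.1 = v.1 <;> by_cases h6 : t'.1 = v.1
        · exact h5.trans h6.symm
        · rw [if_pos h5, if_neg h6] at hxy
          exact absurd hxy (by decide)
        · rw [if_neg h5, if_pos h6] at hxy
          exact absurd hxy (by decide)
        · exact (ht.resolve_left h5).trans (ht'.resolve_left h6).symm
      exact (eq_or_adj_inr htt he he').resolve_right hna
  omega

lemma conf_sel_gad (hs : DStar H p q) (hm : H.Adj q m) {v : Fin k × W}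
    {g : W ⊕ (Fin k × Fin R × W)} {d : {d : α // d ≠ p}} {b : ℕ}
    {L1 L2 : Finset (FV p W k R)} (h : Conf H p q m Γ k R b (.sel v) (.gad g d) L1 L2) : False := by
  have hmq : m ≠ q := (H.ne_of_adj hm).symm
  have hd : d.1 = m := by
    have h0 := h.adj
    rcases g with j | t
    · rw [st_sel_inl] at h0; exact h0.1
    · rw [st_sel_inr] at h0; exact h0.1
  have hL2 : L2.card ≤ 1 := by
    rw [Finset.card_le_one]
    intro x hx y hy
    have hna := h.ind x (Or.inr hx) y (Or.inr hy)
    have hv : ∀ x ∈ L2, (∃ e : {d : α // d ≠ p}, x = .gad g e ∧ e.1 = q) ∨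
        (∃ j j', ∃ e : {d : α // d ≠ p}, g = .inl j ∧ x = .gad (.inl j') e ∧ j' ≠ j ∧
        (e.1 = m ∨ e.1 = q)) := by
      intro x hx
      obtain ⟨h1, h2, h3⟩ := h.h2 x hx
      rcases nb_m hs hmq hd h1 with rfl | ⟨s, rfl⟩ | h4 | h4 |
        ⟨t, t', e, rfl, rfl, ht, ht', he⟩
      · exact absurd trivial h2
      · exfalso
        apply h2
        rw [st_sel_sel]
        intro e
        exact h3 (by rw [e])
      · exact Or.inl h4
      · exact Or.inr h4
      · exfalso
        apply h2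
        rw [st_inr_sel]
        have h0 := h.adj
        rw [st_sel_inr] at h0
        exact ⟨he, h0.2.trans ht'.symm⟩
    rcases hv x hx with ⟨e, rfl, he⟩ | ⟨j, j', e, rfl, rfl, hj, he⟩ <;>
      rcases hv y hy with ⟨e', rfl, he'⟩ | ⟨i, i', e', hg, rfl, hj', he'⟩
    · rw [Subtype.ext (he.trans he'.symm)]
    · exfalso
      subst hg
      apply hna
      rw [st_inl_inl]
      exact Or.inr ⟨fun e => hj' e.symm, Or.inr he, he'⟩
    · exfalso
      apply hna
      rw [st_inl_inl]
      exact Or.inr ⟨hj, he, Or.inr he'⟩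
    · by_cases hjj : j' = i'
      · subst hjj
        by_cases hee : e = e'
        · rw [hee]
        · exfalso
          apply hna
          rw [st_inl_inl]
          refine Or.inl ⟨rfl, ?_⟩
          rcases he with he | he <;> rcases he' with he' | he'
          · exact absurd (Subtype.ext (he.trans he'.symm)) hee
          · rw [he, he']; exact hm.symm
          · rw [he, he']; exact hm
          · exact absurd (Subtype.ext (he.trans he'.symm)) hee
      · exfalso
        apply hna
        rw [st_inl_inl]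
        exact Or.inr ⟨hjj, he, he'⟩
  have hL1 : L1.card ≤ 2 := by
    have hv : ∀ x ∈ L1, (∃ s, x = .sel s) ∨
        (∃ j' t, ∃ e : {d : α // d ≠ p}, g = .inl j' ∧ x = .gad (.inr t) e ∧ e.1 = m ∧
          t.1 = v.1) ∨
        (∃ t' j, ∃ e : {d : α // d ≠ p}, g = .inr t' ∧ x = .gad (.inl j) e ∧ e.1 = m) := by
      intro x hx
      obtain ⟨h1, h2, h3⟩ := h.h1 x hx
      rcases nb_sel h1 with rfl | ⟨s, hs', rfl⟩ | ⟨j, e, rfl, he⟩ | ⟨t, e, rfl, he, ht⟩
      · exfalso
        apply h2
        rw [st_hub_gad]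
        exact Or.inr hd
      · exact Or.inl ⟨s, rfl⟩
      · rcases g with j' | t'
        · exfalso
          rcases eq_or_adj_inl (H := H) (p := p) (q := q) (m := m) (Γ := Γ) (k := k) (R := R)
            (j := j) (j' := j') he hd with h5 | h5
          · exact h3 h5
          · exact h2 h5
        · exact Or.inr (Or.inr ⟨t', j, e, rfl, rfl, he⟩)
      · rcases g with j' | t'
        · exact Or.inr (Or.inl ⟨j', t, e, rfl, rfl, he, ht.symm⟩)
        · exfalso
          have h0 := h.adj
          rw [st_sel_inr] at h0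
          rcases eq_or_adj_inr (H := H) (p := p) (q := q) (m := m) (Γ := Γ) (k := k) (R := R)
            (t := t) (t' := t') (ht.symm.trans h0.2) he hd with h5 | h5
          · exact h3 h5
          · exact h2 h5
    refine card_le_classes 2 _ (fun x => match x with
      | .sel _ => 0
      | _ => 1) ?_
    intro x hx y hy hxy
    have hna := h.ind x (Or.inl hx) y (Or.inl hy)
    rcases hv x hx with ⟨s, rfl⟩ | ⟨j, t, e, rfl, rfl, he, ht⟩ | ⟨t, j, e, rfl, rfl, he⟩ <;>
      rcases hv y hy with ⟨s', rfl⟩ | ⟨j', t', e', hg, rfl, he', ht'⟩ | ⟨t', j', e', hg, rfl, he'⟩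
    · by_cases hss : s = s'
      · rw [hss]
      · exact absurd hss hna
    · exact absurd hxy (by simp)
    · exact absurd hxy (by simp)
    · exact absurd hxy (by simp)
    · exact (eq_or_adj_inr (ht.trans ht'.symm) he he').resolve_right hna
    · cases hg
    · exact absurd hxy (by simp)
    · cases hg
    · exact (eq_or_adj_inl he he').resolve_right hna
  have := h.four
  omega

lemma conf_m_m (hs : DStar H p q) (hm : H.Adj q m)
    {g g' : W ⊕ (Fin k × Fin R × W)} {d d' : {d : α // d ≠ p}} {b : ℕ}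
    (hd : d.1 = m) (hd' : d'.1 = m)
    {L1 L2 : Finset (FV p W k R)} (h : Conf H p q m Γ k R b (.gad g d) (.gad g' d') L1 L2) :
    L1.card ≤ 1 := by
  have hmq : m ≠ q := (H.ne_of_adj hm).symm
  rw [Finset.card_le_one]
  intro x hx y hy
  have hna := h.ind x (Or.inl hx) y (Or.inl hy)
  have h0 := h.adj
  rcases g with i | t0 <;> rcases g' with i' | t0'
  · -- both real
    have hii : i ≠ i' := by
      rintro rfl
      rw [Subtype.ext (hd.trans hd'.symm)] at h0
      exact (f2Star H p q m Γ k R).ne_of_adj h0 rfl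
    have hv : ∀ x ∈ L1, ∃ s, x = .sel s := by
      intro x hx
      obtain ⟨h1, h2, h3⟩ := h.h1 x hx
      rcases nb_m hs hmq hd h1 with rfl | h4 | ⟨e, rfl, he⟩ |
        ⟨j, j', e, hg, rfl, hj, he⟩ | ⟨t, t', e, hg, rfl, ht, ht', he⟩
      · exfalso
        apply h2
        rw [st_hub_gad]
        exact Or.inr hd'
      · exact h4
      · exfalso
        apply h2
        rw [st_inl_inl]
        exact Or.inr ⟨hii, Or.inr he, Or.inl hd'⟩
      · exfalso
        by_cases hji : j' = i'
        · subst hji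
          rcases he with he | he
          · exact h3 (by rw [Subtype.ext (he.trans hd'.symm)])
          · apply h2
            rw [st_inl_inl]
            refine Or.inl ⟨rfl, ?_⟩
            rw [he, hd']
            exact hm
        · apply h2
          rw [st_inl_inl]
          exact Or.inr ⟨hji, he, Or.inl hd'⟩
      · cases hg
    obtain ⟨s, rfl⟩ := hv x hx
    obtain ⟨s', rfl⟩ := hv y hy
    by_cases hss : s = s'
    · rw [hss]
    · exact absurd hss hna
  · exact absurd h0 (by simp)
  · exact absurd h0 (by simp)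
  · -- both dummies
    rw [st_inr_inr] at h0
    have h00 : t0 ≠ t0' ∧ t0.1 = t0'.1 := by
      rcases h0 with ⟨_, h2⟩ | ⟨h1, h2, _⟩
      · rw [hd, hd'] at h2
        exact absurd rfl (H.ne_of_adj h2)
      · exact ⟨h1, h2⟩
    have hv : ∀ x ∈ L1, ∃ e : {d : α // d ≠ p}, x = .gad (.inr t0) e ∧ e.1 = q := by
      intro x hx
      obtain ⟨h1, h2, h3⟩ := h.h1 x hx
      rcases nb_m hs hmq hd h1 with rfl | ⟨s, rfl⟩ | h4 |
        ⟨j, j', e, hg, rfl, hj, he⟩ | ⟨t, t', e, hg, rfl, ht, ht', he⟩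
      · exfalso
        apply h2
        rw [st_hub_gad]
        exact Or.inr hd'
      · exfalso
        apply h2
        rw [st_sel_inr] at h1 ⊢
        exact ⟨hd', h1.2.trans h00.2⟩
      · exact h4
      · cases hg
      · exfalso
        cases hg
        rcases eq_or_adj_inr (H := H) (p := p) (q := q) (m := m) (Γ := Γ) (k := k) (R := R)
          (t := t') (t' := t0') (ht'.trans h00.2) he hd' with h5 | h5
        · exact h3 h5
        · exact h2 h5
    obtain ⟨e, rfl, he⟩ := hv x hx
    obtain ⟨e', rfl, he'⟩ := hv y hy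
    rw [Subtype.ext (he.trans he'.symm)]

variable [Fintype α]

/-- the number of leaves at `q` -/
noncomputable abbrev bq (H : SimpleGraph α) (p q : α) : ℕ :=
  (Finset.univ.filter (fun w => w ≠ p ∧ H.Adj q w)).card

lemma conf_hub (hs : DStar H p q) (hm : H.Adj q m) (hmp : m ≠ p) {c2 : FV p W k R}
    {L1 L2 : Finset (FV p W k R)} (h : Conf H p q m Γ k R (bq H p q) .hub c2 L1 L2) : False := by
  have hmq : m ≠ q := (H.ne_of_adj hm).symm
  have hqm : ∀ d : {d : α // d ≠ p}, d.1 = q → H.Adj p d := fun d hd => hd ▸ hs.pq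
  rcases c2 with _ | v | ⟨g, d⟩
  · exact h.adj
  · obtain ⟨x, hx⟩ := h.swap.ne1
    obtain ⟨h1, h2, h3⟩ := h.h2 x hx
    rcases nb_sel h1 with rfl | ⟨s, hs', rfl⟩ | ⟨j, e, rfl, he⟩ | ⟨t, e, rfl, he, ht⟩
    · exact h3 rfl
    · exact h2 trivial
    · exact h2 (by rw [st_gad_hub]; exact Or.inr he)
    · exact h2 (by rw [st_gad_hub]; exact Or.inr he)
  · rcases h.swap.class1 hs with hd | hd
    · -- the centre q
      have := f2_card_lt hm hmp g L2 (by
        intro x hx
        obtain ⟨h1, h2, h3⟩ := h.h2 x hx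
        rcases nb_q hmq hd h1 with rfl | ⟨e, rfl, he⟩ | ⟨j, j', e, rfl, rfl, hj, he⟩
        · exact absurd rfl h3
        · refine ⟨e, rfl, he, ?_⟩
          intro hem
          exact h2 (by rw [st_gad_hub]; exact Or.inr hem)
        · exfalso
          apply h2
          rw [st_gad_hub]
          rcases he with he | he
          · exact Or.inr he
          · exact Or.inl (hqm e he))
      have h2 := h.b2
      unfold bq at h2
      omega
    · obtain ⟨x, hx⟩ := h.swap.ne1
      obtain ⟨h1, h2, h3⟩ := h.h2 x hx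
      rcases nb_m hs hmq hd h1 with rfl | ⟨s, rfl⟩ | ⟨e, rfl, he⟩ |
        ⟨j, j', e, rfl, rfl, hj, he⟩ | ⟨t, t', e, rfl, rfl, ht, ht', he⟩
      · exact h3 rfl
      · exact h2 trivial
      · exact h2 (by rw [st_gad_hub]; exact Or.inl (hqm e he))
      · apply h2
        rw [st_gad_hub]
        rcases he with he | he
        · exact Or.inr he
        · exact Or.inl (hqm e he)
      · exact h2 (by rw [st_gad_hub]; exact Or.inr he)


lemma conf_q (hs : DStar H p q) (hm : H.Adj q m) (hmp : m ≠ p)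
    {g g' : W ⊕ (Fin k × Fin R × W)} {d d' : {d : α // d ≠ p}}
    (hd : d.1 = q) (hd' : d'.1 = q ∨ d'.1 = m)
    {L1 L2 : Finset (FV p W k R)}
    (h : Conf H p q m Γ k R (bq H p q) (.gad g d) (.gad g' d') L1 L2) : False := by
  have hmq : m ≠ q := (H.ne_of_adj hm).symm
  have hqm : ∀ d : {d : α // d ≠ p}, d.1 = q → H.Adj p d := fun d hd => hd ▸ hs.pq
  have h0 := h.adj
  have := f2_card_lt hm hmp g L1 (by
    intro x hx
    obtain ⟨h1, h2, h3⟩ := h.h1 x hx
    rcases nb_q hmq hd h1 with rfl | ⟨e, rfl, he⟩ | ⟨j, j', e, rfl, rfl, hj, he⟩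
    · exfalso
      apply h2
      rw [st_hub_gad]
      rcases hd' with hd' | hd'
      · exact Or.inl (hqm d' hd')
      · exact Or.inr hd'
    · refine ⟨e, rfl, he, ?_⟩
      intro hem
      -- x is the vertex m of gadget g
      rcases g with i | t <;> rcases g' with i' | t'
      · rw [st_inl_inl] at h0 h2
        rcases h0 with ⟨h5, h6⟩ | ⟨h5, h6, h7⟩
        · subst h5
          rcases hd' with hd' | hd'
          · rw [hd, hd'] at h6
            exact H.ne_of_adj h6 rfl
          · exact h3 (by rw [Subtype.ext (hem.trans hd'.symm)])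
        · exact h2 (Or.inr ⟨h5, Or.inl hem, h7⟩)
      · exact absurd h0 (by simp)
      · exact absurd h0 (by simp)
      · rw [st_inr_inr] at h0
        rcases h0 with ⟨h5, h6⟩ | ⟨h5, h6, h7, h8⟩
        · subst h5
          rcases hd' with hd' | hd'
          · rw [hd, hd'] at h6
            exact H.ne_of_adj h6 rfl
          · exact h3 (by rw [Subtype.ext (hem.trans hd'.symm)])
        · exact hmq (h7.symm.trans hd)
    · exfalso
      rcases g' with i' | t'
      · by_cases hji : j' = i'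
        · subst hji
          by_cases hee : e = d'
          · exact h3 (by rw [hee])
          · apply h2
            rw [st_inl_inl]
            refine Or.inl ⟨rfl, ?_⟩
            rcases he with he | he <;> rcases hd' with hd' | hd'
            · rw [he, hd']; exact hm.symm
            · exact absurd (Subtype.ext (he.trans hd'.symm)) hee
            · exact absurd (Subtype.ext (he.trans hd'.symm)) hee
            · rw [he, hd']; exact hm
        · apply h2
          rw [st_inl_inl]
          exact Or.inr ⟨hji, he, hd'.symm⟩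
      · exact absurd h0 (by simp))
  have h2 := h.b1
  unfold bq at h2
  omega

theorem conf_false (hs : DStar H p q) (hm : H.Adj q m) (hmp : m ≠ p)
    {c1 c2 : FV p W k R} {L1 L2 : Finset (FV p W k R)}
    (h : Conf H p q m Γ k R (bq H p q) c1 c2 L1 L2) : False := by
  rcases c1 with _ | v | ⟨g, d⟩ <;> rcases c2 with _ | w | ⟨g', d'⟩
  · exact conf_hub hs hm hmp h
  · exact conf_hub hs hm hmp h
  · exact conf_hub hs hm hmp h
  · exact conf_hub hs hm hmp h.swap
  · exact conf_sel_sel h
  · exact conf_sel_gad hs hm h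
  · exact conf_hub hs hm hmp h.swap
  · exact conf_sel_gad hs hm h.swap
  · rcases h.class1 hs with hd | hd
    · exact conf_q hs hm hmp hd (h.swap.class1 hs) h
    · rcases h.swap.class1 hs with hd' | hd'
      · exact conf_q hs hm hmp hd' (Or.inr hd) h.swap
      · have h1 := conf_m_m hs hm hd hd' h
        have h2 := conf_m_m hs hm hd' hd h.swap
        have := h.four
        omega

theorem star_free (hs : DStar H p q) (hcard : 6 ≤ Fintype.card α) (hm : H.Adj q m) (hmp : m ≠ p)
    (hab : (Finset.univ.filter (fun w => w ≠ p ∧ H.Adj q w)).card ≤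
      (Finset.univ.filter (fun w => w ≠ q ∧ H.Adj p w)).card) :
    IsEmpty (H ↪g f2Star H p q m Γ k R) := by
  refine ⟨fun f => ?_⟩
  set A := Finset.univ.filter (fun w => w ≠ q ∧ H.Adj p w) with hA
  set B := Finset.univ.filter (fun w => w ≠ p ∧ H.Adj q w) with hB
  have hinj : Function.Injective f := f.injective
  have memA : ∀ w, w ∈ A ↔ (w ≠ q ∧ H.Adj p w) := by intro w; simp [hA]
  have memB : ∀ w, w ∈ B ↔ (w ≠ p ∧ H.Adj q w) := by intro w; simp [hB]
  have cA : (A.image f).card = A.card := Finset.card_image_of_injective _ hinj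
  have cB : (B.image f).card = B.card := Finset.card_image_of_injective _ hinj
  have hfour : 4 ≤ A.card + B.card := by
    have h1 : (Finset.univ : Finset α) ⊆ insert p (insert q (A ∪ B)) := by
      intro w _
      rw [Finset.mem_insert, Finset.mem_insert, Finset.mem_union, memA, memB]
      by_cases hp : w = p
      · exact Or.inl hp
      by_cases hq : w = q
      · exact Or.inr (Or.inl hq)
      by_cases h3 : H.Adj q w
      · exact Or.inr (Or.inr (Or.inr ⟨hp, h3⟩))
      · exact Or.inr (Or.inr (Or.inl ⟨hq, (hs.one w hp hq).2 h3⟩))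
    have h2 := Finset.card_le_card h1
    have h3 := Finset.card_insert_le p (insert q (A ∪ B))
    have h4 := Finset.card_insert_le q (A ∪ B)
    have h5 := Finset.card_union_le A B
    rw [Finset.card_univ] at h2
    omega
  have leaf : ∀ x, x ∈ A.image f ∨ x ∈ B.image f → ∃ w, x = f w ∧ w ≠ p ∧ w ≠ q := by
    rintro x (hx | hx)
    · rw [Finset.mem_image] at hx
      obtain ⟨w, hw, rfl⟩ := hx
      rw [memA] at hw
      exact ⟨w, rfl, (H.ne_of_adj hw.2).symm, hw.1⟩
    · rw [Finset.mem_image] at hx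
      obtain ⟨w, hw, rfl⟩ := hx
      rw [memB] at hw
      exact ⟨w, rfl, hw.1, (H.ne_of_adj hw.2).symm⟩
  refine conf_false (Γ := Γ) (k := k) (R := R) hs hm hmp
    (c1 := f p) (c2 := f q) (L1 := A.image f) (L2 := B.image f) ⟨?_, ?_, ?_, ?_, ?_, ?_, ?_, ?_⟩
  · exact f.map_rel_iff.2 hs.pq
  · intro x hx
    rw [Finset.mem_image] at hx
    obtain ⟨w, hw, rfl⟩ := hx
    rw [memA] at hw
    refine ⟨f.map_rel_iff.2 hw.2.symm, ?_, ?_⟩
    · intro h
      exact hs.not_both hw.2 (f.map_rel_iff.1 h).symm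
    · intro h
      exact hw.1 (hinj h)
  · intro x hx
    rw [Finset.mem_image] at hx
    obtain ⟨w, hw, rfl⟩ := hx
    rw [memB] at hw
    refine ⟨f.map_rel_iff.2 hw.2.symm, ?_, ?_⟩
    · intro h
      exact hs.not_both (f.map_rel_iff.1 h).symm hw.2
    · intro h
      exact hw.1 (hinj h)
  · intro x hx y hy h
    obtain ⟨w, rfl, hw1, hw2⟩ := leaf x hx
    obtain ⟨w', rfl, hw1', hw2'⟩ := leaf y hy
    exact hs.ind w w' hw1 hw2 hw1' hw2' (f.map_rel_iff.1 h)
  · have : m ∈ B := (memB m).2 ⟨hmp, hm⟩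
    exact Finset.card_pos.2 ⟨m, this⟩
  · rw [cA]; exact hab
  · rw [cB]
  · rw [cA, cB]; exact hfour

end free

lemma f2_contract {H : SimpleGraph α} {p q m : α} {Γ : SimpleGraph W} {k R : ℕ}
    (s : Fin k → W) (hdom : ∀ j, ∃ l, s l = j ∨ Γ.Adj (s l) j) :
    Nonempty (contract (f2Graph H p q m Γ k R)
        (((Finset.univ : Finset (Fin k)).image (fun l => s(SV.hub, SV.sel (l, s l))) :
          Finset (Sym2 (FV p W k R))) : Set (Sym2 (FV p W k R)))
      ↪g f2Star H p q m Γ k R) := by
  set F : Set (Sym2 (FV p W k R)) :=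
    (((Finset.univ : Finset (Fin k)).image (fun l => s(SV.hub, SV.sel (l, s l))) :
          Finset (Sym2 (FV p W k R))) : Set (Sym2 (FV p W k R))) with hF
  have hFadj : ∀ a b, (SimpleGraph.fromEdgeSet F).Adj a b ↔
      (a = SV.hub ∧ ∃ l, b = SV.sel (l, s l)) ∨ (b = SV.hub ∧ ∃ l, a = SV.sel (l, s l)) := by
    intro a b
    rw [SimpleGraph.fromEdgeSet_adj, hF]
    constructor
    · rintro ⟨hm, hne⟩
      rw [Finset.mem_coe, Finset.mem_image] at hm
      obtain ⟨i, _, he⟩ := hm
      rw [Sym2.eq_iff] at he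
      rcases he with ⟨e1, e2⟩ | ⟨e1, e2⟩
      · exact Or.inl ⟨e1.symm, i, e2.symm⟩
      · exact Or.inr ⟨e1.symm, i, e2.symm⟩
    · rintro (⟨e1, i, e2⟩ | ⟨e1, i, e2⟩)
      · subst e1; subst e2
        exact ⟨by rw [Finset.mem_coe, Finset.mem_image]; exact ⟨i, Finset.mem_univ _, rfl⟩, by simp⟩
      · subst e1; subst e2
        exact ⟨by rw [Finset.mem_coe, Finset.mem_image]; exact ⟨i, Finset.mem_univ _, Sym2.eq_swap⟩,
          by simp⟩
  let ψ : FV p W k R → FV p W k R := fun a => match a with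
    | .hub => .hub
    | .sel v => if v.2 = s v.1 then .hub else .sel v
    | .gad j c => .gad j c
  have ψhub : ψ .hub = .hub := rfl
  have ψgad : ∀ j c, ψ (.gad j c) = .gad j c := fun j c => rfl
  have ψselD : ∀ v : Fin k × W, v.2 = s v.1 → ψ (.sel v) = .hub := fun v hv => by simp [ψ, hv]
  have ψselN : ∀ v : Fin k × W, v.2 ≠ s v.1 → ψ (.sel v) = .sel v := fun v hv => by simp [ψ, hv]
  have inv_hub : ∀ a, ψ a = .hub ↔ a = .hub ∨ ∃ l, a = .sel (l, s l) := by
    intro a
    rcases a with _ | v | ⟨j, c⟩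
    · simp [ψhub]
    · by_cases hv : v.2 = s v.1
      · rw [ψselD v hv]
        exact ⟨fun _ => Or.inr ⟨v.1, by rw [← hv]⟩, fun _ => rfl⟩
      · rw [ψselN v hv]
        constructor
        · intro h; cases h
        · rintro (h | ⟨l, h⟩)
          · exact h
          · injection h with h
            rw [h] at hv
            exact absurd rfl hv
    · simp [ψgad]
  have inv_sel : ∀ a v, ψ a = .sel v ↔ a = .sel v ∧ v.2 ≠ s v.1 := by
    intro a v
    rcases a with _ | w | ⟨j, c⟩
    · simp [ψhub]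
    · by_cases hw : w.2 = s w.1
      · rw [ψselD w hw]
        constructor
        · intro h; cases h
        · rintro ⟨h, h'⟩
          injection h with h
          rw [h] at hw
          exact absurd hw h'
      · rw [ψselN w hw]
        constructor
        · intro h
          refine ⟨h, ?_⟩
          injection h with h
          rw [← h]; exact hw
        · rintro ⟨h, _⟩; exact h
    · simp [ψgad]
  have inv_gad : ∀ a j c, ψ a = .gad j c ↔ a = .gad j c := by
    intro a j c
    rcases a with _ | w | ⟨j', c'⟩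
    · simp [ψhub]
    · by_cases hw : w.2 = s w.1
      · simp [ψselD w hw]
      · simp [ψselN w hw]
    · simp [ψgad]
  refine contract_embed _ F _ ψ ?_ ?_
  · intro a b
    constructor
    · rintro ⟨w⟩
      induction w with
      | nil => rfl
      | cons h _ ih =>
        rw [← ih]
        rw [hFadj] at h
        rcases h with ⟨e1, i, e2⟩ | ⟨e1, i, e2⟩
        · subst e1; subst e2; rw [ψselD (i, s i) rfl]
        · subst e1; subst e2; rw [ψselD (i, s i) rfl]
    · intro h
      have toHub : ∀ a, ψ a = .hub → (SimpleGraph.fromEdgeSet F).Reachable a .hub := by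
        intro a ha
        rcases (inv_hub a).1 ha with e | ⟨i, e⟩
        · subst e; exact SimpleGraph.Reachable.refl _
        · subst e
          exact SimpleGraph.Adj.reachable ((hFadj _ _).2 (Or.inr ⟨rfl, i, rfl⟩))
      rcases hb : ψ b with _ | v | ⟨j, c⟩
      · exact (toHub a (h.trans hb)).trans (toHub b hb).symm
      · have h1 := (inv_sel a v).1 (h.trans hb)
        have h2 := (inv_sel b v).1 hb
        rw [h1.1, h2.1]
      · have h1 := (inv_gad a j c).1 (h.trans hb)
        have h2 := (inv_gad b j c).1 hb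
        rw [h1, h2]
  · -- adjacency
    have key : ∀ c j, (∃ x, ψ x = SV.hub ∧ (f2Graph H p q m Γ k R).Adj x (.gad j c)) ↔
        (H.Adj p c ∨ c.1 = m) := by
      intro c j
      constructor
      · rintro ⟨x, hx, hadj⟩
        rcases (inv_hub x).1 hx with e | ⟨i, e⟩
        · subst e
          rcases j with j | t
          · exact Or.inl hadj
          · exact Or.inl hadj
        · subst e
          rcases j with j | t
          · exact Or.inr hadj.1
          · exact Or.inr hadj.1
      · rintro (h | h)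
        · refine ⟨.hub, rfl, ?_⟩
          rcases j with j | t
          · exact h
          · exact h
        · rcases j with j | t
          · obtain ⟨l, hl⟩ := hdom j
            exact ⟨.sel (l, s l), ψselD _ rfl, h, hl⟩
          · exact ⟨.sel (t.1, s t.1), ψselD _ rfl, h, rfl⟩
    intro u u' hne
    rcases u with _ | v | ⟨j, c⟩ <;> rcases u' with _ | v' | ⟨j', c'⟩
    · exact absurd rfl hne
    · constructor
      · rintro ⟨x, y, _, hy, _⟩
        exact ⟨⟨.hub, rfl⟩, ⟨y, hy⟩, trivial⟩
      · rintro ⟨_, ⟨y, hy⟩, _⟩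
        refine ⟨.hub, y, rfl, hy, ?_⟩
        rw [((inv_sel _ _).1 hy).1]
        exact trivial
    · constructor
      · rintro ⟨x, y, hx, hy, hxy⟩
        rw [(inv_gad _ _ _).1 hy] at hxy
        exact ⟨⟨.hub, rfl⟩, ⟨y, hy⟩, (key c' j').1 ⟨x, hx, hxy⟩⟩
      · rintro ⟨_, _, h⟩
        obtain ⟨x, hx, hxy⟩ := (key c' j').2 h
        exact ⟨x, .gad j' c', hx, (inv_gad _ _ _).2 rfl, hxy⟩
    · constructor
      · rintro ⟨x, y, hx, _, _⟩
        exact ⟨⟨x, hx⟩, ⟨.hub, rfl⟩, trivial⟩
      · rintro ⟨⟨x, hx⟩, _, _⟩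
        refine ⟨x, .hub, hx, rfl, ?_⟩
        rw [((inv_sel _ _).1 hx).1]
        exact trivial
    · constructor
      · rintro ⟨x, y, hx, hy, hxy⟩
        rw [((inv_sel _ _).1 hx).1, ((inv_sel _ _).1 hy).1] at hxy
        exact ⟨⟨x, hx⟩, ⟨y, hy⟩, hxy⟩
      · rintro ⟨⟨x, hx⟩, ⟨y, hy⟩, h⟩
        refine ⟨x, y, hx, hy, ?_⟩
        rw [((inv_sel _ _).1 hx).1, ((inv_sel _ _).1 hy).1]
        exact h
    · constructor
      · rintro ⟨x, y, hx, hy, hxy⟩
        rw [((inv_sel _ _).1 hx).1, (inv_gad _ _ _).1 hy] at hxy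
        refine ⟨⟨x, hx⟩, ⟨y, hy⟩, ?_⟩
        rcases j' with j' | t'
        · exact hxy
        · exact hxy
      · rintro ⟨⟨x, hx⟩, _, h⟩
        refine ⟨x, .gad j' c', hx, (inv_gad _ _ _).2 rfl, ?_⟩
        rw [((inv_sel _ _).1 hx).1]
        rcases j' with j' | t'
        · exact h
        · exact h
    · constructor
      · rintro ⟨x, y, hx, hy, hxy⟩
        rw [(inv_gad _ _ _).1 hx] at hxy
        refine ⟨⟨x, hx⟩, ⟨.hub, rfl⟩, ?_⟩
        rw [st_gad_hub]
        exact (key c j).1 ⟨y, hy, hxy.symm⟩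
      · rintro ⟨_, _, h⟩
        rw [st_gad_hub] at h
        obtain ⟨x, hx, hxy⟩ := (key c j).2 h
        exact ⟨.gad j c, x, (inv_gad _ _ _).2 rfl, hx, hxy.symm⟩
    · constructor
      · rintro ⟨x, y, hx, hy, hxy⟩
        rw [(inv_gad _ _ _).1 hx, ((inv_sel _ _).1 hy).1] at hxy
        refine ⟨⟨x, hx⟩, ⟨y, hy⟩, ?_⟩
        rcases j with j' | t'
        · exact hxy
        · exact hxy
      · rintro ⟨_, ⟨y, hy⟩, h⟩
        refine ⟨.gad j c, y, (inv_gad _ _ _).2 rfl, hy, ?_⟩
        rw [((inv_sel _ _).1 hy).1]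
        rcases j with j' | t'
        · exact h
        · exact h
    · constructor
      · rintro ⟨x, y, hx, hy, hxy⟩
        rw [(inv_gad _ _ _).1 hx, (inv_gad _ _ _).1 hy] at hxy
        refine ⟨⟨x, hx⟩, ⟨y, hy⟩, ?_⟩
        rcases j with j | t <;> rcases j' with j' | t'
        · exact hxy
        · exact hxy
        · exact hxy
        · exact hxy
      · rintro ⟨_, _, h⟩
        refine ⟨.gad j c, .gad j' c', (inv_gad _ _ _).2 rfl, (inv_gad _ _ _).2 rfl, ?_⟩
        rcases j with j | t <;> rcases j' with j' | t'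
        · exact h
        · exact h
        · exact h
        · exact h

/-! ### The class of the hub when the budget is used up -/

/-- If the class of `h` has as many further vertices in `S` as there are edges in `F`, then `S`
is the whole class and all edges of `F` lie in the class. -/
lemma reach_tight {U : Type} (F : Finset (Sym2 U)) (h : U) (S : Finset U)
    (hS : ∀ v ∈ S, v ≠ h ∧ (SimpleGraph.fromEdgeSet (F : Set (Sym2 U))).Reachable h v)
    (hFS : F.card ≤ S.card) :
    (∀ v, v ≠ h → (SimpleGraph.fromEdgeSet (F : Set (Sym2 U))).Reachable h v → v ∈ S) ∧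
      (∀ e ∈ F, ∀ v ∈ e, (SimpleGraph.fromEdgeSet (F : Set (Sym2 U))).Reachable h v) := by
  set G := SimpleGraph.fromEdgeSet (F : Set (Sym2 U)) with hG
  constructor
  · intro v hv hr
    by_contra hvS
    have h1 := card_reach_le F h (insert v S) (by
      intro w hw
      rcases Finset.mem_insert.1 hw with rfl | hw
      · exact ⟨hv, hr⟩
      · exact hS w hw)
    rw [Finset.card_insert_of_notMem hvS] at h1
    omega
  · intro e he v hv
    by_contra hr
    -- the edges in the class still suffice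
    have hne : ∀ w : U, G.Reachable h w →
        (SimpleGraph.fromEdgeSet ((F.erase e : Finset (Sym2 U)) : Set (Sym2 U))).Reachable h w := by
      intro w hw
      obtain ⟨p⟩ := hw
      have key : ∀ (a b : U) (p : G.Walk a b), G.Reachable h a →
          (SimpleGraph.fromEdgeSet ((F.erase e : Finset (Sym2 U)) : Set (Sym2 U))).Reachable a b := by
        intro a b p
        induction p with
        | nil => intro _; exact SimpleGraph.Reachable.refl _
        | @cons a c b hac p ih =>
          intro ha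
          have hc : G.Reachable h c := ha.trans hac.reachable
          refine SimpleGraph.Reachable.trans (SimpleGraph.Adj.reachable ?_) (ih hc)
          rw [hG, SimpleGraph.fromEdgeSet_adj] at hac
          rw [SimpleGraph.fromEdgeSet_adj]
          refine ⟨?_, hac.2⟩
          rw [Finset.mem_coe, Finset.mem_erase]
          refine ⟨?_, hac.1⟩
          rintro rfl
          rw [Sym2.mem_iff] at hv
          rcases hv with rfl | rfl
          · exact hr ha
          · exact hr hc
      exact key h w p (SimpleGraph.Reachable.refl _)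
    have h1 := card_reach_le (F.erase e) h S (fun w hw => ⟨(hS w hw).1, hne w (hS w hw).2⟩)
    rw [Finset.card_erase_of_mem he] at h1
    have h2 : 0 < F.card := Finset.card_pos.2 ⟨e, he⟩
    omega

/-- An untouched gadget is the source of a copy of `H` unless the class of the hub meets the
neighbours of its vertex outside of the neighbourhood of `p`. -/
lemma f2_claim {H : SimpleGraph α} {p q m : α} {Γ : SimpleGraph W} {k R : ℕ}
    (F : Set (Sym2 (FV p W k R)))
    (hfree : IsEmpty (H ↪g contract (f2Graph H p q m Γ k R) F))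
    (g : W ⊕ (Fin k × Fin R × W)) (hg : ∀ d, ∀ e ∈ F, (SV.gad g d : FV p W k R) ∉ e) :
    ∃ (d : {d : α // d ≠ p}) (t : FV p W k R),
      (SimpleGraph.fromEdgeSet F).Reachable .hub t ∧
        (f2Graph H p q m Γ k R).Adj t (.gad g d) ∧ ¬ H.Adj p d := by
  by_contra hcon
  push Not at hcon
  set G := f2Graph H p q m Γ k R with hG
  have hgg : ∀ d d' : {d : α // d ≠ p}, G.Adj (.gad g d) (.gad g d') ↔ H.Adj d d' := by
    intro d d'
    rcases g with j | t
    · show ((j = j ∧ H.Adj d d') ∨ (j ≠ j ∧ _)) ↔ _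
      simp
    · show ((t = t ∧ H.Adj d d') ∨ (t ≠ t ∧ _)) ↔ _
      simp
  let μ : α → FV p W k R := fun a => if h : a = p then .hub else .gad g ⟨a, h⟩
  have mx : μ p = .hub := by simp [μ]
  have md : ∀ a (h : a ≠ p), μ a = .gad g ⟨a, h⟩ := by
    intro a h; simp [μ, h]
  have mfresh : ∀ a, a ≠ p → ∀ e ∈ F, μ a ∉ e := by
    intro a h; rw [md a h]; exact hg _
  have mhub : ∀ a, a ≠ p → μ a ≠ .hub := by
    intro a h; rw [md a h]; simp
  have hubadj : ∀ a, a ≠ p → ((contract G F).Adj (Quotient.mk _ SV.hub)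
      (Quotient.mk _ (μ a)) ↔ H.Adj p a) := by
    intro a ha
    rw [contract_adj_left G F (mfresh a ha) (mhub a ha), md a ha]
    constructor
    · rintro ⟨t, ht, hadj⟩
      exact hcon ⟨a, ha⟩ t ht hadj
    · intro h
      refine ⟨.hub, SimpleGraph.Reachable.refl _, ?_⟩
      rcases g with j | t
      · exact h
      · exact h
  apply hfree.false
  refine ⟨⟨fun w => Quotient.mk _ (μ w), ?_⟩, ?_⟩
  · intro w w' h
    by_contra hne
    have h' := (mk_eq_iff F _ _).1 h
    by_cases hw : w = p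
    · have hw' : w' ≠ p := fun e => hne (hw.trans e.symm)
      have := reach_untouched F _ _ (mfresh w' hw') h'.symm
      rw [hw, mx] at this
      exact mhub _ hw' this
    · have h2 := reach_untouched F _ _ (mfresh w hw) h'
      by_cases hw' : w' = p
      · rw [hw', mx] at h2
        exact mhub _ hw h2
      · rw [md w hw, md w' hw'] at h2
        injection h2 with _ h3
        exact hne (congrArg Subtype.val h3)
  · intro w w'
    show (contract G F).Adj (Quotient.mk _ (μ w)) (Quotient.mk _ (μ w')) ↔ _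
    by_cases hw : w = p
    · by_cases hw' : w' = p
      · rw [hw, hw']
        exact ⟨fun h => absurd rfl h.1, fun h => absurd rfl (H.ne_of_adj h)⟩
      · rw [hw, mx]
        exact hubadj w' hw'
    · by_cases hw' : w' = p
      · rw [hw', mx]
        exact ⟨fun h => ((hubadj w hw).1 h.symm).symm, fun h => ((hubadj w hw).2 h.symm).symm⟩
      · rw [contract_adj_untouched G F (mfresh w hw) (mfresh w' hw'), md w hw, md w' hw', hgg]

/-- the colour of a vertex -/
def f2col {p : α} {k R : ℕ} : FV p W k R → Option (Fin k)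
  | .hub => none
  | .sel s => some s.1
  | .gad (.inl _) _ => none
  | .gad (.inr t) _ => some t.1

/-- what a vertex adjacent to an untouched gadget looks like -/
lemma f2_claim_real {H : SimpleGraph α} {p q m : α} {Γ : SimpleGraph W} {k R : ℕ}
    {j : W} {d : {d : α // d ≠ p}} (hd : ¬ H.Adj p d) {t : FV p W k R}
    (ht : (f2Graph H p q m Γ k R).Adj t (.gad (.inl j) d)) :
    (∃ s : Fin k × W, t = .sel s ∧ (s.2 = j ∨ Γ.Adj s.2 j)) ∨
      (∃ j' e, t = .gad (.inl j') e) := by
  rcases t with _ | s | ⟨j' | t', e⟩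
  · exact absurd ht hd
  · exact Or.inl ⟨s, rfl, ht.2⟩
  · exact Or.inr ⟨j', e, rfl⟩
  · exact absurd ht (by exact id)

lemma f2_claim_dummy {H : SimpleGraph α} {p q m : α} {Γ : SimpleGraph W}
    {k R : ℕ} {t0 : Fin k × Fin R × W} {d : {d : α // d ≠ p}} (hd : ¬ H.Adj p d)
    {t : FV p W k R} (ht : (f2Graph H p q m Γ k R).Adj t (.gad (.inr t0) d)) :
    f2col t = some t0.1 ∨ (∃ e, t = .gad (.inr t0) e) := by
  rcases t with _ | s | ⟨j' | t', e⟩
  · exact absurd ht hd
  · exact Or.inl (congrArg some ht.2)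
  · exact absurd ht (by exact id)
  · rcases ht with ⟨h1, _⟩ | ⟨_, h2, _⟩
    · exact Or.inr ⟨e, by rw [h1]⟩
    · exact Or.inl (congrArg some h2)

theorem f2_reduction [Fintype α] {H : SimpleGraph α} {p q m : α} (hs : DStar H p q) (hcard : 6 ≤ Fintype.card α)
    (hm : H.Adj q m) (hmp : m ≠ p)
    (hab : (Finset.univ.filter (fun w => w ≠ p ∧ H.Adj q w)).card ≤ (Finset.univ.filter (fun w => w ≠ q ∧ H.Adj p w)).card)
    [Fintype W] (Γ : SimpleGraph W) (k R : ℕ) (hR : 2 * k + 1 ≤ R) :
    HasDomSet Γ k ↔ Contractible H (f2Graph H p q m Γ k R) k := by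
  constructor
  · rintro ⟨D, hDk, hD⟩
    rcases isEmpty_or_nonempty W with hW | hW
    · refine ⟨∅, by simp, by simp, ⟨fun f => ?_⟩⟩
      have hsub : ∀ a b : FV p W k R, a = b := by
        intro a b
        rcases a with _ | s | ⟨j | t, e⟩ <;> rcases b with _ | s' | ⟨j' | t', e'⟩
        · rfl
        all_goals first
          | exact hW.elim s.2
          | exact hW.elim s'.2
          | exact hW.elim j
          | exact hW.elim j'
          | exact hW.elim t.2.2
          | exact hW.elim t'.2.2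
      have h1 : ∀ a b : α, a = b := by
        intro a b
        apply f.injective
        obtain ⟨x, hx⟩ := Quotient.exists_rep (f a)
        obtain ⟨y, hy⟩ := Quotient.exists_rep (f b)
        rw [← hx, ← hy, hsub x y]
      have h2 : Fintype.card α ≤ 1 := Fintype.card_le_one_iff.2 h1
      omega
    · obtain ⟨w0⟩ := hW
      -- a colouring of the dominating set
      have hex : ∃ s : Fin k → W, ∀ i ∈ D, ∃ l, s l = i := by
        have h1 : Fintype.card D ≤ Fintype.card (Fin k) := by simpa using hDk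
        obtain ⟨φ⟩ := Function.Embedding.nonempty_of_card_le h1
        refine ⟨fun l => if h : ∃ i : D, φ i = l then (Classical.choose h).1 else w0, ?_⟩
        intro i hi
        refine ⟨φ ⟨i, hi⟩, ?_⟩
        have h : ∃ i' : D, φ i' = φ ⟨i, hi⟩ := ⟨⟨i, hi⟩, rfl⟩
        have h2 : Classical.choose h = ⟨i, hi⟩ := φ.injective (Classical.choose_spec h)
        simp only [dif_pos h]
        rw [h2]
      obtain ⟨s, hsD⟩ := hex
      have hdom : ∀ j, ∃ l, s l = j ∨ Γ.Adj (s l) j := by
        intro j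
        obtain ⟨i, hi, hij⟩ := hD j
        obtain ⟨l, rfl⟩ := hsD i hi
        exact ⟨l, hij⟩
      obtain ⟨φ⟩ := f2_contract (H := H) (p := p) (q := q) (m := m) (R := R) s hdom
      refine ⟨_, ?_, ?_, ⟨fun f => (star_free (Γ := Γ) (k := k) (R := R) hs hcard hm hmp hab).false
        (φ.comp f)⟩⟩
      · intro e he
        rw [Finset.mem_coe, Finset.mem_image] at he
        obtain ⟨i, _, rfl⟩ := he
        rw [SimpleGraph.mem_edgeSet]
        exact trivial
      · exact Finset.card_image_le.trans (by simp)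
  · rintro ⟨F, _, hFk, hfree⟩
    rcases isEmpty_or_nonempty W with hW | hW
    · exact ⟨∅, by simp, fun j => hW.elim j⟩
    obtain ⟨w0⟩ := hW
    set G := f2Graph H p q m Γ k R with hG
    set FS : Set (Sym2 (FV p W k R)) := (F : Set (Sym2 (FV p W k R))) with hFS
    let K : FV p W k R → Prop := fun v => (SimpleGraph.fromEdgeSet FS).Reachable .hub v
    -- one vertex of every colour
    have hz : ∀ l : Fin k, ∃ z : FV p W k R, K z ∧ f2col z = some l := by
      intro l
      obtain ⟨g, _, hg⟩ := exists_fresh (ι := Unit) F R k hFk (by simpa using hR)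
        (fun v : FV p W k R => match v with
          | .gad (.inr t) _ => if t.1 = l ∧ t.2.2 = w0 then some t.2.1 else none
          | _ => none)
      have hun : ∀ d, ∀ e ∈ FS, (SV.gad (.inr (l, g (), w0)) d : FV p W k R) ∉ e := by
        intro d
        exact hg () (.gad (.inr (l, g (), w0)) d) (by simp)
      obtain ⟨d, t, ht, hadj, hd⟩ := f2_claim FS hfree (.inr (l, g (), w0)) hun
      rcases f2_claim_dummy hd hadj with h | ⟨e, h⟩
      · exact ⟨t, ht, h⟩
      · exfalso
        rw [h] at ht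
        have := reach_untouched FS _ _ (hun e) ht.symm
        cases this
    choose z hzK hzc using hz
    have zinj : Function.Injective z := by
      intro a b h
      have h1 := hzc a
      rw [h, hzc b] at h1
      exact (Option.some.inj h1).symm
    have hcardS : ((Finset.univ : Finset (Fin k)).image z).card = k := by
      rw [Finset.card_image_of_injective _ zinj]
      simp
    obtain ⟨hT1, hT2⟩ := reach_tight F SV.hub ((Finset.univ : Finset (Fin k)).image z) (by
      intro v hv
      rw [Finset.mem_image] at hv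
      obtain ⟨l, _, rfl⟩ := hv
      refine ⟨?_, hzK l⟩
      intro h
      have := hzc l
      rw [h] at this
      cases this) (by rw [hcardS]; exact hFk)
    have hKc : ∀ v, K v → v ≠ SV.hub → ∃ l, f2col v = some l := by
      intro v hv hne
      have := hT1 v hne hv
      rw [Finset.mem_image] at this
      obtain ⟨l, _, rfl⟩ := this
      exact ⟨l, hzc l⟩
    have hreal : ∀ j d, ¬ K (.gad (.inl j) d) := by
      intro j d h
      obtain ⟨l, hl⟩ := hKc _ h (by simp)
      cases hl
    let D : Finset W := Finset.univ.filter (fun i => ∃ l : Fin k, K (.sel (l, i)))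
    refine ⟨D, ?_, ?_⟩
    · have hex : ∀ i : D, ∃ l : Fin k, K (.sel (l, i.1)) := fun i => (Finset.mem_filter.1 i.2).2
      choose c hc using hex
      have h1 : ((Finset.univ : Finset D).image
          (fun i : D => (SV.sel (c i, i.1) : FV p W k R))).card = D.card := by
        rw [Finset.card_image_of_injective]
        · simp
        · intro a b h
          injection h with h
          exact Subtype.ext (Prod.ext_iff.1 h).2
      rw [← h1]
      refine (card_reach_le F .hub _ ?_).trans hFk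
      intro v hv
      rw [Finset.mem_image] at hv
      obtain ⟨i, _, rfl⟩ := hv
      exact ⟨by simp, hc i⟩
    · intro j
      have hun : ∀ d, ∀ e ∈ FS, (SV.gad (.inl j) d : FV p W k R) ∉ e := by
        intro d e he hmem
        exact hreal j d (hT2 e he _ hmem)
      obtain ⟨d, t, ht, hadj, hd⟩ := f2_claim FS hfree (.inl j) hun
      rcases f2_claim_real hd hadj with ⟨s, rfl, h⟩ | ⟨j', e, rfl⟩
      · refine ⟨s.2, ?_, h⟩
        rw [Finset.mem_filter]
        exact ⟨Finset.mem_univ _, s.1, ht⟩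
      · exact absurd ht (hreal _ _)

end HFC
end

section

open Classical

namespace HFC

variable {α β V J : Type}

/-- `Y` = everything. -/
def allPat (H : SimpleGraph α) (x : α) (T : Prop) : Pat {d : α // d ≠ x} :=
  dPat H x (fun _ _ => False) (fun _ _ h => h) (fun _ => True) (fun _ => False) T

/-- label of a vertex of a scheme graph -/
def glab {C : Type} : SV V J C → Option J
  | .gad j _ => some j
  | _ => none

lemma lab_of {G0 : SimpleGraph β} {H : SimpleGraph α} {x : α} {T : Prop}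
    {B : {d : α // d ≠ x} → Prop} {rel : V → J → Prop}
    (f : β → SV V J {d : α // d ≠ x}) (hinj : Function.Injective f)
    (hadj : ∀ a b, ((allPat H x T).graph B rel).Adj (f a) (f b) ↔ G0.Adj a b)
    (hh : ∀ b, f b ≠ .hub) (h4 : ∀ j, ∃ b, ∀ d, f b ≠ .gad j d) :
    Lab G0 (fun b => glab (f b)) T := by
  constructor
  · intro a b ha hb hab
    rw [← hadj]
    rcases hfa : f a with _ | v | ⟨j, c⟩
    · exact absurd hfa (hh a)
    · rcases hfb : f b with _ | v' | ⟨j, c⟩
      · exact absurd hfb (hh b)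
      · rw [adj_sel_sel]
        have : v ≠ v' := by
          rintro rfl
          exact hab (hinj (hfa.trans hfb.symm))
        exact ⟨fun h => h.2, fun h => ⟨this, h⟩⟩
      · rw [hfb] at hb; cases hb
    · rw [hfa] at ha; cases ha
  · intro a b i j ha hb hij hab
    rw [← hadj] at hab
    rcases hfa : f a with _ | v | ⟨j1, c⟩
    · exact absurd hfa (hh a)
    · rw [hfa] at ha; cases ha
    · rcases hfb : f b with _ | v' | ⟨j2, c'⟩
      · exact absurd hfb (hh b)
      · rw [hfb] at hb; cases hb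
      · rw [hfa] at ha hab
        rw [hfb] at hb hab
        simp only [glab, Option.some.injEq] at ha hb
        rcases hab with ⟨h, _⟩ | ⟨_, h⟩
        · exact hij (ha.symm.trans (h.trans hb))
        · exact h
  · intro q a b i hq ha hb hqa
    rw [← hadj] at hqa ⊢
    rcases hfq : f q with _ | v | ⟨j1, c⟩
    · exact absurd hfq (hh q)
    · rcases hfa : f a with _ | v' | ⟨j2, c'⟩
      · exact absurd hfa (hh a)
      · rw [hfa] at ha; cases ha
      · rcases hfb : f b with _ | v' | ⟨j3, c''⟩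
        · exact absurd hfb (hh b)
        · rw [hfb] at hb; cases hb
        · rw [hfq, hfa] at hqa
          rw [hfa] at ha
          rw [hfb] at hb
          simp only [glab, Option.some.injEq] at ha hb
          subst ha; subst hb
          rcases hqa with ⟨h, _⟩ | ⟨_, h⟩
          · exact Or.inl ⟨h, trivial⟩
          · exact absurd h id
    · rw [hfq] at hq; cases hq
  · intro i
    obtain ⟨b, hb⟩ := h4 i
    refine ⟨b, ?_⟩
    intro h
    rcases hfb : f b with _ | v' | ⟨j3, c''⟩
    · exact absurd hfb (hh b)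
    · rw [hfb] at h; cases h
    · rw [hfb] at h
      simp only [glab, Option.some.injEq] at h
      subst h
      exact hb _ hfb

lemma allPat_good [Fintype α] (H : SimpleGraph α) (x : α) (T : Prop)
    (free : ∀ (V J : Type) (rel : V → J → Prop),
      IsEmpty (H ↪g (allPat H x T).graph (fun c => H.Adj x c ∨ True) rel)) :
    HasPat H :=
  dPat_good H x (fun _ _ => False) (fun _ _ h => h) (fun _ => True) (fun _ => False) T
    (fun _ _ h => h.elim) (fun _ h => h.elim) free

/-- no injection of `α` into `α` minus a point -/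
lemma no_inj [Finite α] (x : α) (g : α → {d : α // d ≠ x}) (hg : Function.Injective g) : False := by
  have h1 : Function.Injective (fun a => (g a).1) := fun a b h => hg (Subtype.ext h)
  obtain ⟨a, ha⟩ := (Finite.injective_iff_surjective.1 h1) x
  exact (g a).2 ha

theorem s0_case [Fintype α] {H : SimpleGraph α} (hc : H.Preconnected) (hne : Nonempty α)
    (hnu : ∀ v, ∃ w, w ≠ v ∧ ¬ H.Adj v w) : HasPat H ∨ ∃ q K, Exc H q K := by
  by_contra hcon
  push Not at hcon
  obtain ⟨hno, hexc⟩ := hcon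
  have key : ∀ T : Prop, ∃ (J : Type) (lab : α → Option J), Lab H lab T := by
    intro T
    obtain ⟨x⟩ := hne
    have h1 : ¬ ∀ (V J : Type) (rel : V → J → Prop),
      IsEmpty (H ↪g (allPat H x T).graph (fun c => H.Adj x c ∨ True) rel) :=
      fun h => hno (allPat_good H x T h)
    push Not at h1
    obtain ⟨V, J, rel, ⟨f⟩⟩ := h1
    refine ⟨J, fun b => glab (f b), lab_of f f.injective (fun a b => f.map_rel_iff) ?_ ?_⟩
    · intro b hb
      obtain ⟨w, hw, hbw⟩ := hnu b
      apply hbw
      rw [← f.map_rel_iff]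
      show ((allPat H x T).graph _ rel).Adj (f b) (f w)
      rw [hb]
      rcases hfw : f w with _ | v | ⟨j, c⟩
      · exact absurd (f.injective (hfw.trans hb.symm)) hw
      · trivial
      · exact Or.inr trivial
    · intro j
      by_contra hcon
      push Not at hcon
      choose g hg using hcon
      exact no_inj x g (fun a b h => f.injective (by rw [hg, hg, h]))
  obtain ⟨J, lab, hL⟩ := key True
  obtain ⟨J', lab', hL'⟩ := key False
  obtain ⟨q, K, hE⟩ := dichotomy hc hnu hne hL hL'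
  exact hexc q K hE

theorem s1c_case [Fintype α] {H : SimpleGraph α} {u : α} (hu : ∀ w, w ≠ u → H.Adj u w)
    (hc : (H.induce {w | w ≠ u}).Preconnected) (hne : Nonempty {w : α // w ≠ u})
    (hnu : ∀ v, v ≠ u → ∃ w, w ≠ v ∧ w ≠ u ∧ ¬ H.Adj v w) :
    HasPat H ∨ ∃ q K, Exc (H.induce {w | w ≠ u}) q K := by
  by_contra hcon
  push Not at hcon
  obtain ⟨hno, hexc⟩ := hcon
  have hnu' : ∀ v : {w | w ≠ u}, ∃ w, w ≠ v ∧ ¬ (H.induce {w | w ≠ u}).Adj v w := by
    rintro ⟨v, hv⟩
    obtain ⟨w, h1, h2, h3⟩ := hnu v hv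
    exact ⟨⟨w, h2⟩, fun e => h1 (congrArg Subtype.val e), h3⟩
  have key : ∀ T : Prop, ∃ (J : Type) (lab : {w | w ≠ u} → Option J),
      Lab (H.induce {w | w ≠ u}) lab T := by
    intro T
    obtain ⟨x, hx⟩ := hne
    have h1 : ¬ ∀ (V J : Type) (rel : V → J → Prop),
      IsEmpty (H ↪g (allPat H x T).graph (fun c => H.Adj x c ∨ True) rel) :=
      fun h => hno (allPat_good H x T h)
    push Not at h1
    obtain ⟨V, J, rel, ⟨f⟩⟩ := h1
    have fadj : ∀ a b, ((allPat H x T).graph (fun c => H.Adj x c ∨ True) rel).Adj (f a) (f b) ↔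
        H.Adj a b := fun a b => f.map_rel_iff
    refine ⟨J, fun b => glab (f b.1), lab_of (fun b => f b.1)
      (fun a b h => Subtype.ext (f.injective h)) (fun a b => fadj _ _) ?_ ?_⟩
    · rintro ⟨b, hbu⟩ hb
      obtain ⟨w, hw, hwu, hbw⟩ := hnu b hbu
      apply hbw
      rw [← fadj]
      have hb' : f b = .hub := hb
      rw [hb']
      rcases hfw : f w with _ | v | ⟨j, c⟩
      · exact absurd (f.injective (hfw.trans hb'.symm)) hw
      · trivial
      · exact Or.inr trivial
    · intro j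
      by_contra hcon
      push Not at hcon
      choose g hg using hcon
      -- g is a bijection onto the classes
      have ginj : Function.Injective g := by
        intro a b h
        apply Subtype.ext
        apply f.injective
        rw [hg, hg, h]
      have hcard : Fintype.card {w : α // w ≠ u} = Fintype.card {d : α // d ≠ x} := by
        rw [Fintype.card_subtype_compl, Fintype.card_subtype_compl]
        simp
      have hbij : Function.Bijective g := by
        rw [Fintype.bijective_iff_injective_and_card]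
        exact ⟨ginj, hcard⟩
      obtain ⟨⟨b, hbu⟩, hb⟩ := hbij.2 ⟨u, hx.symm⟩
      obtain ⟨w, hw, hwu, hbw⟩ := hnu b hbu
      apply hbw
      rw [← fadj]
      have e1 : f b = .gad j ⟨u, hx.symm⟩ := by rw [← hb]; exact hg ⟨b, hbu⟩
      have e2 : f w = .gad j (g ⟨w, hwu⟩) := hg ⟨w, hwu⟩
      rw [e1, e2]
      refine Or.inl ⟨rfl, ?_⟩
      apply hu
      intro h
      have : g ⟨w, hwu⟩ = g ⟨b, hbu⟩ := by
        rw [hb]; exact Subtype.ext h
      have := congrArg Subtype.val (ginj this)
      exact hw this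
  obtain ⟨J, lab, hL⟩ := key True
  obtain ⟨J', lab', hL'⟩ := key False
  obtain ⟨q, K, hE⟩ := dichotomy hc hnu' hne hL hL'
  exact hexc q K hE

end HFC
end

section

open Classical

namespace HFC

variable {α V J : Type}

/-- pigeonhole: no injective map from a set with an extra point into the set. -/
lemma no_inj_set [Finite α] (S : α → Prop) (q : α) (hq : ¬ S q) (d : α → α)
    (hd : ∀ w, S w ∨ w = q → S (d w))
    (hinj : ∀ w w', (S w ∨ w = q) → (S w' ∨ w' = q) → d w = d w' → w = w') : False := by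
  have := Fintype.ofFinite α
  let A : Finset α := Finset.univ.filter (fun w => S w)
  have h1 : (insert q A).card ≤ A.card := by
    refine Finset.card_le_card_of_injOn d ?_ ?_
    · intro w hw
      have hw' : S w ∨ w = q := by
        rcases Finset.mem_insert.1 (Finset.mem_coe.1 hw) with h | h
        · exact Or.inr h
        · exact Or.inl (Finset.mem_filter.1 h).2
      simpa [A] using hd w hw'
    · intro w hw w' hw' h
      have a1 : S w ∨ w = q := by
        rcases Finset.mem_insert.1 (Finset.mem_coe.1 hw) with h | h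
        · exact Or.inr h
        · exact Or.inl (Finset.mem_filter.1 h).2
      have a2 : S w' ∨ w' = q := by
        rcases Finset.mem_insert.1 (Finset.mem_coe.1 hw') with h | h
        · exact Or.inr h
        · exact Or.inl (Finset.mem_filter.1 h).2
      exact hinj w w' a1 a2 h
  have h2 : q ∉ A := by simp [A, hq]
  rw [Finset.card_insert_of_notMem h2] at h1
  omega

/-- the class of a gadget vertex -/
def cls {C : Type} (c0 : C) : SV V J C → C
  | .gad _ c => c
  | _ => c0

theorem qLI_s0 [Fintype α] {H : SimpleGraph α} (hc : H.Preconnected) {q : α} {K : α → Prop}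
    (hE : Exc H q K)
    (hbig : (∃ k k', K k ∧ K k' ∧ k ≠ k') ∨
      (∃ w w', H.Adj q w ∧ ¬ K w ∧ H.Adj q w' ∧ ¬ K w' ∧ H.Adj w w')) : HasPat H := by
  refine dPat_good H q (fun _ _ => False) (fun _ _ h => h) (fun d => ¬ H.Adj q d)
    (fun _ => False) False (fun _ _ h => h.elim) (fun _ h => h.elim) ?_
  intro V J rel
  refine ⟨fun f => ?_⟩
  have fadj : ∀ a b, ((dPat H q (fun _ _ => False) (fun _ _ h => h) (fun d => ¬ H.Adj q d)
    (fun _ => False) False).graph (fun c => H.Adj q c ∨ ¬ H.Adj q c) rel).Adj (f a) (f b) ↔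
      H.Adj a b := fun a b => f.map_rel_iff
  obtain ⟨l0, hl0, hql0⟩ := hE.Lne
  obtain ⟨k0, hk0⟩ := hE.Kne
  obtain ⟨x0, hx0, hx0K⟩ := hE.Xne
  -- no universal vertex
  have hnu : ∀ v, ∃ w, w ≠ v ∧ ¬ H.Adj v w := by
    intro v
    by_cases hvq : v = q
    · rw [hvq]; exact ⟨l0, hl0, hql0⟩
    by_cases hqv : H.Adj q v
    · by_cases hKv : K v
      · exact ⟨x0, fun e => hx0K (e ▸ hKv), fun h => hE.XK x0 v hx0 hx0K hKv h⟩
      · exact ⟨l0, fun e => hql0 (e ▸ hqv), fun h => hE.XL v l0 hqv hKv hl0 hql0 h.symm⟩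
    · exact ⟨q, fun e => hvq e.symm, fun h => hqv h.symm⟩
  have hhub : ∀ w, f w ≠ .hub := by
    intro w hw
    obtain ⟨w', hw', hww'⟩ := hnu w
    apply hww'
    rw [← fadj, hw]
    rcases hfw : f w' with _ | v | ⟨j, c⟩
    · exact absurd (f.injective (hfw.trans hw.symm)) hw'
    · trivial
    · exact Classical.em _
  -- adjacency of non-hub vertices
  have sel_sel : ∀ a b v v', f a = .sel v → f b = .sel v' → ¬ H.Adj a b := by
    intro a b v v' ha hb h
    rw [← fadj, ha, hb] at h
    exact h.2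
  have sel_gad : ∀ a b v j c, f a = .sel v → f b = .gad j c → H.Adj a b → ¬ H.Adj q c := by
    intro a b v j c ha hb h
    rw [← fadj, ha, hb] at h
    rcases h with ⟨_, h⟩ | ⟨_, h⟩
    · exact h
    · exact h.elim
  have gad_gad : ∀ a b j c j' c', f a = .gad j c → f b = .gad j' c' → H.Adj a b →
      j = j' ∧ H.Adj c c' := by
    intro a b j c j' c' ha hb h
    rw [← fadj, ha, hb] at h
    rcases h with ⟨h1, h⟩ | ⟨_, h⟩
    · exact ⟨h1, h⟩
    · exact h.elim
  -- no vertex in X
  have hX : ∀ w j (c : {d : α // d ≠ q}), f w = .gad j c → ¬ (H.Adj q c ∧ ¬ K c) := by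
    intro w j c hw hcX
    -- everything is in gadget j
    have hall : ∀ w', ∃ c' : {d : α // d ≠ q}, f w' = .gad j c' ∧ H.Adj q c' ∧ ¬ K c' := by
      by_contra hcon
      push Not at hcon
      obtain ⟨w', hw'⟩ := hcon
      obtain ⟨a, b, ⟨ca, hca, hca1, hca2⟩, hb, hab⟩ :=
        exists_cross hc (fun v => ∃ c' : {d : α // d ≠ q}, f v = .gad j c' ∧ H.Adj q c' ∧ ¬ K c')
          (a := w) (b := w') ⟨c, hw, hcX⟩ (fun ⟨c', h1, h2, h3⟩ => h3 (hw' c' h1 h2))
      apply hb
      rcases hfb : f b with _ | v | ⟨j', c'⟩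
      · exact absurd hfb (hhub b)
      · exact absurd hca1 (sel_gad b a v j ca hfb hca hab.symm)
      · obtain ⟨hjj, hcc⟩ := gad_gad a b j ca j' c' hca hfb hab
        subst hjj
        refine ⟨c', rfl, ?_⟩
        by_cases hqc : H.Adj q c'
        · refine ⟨hqc, fun hKc => ?_⟩
          exact hE.XK ca c' hca1 hca2 hKc hcc.symm
        · exact absurd hcc.symm (hE.XL ca c' hca1 hca2 c'.2 hqc)
    choose g hg using hall
    exact no_inj q g (fun a b h => f.injective (by rw [(hg a).1, (hg b).1, h]))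
  -- triangles consist of gadget vertices
  have tri : ∀ a b c, H.Adj a b → H.Adj b c → H.Adj a c → ∃ j d, f a = .gad j d := by
    intro a b c hab hbc hac
    rcases hfa : f a with _ | v | ⟨j, d⟩
    · exact absurd hfa (hhub a)
    · exfalso
      rcases hfb : f b with _ | v' | ⟨j, d⟩
      · exact hhub b hfb
      · exact sel_sel a b v v' hfa hfb hab
      · rcases hfc : f c with _ | v'' | ⟨j', d'⟩
        · exact hhub c hfc
        · exact sel_sel a c v v'' hfa hfc hac
        · have h1 := sel_gad a b v j d hfa hfb hab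
          have h2 := sel_gad a c v j' d' hfa hfc hac
          have h3 := (gad_gad b c j d j' d' hfb hfc hbc).2
          exact hE.LL d d' d.2 d'.2 h1 h2 h3
    · exact ⟨j, d, rfl⟩
  have isKL : ∀ w j (c : {d : α // d ≠ q}), f w = .gad j c → K c ∨ ¬ H.Adj q c := by
    intro w j c hw
    have := hX w j c hw
    by_cases hqc : H.Adj q c
    · exact Or.inl (by by_contra h; exact this ⟨hqc, h⟩)
    · exact Or.inr hqc
  -- two distinct elements of K
  have twoK : ∃ k k', K k ∧ K k' ∧ k ≠ k' := by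
    rcases hbig with h | ⟨w, w', hw, hwK, hw', hwK', hww⟩
    · exact h
    · obtain ⟨j, d, hd⟩ := tri q w w' hw hww hw'
      obtain ⟨j1, d1, hd1⟩ := tri w q w' hw.symm hw' hww
      obtain ⟨j2, d2, hd2⟩ := tri w' q w hw'.symm hw hww.symm
      have e1 := gad_gad q w j d j1 d1 hd hd1 hw
      have e2 := gad_gad q w' j d j2 d2 hd hd2 hw'
      have e3 := gad_gad w w' j1 d1 j2 d2 hd1 hd2 hww
      rcases isKL _ _ _ hd with h | h
      · rcases isKL _ _ _ hd1 with h' | h'
        · exact ⟨d, d1, h, h', H.ne_of_adj e1.2⟩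
        · rcases isKL _ _ _ hd2 with h'' | h''
          · exact ⟨d, d2, h, h'', H.ne_of_adj e2.2⟩
          · exact absurd e3.2 (hE.LL d1 d2 d1.2 d2.2 h' h'')
      · rcases isKL _ _ _ hd1 with h' | h'
        · rcases isKL _ _ _ hd2 with h'' | h''
          · exact ⟨d1, d2, h', h'', H.ne_of_adj e3.2⟩
          · exact absurd e2.2 (hE.LL d d2 d.2 d2.2 h h'')
        · exact absurd e1.2 (hE.LL d d1 d.2 d1.2 h h')
  obtain ⟨k1, k2, hk1, hk2, hk12⟩ := twoK
  have adjk : H.Adj k1 k2 := hE.KK k1 k2 hk1 hk2 hk12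
  obtain ⟨j, dq, hdq⟩ := tri q k1 k2 (hE.Kq k1 hk1) adjk (hE.Kq k2 hk2)
  have inj' : ∀ w, K w → ∃ c, f w = .gad j c := by
    intro w hw
    obtain ⟨k', hk', hne'⟩ : ∃ k', K k' ∧ k' ≠ w := by
      by_cases h : k1 = w
      · exact ⟨k2, hk2, fun e => hk12 (h.trans e.symm)⟩
      · exact ⟨k1, hk1, h⟩
    obtain ⟨j', c, hc'⟩ := tri w q k' (hE.Kq w hw).symm (hE.Kq k' hk') (hE.KK w k' hw hk' hne'.symm)
    have := (gad_gad q w j dq j' c hdq hc' (hE.Kq w hw)).1
    subst this
    exact ⟨c, hc'⟩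
  have injL : ∀ w, w ≠ q → ¬ H.Adj q w → ∃ c, f w = .gad j c := by
    intro w hwq hqw
    obtain ⟨j', c, hc'⟩ := tri w k1 k2 (hE.KL k1 w hk1 hwq hqw).symm adjk
      (hE.KL k2 w hk2 hwq hqw).symm
    obtain ⟨c1, hc1⟩ := inj' k1 hk1
    have := (gad_gad k1 w j c1 j' c hc1 hc' (hE.KL k1 w hk1 hwq hqw)).1
    subst this
    exact ⟨c, hc'⟩
  let S : α → Prop := fun w => w ≠ q ∧ (K w ∨ ¬ H.Adj q w)
  have hall : ∀ w, S w ∨ w = q → ∃ c, f w = .gad j c := by
    rintro w (⟨h1, h2 | h2⟩ | h)
    · exact inj' w h2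
    · exact injL w h1 h2
    · rw [h]; exact ⟨dq, hdq⟩
  refine no_inj_set S q (fun h => h.1 rfl)
    (fun w => (cls (⟨l0, hl0⟩ : {d : α // d ≠ q}) (f w)).1) ?_ ?_
  · intro w hw
    obtain ⟨c, hc'⟩ := hall w hw
    show S (cls _ (f w)).1
    rw [hc']
    exact ⟨c.2, isKL w j c hc'⟩
  · intro w w' hw hw' h
    obtain ⟨c, hc'⟩ := hall w hw
    obtain ⟨c2, hc2⟩ := hall w' hw'
    apply f.injective
    rw [hc', hc2] at h ⊢
    simp only [cls] at h
    congr 1
    exact Subtype.ext h

end HFC
end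

section

open Classical

namespace HFC

variable {α V J : Type}

/-- Exceptional structure of `H - u`. -/
structure ExcU (H : SimpleGraph α) (u q : α) (K : α → Prop) : Prop where
  qu : q ≠ u
  Ku : ∀ k, K k → k ≠ u
  Kq : ∀ k, K k → H.Adj q k
  KK : ∀ k k', K k → K k' → k ≠ k' → H.Adj k k'
  LL : ∀ l l', l ≠ q → l' ≠ q → ¬ H.Adj q l → ¬ H.Adj q l' → ¬ H.Adj l l'
  KL : ∀ k l, K k → l ≠ q → ¬ H.Adj q l → H.Adj k l
  XL : ∀ w l, w ≠ u → H.Adj q w → ¬ K w → l ≠ q → ¬ H.Adj q l → ¬ H.Adj l w
  XK : ∀ w k, w ≠ u → H.Adj q w → ¬ K w → K k → ¬ H.Adj k w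
  Lne : ∃ l, l ≠ q ∧ ¬ H.Adj q l
  Kne : ∃ k, K k
  Xne : ∃ w, w ≠ u ∧ H.Adj q w ∧ ¬ K w

lemma excU_of {H : SimpleGraph α} {u : α} (hu : ∀ w, w ≠ u → H.Adj u w)
    {q : {w | w ≠ u}} {K : {w | w ≠ u} → Prop} (hE : Exc (H.induce {w | w ≠ u}) q K) :
    ExcU H u q.1 (fun w => ∃ h : w ≠ u, K ⟨w, h⟩) := by
  have nu : ∀ l, ¬ H.Adj q.1 l → l ≠ u := by
    rintro l h rfl
    exact h (hu q.1 q.2).symm
  have ne' : ∀ (l : α) (h : l ≠ u), l ≠ q.1 → (⟨l, h⟩ : {w | w ≠ u}) ≠ q := by
    intro l h h' e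
    exact h' (congrArg Subtype.val e)
  constructor
  · exact q.2
  · rintro k ⟨h, _⟩; exact h
  · rintro k ⟨h, hk⟩; exact hE.Kq _ hk
  · rintro k k' ⟨h, hk⟩ ⟨h', hk'⟩ hne
    exact hE.KK _ _ hk hk' (fun e => hne (congrArg Subtype.val e))
  · intro l l' h h' h1 h2
    exact hE.LL ⟨l, nu l h1⟩ ⟨l', nu l' h2⟩ (ne' l _ h) (ne' l' _ h') h1 h2
  · rintro k l ⟨h, hk⟩ h1 h2
    exact hE.KL _ ⟨l, nu l h2⟩ hk (ne' l _ h1) h2
  · intro w l hw h1 h2 h3 h4
    exact hE.XL ⟨w, hw⟩ ⟨l, nu l h4⟩ h1 (fun h => h2 ⟨hw, h⟩) (ne' l _ h3) h4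
  · rintro w k hw h1 h2 ⟨h3, h4⟩
    exact hE.XK ⟨w, hw⟩ _ h1 (fun h => h2 ⟨hw, h⟩) h4
  · obtain ⟨l, h1, h2⟩ := hE.Lne
    exact ⟨l.1, fun e => h1 (Subtype.ext e), h2⟩
  · obtain ⟨k, hk⟩ := hE.Kne
    exact ⟨k.1, k.2, hk⟩
  · obtain ⟨w, h1, h2⟩ := hE.Xne
    exact ⟨w.1, w.2, h1, fun ⟨_, h⟩ => h2 h⟩

lemma ExcU.nu {H : SimpleGraph α} {u q : α} {K : α → Prop} (hu : ∀ w, w ≠ u → H.Adj u w)
    (hE : ExcU H u q K) :
    ∀ v, v ≠ u → ∃ w, w ≠ v ∧ w ≠ u ∧ ¬ H.Adj v w := by
  obtain ⟨l0, hl0, hql0⟩ := hE.Lne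
  obtain ⟨k0, hk0⟩ := hE.Kne
  obtain ⟨x0, hx0u, hx0, hx0K⟩ := hE.Xne
  have hl0u : l0 ≠ u := by
    rintro rfl
    exact hql0 (hu q hE.qu).symm
  intro v hv
  by_cases hvq : v = q
  · rw [hvq]; exact ⟨l0, hl0, hl0u, hql0⟩
  by_cases hqv : H.Adj q v
  · by_cases hKv : K v
    · exact ⟨x0, fun e => hx0K (e ▸ hKv), hx0u, fun h => hE.XK x0 v hx0u hx0 hx0K hKv h⟩
    · exact ⟨l0, fun e => hql0 (e ▸ hqv), hl0u,
        fun h => hE.XL v l0 hv hqv hKv hl0 hql0 h.symm⟩
  · exact ⟨q, fun e => hvq e.symm, hE.qu, fun h => hqv h.symm⟩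

theorem qLI_s1 [Fintype α] {H : SimpleGraph α} {u : α} (hu : ∀ w, w ≠ u → H.Adj u w)
    {q : α} {K : α → Prop} (hE : ExcU H u q K)
    (hbig : ∃ k k', K k ∧ K k' ∧ k ≠ k') : HasPat H := by
  refine dPat_good H q (fun _ _ => False) (fun _ _ h => h) (fun d => ¬ H.Adj q d)
    (fun _ => False) False (fun _ _ h => h.elim) (fun _ h => h.elim) ?_
  intro V J rel
  refine ⟨fun f => ?_⟩
  have fadj : ∀ a b, ((dPat H q (fun _ _ => False) (fun _ _ h => h) (fun d => ¬ H.Adj q d)
    (fun _ => False) False).graph (fun c => H.Adj q c ∨ ¬ H.Adj q c) rel).Adj (f a) (f b) ↔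
      H.Adj a b := fun a b => f.map_rel_iff
  obtain ⟨l0, hl0, hql0⟩ := hE.Lne
  have nuL : ∀ l, ¬ H.Adj q l → l ≠ u := by
    rintro l h rfl
    exact h (hu q hE.qu).symm
  have hnu := hE.nu hu
  have hhub : ∀ w, w ≠ u → f w ≠ .hub := by
    intro w hwu hw
    obtain ⟨w', hw', _, hww'⟩ := hnu w hwu
    apply hww'
    rw [← fadj, hw]
    rcases hfw : f w' with _ | v | ⟨j, c⟩
    · exact absurd (f.injective (hfw.trans hw.symm)) hw'
    · trivial
    · exact Classical.em _
  have sel_sel : ∀ a b v v', f a = .sel v → f b = .sel v' → ¬ H.Adj a b := by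
    intro a b v v' ha hb h
    rw [← fadj, ha, hb] at h
    exact h.2
  have sel_gad : ∀ a b v j c, f a = .sel v → f b = .gad j c → H.Adj a b → ¬ H.Adj q c := by
    intro a b v j c ha hb h
    rw [← fadj, ha, hb] at h
    rcases h with ⟨_, h⟩ | ⟨_, h⟩
    · exact h
    · exact h.elim
  have gad_gad : ∀ a b j c j' c', f a = .gad j c → f b = .gad j' c' → H.Adj a b →
      j = j' ∧ H.Adj c c' := by
    intro a b j c j' c' ha hb h
    rw [← fadj, ha, hb] at h
    rcases h with ⟨h1, h⟩ | ⟨_, h⟩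
    · exact ⟨h1, h⟩
    · exact h.elim
  have tri : ∀ a b c, a ≠ u → b ≠ u → c ≠ u → H.Adj a b → H.Adj b c → H.Adj a c →
      ∃ j d, f a = .gad j d := by
    intro a b c hau hbu hcu hab hbc hac
    rcases hfa : f a with _ | v | ⟨j, d⟩
    · exact absurd hfa (hhub a hau)
    · exfalso
      rcases hfb : f b with _ | v' | ⟨j, d⟩
      · exact hhub b hbu hfb
      · exact sel_sel a b v v' hfa hfb hab
      · rcases hfc : f c with _ | v'' | ⟨j', d'⟩
        · exact hhub c hcu hfc
        · exact sel_sel a c v v'' hfa hfc hac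
        · have h1 := sel_gad a b v j d hfa hfb hab
          have h2 := sel_gad a c v j' d' hfa hfc hac
          have h3 := (gad_gad b c j d j' d' hfb hfc hbc).2
          exact hE.LL d d' d.2 d'.2 h1 h2 h3
    · exact ⟨j, d, rfl⟩
  obtain ⟨k1, k2, hk1, hk2, hk12⟩ := hbig
  have adjk : H.Adj k1 k2 := hE.KK k1 k2 hk1 hk2 hk12
  obtain ⟨j, dq, hdq⟩ := tri q k1 k2 hE.qu (hE.Ku k1 hk1) (hE.Ku k2 hk2) (hE.Kq k1 hk1) adjk
    (hE.Kq k2 hk2)
  have inj' : ∀ w, K w → ∃ c, f w = .gad j c := by
    intro w hw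
    obtain ⟨k', hk', hne'⟩ : ∃ k', K k' ∧ k' ≠ w := by
      by_cases h : k1 = w
      · exact ⟨k2, hk2, fun e => hk12 (h.trans e.symm)⟩
      · exact ⟨k1, hk1, h⟩
    obtain ⟨j', c, hc'⟩ := tri w q k' (hE.Ku w hw) hE.qu (hE.Ku k' hk') (hE.Kq w hw).symm
      (hE.Kq k' hk') (hE.KK w k' hw hk' hne'.symm)
    have := (gad_gad q w j dq j' c hdq hc' (hE.Kq w hw)).1
    subst this
    exact ⟨c, hc'⟩
  have injL : ∀ w, w ≠ q → ¬ H.Adj q w → ∃ c, f w = .gad j c := by
    intro w hwq hqw
    obtain ⟨j', c, hc'⟩ := tri w k1 k2 (nuL w hqw) (hE.Ku k1 hk1) (hE.Ku k2 hk2)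
      (hE.KL k1 w hk1 hwq hqw).symm adjk (hE.KL k2 w hk2 hwq hqw).symm
    obtain ⟨c1, hc1⟩ := inj' k1 hk1
    have := (gad_gad k1 w j c1 j' c hc1 hc' (hE.KL k1 w hk1 hwq hqw)).1
    subst this
    exact ⟨c, hc'⟩
  by_cases hX : ∀ w, w ≠ u → ∃ c, f w = .gad j c
  · -- everything in one gadget
    choose g hg using hX
    have ginj : Function.Injective (fun w : {w : α // w ≠ u} => g w.1 w.2) := by
      intro a b h
      apply Subtype.ext
      apply f.injective
      have h' : g a.1 a.2 = g b.1 b.2 := h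
      rw [hg a.1 a.2, hg b.1 b.2, h']
    have hcard : Fintype.card {w : α // w ≠ u} = Fintype.card {d : α // d ≠ q} := by
      rw [Fintype.card_subtype_compl, Fintype.card_subtype_compl]
      simp
    have hbij := (Fintype.bijective_iff_injective_and_card _).2 ⟨ginj, hcard⟩
    obtain ⟨⟨b, hbu⟩, hb⟩ := hbij.2 ⟨u, hE.qu.symm⟩
    obtain ⟨w, hw, hwu, hbw⟩ := hnu b hbu
    apply hbw
    rw [← fadj, hg b hbu, hg w hwu]
    refine Or.inl ⟨rfl, ?_⟩
    have hb' : g b hbu = ⟨u, hE.qu.symm⟩ := hb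
    rw [hb']
    apply hu
    intro h
    have : g w hwu = g b hbu := by
      rw [hb']; exact Subtype.ext h
    apply hw
    apply f.injective
    rw [hg w hwu, hg b hbu, this]
  · push Not at hX
    obtain ⟨w, hwu, hw⟩ := hX
    -- w is in X and mapped to a selector
    have hwq : w ≠ q := by
      rintro rfl
      exact hw dq hdq
    have hqw : H.Adj q w := by
      by_contra h
      obtain ⟨c, hc'⟩ := injL w hwq h
      exact hw c hc'
    have hL0 : ¬ H.Adj q dq := by
      rcases hfw : f w with _ | v | ⟨j', c⟩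
      · exact absurd hfw (hhub w hwu)
      · exact sel_gad w q v j dq hfw hdq hqw.symm
      · have := (gad_gad q w j dq j' c hdq hfw hqw).1
        subst this
        exact absurd hfw (hw c)
    obtain ⟨c1, hc1⟩ := inj' k1 hk1
    obtain ⟨c2, hc2⟩ := inj' k2 hk2
    have a1 := (gad_gad q k1 j dq j c1 hdq hc1 (hE.Kq k1 hk1)).2
    have a2 := (gad_gad q k2 j dq j c2 hdq hc2 (hE.Kq k2 hk2)).2
    have hc12 : c1.1 ≠ c2.1 := by
      intro h
      apply hk12
      apply f.injective
      rw [hc1, hc2]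
      congr 1
      exact Subtype.ext h
    -- neighbours of dq in the gadget are in K or u
    have nbr : ∀ c : α, c ≠ q → H.Adj dq c → K c ∨ c = u := by
      intro c hcq hadj
      by_cases hcu : c = u
      · exact Or.inr hcu
      · left
        by_contra hKc
        by_cases hqc : H.Adj q c
        · exact hE.XL c dq hcu hqc hKc dq.2 hL0 hadj
        · exact hE.LL dq c dq.2 hcq hL0 hqc hadj
    obtain ⟨kk, ck, hkk, hck, hKck⟩ : ∃ kk c, K kk ∧ f kk = .gad j c ∧ K c := by
      rcases nbr c1 c1.2 a1 with h | h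
      · exact ⟨k1, c1, hk1, hc1, h⟩
      · rcases nbr c2 c2.2 a2 with h' | h'
        · exact ⟨k2, c2, hk2, hc2, h'⟩
        · exact absurd (h.trans h'.symm) hc12
    -- leaves are mapped to leaves different from dq
    let S : α → Prop := fun l => l ≠ q ∧ ¬ H.Adj q l ∧ l ≠ dq
    have hL : ∀ l, l ≠ q → ¬ H.Adj q l → ∃ c, f l = .gad j c ∧ c ≠ q ∧ ¬ H.Adj q c ∧ c.1 ≠ dq.1 := by
      intro l hlq hql
      obtain ⟨c, hc'⟩ := injL l hlq hql
      have b1 := (gad_gad kk l j ck j c hck hc' (hE.KL kk l hkk hlq hql)).2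
      have b2 : ¬ H.Adj dq c := by
        intro h
        apply hql
        rw [← fadj, hdq, hc']
        exact Or.inl ⟨rfl, h⟩
      have b3 : c.1 ≠ dq.1 := by
        intro h
        apply hlq
        apply f.injective
        rw [hc', hdq]
        congr 1
        exact Subtype.ext h
      refine ⟨c, hc', c.2, ?_, b3⟩
      intro hqc
      by_cases hcu : c.1 = u
      · exact b2 (hcu ▸ (hu dq (nuL _ hL0)).symm)
      · by_cases hKc : K c
        · exact b2 (hE.KL c dq hKc dq.2 hL0).symm
        · exact hE.XK c ck hcu hqc hKc hKck b1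
    haveI : Nonempty {d : α // d ≠ q} := ⟨⟨l0, hl0⟩⟩
    choose! g hg using hL
    refine no_inj_set S dq.1 (fun h => h.2.2 rfl) (fun l => (g l).1) ?_ ?_
    · intro l hl
      have hl' : l ≠ q ∧ ¬ H.Adj q l := by
        rcases hl with h | h
        · exact ⟨h.1, h.2.1⟩
        · rw [h]; exact ⟨dq.2, hL0⟩
      obtain ⟨_, e2, e3, e4⟩ := hg l hl'.1 hl'.2
      exact ⟨e2, e3, e4⟩
    · intro l l' hl hl' h
      have hl1 : l ≠ q ∧ ¬ H.Adj q l := by
        rcases hl with h | h
        · exact ⟨h.1, h.2.1⟩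
        · rw [h]; exact ⟨dq.2, hL0⟩
      have hl2 : l' ≠ q ∧ ¬ H.Adj q l' := by
        rcases hl' with h | h
        · exact ⟨h.1, h.2.1⟩
        · rw [h]; exact ⟨dq.2, hL0⟩
      apply f.injective
      rw [(hg l hl1.1 hl1.2).1, (hg l' hl2.1 hl2.2).1]
      congr 1
      exact Subtype.ext h

end HFC
end

section

open Classical

namespace HFC

variable {α V J : Type}

/-- The rule for `H - u = leaves - clique - q - X` with an edge inside `X`. -/
theorem mrule [Fintype α] {H : SimpleGraph α} {u : α} (hu : ∀ w, w ≠ u → H.Adj u w)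
    {q : α} {K : α → Prop} (hE : ExcU H u q K) {x1 x2 : α}
    (hx1 : x1 ≠ u) (hqx1 : H.Adj q x1) (hKx1 : ¬ K x1)
    (hx2 : x2 ≠ u) (hqx2 : H.Adj q x2) (hKx2 : ¬ K x2) (hx12 : H.Adj x1 x2) : HasPat H := by
  let Z : α → Prop := fun d => H.Adj q d ∧ d ≠ x1
  refine dPat_good H q (fun a b => Z a ∧ Z b) (fun a b h => ⟨h.2, h.1⟩) (fun _ => True)
    Z True (fun a b h => h.1.1) (fun a h => h.1) ?_
  intro V J rel
  refine ⟨fun f => ?_⟩
  have fadj : ∀ a b, ((dPat H q (fun a b => Z a ∧ Z b) (fun a b h => ⟨h.2, h.1⟩) (fun _ => True)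
    Z True).graph (fun c => H.Adj q c ∨ True) rel).Adj (f a) (f b) ↔
      H.Adj a b := fun a b => f.map_rel_iff
  obtain ⟨l0, hl0, hql0⟩ := hE.Lne
  obtain ⟨k0, hk0⟩ := hE.Kne
  have nuL : ∀ l, ¬ H.Adj q l → l ≠ u := by
    rintro l h rfl
    exact h (hu q hE.qu).symm
  have hnu := hE.nu hu
  have hhub : ∀ w, w ≠ u → f w ≠ .hub := by
    intro w hwu hw
    obtain ⟨w', hw', _, hww'⟩ := hnu w hwu
    apply hww'
    rw [← fadj, hw]
    rcases hfw : f w' with _ | v | ⟨j, c⟩
    · exact absurd (f.injective (hfw.trans hw.symm)) hw'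
    · trivial
    · exact Or.inr trivial
  have Zu : Z u := ⟨(hu q hE.qu).symm, hx1.symm⟩
  -- core vertices
  let core : SV V J {d : α // d ≠ q} → Prop := fun s => match s with
    | .hub => False
    | .sel _ => True
    | .gad _ c => Z c
  have gadj : ∀ a b j c j' c', f a = .gad j c → f b = .gad j' c' →
      (H.Adj a b ↔ (j = j' ∧ H.Adj c c') ∨ (j ≠ j' ∧ Z c ∧ Z c')) := by
    intro a b j c j' c' ha hb
    rw [← fadj, ha, hb]
    rfl
  have sgadj : ∀ a b v j c, f a = .sel v → f b = .gad j c →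
      (H.Adj a b ↔ (rel v j ∧ True) ∨ (¬ rel v j ∧ Z c)) := by
    intro a b v j c ha hb
    rw [← fadj, ha, hb]
    rfl
  have ssadj : ∀ a b v v', f a = .sel v → f b = .sel v' → a ≠ b → H.Adj a b := by
    intro a b v v' ha hb hab
    rw [← fadj, ha, hb]
    refine ⟨?_, trivial⟩
    rintro rfl
    exact hab (f.injective (ha.trans hb.symm))
  -- an edge has a core endpoint
  have edgecore : ∀ a b, a ≠ u → b ≠ u → H.Adj a b → core (f a) ∨ core (f b) := by
    intro a b hau hbu hab
    rcases hfa : f a with _ | v | ⟨j, c⟩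
    · exact absurd hfa (hhub a hau)
    · exact Or.inl trivial
    · rcases hfb : f b with _ | v' | ⟨j', c'⟩
      · exact absurd hfb (hhub b hbu)
      · exact Or.inr trivial
      · by_contra hcon
        push Not at hcon
        have h1 : ¬ Z c := hcon.1
        have h2 : ¬ Z c' := hcon.2
        rcases (gadj a b j c j' c' hfa hfb).1 hab with ⟨_, h⟩ | ⟨_, h, _⟩
        · -- both in L ∪ {x1}
          have e1 : H.Adj q c → c.1 = x1 := fun hq => by
            by_contra hne; exact h1 ⟨hq, hne⟩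
          have e2 : H.Adj q c' → c'.1 = x1 := fun hq => by
            by_contra hne; exact h2 ⟨hq, hne⟩
          by_cases hc : H.Adj q c
          · by_cases hc' : H.Adj q c'
            · exact H.ne_of_adj h ((e1 hc).trans (e2 hc').symm)
            · have := e1 hc
              rw [this] at h
              exact hE.XL x1 c' hx1 hqx1 hKx1 c'.2 hc' h.symm
          · by_cases hc' : H.Adj q c'
            · have := e2 hc'
              rw [this] at h
              exact hE.XL x1 c hx1 hqx1 hKx1 c.2 hc h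
            · exact hE.LL c c' c.2 c'.2 hc hc' h
        · exact h1 h
  -- two nonadjacent core vertices are in one gadget
  have corecore : ∀ a b, a ≠ u → b ≠ u → a ≠ b → core (f a) → core (f b) → ¬ H.Adj a b →
      ∃ j c c', f a = .gad j c ∧ f b = .gad j c' ∧ Z c ∧ Z c' ∧ c.1 ≠ u ∧ c'.1 ≠ u := by
    intro a b hau hbu hab hca hcb hnab
    rcases hfa : f a with _ | v | ⟨j, c⟩
    · exact absurd hfa (hhub a hau)
    · rcases hfb : f b with _ | v' | ⟨j', c'⟩
      · exact absurd hfb (hhub b hbu)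
      · exact absurd (ssadj a b v v' hfa hfb hab) hnab
      · rw [hfb] at hcb
        exact absurd ((sgadj a b v j' c' hfa hfb).2 (by
          by_cases h : rel v j'
          · exact Or.inl ⟨h, trivial⟩
          · exact Or.inr ⟨h, hcb⟩)) hnab
    · rcases hfb : f b with _ | v' | ⟨j', c'⟩
      · exact absurd hfb (hhub b hbu)
      · rw [hfa] at hca
        exact absurd ((sgadj b a v' j c hfb hfa).2 (by
          by_cases h : rel v' j
          · exact Or.inl ⟨h, trivial⟩
          · exact Or.inr ⟨h, hca⟩)).symm hnab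
      · rw [hfa] at hca
        rw [hfb] at hcb
        have hjj : j = j' := by
          by_contra hne
          exact hnab ((gadj a b j c j' c' hfa hfb).2 (Or.inr ⟨hne, hca, hcb⟩))
        subst hjj
        have hcc : c.1 ≠ c'.1 := by
          intro h
          apply hab
          apply f.injective
          rw [hfa, hfb]
          congr 1
          exact Subtype.ext h
        have hn : ¬ H.Adj c c' := fun h => hnab ((gadj a b j c j c' hfa hfb).2 (Or.inl ⟨rfl, h⟩))
        refine ⟨j, c, c', rfl, rfl, hca, hcb, ?_, ?_⟩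
        · intro h
          apply hn
          rw [h]
          exact hu _ (fun e => hcc (h.trans e.symm))
        · intro h
          apply hn
          rw [h]
          exact (hu _ (fun e => hcc (e.trans h.symm))).symm
  -- the partner of a core vertex avoiding another core vertex
  have partner : ∀ a b c j d e, a ≠ u → b ≠ u → c ≠ u → b ≠ c → f a = .gad j d → f c = .gad j e →
      Z e → H.Adj a b → ¬ H.Adj b c → ∃ d', f b = .gad j d' := by
    intro a b c j d e hau hbu hcu hbc hfa hfc hZe hab hnbc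
    rcases hfb : f b with _ | v | ⟨j', d'⟩
    · exact absurd hfb (hhub b hbu)
    · exact absurd ((sgadj b c v j e hfb hfc).2 (by
        by_cases h : rel v j
        · exact Or.inl ⟨h, trivial⟩
        · exact Or.inr ⟨h, hZe⟩)) hnbc
    · by_cases hjj : j = j'
      · subst hjj; exact ⟨d', rfl⟩
      · exfalso
        rcases (gadj a b j d j' d' hfa hfb).1 hab with ⟨h, _⟩ | ⟨_, _, h⟩
        · exact hjj h
        · exact hnbc ((gadj b c j' d' j e hfb hfc).2 (Or.inr ⟨Ne.symm hjj, h, hZe⟩))
  -- every 2K2 lies in one gadget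
  have twoK2 : ∀ a b c d, a ≠ u → b ≠ u → c ≠ u → d ≠ u → H.Adj a b → H.Adj c d →
      a ≠ c → a ≠ d → b ≠ c → b ≠ d → ¬ H.Adj a c → ¬ H.Adj a d → ¬ H.Adj b c → ¬ H.Adj b d →
      ∃ j ca cb cc cd, f a = .gad j ca ∧ f b = .gad j cb ∧ f c = .gad j cc ∧ f d = .gad j cd := by
    have main : ∀ a b c d, a ≠ u → b ≠ u → c ≠ u → d ≠ u → H.Adj a b → H.Adj c d →
        a ≠ c → a ≠ d → b ≠ c → b ≠ d → ¬ H.Adj a c → ¬ H.Adj a d → ¬ H.Adj b c →
        ¬ H.Adj b d → core (f a) → core (f c) →
        ∃ j ca cb cc cd, f a = .gad j ca ∧ f b = .gad j cb ∧ f c = .gad j cc ∧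
          f d = .gad j cd := by
      intro a b c d hau hbu hcu hdu hab hcd hac had hbc hbd nac nad nbc nbd hca hcc
      obtain ⟨j, ca, cc, h1, h2, h3, h4, _, _⟩ := corecore a c hau hcu hac hca hcc nac
      obtain ⟨cb, hcb⟩ := partner a b c j ca cc hau hbu hcu hbc h1 h2 h4 hab nbc
      obtain ⟨cd, hcd'⟩ := partner c d a j cc ca hcu hdu hau (Ne.symm had) h2 h1 h3 hcd
        (fun h => nad h.symm)
      exact ⟨j, ca, cb, cc, cd, h1, hcb, h2, hcd'⟩
    intro a b c d hau hbu hcu hdu hab hcd hac had hbc hbd nac nad nbc nbd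
    rcases edgecore a b hau hbu hab with h1 | h1
    · rcases edgecore c d hcu hdu hcd with h2 | h2
      · exact main a b c d hau hbu hcu hdu hab hcd hac had hbc hbd nac nad nbc nbd h1 h2
      · obtain ⟨j, ca, cb, cd, cc, e1, e2, e3, e4⟩ :=
          main a b d c hau hbu hdu hcu hab hcd.symm had hac hbd hbc nad nac nbd nbc h1 h2
        exact ⟨j, ca, cb, cc, cd, e1, e2, e4, e3⟩
    · rcases edgecore c d hcu hdu hcd with h2 | h2
      · obtain ⟨j, cb, ca, cc, cd, e1, e2, e3, e4⟩ :=
          main b a c d hbu hau hcu hdu hab.symm hcd hbc hbd hac had nbc nbd nac nad h1 h2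
        exact ⟨j, ca, cb, cc, cd, e2, e1, e3, e4⟩
      · obtain ⟨j, cb, ca, cd, cc, e1, e2, e3, e4⟩ :=
          main b a d c hbu hau hdu hcu hab.symm hcd.symm hbd hbc had hac nbd nbc nad nac h1 h2
        exact ⟨j, ca, cb, cc, cd, e2, e1, e4, e3⟩
  -- facts on H
  have Lx : ∀ l w, l ≠ q → ¬ H.Adj q l → w ≠ u → H.Adj q w → ¬ K w → l ≠ w ∧ ¬ H.Adj l w :=
    fun l w h1 h2 h3 h4 h5 => ⟨fun e => h2 (e ▸ h4), hE.XL w l h3 h4 h5 h1 h2⟩
  have Kx : ∀ k w, K k → w ≠ u → H.Adj q w → ¬ K w → k ≠ w ∧ ¬ H.Adj k w :=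
    fun k w h1 h3 h4 h5 => ⟨fun e => h5 (e ▸ h1), hE.XK w k h3 h4 h5 h1⟩
  -- use a leaf, a clique vertex and an edge of X
  have use : ∀ l k w w', l ≠ q → ¬ H.Adj q l → K k → w ≠ u → H.Adj q w → ¬ K w →
      w' ≠ u → H.Adj q w' → ¬ K w' → H.Adj w w' →
      ∃ j cl ck cw cw', f l = .gad j cl ∧ f k = .gad j ck ∧ f w = .gad j cw ∧
        f w' = .gad j cw' := by
    intro l k w w' h1 h2 h3 h4 h5 h6 h7 h8 h9 h10
    have a1 := Lx l w h1 h2 h4 h5 h6
    have a2 := Lx l w' h1 h2 h7 h8 h9
    have a3 := Kx k w h3 h4 h5 h6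
    have a4 := Kx k w' h3 h7 h8 h9
    exact twoK2 l k w w' (nuL l h2) (hE.Ku k h3) h4 h7 (hE.KL k l h3 h1 h2).symm h10
      a1.1 a2.1 a3.1 a4.1 a1.2 a2.2 a3.2 a4.2
  obtain ⟨j, cl0, ck0, cx1, cx2, fl0, fk0, fx1, fx2⟩ :=
    use l0 k0 x1 x2 hl0 hql0 hk0 hx1 hqx1 hKx1 hx2 hqx2 hKx2 hx12
  have inL : ∀ l, l ≠ q → ¬ H.Adj q l → ∃ c, f l = .gad j c := by
    intro l h1 h2
    obtain ⟨j', c1, c2, c3, c4, e1, e2, e3, e4⟩ :=
      use l k0 x1 x2 h1 h2 hk0 hx1 hqx1 hKx1 hx2 hqx2 hKx2 hx12
    rw [fk0] at e2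
    injection e2 with e5 _
    subst e5
    exact ⟨c1, e1⟩
  have inK : ∀ k, K k → ∃ c, f k = .gad j c := by
    intro k hk
    obtain ⟨j', c1, c2, c3, c4, e1, e2, e3, e4⟩ :=
      use l0 k x1 x2 hl0 hql0 hk hx1 hqx1 hKx1 hx2 hqx2 hKx2 hx12
    rw [fl0] at e1
    injection e1 with e5 _
    subst e5
    exact ⟨c2, e2⟩
  -- non-isolated vertices of X
  let Xs : α → Prop := fun w => w ≠ u ∧ H.Adj q w ∧ ¬ K w ∧
    ∃ w', w' ≠ u ∧ H.Adj q w' ∧ ¬ K w' ∧ H.Adj w w'
  have inX : ∀ w, Xs w → ∃ c, f w = .gad j c := by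
    rintro w ⟨h1, h2, h3, w', h4, h5, h6, h7⟩
    obtain ⟨j', c1, c2, c3, c4, e1, e2, e3, e4⟩ :=
      use l0 k0 w w' hl0 hql0 hk0 h1 h2 h3 h4 h5 h6 h7
    rw [fl0] at e1
    injection e1 with e5 _
    subst e5
    exact ⟨c3, e3⟩
  have Xs1 : Xs x1 := ⟨hx1, hqx1, hKx1, x2, hx2, hqx2, hKx2, hx12⟩
  have Xs2 : Xs x2 := ⟨hx2, hqx2, hKx2, x1, hx1, hqx1, hKx1, hx12.symm⟩
  -- a vertex of gadget j with a nonneighbour is not of class u
  have notu : ∀ w w' c c', f w = .gad j c → f w' = .gad j c' → w ≠ w' → ¬ H.Adj w w' →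
      c.1 ≠ u := by
    intro w w' c c' e1 e2 hne hn h
    apply hn
    rw [gadj w w' j c j c' e1 e2]
    refine Or.inl ⟨rfl, ?_⟩
    rw [h]
    apply hu
    intro h'
    apply hne
    apply f.injective
    rw [e1, e2]
    congr 1
    exact Subtype.ext (h.trans h'.symm)
  have l0q : l0 ≠ q := hl0
  rcases hfq : f q with _ | v | ⟨jq, cq⟩
  · exact absurd hfq (hhub q hE.qu)
  all_goals
    by_cases hcase : ∃ c : {d : α // d ≠ q}, f q = .gad j c
    · -- q in the same gadget
      obtain ⟨cq', hcq⟩ := hcase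
      -- classes
      let S : α → Prop := fun w => Xs w
      -- a set T of vertices in gadget j
      let Tm : α → Prop := fun w => (w ≠ q ∧ ¬ H.Adj q w) ∨ K w ∨ w = q ∨ Xs w
      have inT : ∀ w, Tm w → ∃ c, f w = .gad j c := by
        rintro w (h | h | h | h)
        · exact inL w h.1 h.2
        · exact inK w h
        · rw [h]; exact ⟨cq', hcq⟩
        · exact inX w h
      haveI : Nonempty {d : α // d ≠ q} := ⟨⟨l0, hl0⟩⟩
      choose! g hg using inT
      have Tu : ∀ w, Tm w → (g w).1 ≠ u := by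
        rintro w hw
        have hgw := hg w hw
        rcases hw with h | h | h | h
        · exact notu w q _ _ hgw hcq h.1 (fun e => h.2 e.symm)
        · exact notu w x1 _ _ hgw fx1 (Kx w x1 h hx1 hqx1 hKx1).1 (Kx w x1 h hx1 hqx1 hKx1).2
        · exact notu w l0 _ _ hgw fl0 (h ▸ hl0.symm) (h ▸ hql0)
        · exact notu w l0 _ _ hgw fl0 (Lx l0 w hl0 hql0 h.1 h.2.1 h.2.2.1).1.symm
            (fun e => (Lx l0 w hl0 hql0 h.1 h.2.1 h.2.2.1).2 e.symm)
      have Tadj : ∀ w w', Tm w → Tm w' → (H.Adj w w' ↔ H.Adj (g w) (g w')) := by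
        intro w w' hw hw'
        rw [gadj w w' j _ j _ (hg w hw) (hg w' hw')]
        simp
      have Tinj : ∀ w w', Tm w → Tm w' → (g w).1 = (g w').1 → w = w' := by
        intro w w' hw hw' h
        apply f.injective
        rw [hg w hw, hg w' hw']
        congr 1
        exact Subtype.ext h
      let inXc : α → Prop := fun d => H.Adj q d ∧ ¬ K d
      have Xstep : ∀ w w', Tm w → Tm w' → H.Adj w w' → inXc (g w) → inXc (g w') := by
        intro w w' hw hw' hadj hX
        have h1 := (Tadj w w' hw hw').1 hadj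
        by_cases h2 : H.Adj q (g w')
        · refine ⟨h2, fun h3 => ?_⟩
          exact hE.XK _ _ (Tu w hw) hX.1 hX.2 h3 h1.symm
        · exact absurd h1.symm (hE.XL _ _ (Tu w hw) hX.1 hX.2 (g w').2 h2)
      have tq : Tm q := Or.inr (Or.inr (Or.inl rfl))
      have tK : ∀ k, K k → Tm k := fun k hk => Or.inr (Or.inl hk)
      have tL : ∀ l, l ≠ q → ¬ H.Adj q l → Tm l := fun l h1 h2 => Or.inl ⟨h1, h2⟩
      have tX : ∀ w, Xs w → Tm w := fun w hw => Or.inr (Or.inr (Or.inr hw))
      by_cases hqX : inXc (g q)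
      · -- all classes are in X
        have allX : ∀ w, Tm w → inXc (g w) := by
          rintro w (h | h | h | h)
          · exact Xstep k0 w (tK k0 hk0) (tL w h.1 h.2) (hE.KL k0 w hk0 h.1 h.2)
              (Xstep q k0 tq (tK k0 hk0) (hE.Kq k0 hk0) hqX)
          · exact Xstep q w tq (tK w h) (hE.Kq w h) hqX
          · rw [h]; exact hqX
          · exact Xstep q w tq (tX w h) h.2.1 hqX
        have nb : ∀ w, Tm w → ∃ w', Tm w' ∧ H.Adj w w' := by
          rintro w (h | h | h | h)
          · exact ⟨k0, tK k0 hk0, (hE.KL k0 w hk0 h.1 h.2).symm⟩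
          · exact ⟨q, tq, (hE.Kq w h).symm⟩
          · rw [h]; exact ⟨k0, tK k0 hk0, hE.Kq k0 hk0⟩
          · exact ⟨q, tq, h.2.1.symm⟩
        have toXs : ∀ w, Tm w → Xs (g w) := by
          intro w hw
          obtain ⟨w', hw', hadj⟩ := nb w hw
          exact ⟨Tu w hw, (allX w hw).1, (allX w hw).2, g w', Tu w' hw', (allX w' hw').1,
            (allX w' hw').2, (Tadj w w' hw hw').1 hadj⟩
        refine no_inj_set Xs q (fun h => H.ne_of_adj h.2.1 rfl) (fun w => (g w).1) ?_ ?_
        · rintro w (h | h)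
          · exact toXs w (tX w h)
          · rw [h]; exact toXs q tq
        · intro w w' hw hw' h
          apply Tinj w w' _ _ h
          · rcases hw with h | h
            · exact tX w h
            · rw [h]; exact tq
          · rcases hw' with h | h
            · exact tX w' h
            · rw [h]; exact tq
      · -- all classes are in K ∪ L
        have allKL : ∀ w, Tm w → H.Adj q w ∨ w = q → ¬ inXc (g w) := by
          rintro w hw (h | h) hX
          · exact hqX (Xstep w q hw tq h.symm hX)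
          · rw [h] at hX; exact hqX hX
        have kNX : ¬ inXc (g k0) := allKL k0 (tK k0 hk0) (Or.inl (hE.Kq k0 hk0))
        have lNX : ¬ inXc (g l0) := fun h =>
          kNX (Xstep l0 k0 (tL l0 hl0 hql0) (tK k0 hk0) (hE.KL k0 l0 hk0 hl0 hql0).symm h)
        have x1NX : ¬ inXc (g x1) := allKL x1 (tX x1 Xs1) (Or.inl hqx1)
        have x2NX : ¬ inXc (g x2) := allKL x2 (tX x2 Xs2) (Or.inl hqx2)
        have KorL : ∀ w, ¬ inXc (g w) → K (g w) ∨ ¬ H.Adj q (g w) := by
          intro w h
          by_cases h' : H.Adj q (g w)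
          · exact Or.inl (by by_contra h''; exact h ⟨h', h''⟩)
          · exact Or.inr h'
        -- one end of each edge is in K
        have e1 : K (g l0) ∨ K (g k0) := by
          rcases KorL l0 lNX with h | h
          · exact Or.inl h
          · rcases KorL k0 kNX with h' | h'
            · exact Or.inr h'
            · exact absurd ((Tadj l0 k0 (tL l0 hl0 hql0) (tK k0 hk0)).1
                (hE.KL k0 l0 hk0 hl0 hql0).symm) (hE.LL _ _ (g l0).2 (g k0).2 h h')
        have e2 : K (g x1) ∨ K (g x2) := by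
          rcases KorL x1 x1NX with h | h
          · exact Or.inl h
          · rcases KorL x2 x2NX with h' | h'
            · exact Or.inr h'
            · exact absurd ((Tadj x1 x2 (tX x1 Xs1) (tX x2 Xs2)).1 hx12)
                (hE.LL _ _ (g x1).2 (g x2).2 h h')
        have fin : ∀ a b, Tm a → Tm b → a ≠ b → ¬ H.Adj a b → K (g a) → K (g b) → False := by
          intro a b ha hb hab hn h1 h2
          apply hn
          rw [Tadj a b ha hb]
          exact hE.KK _ _ h1 h2 (fun e => hab (Tinj a b ha hb e))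
        have tl := tL l0 hl0 hql0
        have tk := tK k0 hk0
        have t1 := tX x1 Xs1
        have t2 := tX x2 Xs2
        rcases e1 with h1 | h1
        · rcases e2 with h2 | h2
          · exact fin l0 x1 tl t1 (Lx l0 x1 hl0 hql0 hx1 hqx1 hKx1).1
              (Lx l0 x1 hl0 hql0 hx1 hqx1 hKx1).2 h1 h2
          · exact fin l0 x2 tl t2 (Lx l0 x2 hl0 hql0 hx2 hqx2 hKx2).1
              (Lx l0 x2 hl0 hql0 hx2 hqx2 hKx2).2 h1 h2
        · rcases e2 with h2 | h2
          · exact fin k0 x1 tk t1 (Kx k0 x1 hk0 hx1 hqx1 hKx1).1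
              (Kx k0 x1 hk0 hx1 hqx1 hKx1).2 h1 h2
          · exact fin k0 x2 tk t2 (Kx k0 x2 hk0 hx2 hqx2 hKx2).1
              (Kx k0 x2 hk0 hx2 hqx2 hKx2).2 h1 h2
    · -- q outside gadget j : neighbours of q in gadget j have classes in Z
      have qZ : ∀ w c, f w = .gad j c → H.Adj q w → Z c := by
        intro w c hw hqw
        rcases hfq' : f q with _ | v' | ⟨j', c'⟩
        · exact absurd hfq' (hhub q hE.qu)
        · rcases (sgadj q w v' j c hfq' hw).1 hqw with ⟨h, _⟩ | ⟨_, h⟩
          · exfalso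
            exact hql0 ((sgadj q l0 v' j cl0 hfq' fl0).2 (Or.inl ⟨h, trivial⟩))
          · exact h
        · rcases (gadj q w j' c' j c hfq' hw).1 hqw with ⟨h, _⟩ | ⟨_, _, h⟩
          · exact absurd ⟨c', by rw [hfq', h]⟩ hcase
          · exact h
      let N1 : α → Prop := fun w => w ≠ u ∧ H.Adj q w ∧ (∃ w', w' ≠ u ∧ H.Adj q w' ∧ H.Adj w w')
      have N1in : ∀ w, N1 w → ∃ c, f w = .gad j c := by
        rintro w ⟨h1, h2, w', h3, h4, h5⟩
        by_cases hK : K w
        · exact inK w hK
        · by_cases hK' : K w'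
          · exact absurd h5.symm (hE.XK w w' h1 h2 hK hK')
          · exact inX w ⟨h1, h2, hK, w', h3, h4, hK', h5⟩
      haveI : Nonempty {d : α // d ≠ q} := ⟨⟨l0, hl0⟩⟩
      choose! g hg using N1in
      have N1x : N1 x1 := ⟨hx1, hqx1, x2, hx2, hqx2, hx12⟩
      have gu : ∀ w, N1 w → (g w).1 ≠ u := by
        intro w hw
        by_cases hK : K w
        · exact notu w x1 _ _ (hg w hw) fx1 (Kx w x1 hK hx1 hqx1 hKx1).1
            (Kx w x1 hK hx1 hqx1 hKx1).2
        · exact notu w l0 _ _ (hg w hw) fl0 (Lx l0 w hl0 hql0 hw.1 hw.2.1 hK).1.symm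
            (fun e => (Lx l0 w hl0 hql0 hw.1 hw.2.1 hK).2 e.symm)
      let S : α → Prop := fun w => N1 w ∧ w ≠ x1
      refine no_inj_set S x1 (fun h => h.2 rfl) (fun w => (g w).1) ?_ ?_
      · intro w hw
        have hw' : N1 w := by
          rcases hw with h | h
          · exact h.1
          · rw [h]; exact N1x
        have hZ := qZ w (g w) (hg w hw') hw'.2.1
        obtain ⟨h1, h2, w', h3, h4, h5⟩ := hw'
        have hN' : N1 w' := ⟨h3, h4, w, h1, h2, h5.symm⟩
        have hZ' := qZ w' (g w') (hg w' hN') h4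
        refine ⟨⟨gu w ⟨h1, h2, w', h3, h4, h5⟩, hZ.1, (g w').1, gu w' hN', hZ'.1, ?_⟩, hZ.2⟩
        have := (gadj w w' j _ j _ (hg w ⟨h1, h2, w', h3, h4, h5⟩) (hg w' hN')).1 h5
        rcases this with ⟨_, h⟩ | ⟨h, _⟩
        · exact h
        · exact absurd rfl h
      · intro w w' hw hw' h
        have hw1 : N1 w := by
          rcases hw with h | h
          · exact h.1
          · rw [h]; exact N1x
        have hw2 : N1 w' := by
          rcases hw' with h | h
          · exact h.1
          · rw [h]; exact N1x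
        apply f.injective
        rw [hg w hw1, hg w' hw2]
        congr 1
        exact Subtype.ext h

end HFC
end

section

open Classical

namespace HFC

variable {α V J : Type}

/-- Two universal vertices. -/
theorem u2_lemma [Fintype α] {H : SimpleGraph α} {u1 u2 x y : α} (h12 : u1 ≠ u2)
    (hu1 : ∀ w, w ≠ u1 → H.Adj u1 w) (hu2 : ∀ w, w ≠ u2 → H.Adj u2 w)
    (hxy : x ≠ y) (hnxy : ¬ H.Adj x y)
    (h : (∀ q, q ≠ u1 → q ≠ u2 → ∃ a, a ≠ u1 ∧ a ≠ u2 ∧ H.Adj q a) ∨
      ((∀ w, H.Adj x w → w = u1 ∨ w = u2) ∧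
        ∃ a b c d, a ≠ u1 ∧ a ≠ u2 ∧ b ≠ u1 ∧ b ≠ u2 ∧ c ≠ u1 ∧ c ≠ u2 ∧ d ≠ u1 ∧ d ≠ u2 ∧
          H.Adj a b ∧ H.Adj c d ∧ a ≠ c ∧ a ≠ d)) : HasPat H := by
  have hxu1 : x ≠ u1 := by rintro rfl; exact hnxy (hu1 y hxy.symm)
  have hxu2 : x ≠ u2 := by rintro rfl; exact hnxy (hu2 y hxy.symm)
  have hyu1 : y ≠ u1 := by rintro rfl; exact hnxy (hu1 x hxy).symm
  have hyu2 : y ≠ u2 := by rintro rfl; exact hnxy (hu2 x hxy).symm
  refine dPat_good H x (fun _ _ => False) (fun _ _ h => h) (fun d => d = y)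
    (fun _ => False) False (fun _ _ h => h.elim) (fun _ h => h.elim) ?_
  intro V J rel
  refine ⟨fun f => ?_⟩
  have fadj : ∀ a b, ((dPat H x (fun _ _ => False) (fun _ _ h => h) (fun d => d = y)
    (fun _ => False) False).graph (fun c => H.Adj x c ∨ c = y) rel).Adj (f a) (f b) ↔
      H.Adj a b := fun a b => f.map_rel_iff
  have sel_sel : ∀ a b v v', f a = .sel v → f b = .sel v' → ¬ H.Adj a b := by
    intro a b v v' ha hb h
    rw [← fadj, ha, hb] at h
    exact h.2
  have sel_gad : ∀ a b v j c, f a = .sel v → f b = .gad j c → H.Adj a b → c.1 = y := by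
    intro a b v j c ha hb h
    rw [← fadj, ha, hb] at h
    rcases h with ⟨_, h⟩ | ⟨_, h⟩
    · exact h
    · exact h.elim
  have gad_gad : ∀ a b j c j' c', f a = .gad j c → f b = .gad j' c' → H.Adj a b →
      j = j' ∧ H.Adj c c' := by
    intro a b j c j' c' ha hb h
    rw [← fadj, ha, hb] at h
    rcases h with ⟨h1, h⟩ | ⟨_, h⟩
    · exact ⟨h1, h⟩
    · exact h.elim
  have hub_gad : ∀ a b j c, f a = .hub → f b = .gad j c → H.Adj a b → H.Adj x c ∨ c.1 = y := by
    intro a b j c ha hb h
    rw [← fadj, ha, hb] at h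
    exact h
  -- a neighbour of a selector vertex
  have nbr_sel : ∀ a b v, f a = .sel v → H.Adj a b → f b = .hub ∨ ∃ j c, f b = .gad j c ∧ c.1 = y := by
    intro a b v ha hab
    rcases hb : f b with _ | v' | ⟨j, c⟩
    · exact Or.inl rfl
    · exact absurd hab (sel_sel a b v v' ha hb)
    · exact Or.inr ⟨j, c, rfl, sel_gad a b v j c ha hb hab⟩
  have two_y : ∀ a b j c j' c', f a = .gad j c → c.1 = y → f b = .gad j' c' → c'.1 = y →
      ¬ H.Adj a b := by
    intro a b j c j' c' ha hc hb hc' hab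
    have := (gad_gad a b j c j' c' ha hb hab).2
    rw [hc, hc'] at this
    exact H.ne_of_adj this rfl
  have hub_hub : ∀ a b, f a = .hub → f b = .hub → ¬ H.Adj a b := by
    intro a b ha hb hab
    exact H.ne_of_adj hab (f.injective (ha.trans hb.symm))
  -- a universal vertex is not a selector
  have unisel : ∀ u u', (∀ w, w ≠ u → H.Adj u w) → (∀ w, w ≠ u' → H.Adj u' w) → u ≠ u' →
      (u = u1 ∧ u' = u2 ∨ u = u2 ∧ u' = u1) → ∀ v, f u ≠ .sel v := by
    intro u u' hu hu' huu hcase v hfu
    have hedge : ∃ a b, a ≠ u ∧ a ≠ u' ∧ b ≠ u ∧ b ≠ u' ∧ H.Adj a b := by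
      have : ∃ a b, a ≠ u1 ∧ a ≠ u2 ∧ b ≠ u1 ∧ b ≠ u2 ∧ H.Adj a b := by
        rcases h with h | ⟨_, a, b, c, d, h1, h2, h3, h4, h5, h6, h7, h8, h9, _⟩
        · obtain ⟨a, ha1, ha2, ha3⟩ := h x hxu1 hxu2
          exact ⟨x, a, hxu1, hxu2, ha1, ha2, ha3⟩
        · exact ⟨a, b, h1, h2, h3, h4, h9⟩
      obtain ⟨a, b, h1, h2, h3, h4, h5⟩ := this
      rcases hcase with ⟨e1, e2⟩ | ⟨e1, e2⟩
      · subst e1; subst e2; exact ⟨a, b, h1, h2, h3, h4, h5⟩
      · subst e1; subst e2; exact ⟨a, b, h2, h1, h4, h3, h5⟩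
    obtain ⟨a, b, hau, hau', hbu, hbu', hab⟩ := hedge
    have na := nbr_sel u a v hfu (hu a hau)
    have nb := nbr_sel u b v hfu (hu b hbu)
    have nu' := nbr_sel u u' v hfu (hu u' huu.symm)
    rcases na with na | ⟨ja, ca, na, hca⟩
    · rcases nb with nb | ⟨jb, cb, nb, hcb⟩
      · exact hub_hub a b na nb hab
      · rcases nu' with nu' | ⟨j', c', nu', hc'⟩
        · exact hub_hub u' a nu' na (hu' a hau')
        · exact two_y u' b j' c' jb cb nu' hc' nb hcb (hu' b hbu')
    · rcases nb with nb | ⟨jb, cb, nb, hcb⟩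
      · rcases nu' with nu' | ⟨j', c', nu', hc'⟩
        · exact hub_hub u' b nu' nb (hu' b hbu')
        · exact two_y u' a j' c' ja ca nu' hc' na hca (hu' a hau')
      · exact two_y a b ja ca jb cb na hca nb hcb hab
  have ns1 : ∀ v, f u1 ≠ .sel v := unisel u1 u2 hu1 hu2 h12 (Or.inl ⟨rfl, rfl⟩)
  have ns2 : ∀ v, f u2 ≠ .sel v := unisel u2 u1 hu2 hu1 h12.symm (Or.inr ⟨rfl, rfl⟩)
  -- no selector in the image
  have nosel : ∀ q v, f q ≠ .sel v := by
    intro q v hq
    have hq1 : q ≠ u1 := by rintro rfl; exact ns1 v hq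
    have hq2 : q ≠ u2 := by rintro rfl; exact ns2 v hq
    have n1 := nbr_sel q u1 v hq (hu1 q hq1).symm
    have n2 := nbr_sel q u2 v hq (hu2 q hq2).symm
    have a12 : H.Adj u1 u2 := hu1 u2 h12.symm
    -- third neighbour impossible
    have third : ∀ a, a ≠ u1 → a ≠ u2 → ¬ H.Adj q a := by
      intro a ha1 ha2 hqa
      have na := nbr_sel q a v hq hqa
      rcases n1 with n1 | ⟨j1, c1, n1, hc1⟩
      · rcases n2 with n2 | ⟨j2, c2, n2, hc2⟩
        · exact hub_hub _ _ n1 n2 a12
        · rcases na with na | ⟨ja, ca, na, hca⟩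
          · exact hub_hub _ _ n1 na (hu1 a ha1)
          · exact two_y _ _ _ _ _ _ n2 hc2 na hca (hu2 a ha2)
      · rcases n2 with n2 | ⟨j2, c2, n2, hc2⟩
        · rcases na with na | ⟨ja, ca, na, hca⟩
          · exact hub_hub _ _ n2 na (hu2 a ha2)
          · exact two_y _ _ _ _ _ _ n1 hc1 na hca (hu1 a ha1)
        · exact two_y _ _ _ _ _ _ n1 hc1 n2 hc2 a12
    rcases h with h | ⟨hNx, a, b, c, d, h1, h2, h3, h4, h5, h6, h7, h8, hab, hcd, hac, had⟩
    · obtain ⟨a, ha1, ha2, ha3⟩ := h q hq1 hq2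
      exact third a ha1 ha2 ha3
    · -- {f u1, f u2} = {hub, gad j y}
      have hpair : ∃ j cy, cy.1 = y ∧ ((f u1 = .hub ∧ f u2 = .gad j cy) ∨
          (f u2 = .hub ∧ f u1 = .gad j cy)) := by
        rcases n1 with n1 | ⟨j1, c1, n1, hc1⟩
        · rcases n2 with n2 | ⟨j2, c2, n2, hc2⟩
          · exact absurd a12 (hub_hub _ _ n1 n2)
          · exact ⟨j2, c2, hc2, Or.inl ⟨n1, n2⟩⟩
        · rcases n2 with n2 | ⟨j2, c2, n2, hc2⟩
          · exact ⟨j1, c1, hc1, Or.inr ⟨n2, n1⟩⟩
          · exact absurd a12 (two_y _ _ _ _ _ _ n1 hc1 n2 hc2)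
      obtain ⟨j, cy, hcy, hp⟩ := hpair
      -- description of other vertices
      have desc : ∀ w, w ≠ u1 → w ≠ u2 → (∃ v, f w = .sel v) ∨
          ∃ c, f w = .gad j c ∧ (c.1 = u1 ∨ c.1 = u2) := by
        intro w hw1 hw2
        obtain ⟨uh, ug, hh, hg, huh, hug⟩ : ∃ uh ug, f uh = .hub ∧ f ug = .gad j cy ∧
            H.Adj uh w ∧ H.Adj ug w := by
          rcases hp with ⟨p1, p2⟩ | ⟨p1, p2⟩
          · exact ⟨u1, u2, p1, p2, hu1 w hw1, hu2 w hw2⟩
          · exact ⟨u2, u1, p1, p2, hu2 w hw2, hu1 w hw1⟩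
        rcases hw : f w with _ | v' | ⟨j', c'⟩
        · exact absurd huh (hub_hub _ _ hh hw)
        · exact Or.inl ⟨v', rfl⟩
        · right
          obtain ⟨e1, e2⟩ := gad_gad ug w j cy j' c' hg hw hug
          subst e1
          refine ⟨c', rfl, ?_⟩
          rcases hub_gad uh w j c' hh hw huh with h | h
          · exact hNx _ h
          · rw [hcy, h] at e2
            exact absurd rfl (H.ne_of_adj e2)
      have edge : ∀ a b, a ≠ u1 → a ≠ u2 → b ≠ u1 → b ≠ u2 → H.Adj a b →
          ∃ ca cb, f a = .gad j ca ∧ f b = .gad j cb ∧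
            ((ca.1 = u1 ∧ cb.1 = u2) ∨ (ca.1 = u2 ∧ cb.1 = u1)) := by
        intro a b h1 h2 h3 h4 hab
        rcases desc a h1 h2 with ⟨va, ha⟩ | ⟨ca, ha, hca⟩
        · rcases desc b h3 h4 with ⟨vb, hb⟩ | ⟨cb, hb, hcb⟩
          · exact absurd hab (sel_sel _ _ _ _ ha hb)
          · have := sel_gad _ _ _ _ _ ha hb hab
            rcases hcb with h | h
            · exact absurd (this.symm.trans h) hyu1
            · exact absurd (this.symm.trans h) hyu2
        · rcases desc b h3 h4 with ⟨vb, hb⟩ | ⟨cb, hb, hcb⟩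
          · have := sel_gad _ _ _ _ _ hb ha hab.symm
            rcases hca with h | h
            · exact absurd (this.symm.trans h) hyu1
            · exact absurd (this.symm.trans h) hyu2
          · refine ⟨ca, cb, ha, hb, ?_⟩
            have hne : ca.1 ≠ cb.1 := H.ne_of_adj (gad_gad _ _ _ _ _ _ ha hb hab).2
            rcases hca with h | h <;> rcases hcb with h' | h'
            · exact absurd (h.trans h'.symm) hne
            · exact Or.inl ⟨h, h'⟩
            · exact Or.inr ⟨h, h'⟩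
            · exact absurd (h.trans h'.symm) hne
      obtain ⟨ca, cb, ha, hb, e1⟩ := edge a b h1 h2 h3 h4 hab
      obtain ⟨cc, cd, hc, hd, e2⟩ := edge c d h5 h6 h7 h8 hcd
      have key : ca.1 = cc.1 ∨ ca.1 = cd.1 := by
        rcases e1 with ⟨p1, _⟩ | ⟨p1, _⟩ <;> rcases e2 with ⟨p2, p3⟩ | ⟨p2, p3⟩
        · exact Or.inl (p1.trans p2.symm)
        · exact Or.inr (p1.trans p3.symm)
        · exact Or.inr (p1.trans p3.symm)
        · exact Or.inl (p1.trans p2.symm)
      rcases key with h | h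
      · exact hac (f.injective (by rw [ha, hc, Subtype.ext h]))
      · exact had (f.injective (by rw [ha, hd, Subtype.ext h]))
  -- everything in hub and one gadget
  obtain ⟨ug, j, cg, hg, hall⟩ : ∃ ug j cg, f ug = .gad j cg ∧ ∀ w, w ≠ ug → H.Adj ug w := by
    rcases h1 : f u1 with _ | v | ⟨j, c⟩
    · rcases h2 : f u2 with _ | v | ⟨j, c⟩
      · exact absurd (hu1 u2 h12.symm) (hub_hub _ _ h1 h2)
      · exact absurd h2 (ns2 v)
      · exact ⟨u2, j, c, h2, hu2⟩
    · exact absurd h1 (ns1 v)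
    · exact ⟨u1, j, c, h1, hu1⟩
  refine one_gadget f x id (fun d d' => Iff.rfl) (fun d h => Or.inl h) ⟨y, hxy.symm⟩
    (Or.inr rfl) hnxy j ?_
  intro w
  rcases hw : f w with _ | v | ⟨j', c'⟩
  · exact Or.inl rfl
  · exact absurd hw (nosel w v)
  · right
    by_cases hwu : w = ug
    · rw [hwu, hg] at hw
      injection hw with e1 e2
      exact ⟨c', by rw [e1]; rfl⟩
    · obtain ⟨e1, _⟩ := gad_gad ug w j cg j' c' hg hw (hall w hwu)
      subst e1
      exact ⟨c', rfl⟩

end HFC
end

section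

open Classical

namespace HFC

variable {α V J : Type}

/-- `a` and `b` are in the same component of `H - u`. -/
def Cn (H : SimpleGraph α) (u a b : α) : Prop :=
  ∀ R : α → Prop, (∀ c d, c ≠ u → d ≠ u → H.Adj c d → R c → R d) → R a → R b

lemma Cn.refl (H : SimpleGraph α) (u a : α) : Cn H u a a := fun _ _ h => h

lemma Cn.trans {H : SimpleGraph α} {u a b c : α} (h1 : Cn H u a b) (h2 : Cn H u b c) :
    Cn H u a c := fun R hR h => h2 R hR (h1 R hR h)

lemma Cn.symm {H : SimpleGraph α} {u a b : α} (h1 : Cn H u a b) : Cn H u b a := by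
  intro R hR hb
  by_contra ha
  exact h1 (fun w => ¬ R w) (fun c d hc hd hcd hRc hRd => hRc (hR d c hd hc hcd.symm hRd)) ha hb

lemma Cn.of_adj {H : SimpleGraph α} {u a b : α} (ha : a ≠ u) (hb : b ≠ u) (h : H.Adj a b) :
    Cn H u a b := fun _ hR hRa => hR a b ha hb h hRa

lemma Cn.ne {H : SimpleGraph α} {u a b : α} (ha : a ≠ u) (h : Cn H u a b) : b ≠ u :=
  h (fun w => w ≠ u) (fun _ _ _ hd _ _ => hd) ha

/-- The basic one selector class lemma. -/
theorem nlemma [Fintype α] {H : SimpleGraph α} {u x y : α}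
    (hu : ∀ w, w ≠ u → H.Adj u w) (hxu : x ≠ u) (hyu : y ≠ u) (hxy : ¬ Cn H u x y)
    (hnb : ¬ ∃ c : α → Bool, ∀ a b, a ≠ u → b ≠ u → H.Adj a b → c a ≠ c b)
    (hA : (∀ a b, a ≠ u → b ≠ u → H.Adj x a → H.Adj x b → ¬ H.Adj a b) ∨
      ((∀ w, w ≠ u → ∃ a b, a ≠ u ∧ b ≠ u ∧ H.Adj w a ∧ H.Adj w b ∧ H.Adj a b) ∧
        ∃ a, a ≠ u ∧ (Finset.univ.filter (fun d => H.Adj x d)).card <
          (Finset.univ.filter (fun w => Cn H u a w)).card))
    (hC : (∀ w, w ≠ u → ∃ b, b ≠ u ∧ H.Adj w b) ∨
      (∀ b, b ≠ u → ¬ H.Adj y b) ∨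
      ((∀ w, w ≠ u → (∀ b, b ≠ u → ¬ H.Adj w b) → w = x) ∧
        ∃ z, z ≠ u ∧ z ≠ x ∧ z ≠ y ∧ ¬ H.Adj y z)) : HasPat H := by
  have hne : y ≠ x := fun e => hxy (e ▸ Cn.refl H u x)
  have hnadj : ¬ H.Adj x y := fun h => hxy (Cn.of_adj hxu hyu h)
  -- no common neighbour of x and y except u
  have hcn : ∀ d, d ≠ u → H.Adj x d → ¬ H.Adj y d := fun d hd h1 h2 =>
    hxy ((Cn.of_adj hxu hd h1).trans (Cn.of_adj hd hyu h2.symm))
  refine dPat_good H x (fun _ _ => False) (fun _ _ h => h) (fun d => d = y)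
    (fun _ => False) False (fun _ _ h => h.elim) (fun _ h => h.elim) ?_
  intro V J rel
  refine ⟨fun f => ?_⟩
  have fadj : ∀ a b, ((dPat H x (fun _ _ => False) (fun _ _ h => h) (fun d => d = y)
    (fun _ => False) False).graph (fun c => H.Adj x c ∨ c = y) rel).Adj (f a) (f b) ↔
      H.Adj a b := fun a b => f.map_rel_iff
  have gadj : ∀ a b j c j' c', f a = .gad j c → f b = .gad j' c' →
      (H.Adj a b ↔ (j = j' ∧ H.Adj c c')) := by
    intro a b j c j' c' ha hb
    rw [← fadj, ha, hb]
    constructor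
    · rintro (h | ⟨_, h⟩)
      · exact h
      · exact h.elim
    · intro h; exact Or.inl h
  have sgadj : ∀ a b v j c, f a = .sel v → f b = .gad j c →
      (H.Adj a b ↔ (rel v j ∧ c.1 = y)) := by
    intro a b v j c ha hb
    rw [← fadj, ha, hb]
    constructor
    · rintro (h | ⟨_, h⟩)
      · exact h
      · exact h.elim
    · intro h; exact Or.inl h
  have ssadj : ∀ a b v v', f a = .sel v → f b = .sel v' → ¬ H.Adj a b := by
    intro a b v v' ha hb h
    rw [← fadj, ha, hb] at h
    exact h.2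
  have hgadj : ∀ a b j c, f a = .hub → f b = .gad j c →
      (H.Adj a b ↔ (H.Adj x c ∨ c.1 = y)) := by
    intro a b j c ha hb
    rw [← fadj, ha, hb]
    exact Iff.rfl
  have hsadj : ∀ a b v, f a = .hub → f b = .sel v → H.Adj a b := by
    intro a b v ha hb
    rw [← fadj, ha, hb]
    trivial
  have hhadj : ∀ a b, f a = .hub → f b = .hub → a = b := fun a b ha hb =>
    f.injective (ha.trans hb.symm)
  let y' : {d : α // d ≠ x} := ⟨y, hne⟩
  rcases hfu : f u with _ | v | ⟨j, c⟩
  · -- the centre is the hub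
    have hcl : ∀ w, w ≠ u → (∃ v, f w = .sel v) ∨ ∃ j d, f w = .gad j d ∧ (H.Adj x d ∨ d.1 = y) := by
      intro w hw
      rcases hfw : f w with _ | v | ⟨j, d⟩
      · exact absurd (hhadj _ _ hfw hfu) hw
      · exact Or.inl ⟨v, rfl⟩
      · exact Or.inr ⟨j, d, rfl, (hgadj u w j d hfu hfw).1 (hu w hw)⟩
    rcases hA with hA | ⟨hT, a0, ha0, hbig⟩
    · apply hnb
      refine ⟨fun w => match f w with
        | .hub => false
        | .sel _ => false
        | .gad _ d => if d.1 = u then false else true, ?_⟩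
      intro a b ha hb hab
      rcases hcl a ha with ⟨v, hv⟩ | ⟨j, d, hd, hd'⟩
      · rcases hcl b hb with ⟨v', hv'⟩ | ⟨j', d', he, he'⟩
        · exact absurd hab (ssadj a b v v' hv hv')
        · have h := (sgadj a b v j' d' hv he).1 hab
          simp only [hv, he]
          rw [if_neg (by rw [h.2]; exact hyu)]
          simp
      · rcases hcl b hb with ⟨v', hv'⟩ | ⟨j', d', he, he'⟩
        · have h := (sgadj b a v' j d hv' hd).1 hab.symm
          simp only [hv', hd]
          rw [if_neg (by rw [h.2]; exact hyu)]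
          simp
        · have h := (gadj a b j d j' d' hd he).1 hab
          simp only [hd, he]
          by_cases h1 : d.1 = u
          · by_cases h2 : d'.1 = u
            · exact absurd (h1.trans h2.symm) (H.ne_of_adj h.2)
            · rw [if_pos h1, if_neg h2]; simp
          · by_cases h2 : d'.1 = u
            · rw [if_neg h1, if_pos h2]; simp
            · exfalso
              rcases hd' with hd' | hd'
              · rcases he' with he' | he'
                · exact hA _ _ h1 h2 hd' he' h.2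
                · rw [he'] at h
                  exact hcn _ h1 hd' h.2.symm
              · rw [hd'] at h
                rcases he' with he' | he'
                · exact hcn _ h2 he' h.2
                · rw [he'] at h
                  exact H.ne_of_adj h.2 rfl
    · -- all vertices are in gadgets, in N(x)
      have hall : ∀ w, w ≠ u → ∃ j d, f w = .gad j d ∧ H.Adj x d := by
        intro w hw
        obtain ⟨a, b, ha, hb, hwa, hwb, hab⟩ := hT w hw
        rcases hcl w hw with ⟨v, hv⟩ | ⟨j, d, hd, hd'⟩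
        · exfalso
          rcases hcl a ha with ⟨v1, hv1⟩ | ⟨j1, d1, hd1, _⟩
          · exact ssadj _ _ _ _ hv hv1 hwa
          rcases hcl b hb with ⟨v2, hv2⟩ | ⟨j2, d2, hd2, _⟩
          · exact ssadj _ _ _ _ hv hv2 hwb
          have e1 := (sgadj _ _ _ _ _ hv hd1).1 hwa
          have e2 := (sgadj _ _ _ _ _ hv hd2).1 hwb
          have e3 := (gadj _ _ _ _ _ _ hd1 hd2).1 hab
          exact H.ne_of_adj e3.2 (e1.2.trans e2.2.symm)
        · rcases hd' with hd' | hd'
          · exact ⟨j, d, hd, hd'⟩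
          exfalso
          -- neighbours of y_j are selectors and u_j
          have key : ∀ a, a ≠ u → H.Adj w a → (∃ v, f a = .sel v) ∨ ∃ e, f a = .gad j e ∧ e.1 = u := by
            intro a ha hwa
            rcases hcl a ha with h | ⟨j1, d1, hd1, hd1'⟩
            · exact Or.inl h
            · right
              have e := (gadj _ _ _ _ _ _ hd hd1).1 hwa
              obtain ⟨e1, e2⟩ := e
              subst e1
              refine ⟨d1, hd1, ?_⟩
              rw [hd'] at e2
              by_contra hne'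
              rcases hd1' with h | h
              · exact hcn _ hne' h e2
              · rw [h] at e2
                exact H.ne_of_adj e2 rfl
          rcases key a ha hwa with ⟨v1, h1⟩ | ⟨e1, h1, h1'⟩
          · rcases key b hb hwb with ⟨v2, h2⟩ | ⟨e2, h2, h2'⟩
            · exact ssadj _ _ _ _ h1 h2 hab
            · have := (sgadj _ _ _ _ _ h1 h2).1 hab
              exact hyu (this.2.symm.trans h2')
          · rcases key b hb hwb with ⟨v2, h2⟩ | ⟨e2, h2, h2'⟩
            · have := (sgadj _ _ _ _ _ h2 h1).1 hab.symm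
              exact hyu (this.2.symm.trans h1')
            · have := (gadj _ _ _ _ _ _ h1 h2).1 hab
              exact H.ne_of_adj this.2 (h1'.trans h2'.symm)
      obtain ⟨j0, d0, hj0, _⟩ := hall a0 ha0
      have hin : ∀ w, Cn H u a0 w → ∃ d, f w = .gad j0 d ∧ H.Adj x d := by
        intro w hw
        have h1 := hw (fun w => ∃ d, f w = .gad j0 d) (by
          intro c d hc hd hcd ⟨e, he⟩
          obtain ⟨j1, d1, h1, _⟩ := hall d hd
          have := (gadj _ _ _ _ _ _ he h1).1 hcd
          obtain ⟨e1, _⟩ := this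
          subst e1
          exact ⟨d1, h1⟩) ⟨d0, hj0⟩
        obtain ⟨d, hd⟩ := h1
        obtain ⟨j1, d1, h1, h2⟩ := hall w (Cn.ne ha0 hw)
        rw [hd] at h1
        injection h1 with e1 e2
        subst e2
        exact ⟨d, hd, h2⟩
      refine absurd (Finset.card_le_card_of_injOn
        (s := Finset.univ.filter (fun w => Cn H u a0 w))
        (t := Finset.univ.filter (fun d => H.Adj x d))
        (fun w => (cls (y' : {d : α // d ≠ x}) (f w)).1) ?_ ?_) (not_le.2 hbig)
      · intro w hw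
        obtain ⟨d, hd, hd'⟩ := hin w (Finset.mem_filter.1 (Finset.mem_coe.1 hw)).2
        simp only [Finset.coe_filter, Finset.mem_univ, true_and, Set.mem_ofPred_eq]
        rw [hd]
        exact hd'
      · intro w hw w' hw' h
        obtain ⟨d, hd, _⟩ := hin w (Finset.mem_filter.1 (Finset.mem_coe.1 hw)).2
        obtain ⟨d', hd', _⟩ := hin w' (Finset.mem_filter.1 (Finset.mem_coe.1 hw')).2
        apply f.injective
        simp only [hd, hd', cls] at h
        rw [hd, hd']
        congr 1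
        exact Subtype.ext h
  · -- the centre is a selector
    apply hnb
    refine ⟨fun w => match f w with
        | .hub => true
        | _ => false, ?_⟩
    have hcl : ∀ w, w ≠ u → f w = .hub ∨ ∃ j d, f w = .gad j d ∧ d.1 = y := by
      intro w hw
      rcases hfw : f w with _ | v' | ⟨j, d⟩
      · exact Or.inl rfl
      · exact absurd (hu w hw) (ssadj _ _ _ _ hfu hfw)
      · exact Or.inr ⟨j, d, rfl, ((sgadj _ _ _ _ _ hfu hfw).1 (hu w hw)).2⟩
    intro a b ha hb hab
    rcases hcl a ha with h1 | ⟨j, d, h1, h1'⟩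
    · rcases hcl b hb with h2 | ⟨j', d', h2, h2'⟩
      · exact absurd (hhadj _ _ h1 h2) (H.ne_of_adj hab)
      · simp [h1, h2]
    · rcases hcl b hb with h2 | ⟨j', d', h2, h2'⟩
      · simp [h1, h2]
      · have := (gadj _ _ _ _ _ _ h1 h2).1 hab
        exact absurd (h1'.trans h2'.symm) (H.ne_of_adj this.2)
  · by_cases hcy : c.1 = y
    · -- the centre is a copy of y
      have hcl : ∀ w, w ≠ u → f w = .hub ∨ (∃ v, f w = .sel v) ∨
          ∃ d, f w = .gad j d ∧ H.Adj y d := by
        intro w hw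
        rcases hfw : f w with _ | v' | ⟨j', d⟩
        · exact Or.inl rfl
        · exact Or.inr (Or.inl ⟨v', rfl⟩)
        · have := (gadj _ _ _ _ _ _ hfu hfw).1 (hu w hw)
          obtain ⟨e1, e2⟩ := this
          subst e1
          rw [hcy] at e2
          exact Or.inr (Or.inr ⟨d, rfl, e2⟩)
      -- neighbours of a selector in H - u
      have hsel : ∀ w v, f w = .sel v → ∀ b, b ≠ u → H.Adj w b → f b = .hub := by
        intro w v hw b hb hwb
        rcases hcl b hb with h | ⟨v', h⟩ | ⟨d, h, h'⟩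
        · exact h
        · exact absurd hwb (ssadj _ _ _ _ hw h)
        · have := (sgadj _ _ _ _ _ hw h).1 hwb
          rw [this.2] at h'
          exact absurd rfl (H.ne_of_adj h')
      by_cases hs : ∃ w, w ≠ u ∧ ∃ v, f w = .sel v
      · obtain ⟨w1, hw1u, v1, hw1⟩ := hs
        by_cases hh : ∃ w0, w0 ≠ u ∧ f w0 = .hub
        · obtain ⟨w0, hw0u, hw0⟩ := hh
          by_cases hgu : ∃ w2, w2 ≠ u ∧ ∃ d, f w2 = .gad j d ∧ d.1 = u
          · obtain ⟨w2, hw2u, d2, hw2, hd2⟩ := hgu
            have h02 : Cn H u w0 w2 := Cn.of_adj hw0u hw2u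
              ((hgadj _ _ _ _ hw0 hw2).2 (Or.inl (by rw [hd2]; exact (hu x hxu).symm)))
            have hall : ∀ w, w ≠ u → Cn H u w0 w := by
              intro w hw
              rcases hcl w hw with h | ⟨v', h⟩ | ⟨d, h, h'⟩
              · rw [hhadj _ _ hw0 h]; exact Cn.refl _ _ _
              · exact Cn.of_adj hw0u hw (hsadj _ _ _ hw0 h)
              · by_cases hdu : d.1 = u
                · have : w2 = w := f.injective (by
                    rw [hw2, h]; congr 1; exact Subtype.ext (hd2.trans hdu.symm))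
                  rw [← this]; exact h02
                · refine h02.trans (Cn.of_adj hw2u hw ((gadj _ _ _ _ _ _ hw2 h).2 ⟨rfl, ?_⟩))
                  rw [hd2]; exact hu _ hdu
            exact hxy ((hall x hxu).symm.trans (hall y hyu))
          · push Not at hgu
            -- the star part
            have hst : ∀ a b, a ≠ u → b ≠ u → H.Adj a b → (f a = .hub ∨ ∃ v, f a = .sel v) →
                (f b = .hub ∨ ∃ v, f b = .sel v) := by
              intro a b ha hb hab h
              rcases hcl b hb with h2 | h2 | ⟨d, h2, h2'⟩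
              · exact Or.inl h2
              · exact Or.inr h2
              · exfalso
                have hdu := hgu b hb d h2
                rcases h with h | ⟨v, h⟩
                · rcases (hgadj _ _ _ _ h h2).1 hab with h3 | h3
                  · exact hcn _ hdu h3 h2'
                  · rw [h3] at h2'; exact H.ne_of_adj h2' rfl
                · have := (sgadj _ _ _ _ _ h h2).1 hab
                  rw [this.2] at h2'; exact H.ne_of_adj h2' rfl
            by_cases hfy : f y = .hub ∨ ∃ v, f y = .sel v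
            · -- N0(y) is independent
              have hind : ∀ a b, a ≠ u → b ≠ u → H.Adj y a → H.Adj y b → ¬ H.Adj a b := by
                intro a b ha hb hya hyb hab
                have h1 := hst y a hyu ha hya hfy
                have h2 := hst y b hyu hb hyb hfy
                rcases hfy with h0 | ⟨v0, h0⟩
                · rcases h1 with h1 | ⟨v1, h1⟩
                  · exact H.ne_of_adj hya (hhadj _ _ h0 h1)
                  · rcases h2 with h2 | ⟨v2, h2⟩
                    · exact H.ne_of_adj hyb (hhadj _ _ h0 h2)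
                    · exact ssadj _ _ _ _ h1 h2 hab
                · rcases h1 with h1 | ⟨v1, h1⟩
                  · rcases h2 with h2 | ⟨v2, h2⟩
                    · exact H.ne_of_adj hab (hhadj _ _ h1 h2)
                    · exact ssadj _ _ _ _ h0 h2 hyb
                  · exact ssadj _ _ _ _ h0 h1 hya
              apply hnb
              refine ⟨fun w => match f w with
                | .hub => true
                | _ => false, ?_⟩
              intro a b ha hb hab
              rcases hcl a ha with h1 | ⟨v1, h1⟩ | ⟨d1, h1, h1'⟩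
              · rcases hcl b hb with h2 | ⟨v2, h2⟩ | ⟨d2, h2, h2'⟩
                · exact absurd (hhadj _ _ h1 h2) (H.ne_of_adj hab)
                · simp [h1, h2]
                · simp [h1, h2]
              · rcases hcl b hb with h2 | ⟨v2, h2⟩ | ⟨d2, h2, h2'⟩
                · simp [h1, h2]
                · exact absurd hab (ssadj _ _ _ _ h1 h2)
                · have := hsel a v1 h1 b hb hab
                  rw [h2] at this; exact absurd this (by simp)
              · rcases hcl b hb with h2 | ⟨v2, h2⟩ | ⟨d2, h2, h2'⟩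
                · simp [h1, h2]
                · have := hsel b v2 h2 a ha hab.symm
                  rw [h1] at this; exact absurd this (by simp)
                · have := (gadj _ _ _ _ _ _ h1 h2).1 hab
                  exact absurd this.2 (hind _ _ (hgu a ha d1 h1) (hgu b hb d2 h2) h1' h2')
            · -- the component of y is inside the gadget part
              have hyc : ∃ d, f y = .gad j d ∧ H.Adj y d := by
                rcases hcl y hyu with h | h | h
                · exact absurd (Or.inl h) hfy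
                · exact absurd (Or.inr h) hfy
                · exact h
              have hin : ∀ w, (w ≠ u ∧ H.Adj y w) ∨ w = y → ∃ d, f w = .gad j d ∧ d.1 ≠ u ∧
                  H.Adj y d := by
                intro w hw
                have hwu : w ≠ u := by
                  rcases hw with hw | hw
                  · exact hw.1
                  · rw [hw]; exact hyu
                have hns : ¬ (f w = .hub ∨ ∃ v, f w = .sel v) := by
                  intro h
                  rcases hw with hw | hw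
                  · exact hfy (hst w y hwu hyu hw.2.symm h)
                  · rw [hw] at h; exact hfy h
                rcases hcl w hwu with h | h | ⟨d, h, h'⟩
                · exact absurd (Or.inl h) hns
                · exact absurd (Or.inr h) hns
                · exact ⟨d, h, hgu w hwu d h, h'⟩
              refine no_inj_set (fun w => w ≠ u ∧ H.Adj y w) y (fun h => H.ne_of_adj h.2 rfl)
                (fun w => (cls (y' : {d : α // d ≠ x}) (f w)).1) ?_ ?_
              · intro w hw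
                obtain ⟨d, hd, hd1, hd2⟩ := hin w hw
                simp only [hd, cls]
                exact ⟨hd1, hd2⟩
              · intro w w' hw hw' h
                obtain ⟨d, hd, _⟩ := hin w hw
                obtain ⟨d', hd', _⟩ := hin w' hw'
                apply f.injective
                simp only [hd, hd', cls] at h
                rw [hd, hd']
                congr 1
                exact Subtype.ext h
        · push Not at hh
          -- selectors are isolated
          have hiso : ∀ w v, f w = .sel v → ∀ b, b ≠ u → ¬ H.Adj w b := by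
            intro w v hw b hb hwb
            exact hh b hb (hsel w v hw b hb hwb)
          rcases hC with hC | hC | ⟨hC, z, hzu, hzx, hzy, hyz⟩
          · obtain ⟨b, hb, hwb⟩ := hC w1 hw1u
            exact hiso w1 v1 hw1 b hb hwb
          · apply hnb
            refine ⟨fun _ => true, ?_⟩
            intro a b ha hb hab
            exfalso
            rcases hcl a ha with h1 | ⟨v1, h1⟩ | ⟨d1, h1, h1'⟩
            · exact hh a ha h1
            · exact hiso a v1 h1 b hb hab
            · rcases hcl b hb with h2 | ⟨v2, h2⟩ | ⟨d2, h2, h2'⟩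
              · exact hh b hb h2
              · exact hiso b v2 h2 a ha hab.symm
              · have := (gadj _ _ _ _ _ _ h1 h2).1 hab
                have e1 : d1.1 = u := by by_contra h; exact hC _ h h1'
                have e2 : d2.1 = u := by by_contra h; exact hC _ h h2'
                exact H.ne_of_adj this.2 (e1.trans e2.symm)
          · -- exactly one selector, the vertex x
            have hin : ∀ w, w ≠ u → w ≠ x → ∃ d, f w = .gad j d ∧ H.Adj y d := by
              intro w hwu hwx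
              rcases hcl w hwu with h | ⟨v, h⟩ | h
              · exact absurd h (hh w hwu)
              · exact absurd (hC w hwu (hiso w v h)) hwx
              · exact h
            have hle : (Finset.univ.filter (fun w => w ≠ u ∧ w ≠ x)).card ≤
                (Finset.univ.filter (fun d => d ≠ x ∧ d ≠ y ∧ d ≠ z)).card := by
              refine Finset.card_le_card_of_injOn
                (fun w => (cls (y' : {d : α // d ≠ x}) (f w)).1) ?_ ?_
              · intro w hw
                obtain ⟨_, h1, h2⟩ := Finset.mem_filter.1 (Finset.mem_coe.1 hw)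
                obtain ⟨d, hd, hd'⟩ := hin w h1 h2
                simp only [Finset.coe_filter, Finset.mem_univ, true_and, Set.mem_ofPred_eq]
                simp only [hd, cls]
                exact ⟨d.2, (H.ne_of_adj hd').symm, fun e => hyz (e ▸ hd')⟩
              · intro w hw w' hw' h
                obtain ⟨_, h1, h2⟩ := Finset.mem_filter.1 (Finset.mem_coe.1 hw)
                obtain ⟨_, h3, h4⟩ := Finset.mem_filter.1 (Finset.mem_coe.1 hw')
                obtain ⟨d, hd, _⟩ := hin w h1 h2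
                obtain ⟨d', hd', _⟩ := hin w' h3 h4
                apply f.injective
                simp only [hd, hd', cls] at h
                rw [hd, hd']
                congr 1
                exact Subtype.ext h
            have h1 : (Finset.univ.filter (fun w : α => w ≠ u ∧ w ≠ x)).card + 2 =
                Fintype.card α := by
              have : (Finset.univ.filter (fun w : α => w ≠ u ∧ w ≠ x)) =
                  Finset.univ \ {u, x} := by
                ext w; simp
              rw [this, Finset.card_sdiff_of_subset (Finset.subset_univ _), Finset.card_univ]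
              have h2 : ({u, x} : Finset α).card = 2 := Finset.card_pair hxu.symm
              have h3 : ({u, x} : Finset α).card ≤ Fintype.card α := Finset.card_le_univ _
              omega
            have h2 : (Finset.univ.filter (fun d : α => d ≠ x ∧ d ≠ y ∧ d ≠ z)).card + 3 =
                Fintype.card α := by
              have : (Finset.univ.filter (fun d : α => d ≠ x ∧ d ≠ y ∧ d ≠ z)) =
                  Finset.univ \ {x, y, z} := by
                ext w; simp
              rw [this, Finset.card_sdiff_of_subset (Finset.subset_univ _), Finset.card_univ]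
              have h2 : ({x, y, z} : Finset α).card = 3 := by
                rw [Finset.card_eq_three]
                exact ⟨x, y, z, hne.symm, hzx.symm, hzy.symm, rfl⟩
              have h3 : ({x, y, z} : Finset α).card ≤ Fintype.card α := Finset.card_le_univ _
              omega
            omega
      · -- everything in the hub and one gadget
        push Not at hs
        refine one_gadget f x id (fun _ _ => Iff.rfl) (fun d h => Or.inl h) y' (Or.inr rfl)
          hnadj j ?_
        intro w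
        by_cases hw : w = u
        · rw [hw]; exact Or.inr ⟨c, hfu⟩
        · rcases hcl w hw with h | ⟨v, h⟩ | ⟨d, h, _⟩
          · exact Or.inl h
          · exact absurd h (hs w hw v)
          · exact Or.inr ⟨d, h⟩
    · refine one_gadget f x id (fun _ _ => Iff.rfl) (fun d h => Or.inl h) y' (Or.inr rfl)
        hnadj j ?_
      intro w
      by_cases hw : w = u
      · rw [hw]; exact Or.inr ⟨c, hfu⟩
      · rcases hfw : f w with _ | v | ⟨j', d⟩
        · exact Or.inl rfl
        · exact absurd ((sgadj _ _ _ _ _ hfw hfu).1 (hu w hw).symm).2 hcy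
        · have := (gadj _ _ _ _ _ _ hfu hfw).1 (hu w hw)
          obtain ⟨e1, _⟩ := this
          subst e1
          exact Or.inr ⟨d, rfl⟩

/-- `H - u` is a clique together with an isolated vertex. -/
theorem lollipop [Fintype α] {H : SimpleGraph α} {u x : α} (hcard : 6 ≤ Fintype.card α)
    (hu : ∀ w, w ≠ u → H.Adj u w) (hxu : x ≠ u) (hx : ∀ b, b ≠ u → ¬ H.Adj x b)
    (hK : ∀ a b, a ≠ x → b ≠ x → a ≠ b → H.Adj a b) : HasPat H := by
  obtain ⟨y, y', hyx, hyu, hy'x, hy'u, hyy⟩ :
      ∃ y y' : α, y ≠ x ∧ y ≠ u ∧ y' ≠ x ∧ y' ≠ u ∧ y ≠ y' := by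
    have h1 : 1 < (Finset.univ \ {x, u} : Finset α).card := by
      rw [Finset.card_sdiff_of_subset (Finset.subset_univ _), Finset.card_univ,
        Finset.card_pair hxu]
      omega
    obtain ⟨a, ha, b, hb, hab⟩ := Finset.one_lt_card.1 h1
    simp only [Finset.mem_sdiff, Finset.mem_univ, true_and, Finset.mem_insert,
      Finset.mem_singleton, not_or] at ha hb
    exact ⟨a, b, ha.1, ha.2, hb.1, hb.2, hab⟩
  refine dPat_good H x (fun _ _ => False) (fun _ _ h => h) (fun d => d = y ∨ d = y')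
    (fun _ => False) False (fun _ _ h => h.elim) (fun _ h => h.elim) ?_
  intro V J rel
  refine ⟨fun f => ?_⟩
  have fadj : ∀ a b, ((dPat H x (fun _ _ => False) (fun _ _ h => h) (fun d => d = y ∨ d = y')
    (fun _ => False) False).graph (fun c => H.Adj x c ∨ (c.1 = y ∨ c.1 = y')) rel).Adj
      (f a) (f b) ↔ H.Adj a b := fun a b => f.map_rel_iff
  have gadj : ∀ a b j c j' c', f a = .gad j c → f b = .gad j' c' →
      (H.Adj a b ↔ (j = j' ∧ H.Adj c c')) := by
    intro a b j c j' c' ha hb
    rw [← fadj, ha, hb]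
    constructor
    · rintro (h | ⟨_, h⟩)
      · exact h
      · exact h.elim
    · intro h; exact Or.inl h
  have sgadj : ∀ a b v j c, f a = .sel v → f b = .gad j c →
      (H.Adj a b ↔ (rel v j ∧ (c.1 = y ∨ c.1 = y'))) := by
    intro a b v j c ha hb
    rw [← fadj, ha, hb]
    constructor
    · rintro (h | ⟨_, h⟩)
      · exact h
      · exact h.elim
    · intro h; exact Or.inl h
  have ssadj : ∀ a b v v', f a = .sel v → f b = .sel v' → ¬ H.Adj a b := by
    intro a b v v' ha hb h
    rw [← fadj, ha, hb] at h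
    exact h.2
  have hgadj : ∀ a b j c, f a = .hub → f b = .gad j c →
      (H.Adj a b ↔ (H.Adj x c ∨ (c.1 = y ∨ c.1 = y'))) := by
    intro a b j c ha hb
    rw [← fadj, ha, hb]
    exact Iff.rfl
  have hhadj : ∀ a b, f a = .hub → f b = .hub → a = b := fun a b ha hb =>
    f.injective (ha.trans hb.symm)
  let c0 : {d : α // d ≠ x} := ⟨y, hyx⟩
  -- the class map is injective on cliques
  have cinj : ∀ a b j d j' d', a ≠ x → b ≠ x → f a = .gad j d → f b = .gad j' d' →
      d.1 = d'.1 → a = b := by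
    intro a b j d j' d' ha hb hfa hfb hdd
    by_contra hab
    have := (gadj _ _ _ _ _ _ hfa hfb).1 (hK a b ha hb hab)
    exact H.ne_of_adj this.2 hdd
  have hcard2 : ∀ w, w ≠ x → ∀ S : Finset α, S.card ≤ 3 →
      ∀ g : α → α, (∀ a, a ≠ x → a ≠ w → g a ∈ S) →
      (∀ a b, a ≠ x → a ≠ w → b ≠ x → b ≠ w → g a = g b → a = b) → False := by
    intro w hw S hS g hg hginj
    have h1 : (Finset.univ \ {x, w} : Finset α).card ≤ S.card := by
      refine Finset.card_le_card_of_injOn g ?_ ?_
      · intro a ha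
        simp only [Finset.coe_sdiff, Finset.coe_univ, Finset.coe_insert, Finset.coe_singleton,
          Set.mem_sdiff, Set.mem_univ, Set.mem_insert_iff, Set.mem_singleton_iff, true_and,
          not_or] at ha
        exact hg a ha.1 ha.2
      · intro a ha b hb h
        simp only [Finset.coe_sdiff, Finset.coe_univ, Finset.coe_insert, Finset.coe_singleton,
          Set.mem_sdiff, Set.mem_univ, Set.mem_insert_iff, Set.mem_singleton_iff, true_and,
          not_or] at ha hb
        exact hginj a b ha.1 ha.2 hb.1 hb.2 h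
    rw [Finset.card_sdiff_of_subset (Finset.subset_univ _), Finset.card_univ,
      Finset.card_pair hw.symm] at h1
    omega
  have hnosel : ∀ w, w ≠ x → ∀ v, f w ≠ .sel v := by
    intro w hw v hv
    refine hcard2 w hw {u, y, y'} Finset.card_le_three
      (fun a => match f a with
        | .gad _ d => d.1
        | _ => u) ?_ ?_
    · intro a hax haw
      have hadj := hK w a hw hax (Ne.symm haw)
      rcases hfa : f a with _ | v' | ⟨j, d⟩
      · simp
      · exact absurd hadj (ssadj _ _ _ _ hv hfa)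
      · have := (sgadj _ _ _ _ _ hv hfa).1 hadj
        simp only [Finset.mem_insert, Finset.mem_singleton]
        exact Or.inr this.2
    · intro a b hax haw hbx hbw h
      have hadja := hK w a hw hax (Ne.symm haw)
      have hadjb := hK w b hw hbx (Ne.symm hbw)
      rcases hfa : f a with _ | v' | ⟨j, d⟩
      · rcases hfb : f b with _ | v'' | ⟨j', d'⟩
        · exact hhadj _ _ hfa hfb
        · exact absurd hadjb (ssadj _ _ _ _ hv hfb)
        · have := ((sgadj _ _ _ _ _ hv hfb).1 hadjb).2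
          simp only [hfa, hfb] at h
          rw [← h] at this
          rcases this with h | h
          · exact absurd h.symm hyu
          · exact absurd h.symm hy'u
      · exact absurd hadja (ssadj _ _ _ _ hv hfa)
      · rcases hfb : f b with _ | v'' | ⟨j', d'⟩
        · have := ((sgadj _ _ _ _ _ hv hfa).1 hadja).2
          simp only [hfa, hfb] at h
          rw [h] at this
          rcases this with h | h
          · exact absurd h.symm hyu
          · exact absurd h.symm hy'u
        · exact absurd hadjb (ssadj _ _ _ _ hv hfb)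
        · simp only [hfa, hfb] at h
          exact cinj a b j d j' d' hax hbx hfa hfb h
  have hnohub : ∀ w, w ≠ x → f w ≠ .hub := by
    intro w hw hv
    have hin : ∀ a, a ≠ x → a ≠ w → ∃ j d, f a = .gad j d ∧ (d.1 = u ∨ d.1 = y ∨ d.1 = y') := by
      intro a hax haw
      have hadj := hK w a hw hax (Ne.symm haw)
      rcases hfa : f a with _ | v' | ⟨j, d⟩
      · exact absurd (hhadj _ _ hfa hv) haw
      · exact absurd hfa (hnosel a hax v')
      · refine ⟨j, d, rfl, ?_⟩
        rcases (hgadj _ _ _ _ hv hfa).1 hadj with h | h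
        · left
          by_contra hdu
          exact hx _ hdu h
        · exact Or.inr h
    refine hcard2 w hw {u, y, y'} Finset.card_le_three (fun a => (cls c0 (f a)).1) ?_ ?_
    · intro a hax haw
      obtain ⟨j, d, h, h'⟩ := hin a hax haw
      simp only [h, cls, Finset.mem_insert, Finset.mem_singleton]
      exact h'
    · intro a b hax haw hbx hbw h
      obtain ⟨j, d, h1, _⟩ := hin a hax haw
      obtain ⟨j', d', h2, _⟩ := hin b hbx hbw
      simp only [h1, h2, cls] at h
      exact cinj a b j d j' d' hax hbx h1 h2 h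
  have hgad : ∀ w, w ≠ x → ∃ j d, f w = .gad j d := by
    intro w hw
    rcases hfw : f w with _ | v | ⟨j, d⟩
    · exact absurd hfw (hnohub w hw)
    · exact absurd hfw (hnosel w hw v)
    · exact ⟨j, d, rfl⟩
  obtain ⟨j, du, hfu⟩ := hgad u hxu.symm
  have hgad' : ∀ w, w ≠ x → ∃ d, f w = .gad j d := by
    intro w hw
    by_cases hwu : w = u
    · rw [hwu]; exact ⟨du, hfu⟩
    obtain ⟨j', d, h⟩ := hgad w hw
    have := (gadj _ _ _ _ _ _ hfu h).1 (hu w hwu)
    obtain ⟨e1, _⟩ := this
    subst e1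
    exact ⟨d, h⟩
  have hsurj : ∀ c : {d : α // d ≠ x}, ∃ w, w ≠ x ∧ f w = .gad j c := by
    choose g hg using hgad'
    let φ : {d : α // d ≠ x} → {d : α // d ≠ x} := fun w => g w.1 w.2
    have hφ : Function.Injective φ := by
      intro a b hab
      apply Subtype.ext
      apply f.injective
      rw [hg a.1 a.2, hg b.1 b.2]
      congr 1
    intro c
    obtain ⟨w, hw⟩ := (Finite.injective_iff_surjective.1 hφ) c
    exact ⟨w.1, w.2, by rw [hg w.1 w.2]; congr 1⟩
  obtain ⟨wy, hwyx, hwy⟩ := hsurj ⟨y, hyx⟩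
  obtain ⟨wy', hwyx', hwy'⟩ := hsurj ⟨y', hy'x⟩
  have hww : wy ≠ wy' := by
    intro h
    rw [h, hwy'] at hwy
    injection hwy with _ h2
    exact hyy (congrArg Subtype.val h2).symm
  have hxadj : H.Adj x u := (hu x hxu).symm
  rcases hfx : f x with _ | v | ⟨j', d⟩
  · have h1 : H.Adj x wy := (hgadj _ _ _ _ hfx hwy).2 (Or.inr (Or.inl rfl))
    have h2 : H.Adj x wy' := (hgadj _ _ _ _ hfx hwy').2 (Or.inr (Or.inr rfl))
    have e1 : wy = u := by by_contra h; exact hx _ h h1
    have e2 : wy' = u := by by_contra h; exact hx _ h h2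
    exact hww (e1.trans e2.symm)
  · have h0 := (sgadj _ _ _ _ _ hfx hfu).1 hxadj
    have h1 : H.Adj x wy := (sgadj _ _ _ _ _ hfx hwy).2 ⟨h0.1, Or.inl rfl⟩
    have h2 : H.Adj x wy' := (sgadj _ _ _ _ _ hfx hwy').2 ⟨h0.1, Or.inr rfl⟩
    have e1 : wy = u := by by_contra h; exact hx _ h h1
    have e2 : wy' = u := by by_contra h; exact hx _ h h2
    exact hww (e1.trans e2.symm)
  · have h0 := (gadj _ _ _ _ _ _ hfx hfu).1 hxadj
    obtain ⟨e1, _⟩ := h0
    subst e1
    obtain ⟨w, hwx, hw⟩ := hsurj d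
    exact hwx (f.injective (hw.trans hfx.symm))

/-- The windmill case. -/
theorem windmill [Fintype α] {H : SimpleGraph α} {u x y : α}
    (hu : ∀ w, w ≠ u → H.Adj u w) (hxu : x ≠ u) (hyu : y ≠ u) (hxy : ¬ Cn H u x y)
    (hT : ∀ w, w ≠ u → ∃ a b, a ≠ u ∧ b ≠ u ∧ H.Adj w a ∧ H.Adj w b ∧ H.Adj a b)
    (hN : ∀ a b, a ≠ u → b ≠ u → H.Adj x a → H.Adj x b → a ≠ b → H.Adj a b)
    (hcl : ∀ a b, a ≠ u → b ≠ u → H.Adj x a → H.Adj a b → b = x ∨ H.Adj x b) :
    HasPat H := by
  have hne : y ≠ x := fun e => hxy (e ▸ Cn.refl H u x)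
  have hnadj : ¬ H.Adj x y := fun h => hxy (Cn.of_adj hxu hyu h)
  have hcn : ∀ d, d ≠ u → H.Adj x d → ¬ H.Adj y d := fun d hd h1 h2 =>
    hxy ((Cn.of_adj hxu hd h1).trans (Cn.of_adj hd hyu h2.symm))
  let N0 : α → Prop := fun a => H.Adj x a ∧ a ≠ u
  have hN0y : ¬ N0 y := fun h => hnadj h.1
  refine dPat_good H x (fun a b => N0 a ∧ N0 b) (fun a b h => ⟨h.2, h.1⟩) (fun d => d = y)
    (fun _ => False) False (fun _ _ h => h.1.1) (fun _ h => h.elim) ?_
  intro V J rel
  refine ⟨fun f => ?_⟩
  have fadj : ∀ a b, ((dPat H x (fun a b => N0 a ∧ N0 b) (fun a b h => ⟨h.2, h.1⟩)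
    (fun d => d = y) (fun _ => False) False).graph (fun c => H.Adj x c ∨ c = y) rel).Adj
      (f a) (f b) ↔ H.Adj a b := fun a b => f.map_rel_iff
  have gadj : ∀ a b j c j' c', f a = .gad j c → f b = .gad j' c' →
      (H.Adj a b ↔ (j = j' ∧ H.Adj c c') ∨ (j ≠ j' ∧ N0 c ∧ N0 c')) := by
    intro a b j c j' c' ha hb
    rw [← fadj, ha, hb]
    exact Iff.rfl
  have sgadj : ∀ a b v j c, f a = .sel v → f b = .gad j c →
      (H.Adj a b ↔ (rel v j ∧ c.1 = y)) := by
    intro a b v j c ha hb
    rw [← fadj, ha, hb]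
    constructor
    · rintro (h | ⟨_, h⟩)
      · exact h
      · exact h.elim
    · intro h; exact Or.inl h
  have ssadj : ∀ a b v v', f a = .sel v → f b = .sel v' → ¬ H.Adj a b := by
    intro a b v v' ha hb h
    rw [← fadj, ha, hb] at h
    exact h.2
  have hgadj : ∀ a b j c, f a = .hub → f b = .gad j c →
      (H.Adj a b ↔ (H.Adj x c ∨ c.1 = y)) := by
    intro a b j c ha hb
    rw [← fadj, ha, hb]
    exact Iff.rfl
  have hhadj : ∀ a b, f a = .hub → f b = .hub → a = b := fun a b ha hb =>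
    f.injective (ha.trans hb.symm)
  let y' : {d : α // d ≠ x} := ⟨y, hne⟩
  -- two copies of y are not adjacent
  have yy : ∀ a b j c j' c', f a = .gad j c → f b = .gad j' c' → c.1 = y → c'.1 = y →
      ¬ H.Adj a b := by
    intro a b j c j' c' ha hb hc hc' hab
    rcases (gadj _ _ _ _ _ _ ha hb).1 hab with ⟨_, h⟩ | ⟨_, h, _⟩
    · exact H.ne_of_adj h (hc.trans hc'.symm)
    · rw [hc] at h; exact hN0y h
  have uu : ∀ a b j c j' c', f a = .gad j c → f b = .gad j' c' → c.1 = u → c'.1 = u →
      ¬ H.Adj a b := by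
    intro a b j c j' c' ha hb hc hc' hab
    rcases (gadj _ _ _ _ _ _ ha hb).1 hab with ⟨_, h⟩ | ⟨_, h, _⟩
    · exact H.ne_of_adj h (hc.trans hc'.symm)
    · exact h.2 hc
  -- copies of N0 in the image form a clique
  have nn : ∀ a b j c j' c', f a = .gad j c → f b = .gad j' c' → N0 c → N0 c' → a ≠ b →
      H.Adj a b := by
    intro a b j c j' c' ha hb hc hc' hab
    by_cases hjj : j = j'
    · refine (gadj _ _ _ _ _ _ ha hb).2 (Or.inl ⟨hjj, ?_⟩)
      subst hjj
      refine hN _ _ hc.2 hc'.2 hc.1 hc'.1 ?_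
      intro h
      apply hab
      apply f.injective
      rw [ha, hb]; congr 1; exact Subtype.ext h
    · exact (gadj _ _ _ _ _ _ ha hb).2 (Or.inr ⟨hjj, hc, hc'⟩)
  -- it is impossible that every triangle of `H - u` has a vertex in a copy of N0
  have fin : (∀ w, w ≠ u → ∃ a, Cn H u w a ∧ ∃ j d, f a = .gad j d ∧ N0 d) → False := by
    intro h
    obtain ⟨a, ha, ja, da, hfa, hda⟩ := h x hxu
    obtain ⟨b, hb, jb, db, hfb, hdb⟩ := h y hyu
    have hau := Cn.ne hxu ha
    have hbu := Cn.ne hyu hb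
    have hab : a ≠ b := fun e => hxy (ha.trans (e ▸ hb.symm))
    have := nn a b ja da jb db hfa hfb hda hdb hab
    exact hxy ((ha.trans (Cn.of_adj hau hbu this)).trans hb.symm)
  rcases hfu : f u with _ | v | ⟨j, c⟩
  · -- the centre is the hub
    have hcl1 : ∀ w, w ≠ u → (∃ v, f w = .sel v) ∨
        ∃ j d, f w = .gad j d ∧ (H.Adj x d ∨ d.1 = y) := by
      intro w hw
      rcases hfw : f w with _ | v | ⟨j, d⟩
      · exact absurd (hhadj _ _ hfw hfu) hw
      · exact Or.inl ⟨v, rfl⟩
      · exact Or.inr ⟨j, d, rfl, (hgadj u w j d hfu hfw).1 (hu w hw)⟩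
    have hall : ∀ w, w ≠ u → ∃ j d, f w = .gad j d ∧ (d.1 = u ∨ N0 d) := by
      intro w hw
      obtain ⟨a, b, ha, hb, hwa, hwb, hab⟩ := hT w hw
      rcases hcl1 w hw with ⟨v, hv⟩ | ⟨j, d, hd, hd'⟩
      · exfalso
        rcases hcl1 a ha with ⟨v1, hv1⟩ | ⟨j1, d1, hd1, _⟩
        · exact ssadj _ _ _ _ hv hv1 hwa
        rcases hcl1 b hb with ⟨v2, hv2⟩ | ⟨j2, d2, hd2, _⟩
        · exact ssadj _ _ _ _ hv hv2 hwb
        have e1 := (sgadj _ _ _ _ _ hv hd1).1 hwa
        have e2 := (sgadj _ _ _ _ _ hv hd2).1 hwb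
        exact yy _ _ _ _ _ _ hd1 hd2 e1.2 e2.2 hab
      · rcases hd' with hd' | hd'
        · refine ⟨j, d, hd, ?_⟩
          by_cases hdu : d.1 = u
          · exact Or.inl hdu
          · exact Or.inr ⟨hd', hdu⟩
        exfalso
        have key : ∀ a, a ≠ u → H.Adj w a → (∃ v, f a = .sel v) ∨
            ∃ k e, f a = .gad k e ∧ e.1 = u := by
          intro a ha hwa
          rcases hcl1 a ha with h | ⟨j1, d1, hd1, hd1'⟩
          · exact Or.inl h
          · right
            rcases (gadj _ _ _ _ _ _ hd hd1).1 hwa with ⟨e1, e2⟩ | ⟨_, e2, _⟩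
            · refine ⟨j1, d1, hd1, ?_⟩
              rw [hd'] at e2
              by_contra hne'
              rcases hd1' with h | h
              · exact hcn _ hne' h e2
              · rw [h] at e2
                exact H.ne_of_adj e2 rfl
            · rw [hd'] at e2; exact absurd e2 hN0y
        rcases key a ha hwa with ⟨v1, h1⟩ | ⟨k1, e1, h1, h1'⟩
        · rcases key b hb hwb with ⟨v2, h2⟩ | ⟨k2, e2, h2, h2'⟩
          · exact ssadj _ _ _ _ h1 h2 hab
          · have := (sgadj _ _ _ _ _ h1 h2).1 hab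
            exact hyu (this.2.symm.trans h2')
        · rcases key b hb hwb with ⟨v2, h2⟩ | ⟨k2, e2, h2, h2'⟩
          · have := (sgadj _ _ _ _ _ h2 h1).1 hab.symm
            exact hyu (this.2.symm.trans h1')
          · exact uu _ _ _ _ _ _ h1 h2 h1' h2' hab
    apply fin
    intro w hw
    obtain ⟨a, b, ha, hb, hwa, hwb, hab⟩ := hT w hw
    obtain ⟨j1, d1, h1, h1'⟩ := hall w hw
    obtain ⟨j2, d2, h2, h2'⟩ := hall a ha
    rcases h1' with h1' | h1'
    · rcases h2' with h2' | h2'
      · exact absurd hwa (uu _ _ _ _ _ _ h1 h2 h1' h2')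
      · exact ⟨a, Cn.of_adj hw ha hwa, j2, d2, h2, h2'⟩
    · exact ⟨w, Cn.refl _ _ _, j1, d1, h1, h1'⟩
  · -- the centre is a selector
    have hcl1 : ∀ w, w ≠ u → f w = .hub ∨ ∃ j d, f w = .gad j d ∧ d.1 = y := by
      intro w hw
      rcases hfw : f w with _ | v' | ⟨j, d⟩
      · exact Or.inl rfl
      · exact absurd (hu w hw) (ssadj _ _ _ _ hfu hfw)
      · exact Or.inr ⟨j, d, rfl, ((sgadj _ _ _ _ _ hfu hfw).1 (hu w hw)).2⟩
    obtain ⟨a, b, ha, hb, hxa, hxb, hab⟩ := hT x hxu
    rcases hcl1 x hxu with h0 | ⟨j0, d0, h0, h0'⟩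
    · rcases hcl1 a ha with h1 | ⟨j1, d1, h1, h1'⟩
      · exact H.ne_of_adj hxa (hhadj _ _ h0 h1)
      · rcases hcl1 b hb with h2 | ⟨j2, d2, h2, h2'⟩
        · exact H.ne_of_adj hxb (hhadj _ _ h0 h2)
        · exact yy _ _ _ _ _ _ h1 h2 h1' h2' hab
    · rcases hcl1 a ha with h1 | ⟨j1, d1, h1, h1'⟩
      · rcases hcl1 b hb with h2 | ⟨j2, d2, h2, h2'⟩
        · exact H.ne_of_adj hab (hhadj _ _ h1 h2)
        · exact yy _ _ _ _ _ _ h0 h2 h0' h2' hxb
      · exact yy _ _ _ _ _ _ h0 h1 h0' h1' hxa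
  · by_cases hcy : c.1 = y
    · -- the centre is a copy of y
      have hcl1 : ∀ w, w ≠ u → f w = .hub ∨ (∃ v, f w = .sel v) ∨
          ∃ d, f w = .gad j d ∧ H.Adj y d := by
        intro w hw
        rcases hfw : f w with _ | v' | ⟨j', d⟩
        · exact Or.inl rfl
        · exact Or.inr (Or.inl ⟨v', rfl⟩)
        · rcases (gadj _ _ _ _ _ _ hfu hfw).1 (hu w hw) with ⟨e1, e2⟩ | ⟨_, e2, _⟩
          · subst e1
            rw [hcy] at e2
            exact Or.inr (Or.inr ⟨d, rfl, e2⟩)
          · rw [hcy] at e2; exact absurd e2 hN0y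
      have hsel : ∀ w v, f w = .sel v → ∀ b, b ≠ u → H.Adj w b → f b = .hub := by
        intro w v hw b hb hwb
        rcases hcl1 b hb with h | ⟨v', h⟩ | ⟨d, h, h'⟩
        · exact h
        · exact absurd hwb (ssadj _ _ _ _ hw h)
        · have := (sgadj _ _ _ _ _ hw h).1 hwb
          rw [this.2] at h'
          exact absurd rfl (H.ne_of_adj h')
      have hs : ∀ w, w ≠ u → ∀ v, f w ≠ .sel v := by
        intro w hw v hv
        obtain ⟨a, b, ha, hb, hwa, hwb, hab⟩ := hT w hw
        exact H.ne_of_adj hab (hhadj _ _ (hsel w v hv a ha hwa) (hsel w v hv b hb hwb))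
      refine one_gadget f x id (fun _ _ => Iff.rfl) (fun d h => Or.inl h) y' (Or.inr rfl)
        hnadj j ?_
      intro w
      by_cases hw : w = u
      · rw [hw]; exact Or.inr ⟨c, hfu⟩
      · rcases hcl1 w hw with h | ⟨v, h⟩ | ⟨d, h, _⟩
        · exact Or.inl h
        · exact absurd h (hs w hw v)
        · exact Or.inr ⟨d, h⟩
    · by_cases hcN : N0 c
      · have hcl1 : ∀ w, w ≠ u → f w = .hub ∨ (∃ d, f w = .gad j d ∧ d.1 = u) ∨
            ∃ k d, f w = .gad k d ∧ N0 d := by
          intro w hw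
          rcases hfw : f w with _ | v' | ⟨j', d⟩
          · exact Or.inl rfl
          · exact absurd ((sgadj _ _ _ _ _ hfw hfu).1 (hu w hw).symm).2 hcy
          · right
            rcases (gadj _ _ _ _ _ _ hfu hfw).1 (hu w hw) with ⟨e1, e2⟩ | ⟨_, _, e3⟩
            · subst e1
              by_cases hdu : d.1 = u
              · exact Or.inl ⟨d, rfl, hdu⟩
              · right
                rcases hcl _ _ hcN.2 hdu hcN.1 e2 with h | h
                · exact absurd h d.2
                · exact ⟨_, d, rfl, h, hdu⟩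
            · exact Or.inr ⟨j', d, rfl, e3⟩
        apply fin
        intro w hw
        obtain ⟨a, b, ha, hb, hwa, hwb, hab⟩ := hT w hw
        have ga : ∀ w1 w2, f w1 = .hub → f w2 = .hub → ¬ H.Adj w1 w2 :=
          fun w1 w2 h1 h2 h => H.ne_of_adj h (hhadj _ _ h1 h2)
        have gb : ∀ w1 w2, (∃ d, f w1 = .gad j d ∧ d.1 = u) → (∃ d, f w2 = .gad j d ∧ d.1 = u) →
            ¬ H.Adj w1 w2 := by
          rintro w1 w2 ⟨d1, h1, h1'⟩ ⟨d2, h2, h2'⟩
          exact uu _ _ _ _ _ _ h1 h2 h1' h2'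
        rcases hcl1 w hw with h1 | h1 | h1
        · rcases hcl1 a ha with h2 | h2 | h2
          · exact absurd hwa (ga _ _ h1 h2)
          · rcases hcl1 b hb with h3 | h3 | h3
            · exact absurd hwb (ga _ _ h1 h3)
            · exact absurd hab (gb _ _ h2 h3)
            · exact ⟨b, Cn.of_adj hw hb hwb, h3⟩
          · exact ⟨a, Cn.of_adj hw ha hwa, h2⟩
        · rcases hcl1 a ha with h2 | h2 | h2
          · rcases hcl1 b hb with h3 | h3 | h3
            · exact absurd hab (ga _ _ h2 h3)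
            · exact absurd hwb (gb _ _ h1 h3)
            · exact ⟨b, Cn.of_adj hw hb hwb, h3⟩
          · exact absurd hwa (gb _ _ h1 h2)
          · exact ⟨a, Cn.of_adj hw ha hwa, h2⟩
        · exact ⟨w, Cn.refl _ _ _, h1⟩
      · refine one_gadget f x id (fun _ _ => Iff.rfl) (fun d h => Or.inl h) y' (Or.inr rfl)
          hnadj j ?_
        intro w
        by_cases hw : w = u
        · rw [hw]; exact Or.inr ⟨c, hfu⟩
        · rcases hfw : f w with _ | v | ⟨j', d⟩
          · exact Or.inl rfl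
          · exact absurd ((sgadj _ _ _ _ _ hfw hfu).1 (hu w hw).symm).2 hcy
          · rcases (gadj _ _ _ _ _ _ hfu hfw).1 (hu w hw) with ⟨e1, _⟩ | ⟨_, e2, _⟩
            · subst e1
              exact Or.inr ⟨d, rfl⟩
            · exact absurd e2 hcN

/-- One universal vertex, `H - u` disconnected and not bipartite. -/
theorem nonbip_disc [Fintype α] {H : SimpleGraph α} {u : α} (hcard : 6 ≤ Fintype.card α)
    (hu : ∀ w, w ≠ u → H.Adj u w)
    (hd : ¬ (H.induce {w | w ≠ u}).Preconnected)
    (hnb : ¬ ∃ c : α → Bool, ∀ a b, a ≠ u → b ≠ u → H.Adj a b → c a ≠ c b) : HasPat H := by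
  -- two vertices in different components
  obtain ⟨a0, b0, ha0, hb0, hab0⟩ : ∃ a b, a ≠ u ∧ b ≠ u ∧ ¬ Cn H u a b := by
    simp only [SimpleGraph.Preconnected, not_forall] at hd
    obtain ⟨a, b, hab⟩ := hd
    refine ⟨a.1, b.1, a.2, b.2, ?_⟩
    intro h
    apply hab
    have := h (fun w => ∃ h : w ≠ u, (H.induce {w | w ≠ u}).Reachable a ⟨w, h⟩) ?_
      ⟨a.2, SimpleGraph.Reachable.refl _⟩
    · obtain ⟨_, h⟩ := this
      exact h
    · rintro c d hc hd hcd ⟨_, h⟩
      refine ⟨hd, h.trans (SimpleGraph.Adj.reachable ?_)⟩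
      exact hcd
  have hother : ∀ x, x ≠ u → ∃ y, y ≠ u ∧ ¬ Cn H u x y := by
    intro x _
    by_contra hcon
    push Not at hcon
    exact hab0 ((hcon a0 ha0).symm.trans (hcon b0 hb0))
  have hiso_ne : ∀ x y, (∀ b, b ≠ u → ¬ H.Adj x b) → y ≠ x → ¬ Cn H u x y := by
    intro x y hx hyx h
    exact hyx (h (fun w => w = x) (fun c d _ hd hcd hc => absurd (hc ▸ hcd) (hx d hd)) rfl)
  by_cases hiso : ∃ x, x ≠ u ∧ ∀ b, b ≠ u → ¬ H.Adj x b
  · obtain ⟨x, hxu, hx⟩ := hiso
    by_cases h2 : ∃ y, y ≠ u ∧ y ≠ x ∧ ∀ b, b ≠ u → ¬ H.Adj y b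
    · obtain ⟨y, hyu, hyx, hy⟩ := h2
      exact nlemma hu hxu hyu (hiso_ne x y hx hyx) hnb
        (Or.inl fun a b ha _ h _ _ => hx a ha h) (Or.inr (Or.inl hy))
    · push Not at h2
      by_cases h3 : ∃ y z, y ≠ u ∧ y ≠ x ∧ z ≠ u ∧ z ≠ x ∧ z ≠ y ∧ ¬ H.Adj y z
      · obtain ⟨y, z, hyu, hyx, hzu, hzx, hzy, hyz⟩ := h3
        refine nlemma hu hxu hyu (hiso_ne x y hx hyx) hnb
          (Or.inl fun a b ha _ h _ _ => hx a ha h) (Or.inr (Or.inr ⟨?_, z, hzu, hzx, hzy, hyz⟩))
        intro w hw hw'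
        by_contra hwx
        obtain ⟨b, hb, hwb⟩ := h2 w hw hwx
        exact hw' b hb hwb
      · push Not at h3
        refine lollipop hcard hu hxu hx ?_
        intro a b hax hbx hab
        by_cases hau : a = u
        · rw [hau]; exact hu b (fun e => hab (hau.trans e.symm))
        by_cases hbu : b = u
        · rw [hbu]; exact (hu a hau).symm
        exact h3 a b hau hax hbu hbx (Ne.symm hab)
  · push Not at hiso
    by_cases h1 : ∃ x, x ≠ u ∧ ∀ a b, a ≠ u → b ≠ u → H.Adj x a → H.Adj x b → ¬ H.Adj a b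
    · obtain ⟨x, hxu, hx⟩ := h1
      obtain ⟨y, hyu, hxy⟩ := hother x hxu
      exact nlemma hu hxu hyu hxy hnb (Or.inl hx) (Or.inl hiso)
    · push Not at h1
      have hT : ∀ w, w ≠ u → ∃ a b, a ≠ u ∧ b ≠ u ∧ H.Adj w a ∧ H.Adj w b ∧ H.Adj a b := by
        intro w hw
        obtain ⟨a, b, h1, h2, h3, h4, h5⟩ := h1 w hw
        exact ⟨a, b, h1, h2, h3, h4, h5⟩
      by_cases h2 : ∃ x, x ≠ u ∧ ∃ a, a ≠ u ∧ (Finset.univ.filter (fun d => H.Adj x d)).card <
          (Finset.univ.filter (fun w => Cn H u a w)).card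
      · obtain ⟨x, hxu, hx⟩ := h2
        obtain ⟨y, hyu, hxy⟩ := hother x hxu
        exact nlemma hu hxu hyu hxy hnb (Or.inr ⟨hT, hx⟩) (Or.inl hiso)
      · push Not at h2
        -- every component is complete
        have hcomp : ∀ x w, x ≠ u → Cn H u x w → w = x ∨ H.Adj x w := by
          intro x w hxu hw
          have hle := h2 x hxu x hxu
          -- replace u by x in N(x)
          have hsub : insert x ((Finset.univ.filter (fun d => H.Adj x d)).erase u) ⊆
              Finset.univ.filter (fun w => Cn H u x w) := by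
            intro d hd
            rw [Finset.mem_insert] at hd
            rw [Finset.mem_filter]
            refine ⟨Finset.mem_univ _, ?_⟩
            rcases hd with hd | hd
            · rw [hd]; exact Cn.refl _ _ _
            · rw [Finset.mem_erase, Finset.mem_filter] at hd
              exact Cn.of_adj hxu hd.1 hd.2.2
          have hc1 : (insert x ((Finset.univ.filter (fun d => H.Adj x d)).erase u)).card =
              (Finset.univ.filter (fun d => H.Adj x d)).card := by
            have hx1 : x ∉ (Finset.univ.filter (fun d => H.Adj x d)).erase u := by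
              intro h
              rw [Finset.mem_erase, Finset.mem_filter] at h
              exact H.ne_of_adj h.2.2 rfl
            have hu1 : u ∈ Finset.univ.filter (fun d => H.Adj x d) := by
              rw [Finset.mem_filter]
              exact ⟨Finset.mem_univ _, (hu x hxu).symm⟩
            rw [Finset.card_insert_of_notMem hx1, Finset.card_erase_of_mem hu1]
            have : 0 < (Finset.univ.filter (fun d => H.Adj x d)).card :=
              Finset.card_pos.2 ⟨u, hu1⟩
            omega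
          have heq := Finset.eq_of_subset_of_card_le hsub (by rw [hc1]; exact hle)
          have hw' : w ∈ Finset.univ.filter (fun w => Cn H u x w) := by
            rw [Finset.mem_filter]; exact ⟨Finset.mem_univ _, hw⟩
          rw [← heq, Finset.mem_insert] at hw'
          rcases hw' with h | h
          · exact Or.inl h
          · rw [Finset.mem_erase, Finset.mem_filter] at h
            exact Or.inr h.2.2
        obtain ⟨y, hyu, hxy⟩ := hother a0 ha0
        refine windmill hu ha0 hyu hxy hT ?_ ?_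
        · intro a b ha hb h1 h2 hab
          have h3 : Cn H u a b := (Cn.of_adj ha0 ha h1).symm.trans (Cn.of_adj ha0 hb h2)
          rcases hcomp a b ha h3 with h | h
          · exact absurd h.symm hab
          · exact h
        · intro a b ha hb h1 h2
          exact hcomp a0 b ha0 ((Cn.of_adj ha0 ha h1).trans (Cn.of_adj ha hb h2))

end HFC
end
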