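import Pool.Agent.Lib.HFC.Mg.G002

section

open Classical

namespace HFC

variable {α V J : Type}

/-! ### Elementary counting -/

/-- degree of `t` inside `A` -/
noncomputable def dg (H : SimpleGraph α) (A : Finset α) (t : α) : ℕ :=
  (A.filter (fun b => H.Adj t b)).card

/-- number of ordered adjacent pairs inside `A` -/
noncomputable def ec (H : SimpleGraph α) (A : Finset α) : ℕ := ∑ a ∈ A, dg H A a

lemma ec_erase (H : SimpleGraph α) {A : Finset α} {t : α} (ht : t ∈ A) :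
    ec H A = ec H (A.erase t) + 2 * dg H A t := by
  unfold ec
  rw [← Finset.sum_erase_add _ _ ht]
  have h1 : ∀ a ∈ A.erase t, dg H A a = dg H (A.erase t) a + (if H.Adj a t then 1 else 0) := by
    intro a _
    unfold dg
    rw [← Finset.insert_erase ht, Finset.filter_insert]
    split_ifs with h
    · rw [Finset.card_insert_of_notMem (by simp), Finset.erase_insert (by simp)]
    · rw [Finset.erase_insert (by simp)]; rfl
  rw [Finset.sum_congr rfl h1, Finset.sum_add_distrib]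
  have h2 : ∑ a ∈ A.erase t, (if H.Adj a t then 1 else 0) = dg H A t := by
    rw [← Finset.card_filter]
    unfold dg
    congr 1
    ext a
    simp only [Finset.mem_filter, Finset.mem_erase]
    constructor
    · rintro ⟨⟨_, h⟩, h'⟩; exact ⟨h, h'.symm⟩
    · rintro ⟨h, h'⟩; exact ⟨⟨(H.ne_of_adj h').symm, h⟩, h'.symm⟩
  rw [h2]; ring

lemma ec_le (H : SimpleGraph α) {A B : Finset α} (φ : α → α) (hφ : ∀ a ∈ A, φ a ∈ B)
    (hinj : ∀ a ∈ A, ∀ b ∈ A, φ a = φ b → a = b)
    (hadj : ∀ a ∈ A, ∀ b ∈ A, H.Adj a b → H.Adj (φ a) (φ b)) : ec H A ≤ ec H B := by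
  have key : ∀ A : Finset α, ec H A = ((A ×ˢ A).filter (fun p => H.Adj p.1 p.2)).card := by
    intro A
    rw [Finset.card_filter, Finset.sum_product]
    refine Finset.sum_congr rfl fun a _ => ?_
    rw [← Finset.card_filter]; rfl
  rw [key, key]
  refine Finset.card_le_card_of_injOn (fun p => (φ p.1, φ p.2)) ?_ ?_
  · rintro ⟨a, b⟩ h
    simp only [Finset.coe_filter, Finset.mem_product, Set.mem_ofPred_eq] at h ⊢
    exact ⟨⟨hφ a h.1.1, hφ b h.1.2⟩, hadj a h.1.1 b h.1.2 h.2⟩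
  · rintro ⟨a, b⟩ h ⟨a', b'⟩ h' e
    simp only [Finset.coe_filter, Finset.mem_product, Set.mem_ofPred_eq] at h h'
    simp only [Prod.mk.injEq] at e
    exact Prod.ext (hinj a h.1.1 a' h'.1.1 e.1) (hinj b h.1.2 b' h'.1.2 e.2)

lemma dg_le_one {H : SimpleGraph α} {A : Finset α} {t p : α}
    (h : ∀ b ∈ A, H.Adj t b → b = p) : dg H A t ≤ 1 := by
  unfold dg
  rw [Finset.card_le_one]
  intro a ha b hb
  rw [Finset.mem_filter] at ha hb
  rw [h a ha.1 ha.2, h b hb.1 hb.2]

lemma dg_le_one' {H : SimpleGraph α} {A : Finset α} {t : α}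
    (h : ∀ a ∈ A, ∀ b ∈ A, H.Adj t a → H.Adj t b → a = b) : dg H A t ≤ 1 := by
  unfold dg
  rw [Finset.card_le_one]
  intro a ha b hb
  rw [Finset.mem_filter] at ha hb
  exact h a ha.1 b hb.1 ha.2 hb.2

lemma dg_le_two {H : SimpleGraph α} {A : Finset α} {t p q : α}
    (h : ∀ b ∈ A, H.Adj t b → b = p ∨ b = q) : dg H A t ≤ 2 := by
  unfold dg
  have : (A.filter (fun b => H.Adj t b)) ⊆ {p, q} := by
    intro b hb
    rw [Finset.mem_filter] at hb
    simpa using h b hb.1 hb.2
  exact (Finset.card_le_card this).trans Finset.card_le_two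

lemma three_le_dg {H : SimpleGraph α} {A : Finset α} {t a b c : α} (ha : a ∈ A) (hb : b ∈ A)
    (hc : c ∈ A) (hta : H.Adj t a) (htb : H.Adj t b) (htc : H.Adj t c) (hab : a ≠ b) (hac : a ≠ c)
    (hbc : b ≠ c) : 3 ≤ dg H A t := by
  unfold dg
  have : ({a, b, c} : Finset α) ⊆ A.filter (fun b => H.Adj t b) := by
    intro d hd
    simp only [Finset.mem_insert, Finset.mem_singleton] at hd
    rw [Finset.mem_filter]
    rcases hd with rfl | rfl | rfl
    · exact ⟨ha, hta⟩
    · exact ⟨hb, htb⟩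
    · exact ⟨hc, htc⟩
  have h3 := Finset.card_le_card this
  rw [Finset.card_eq_three.2 ⟨a, b, c, hab, hac, hbc, rfl⟩] at h3
  exact h3

/-! ### Two disjoint non-adjacent edges -/

/-- the data of two sides of `H - u` containing edges -/
structure TwoSides (H : SimpleGraph α) (u : α) (S : α → Prop) : Prop where
  hS : ∀ a b, a ≠ u → b ≠ u → H.Adj a b → (S a ↔ S b)
  e1 : ∃ a b, a ≠ u ∧ b ≠ u ∧ H.Adj a b ∧ S a
  e2 : ∃ a b, a ≠ u ∧ b ≠ u ∧ H.Adj a b ∧ ¬ S a

/-- no two anticomplete edges: contradiction -/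
lemma TwoSides.no2K2 {H : SimpleGraph α} {u : α} {S : α → Prop} (h : TwoSides H u S)
    (hh : ∀ a b a' b', a ≠ u → b ≠ u → a' ≠ u → b' ≠ u → H.Adj a b → H.Adj a' b' →
      (a = a' ∨ a = b' ∨ b = a' ∨ b = b' ∨ H.Adj a a' ∨ H.Adj a b' ∨ H.Adj b a' ∨ H.Adj b b')) :
    False := by
  obtain ⟨a, b, ha, hb, hab, hSa⟩ := h.e1
  obtain ⟨a', b', ha', hb', hab', hSa'⟩ := h.e2
  have hSb : S b := (h.hS a b ha hb hab).1 hSa
  have hSb' : ¬ S b' := fun e => hSa' ((h.hS a' b' ha' hb' hab').2 e)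
  rcases hh a b a' b' ha hb ha' hb' hab hab' with e | e | e | e | e | e | e | e
  · exact hSa' (e ▸ hSa)
  · exact hSb' (e ▸ hSa)
  · exact hSa' (e ▸ hSb)
  · exact hSb' (e ▸ hSb)
  · exact hSa' ((h.hS _ _ ha ha' e).1 hSa)
  · exact hSb' ((h.hS _ _ ha hb' e).1 hSa)
  · exact hSa' ((h.hS _ _ hb ha' e).1 hSb)
  · exact hSb' ((h.hS _ _ hb hb' e).1 hSb)

/-- a graph with two anticomplete edges is not split -/
lemma TwoSides.split {H : SimpleGraph α} {u : α} {S : α → Prop} (h : TwoSides H u S)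
    (K : α → Prop)
    (hK : ∀ a b, a ≠ u → b ≠ u → a ≠ b → K a → K b → H.Adj a b)
    (hI : ∀ a b, a ≠ u → b ≠ u → ¬ K a → ¬ K b → ¬ H.Adj a b) : False := by
  refine h.no2K2 ?_
  intro a b a' b' ha hb ha' hb' hab hab'
  have h1 : K a ∨ K b := by
    by_contra hc
    push Not at hc
    exact hI a b ha hb hc.1 hc.2 hab
  have h2 : K a' ∨ K b' := by
    by_contra hc
    push Not at hc
    exact hI a' b' ha' hb' hc.1 hc.2 hab'
  rcases h1 with h1 | h1 <;> rcases h2 with h2 | h2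
  · by_cases e : a = a'
    · exact Or.inl e
    · have := hK _ _ ha ha' e h1 h2; tauto
  · by_cases e : a = b'
    · tauto
    · have := hK _ _ ha hb' e h1 h2; tauto
  · by_cases e : b = a'
    · tauto
    · have := hK _ _ hb ha' e h1 h2; tauto
  · by_cases e : b = b'
    · tauto
    · have := hK _ _ hb hb' e h1 h2; tauto

/-! ### The case of a centre `u_j` -/

lemma bd_center [Fintype α] {H : SimpleGraph α} {u x : α} (hxu : x ≠ u) (c : α → Bool)
    (hb : ∀ a b, a ≠ u → b ≠ u → H.Adj a b → c a ≠ c b)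
    (φ : α → α) (inG : α → Prop)
    (h1 : ∀ w, w ≠ u → inG w → φ w ≠ u ∧ φ w ≠ x)
    (h2 : ∀ w w', inG w → inG w' → φ w = φ w' → w = w')
    (h3 : ∀ w w', inG w → inG w' → H.Adj w w' → H.Adj (φ w) (φ w'))
    (hK : ∀ w w', w ≠ u → w' ≠ u → w ≠ w' → ¬ inG w → ¬ inG w' → H.Adj w w') :
    (∃ t, t ≠ u ∧ ¬ inG t ∧ (∀ w, w ≠ u → w ≠ t → inG w) ∧
       dg H (Finset.univ.erase u) x ≤ dg H (Finset.univ.erase u) t ∧
       ∀ d, d ≠ u → d ≠ x → ∃ w, w ≠ u ∧ inG w ∧ φ w = d) ∨
    (∃ t t', t ≠ u ∧ t' ≠ u ∧ t ≠ t' ∧ ¬ inG t ∧ ¬ inG t' ∧ H.Adj t t' ∧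
       (∀ w, w ≠ u → w ≠ t → w ≠ t' → inG w) ∧
       dg H (Finset.univ.erase u) x + 1 ≤
         dg H (Finset.univ.erase u) t + dg H (Finset.univ.erase u) t' ∧
       ∀ N : Finset α, (∀ d ∈ N, d ≠ u ∧ d ≠ x) →
         ∃ F : Finset α, N.card ≤ F.card + 1 ∧ ∀ w ∈ F, w ≠ u ∧ inG w ∧ φ w ∈ N) := by
  set V0 : Finset α := Finset.univ.erase u with hV0
  have memV : ∀ a, a ∈ V0 ↔ a ≠ u := by intro a; simp [hV0]
  set A : Finset α := V0.filter inG with hA
  set T : Finset α := V0.filter (fun w => ¬ inG w) with hT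
  have hAT : A.card + T.card = V0.card := by
    rw [hA, hT]; exact Finset.card_filter_add_card_filter_not _
  have hx0 : x ∈ V0 := (memV x).2 hxu
  have hAx : ∀ a ∈ A, φ a ∈ V0.erase x := by
    intro a ha
    rw [hA, Finset.mem_filter, memV] at ha
    obtain ⟨e1, e2⟩ := h1 a ha.1 ha.2
    exact Finset.mem_erase.2 ⟨e2, (memV _).2 e1⟩
  have hAi : ∀ a ∈ A, ∀ b ∈ A, φ a = φ b → a = b := by
    intro a ha b hb e
    rw [hA, Finset.mem_filter] at ha hb
    exact h2 a b ha.2 hb.2 e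
  have hcard : A.card ≤ (V0.erase x).card :=
    Finset.card_le_card_of_injOn φ hAx (fun a ha b hb e => hAi a ha b hb e)
  have hcx : (V0.erase x).card + 1 = V0.card := Finset.card_erase_add_one hx0
  have hT1 : 1 ≤ T.card := by omega
  have hT2 : T.card ≤ 2 := by
    by_contra hc
    push Not at hc
    obtain ⟨p, hp, q, hq, r, hr, hpq, hpr, hqr⟩ := Finset.two_lt_card.1 hc
    rw [hT, Finset.mem_filter, memV] at hp hq hr
    have e1 := hb _ _ hp.1 hq.1 (hK _ _ hp.1 hq.1 hpq hp.2 hq.2)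
    have e2 := hb _ _ hp.1 hr.1 (hK _ _ hp.1 hr.1 hpr hp.2 hr.2)
    have e3 := hb _ _ hq.1 hr.1 (hK _ _ hq.1 hr.1 hqr hq.2 hr.2)
    revert e1 e2 e3
    cases c p <;> cases c q <;> cases c r <;> simp
  have hec : ec H A ≤ ec H (V0.erase x) := by
    refine ec_le H φ hAx hAi ?_
    intro a ha b hb' hab
    rw [hA, Finset.mem_filter] at ha hb'
    exact h3 a b ha.2 hb'.2 hab
  have hecx := ec_erase H hx0
  rcases (by omega : T.card = 1 ∨ T.card = 2) with hc1 | hc2
  · left
    obtain ⟨t, ht⟩ := Finset.card_eq_one.1 hc1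
    have htT : t ∈ T := by rw [ht]; simp
    have htT' := htT
    rw [hT, Finset.mem_filter, memV] at htT'
    have hAt : A = V0.erase t := by
      ext a
      rw [Finset.mem_erase, hA, Finset.mem_filter]
      constructor
      · rintro ⟨e1, e2⟩
        exact ⟨fun e => htT'.2 (e ▸ e2), e1⟩
      · rintro ⟨e1, e2⟩
        refine ⟨e2, ?_⟩
        by_contra e3
        have : a ∈ T := by rw [hT, Finset.mem_filter]; exact ⟨e2, e3⟩
        rw [ht, Finset.mem_singleton] at this
        exact e1 this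
    refine ⟨t, htT'.1, htT'.2, ?_, ?_, ?_⟩
    · intro w hw hwt
      have : w ∈ A := by rw [hAt]; exact Finset.mem_erase.2 ⟨hwt, (memV w).2 hw⟩
      rw [hA, Finset.mem_filter] at this
      exact this.2
    · have := ec_erase H ((memV t).2 htT'.1)
      rw [hAt] at hec
      omega
    · have hcardeq : A.card = (V0.erase x).card := by omega
      have himg : A.image φ = V0.erase x := by
        apply Finset.eq_of_subset_of_card_le
        · intro d hd
          rw [Finset.mem_image] at hd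
          obtain ⟨a, ha, rfl⟩ := hd
          exact hAx a ha
        · rw [Finset.card_image_of_injOn (fun a ha b hb e => hAi a ha b hb e)]
          omega
      intro d hdu hdx
      have : d ∈ A.image φ := by rw [himg]; exact Finset.mem_erase.2 ⟨hdx, (memV d).2 hdu⟩
      rw [Finset.mem_image] at this
      obtain ⟨w, hw, e⟩ := this
      rw [hA, Finset.mem_filter, memV] at hw
      exact ⟨w, hw.1, hw.2, e⟩
  · right
    obtain ⟨t, t', htt, ht⟩ := Finset.card_eq_two.1 hc2
    have htT : t ∈ T := by rw [ht]; simp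
    have htT' : t' ∈ T := by rw [ht]; simp
    have a1 := htT
    have a2 := htT'
    rw [hT, Finset.mem_filter, memV] at a1 a2
    have hadj : H.Adj t t' := hK _ _ a1.1 a2.1 htt a1.2 a2.2
    have hAt : A = (V0.erase t).erase t' := by
      ext a
      rw [Finset.mem_erase, Finset.mem_erase, hA, Finset.mem_filter]
      constructor
      · rintro ⟨e1, e2⟩
        exact ⟨fun e => a2.2 (e ▸ e2), fun e => a1.2 (e ▸ e2), e1⟩
      · rintro ⟨e1, e2, e3⟩
        refine ⟨e3, ?_⟩
        by_contra e4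
        have : a ∈ T := by rw [hT, Finset.mem_filter]; exact ⟨e3, e4⟩
        rw [ht, Finset.mem_insert, Finset.mem_singleton] at this
        rcases this with e | e
        · exact e2 e
        · exact e1 e
    refine ⟨t, t', a1.1, a2.1, htt, a1.2, a2.2, hadj, ?_, ?_, ?_⟩
    · intro w hw hwt hwt'
      have : w ∈ A := by
        rw [hAt]
        exact Finset.mem_erase.2 ⟨hwt', Finset.mem_erase.2 ⟨hwt, (memV w).2 hw⟩⟩
      rw [hA, Finset.mem_filter] at this
      exact this.2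
    · have b1 := ec_erase H ((memV t).2 a1.1)
      have b2 := ec_erase H (A := V0.erase t) (t := t')
        (Finset.mem_erase.2 ⟨htt.symm, (memV t').2 a2.1⟩)
      have b3 : dg H (V0.erase t) t' + 1 = dg H V0 t' := by
        unfold dg
        rw [← Finset.insert_erase ((memV t).2 a1.1), Finset.filter_insert, if_pos hadj.symm,
          Finset.card_insert_of_notMem (by simp), Finset.erase_insert (by simp)]
      rw [hAt] at hec
      omega
    · intro N hN
      have hNs : N ⊆ V0.erase x := by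
        intro d hd
        exact Finset.mem_erase.2 ⟨(hN d hd).2, (memV d).2 (hN d hd).1⟩
      have hfilt : (A.image φ).card = A.card :=
        Finset.card_image_of_injOn (fun a ha b hb e => hAi a ha b hb e)
      have hsub : A.image φ ⊆ V0.erase x := by
        intro d hd
        rw [Finset.mem_image] at hd
        obtain ⟨a, ha, rfl⟩ := hd
        exact hAx a ha
      have h5 : (V0.erase x \ A.image φ).card = 1 := by
        rw [Finset.card_sdiff_of_subset hsub, hfilt]; omega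
      have h6 : N ⊆ (A.filter (fun w => φ w ∈ N)).image φ ∪ (V0.erase x \ A.image φ) := by
        intro d hd
        rw [Finset.mem_union]
        by_cases hdi : d ∈ A.image φ
        · left
          rw [Finset.mem_image] at hdi ⊢
          obtain ⟨a, ha, e⟩ := hdi
          exact ⟨a, Finset.mem_filter.2 ⟨ha, by rw [e]; exact hd⟩, e⟩
        · right
          exact Finset.mem_sdiff.2 ⟨hNs hd, hdi⟩
      have h7 := (Finset.card_le_card h6).trans (Finset.card_union_le _ _)
      rw [h5] at h7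
      refine ⟨A.filter (fun w => φ w ∈ N), ?_, ?_⟩
      · exact h7.trans (Nat.add_le_add_right Finset.card_image_le 1)
      · intro w hw
        rw [Finset.mem_filter, hA, Finset.mem_filter, memV] at hw
        exact ⟨hw.1.1, hw.1.2, hw.2⟩

/-! ### Adjacency of the images -/

section emb
variable {H : SimpleGraph α} {x : α} {M : α → α → Prop} {hM : ∀ a b, M a b → M b a}
  {P Q : α → Prop} {T : Prop} {rel : V → J → Prop}
  (f : H ↪g (dPat H x M hM P Q T).graph (fun c => H.Adj x c ∨ P c) rel)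

include f

lemma bd_hs {a b : α} {v : V} (ha : f a = .hub) (hb : f b = .sel v) : H.Adj a b := by
  rw [← f.map_rel_iff]
  show ((dPat H x M hM P Q T).graph (fun c => H.Adj x c ∨ P c) rel).Adj (f a) (f b)
  rw [ha, hb]; trivial

lemma bd_hg {a b : α} {j : J} {d : {d : α // d ≠ x}} (ha : f a = .hub) (hb : f b = .gad j d) :
    H.Adj a b ↔ (H.Adj x d ∨ P d) := by
  rw [← f.map_rel_iff]
  show ((dPat H x M hM P Q T).graph (fun c => H.Adj x c ∨ P c) rel).Adj (f a) (f b) ↔ _
  rw [ha, hb]; exact Iff.rfl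

lemma bd_ss {a b : α} {v v' : V} (ha : f a = .sel v) (hb : f b = .sel v') :
    H.Adj a b ↔ (v ≠ v' ∧ T) := by
  rw [← f.map_rel_iff]
  show ((dPat H x M hM P Q T).graph (fun c => H.Adj x c ∨ P c) rel).Adj (f a) (f b) ↔ _
  rw [ha, hb]; exact Iff.rfl

lemma bd_sg {a b : α} {v : V} {j : J} {d : {d : α // d ≠ x}} (ha : f a = .sel v)
    (hb : f b = .gad j d) :
    H.Adj a b ↔ ((rel v j ∧ P d) ∨ (¬ rel v j ∧ Q d)) := by
  rw [← f.map_rel_iff]
  show ((dPat H x M hM P Q T).graph (fun c => H.Adj x c ∨ P c) rel).Adj (f a) (f b) ↔ _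
  rw [ha, hb]; exact Iff.rfl

lemma bd_gg {a b : α} {j j' : J} {d d' : {d : α // d ≠ x}} (ha : f a = .gad j d)
    (hb : f b = .gad j' d') :
    H.Adj a b ↔ ((j = j' ∧ H.Adj d d') ∨ (j ≠ j' ∧ M d d')) := by
  rw [← f.map_rel_iff]
  show ((dPat H x M hM P Q T).graph (fun c => H.Adj x c ∨ P c) rel).Adj (f a) (f b) ↔ _
  rw [ha, hb]; exact Iff.rfl

/-- distinct vertices with sel images are adjacent if `T` -/
lemma bd_ss' {a b : α} {v v' : V} (hT : T) (hab : a ≠ b) (ha : f a = .sel v)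
    (hb : f b = .sel v') : H.Adj a b := by
  rw [bd_ss f ha hb]
  exact ⟨fun e => hab (f.injective (by rw [ha, hb, e])), hT⟩

/-- distinct vertices with images `M`-related to themselves -/
lemma bd_gg' {a b : α} {j j' : J} {d d' : {d : α // d ≠ x}} (hab : a ≠ b) (hd : d.1 = d'.1)
    (hm : M d d') (ha : f a = .gad j d) (hb : f b = .gad j' d') : H.Adj a b := by
  rw [bd_gg f ha hb]
  refine Or.inr ⟨fun e => hab (f.injective ?_), hm⟩
  rw [ha, hb, e, Subtype.ext hd]

end emb

/-! ### SPLIT3 -/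

theorem bd_split3 [Fintype α] {H : SimpleGraph α} {u : α} {S : α → Prop}
    (hu : ∀ w, w ≠ u → H.Adj u w) (h2 : TwoSides H u S) (c : α → Bool)
    (hb : ∀ a b, a ≠ u → b ≠ u → H.Adj a b → c a ≠ c b) (x : α) (hxu : x ≠ u)
    (hmax : ∀ t, t ≠ u → dg H (Finset.univ.erase u) t ≤ dg H (Finset.univ.erase u) x)
    (hx3 : 3 ≤ dg H (Finset.univ.erase u) x) : HasPat H := by
  -- a vertex on the other side
  obtain ⟨y, hyu, hSxy⟩ : ∃ y, y ≠ u ∧ ¬ (S x ↔ S y) := by
    by_cases hSx : S x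
    · obtain ⟨a, b, ha, _, _, hSa⟩ := h2.e2
      exact ⟨a, ha, fun e => hSa (e.1 hSx)⟩
    · obtain ⟨a, b, ha, _, _, hSa⟩ := h2.e1
      exact ⟨a, ha, fun e => hSx (e.2 hSa)⟩
  have hyx : y ≠ x := fun e => hSxy (by rw [e])
  have hxy : ¬ H.Adj x y := fun e => hSxy (h2.hS _ _ hxu hyu e)
  have hny : ∀ z, z ≠ u → H.Adj x z → ¬ H.Adj y z := by
    intro z hz h1 h3
    exact hSxy ((h2.hS _ _ hxu hz h1).trans (h2.hS _ _ hyu hz h3).symm)
  -- no triangles
  have tri : ∀ p q r, p ≠ u → q ≠ u → r ≠ u → H.Adj p q → H.Adj p r → H.Adj q r → False := by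
    intro p q r hp hq hr e1 e2 e3
    have a1 := hb _ _ hp hq e1
    have a2 := hb _ _ hp hr e2
    have a3 := hb _ _ hq hr e3
    revert a1 a2 a3
    cases c p <;> cases c q <;> cases c r <;> simp
  have hxu' : H.Adj x u := (hu x hxu).symm
  refine dPat_good H x (fun a b => a = u ∧ b = u) (fun a b h => ⟨h.2, h.1⟩)
    (fun d => d = y ∨ d = u) (fun d => d = u) True (fun a b h => by rw [h.1]; exact hxu')
    (fun a h => by rw [h]; exact hxu') ?_
  intro V J rel
  refine ⟨fun f => ?_⟩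
  let uu : {d : α // d ≠ x} := ⟨u, hxu.symm⟩
  let yy : {d : α // d ≠ x} := ⟨y, hyx⟩
  have hadj : ∀ w, w ≠ u → H.Adj u w := hu
  rcases hfu : f u with _ | v | ⟨j, d0⟩
  · -- (a) centre hub
    refine h2.split (fun w => (∃ v, f w = .sel v) ∨ ∃ j, f w = .gad j uu) ?_ ?_
    · rintro a b ha hb' hab (⟨v, hv⟩ | ⟨j, hj⟩) (⟨v', hv'⟩ | ⟨j', hj'⟩)
      · exact bd_ss' f trivial hab hv hv'
      · rw [bd_sg f hv hj']
        by_cases hr : rel v j'
        · exact Or.inl ⟨hr, Or.inr rfl⟩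
        · exact Or.inr ⟨hr, rfl⟩
      · symm
        rw [bd_sg f hv' hj]
        by_cases hr : rel v' j
        · exact Or.inl ⟨hr, Or.inr rfl⟩
        · exact Or.inr ⟨hr, rfl⟩
      · exact bd_gg' f hab rfl ⟨rfl, rfl⟩ hj hj'
    · intro a b ha hb' hKa hKb hab
      have key : ∀ w, w ≠ u → ¬ ((∃ v, f w = .sel v) ∨ ∃ j, f w = .gad j uu) →
          ∃ j, ∃ d : {d : α // d ≠ x}, f w = .gad j d ∧ d.1 ≠ u ∧ (H.Adj x d ∨ d.1 = y) := by
        intro w hw hK
        rcases hfw : f w with _ | v | ⟨j, d⟩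
        · exact absurd (f.injective (hfw.trans hfu.symm)) hw
        · exact absurd (Or.inl ⟨v, hfw⟩) hK
        · have hdu : d.1 ≠ u := by
            intro e
            refine hK (Or.inr ⟨j, ?_⟩)
            rw [hfw]; congr 1; exact Subtype.ext e
          refine ⟨j, d, rfl, hdu, ?_⟩
          rcases (bd_hg f hfu hfw).1 (hu w hw) with h | h | h
          · exact Or.inl h
          · exact Or.inr h
          · exact absurd h hdu
      obtain ⟨j, d, hj, hdu, hd⟩ := key a ha hKa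
      obtain ⟨j', d', hj', hdu', hd'⟩ := key b hb' hKb
      rcases (bd_gg f hj hj').1 hab with ⟨_, h⟩ | ⟨_, h⟩
      · rcases hd with hd | hd <;> rcases hd' with hd' | hd'
        · exact tri _ _ _ hxu hdu hdu' hd hd' h
        · rw [hd'] at h; exact hny _ hdu hd h.symm
        · rw [hd] at h; exact hny _ hdu' hd' h
        · rw [hd, hd'] at h; exact H.ne_of_adj h rfl
      · exact hdu h.1
  · -- (b) centre sel
    refine h2.split (fun w => ¬ ∃ j, f w = .gad j yy) ?_ ?_
    · have key : ∀ w, w ≠ u → (¬ ∃ j, f w = .gad j yy) →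
          f w = .hub ∨ (∃ v, f w = .sel v) ∨ ∃ j, f w = .gad j uu := by
        intro w hw hK
        rcases hfw : f w with _ | v' | ⟨j, d⟩
        · exact Or.inl rfl
        · exact Or.inr (Or.inl ⟨v', rfl⟩)
        · refine Or.inr (Or.inr ⟨j, ?_⟩)
          congr 1
          apply Subtype.ext
          rcases (bd_sg f hfu hfw).1 (hu w hw) with ⟨_, h | h⟩ | ⟨_, h⟩
          · exact absurd ⟨j, by rw [hfw]; congr 1; exact Subtype.ext h⟩ hK
          · exact h
          · exact h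
      intro a b ha hb' hab hKa hKb
      rcases key a ha hKa with h | ⟨v1, h⟩ | ⟨j1, h⟩ <;>
        rcases key b hb' hKb with h' | ⟨v2, h'⟩ | ⟨j2, h'⟩
      · exact absurd (f.injective (h.trans h'.symm)) hab
      · exact bd_hs f h h'
      · exact (bd_hg f h h').2 (Or.inl hxu')
      · exact (bd_hs f h' h).symm
      · exact bd_ss' f trivial hab h h'
      · rw [bd_sg f h h']
        by_cases hr : rel v1 j2
        · exact Or.inl ⟨hr, Or.inr rfl⟩
        · exact Or.inr ⟨hr, rfl⟩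
      · exact ((bd_hg f h' h).2 (Or.inl hxu')).symm
      · symm
        rw [bd_sg f h' h]
        by_cases hr : rel v2 j1
        · exact Or.inl ⟨hr, Or.inr rfl⟩
        · exact Or.inr ⟨hr, rfl⟩
      · exact bd_gg' f hab rfl ⟨rfl, rfl⟩ h h'
    · intro a b ha hb' hKa hKb hab
      push Not at hKa hKb
      obtain ⟨j, hj⟩ := hKa
      obtain ⟨j', hj'⟩ := hKb
      rcases (bd_gg f hj hj').1 hab with ⟨_, h⟩ | ⟨_, h⟩
      · exact H.ne_of_adj h rfl
      · exact hyu h.1
  · by_cases hd0u : d0.1 = u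
    · -- (c) centre u_j
      have hfu' : f u = .gad j uu := by rw [hfu]; congr 1; exact Subtype.ext hd0u
      have key : ∀ w, w ≠ u → (¬ ∃ d : {d : α // d ≠ x}, f w = .gad j d) →
          f w = .hub ∨ (∃ v, f w = .sel v) ∨ ∃ k, k ≠ j ∧ f w = .gad k uu := by
        intro w hw hK
        rcases hfw : f w with _ | v' | ⟨k, d⟩
        · exact Or.inl rfl
        · exact Or.inr (Or.inl ⟨v', rfl⟩)
        · by_cases hkj : k = j
          · exact absurd ⟨d, by rw [hfw, hkj]⟩ hK
          · refine Or.inr (Or.inr ⟨k, hkj, ?_⟩)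
            rcases (bd_gg f hfu' hfw).1 (hu w hw) with ⟨h, _⟩ | ⟨_, h⟩
            · exact absurd h.symm hkj
            · congr 1; exact Subtype.ext h.2
      have hclique : ∀ w w', w ≠ u → w' ≠ u → w ≠ w' →
          (¬ ∃ d : {d : α // d ≠ x}, f w = .gad j d) →
          (¬ ∃ d : {d : α // d ≠ x}, f w' = .gad j d) → H.Adj w w' := by
        intro a b ha hb' hab hKa hKb
        rcases key a ha hKa with h | ⟨v1, h⟩ | ⟨j1, _, h⟩ <;>
          rcases key b hb' hKb with h' | ⟨v2, h'⟩ | ⟨j2, _, h'⟩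
        · exact absurd (f.injective (h.trans h'.symm)) hab
        · exact bd_hs f h h'
        · exact (bd_hg f h h').2 (Or.inl hxu')
        · exact (bd_hs f h' h).symm
        · exact bd_ss' f trivial hab h h'
        · rw [bd_sg f h h']
          by_cases hr : rel v1 j2
          · exact Or.inl ⟨hr, Or.inr rfl⟩
          · exact Or.inr ⟨hr, rfl⟩
        · exact ((bd_hg f h' h).2 (Or.inl hxu')).symm
        · symm
          rw [bd_sg f h' h]
          by_cases hr : rel v2 j1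
          · exact Or.inl ⟨hr, Or.inr rfl⟩
          · exact Or.inr ⟨hr, rfl⟩
        · exact bd_gg' f hab rfl ⟨rfl, rfl⟩ h h'
      -- neighbours of an outside vertex (not the hub) inside the gadget
      have hnb : ∀ t w (d : {d : α // d ≠ x}), t ≠ u → w ≠ u →
          ((∃ v, f t = .sel v) ∨ ∃ k, k ≠ j ∧ f t = .gad k uu) → f w = .gad j d → H.Adj t w →
          f w = .gad j yy := by
        intro t w d ht hw hft hfw htw
        have hdu : d.1 ≠ u := by
          intro e
          apply hw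
          apply f.injective
          rw [hfw, hfu']; congr 1; exact Subtype.ext e
        rcases hft with ⟨v, hv⟩ | ⟨k, hk, hk'⟩
        · rcases (bd_sg f hv hfw).1 htw with ⟨_, h | h⟩ | ⟨_, h⟩
          · rw [hfw]; congr 1; exact Subtype.ext h
          · exact absurd h hdu
          · exact absurd h hdu
        · rcases (bd_gg f hk' hfw).1 htw with ⟨h, _⟩ | ⟨_, h⟩
          · exact absurd h hk
          · exact absurd h.2 hdu
      have hWuniq : ∀ w w', f w = .gad j yy → f w' = .gad j yy → w = w' :=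
        fun w w' h h' => f.injective (h.trans h'.symm)
      have memV : ∀ a, a ∈ (Finset.univ.erase u : Finset α) ↔ a ≠ u := by intro a; simp
      have q1 : ∀ w, w ≠ u → (∃ d : {d : α // d ≠ x}, f w = .gad j d) →
          (cls yy (f w)).1 ≠ u ∧ (cls yy (f w)).1 ≠ x := by
        rintro w hw ⟨d, hd⟩
        rw [hd]
        refine ⟨fun e => hw (f.injective ?_), d.2⟩
        rw [hd, hfu']; congr 1; exact Subtype.ext e
      have q2 : ∀ w w', (∃ d : {d : α // d ≠ x}, f w = .gad j d) →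
          (∃ d : {d : α // d ≠ x}, f w' = .gad j d) →
          (cls yy (f w)).1 = (cls yy (f w')).1 → w = w' := by
        rintro w w' ⟨d, hd⟩ ⟨d', hd'⟩ e
        apply f.injective
        simp only [hd, hd', cls] at e
        rw [hd, hd']; congr 1; exact Subtype.ext e
      have q3 : ∀ w w', (∃ d : {d : α // d ≠ x}, f w = .gad j d) →
          (∃ d : {d : α // d ≠ x}, f w' = .gad j d) → H.Adj w w' →
          H.Adj (cls yy (f w)).1 (cls yy (f w')).1 := by
        rintro w w' ⟨d, hd⟩ ⟨d', hd'⟩ h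
        rw [hd, hd']
        rcases (bd_gg f hd hd').1 h with ⟨_, h⟩ | ⟨h, _⟩
        · exact h
        · exact absurd rfl h
      rcases bd_center hxu c hb (fun w => (cls yy (f w)).1)
        (fun w => ∃ d : {d : α // d ≠ x}, f w = .gad j d) q1 q2 q3 hclique with
        ⟨t, ht, htG, hall, hdeg, -⟩ | ⟨t, t', ht, ht', htt, htG, htG', hadjt, hall, hdeg, hN⟩
      · rcases key t ht htG with h | h
        · -- one gadget
          refine one_gadget f x id (fun d d' => Iff.rfl) (fun d hd => Or.inl hd) yy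
            (Or.inr (Or.inl rfl)) hxy j ?_
          intro w
          by_cases hwt : w = t
          · rw [hwt]; exact Or.inl h
          by_cases hwu : w = u
          · rw [hwu]; exact Or.inr ⟨uu, hfu'⟩
          obtain ⟨d, hd⟩ := hall w hwu hwt
          exact Or.inr ⟨d, hd⟩
        · have : dg H (Finset.univ.erase u) t ≤ 1 := by
            refine dg_le_one' ?_
            intro a ha b hb' hta htb
            rw [memV] at ha hb'
            obtain ⟨d, hd⟩ := hall a ha (H.ne_of_adj hta).symm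
            obtain ⟨d', hd'⟩ := hall b hb' (H.ne_of_adj htb).symm
            exact hWuniq _ _ (hnb t a d ht ha h hd hta) (hnb t b d' ht hb' h hd' htb)
          omega
      · -- two outside vertices
        have hubcase : ∀ t t', t ≠ u → t' ≠ u → t ≠ t' → H.Adj t t' →
            (¬ ∃ d : {d : α // d ≠ x}, f t' = .gad j d) → f t = .hub → False := by
          intro t t' ht ht' htt hadjt htG' hft
          let N : Finset α := insert y ((Finset.univ.erase u).filter (fun b => H.Adj x b))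
          have hNc : N.card = dg H (Finset.univ.erase u) x + 1 := by
            rw [Finset.card_insert_of_notMem]
            · rfl
            · rw [Finset.mem_filter]; exact fun h => hxy h.2
          have hNm : ∀ d ∈ N, d ≠ u ∧ d ≠ x := by
            intro d hd
            rcases Finset.mem_insert.1 hd with h | h
            · rw [h]; exact ⟨hyu, hyx⟩
            · rw [Finset.mem_filter, memV] at h
              exact ⟨h.1, (H.ne_of_adj h.2).symm⟩
          obtain ⟨F, h5, hF⟩ := hN N hNm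
          have h6 : F.card + 1 ≤ dg H (Finset.univ.erase u) t := by
            unfold dg
            have hmem : t' ∈ (Finset.univ.erase u).filter (fun b => H.Adj t b) := by
              rw [Finset.mem_filter, memV]; exact ⟨ht', hadjt⟩
            rw [← Finset.card_erase_add_one hmem]
            apply Nat.succ_le_succ
            apply Finset.card_le_card
            intro w hw
            obtain ⟨hwu, ⟨d, hd⟩, hwN⟩ := hF w hw
            rw [Finset.mem_erase, Finset.mem_filter, memV]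
            refine ⟨fun e => htG' ⟨d, by rw [← e]; exact hd⟩, hwu, ?_⟩
            rw [bd_hg f hft hd]
            rw [hd] at hwN
            rcases Finset.mem_insert.1 hwN with h | h
            · exact Or.inr (Or.inl h)
            · rw [Finset.mem_filter] at h
              exact Or.inl h.2
          have h7 := hmax t ht
          omega
        rcases key t ht htG with h | h
        · exact hubcase t t' ht ht' htt hadjt htG' h
        rcases key t' ht' htG' with h' | h'
        · exact hubcase t' t ht' ht htt.symm hadjt.symm htG h'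
        by_cases hw0 : ∃ w0, w0 ≠ u ∧ f w0 = .gad j yy ∧ H.Adj t w0
        · obtain ⟨w0, hw0u, hw0, hw0t⟩ := hw0
          have h8 : dg H (Finset.univ.erase u) t ≤ 2 := by
            refine dg_le_two (p := t') (q := w0) ?_
            intro b hb' htb
            rw [memV] at hb'
            by_cases hbt : b = t'
            · exact Or.inl hbt
            · obtain ⟨d, hd⟩ := hall b hb' (H.ne_of_adj htb).symm hbt
              exact Or.inr (hWuniq _ _ (hnb t b d ht hb' h hd htb) hw0)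
          have h9 : dg H (Finset.univ.erase u) t' ≤ 1 := by
            refine dg_le_one (p := t) ?_
            intro b hb' htb
            rw [memV] at hb'
            by_contra hbt
            obtain ⟨d, hd⟩ := hall b hb' hbt (H.ne_of_adj htb).symm
            have := hWuniq _ _ (hnb t' b d ht' hb' h' hd htb) hw0
            rw [this] at htb
            exact tri _ _ _ ht ht' hw0u hadjt hw0t htb
          omega
        · have h8 : dg H (Finset.univ.erase u) t ≤ 1 := by
            refine dg_le_one (p := t') ?_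
            intro b hb' htb
            rw [memV] at hb'
            by_contra hbt
            obtain ⟨d, hd⟩ := hall b hb' (H.ne_of_adj htb).symm hbt
            exact hw0 ⟨b, hb', hnb t b d ht hb' h hd htb, htb⟩
          have h9 : dg H (Finset.univ.erase u) t' ≤ 2 := by
            by_cases hw1 : ∃ w0, f w0 = .gad j yy
            · obtain ⟨w0, hw0'⟩ := hw1
              refine dg_le_two (p := t) (q := w0) ?_
              intro b hb' htb
              rw [memV] at hb'
              by_cases hbt : b = t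
              · exact Or.inl hbt
              · obtain ⟨d, hd⟩ := hall b hb' hbt (H.ne_of_adj htb).symm
                exact Or.inr (hWuniq _ _ (hnb t' b d ht' hb' h' hd htb) hw0')
            · refine (dg_le_one (p := t) ?_).trans (by norm_num)
              intro b hb' htb
              rw [memV] at hb'
              by_contra hbt
              obtain ⟨d, hd⟩ := hall b hb' hbt (H.ne_of_adj htb).symm
              exact hw1 ⟨b, hnb t' b d ht' hb' h' hd htb⟩
          omega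
    · by_cases hd0y : d0.1 = y
      · -- (d) centre y_j
        have key : ∀ w, w ≠ u → f w = .hub ∨ (∃ v, f w = .sel v) ∨ f w = .gad j uu ∨
            ∃ d : {d : α // d ≠ x}, f w = .gad j d ∧ d.1 ≠ u ∧ H.Adj y d := by
          intro w hw
          rcases hfw : f w with _ | v' | ⟨k, d⟩
          · exact Or.inl rfl
          · exact Or.inr (Or.inl ⟨v', rfl⟩)
          · rcases (bd_gg f hfu hfw).1 (hu w hw) with ⟨h, h'⟩ | ⟨_, h⟩
            · subst h
              by_cases hdu : d.1 = u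
              · exact Or.inr (Or.inr (Or.inl (by congr 1; exact Subtype.ext hdu)))
              · exact Or.inr (Or.inr (Or.inr ⟨d, rfl, hdu, by rw [hd0y] at h'; exact h'⟩))
            · exact absurd h.1 hd0u
        refine h2.split (fun w => f w = .hub ∨ (∃ v, f w = .sel v) ∨ f w = .gad j uu) ?_ ?_
        · intro a b ha hb' hab hKa hKb
          rcases hKa with h | ⟨v1, h⟩ | h <;> rcases hKb with h' | ⟨v2, h'⟩ | h'
          · exact absurd (f.injective (h.trans h'.symm)) hab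
          · exact bd_hs f h h'
          · exact (bd_hg f h h').2 (Or.inl hxu')
          · exact (bd_hs f h' h).symm
          · exact bd_ss' f trivial hab h h'
          · rw [bd_sg f h h']
            by_cases hr : rel v1 j
            · exact Or.inl ⟨hr, Or.inr rfl⟩
            · exact Or.inr ⟨hr, rfl⟩
          · exact ((bd_hg f h' h).2 (Or.inl hxu')).symm
          · symm
            rw [bd_sg f h' h]
            by_cases hr : rel v2 j
            · exact Or.inl ⟨hr, Or.inr rfl⟩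
            · exact Or.inr ⟨hr, rfl⟩
          · exact absurd (f.injective (h.trans h'.symm)) hab
        · intro a b ha hb' hKa hKb hab
          push Not at hKa hKb
          rcases key a ha with h | ⟨v1, h⟩ | h | ⟨d, hd, hdu, hyd⟩
          · exact hKa.1 h
          · exact hKa.2.1 v1 h
          · exact hKa.2.2 h
          rcases key b hb' with h | ⟨v1, h⟩ | h | ⟨d', hd', hdu', hyd'⟩
          · exact hKb.1 h
          · exact hKb.2.1 v1 h
          · exact hKb.2.2 h
          rcases (bd_gg f hd hd').1 hab with ⟨_, h⟩ | ⟨h, _⟩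
          · exact tri _ _ _ hyu hdu hdu' hyd hyd' h
          · exact h rfl
      · -- (e) other centre
        refine one_gadget f x id (fun d d' => Iff.rfl) (fun d hd => Or.inl hd) yy
          (Or.inr (Or.inl rfl)) hxy j ?_
        intro w
        by_cases hwu : w = u
        · rw [hwu]; exact Or.inr ⟨d0, hfu⟩
        rcases hfw : f w with _ | v' | ⟨k, d⟩
        · exact Or.inl rfl
        · exfalso
          rcases (bd_sg f hfw hfu).1 (hu w hwu).symm with ⟨_, h | h⟩ | ⟨_, h⟩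
          · exact hd0y h
          · exact hd0u h
          · exact hd0u h
        · rcases (bd_gg f hfu hfw).1 (hu w hwu) with ⟨h, _⟩ | ⟨_, h⟩
          · subst h; exact Or.inr ⟨d, rfl⟩
          · exact absurd h.1 hd0u

/-! ### SPLIT2 -/

theorem bd_split2 [Fintype α] {H : SimpleGraph α} {u : α} {S : α → Prop}
    (hu : ∀ w, w ≠ u → H.Adj u w) (h2 : TwoSides H u S) (c : α → Bool)
    (hb : ∀ a b, a ≠ u → b ≠ u → H.Adj a b → c a ≠ c b) (x : α) (hxu : x ≠ u)
    (hmax : ∀ t, t ≠ u → dg H (Finset.univ.erase u) t ≤ dg H (Finset.univ.erase u) x)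
    (hx2 : dg H (Finset.univ.erase u) x = 2) : HasPat H := by
  -- a vertex on the other side
  obtain ⟨y, hyu, hSxy⟩ : ∃ y, y ≠ u ∧ ¬ (S x ↔ S y) := by
    by_cases hSx : S x
    · obtain ⟨a, b, ha, _, _, hSa⟩ := h2.e2
      exact ⟨a, ha, fun e => hSa (e.1 hSx)⟩
    · obtain ⟨a, b, ha, _, _, hSa⟩ := h2.e1
      exact ⟨a, ha, fun e => hSx (e.2 hSa)⟩
  have hyx : y ≠ x := fun e => hSxy (by rw [e])
  have hxy : ¬ H.Adj x y := fun e => hSxy (h2.hS _ _ hxu hyu e)
  have hny : ∀ z, z ≠ u → H.Adj x z → ¬ H.Adj y z := by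
    intro z hz h1 h3
    exact hSxy ((h2.hS _ _ hxu hz h1).trans (h2.hS _ _ hyu hz h3).symm)
  -- no triangles
  have tri : ∀ p q r, p ≠ u → q ≠ u → r ≠ u → H.Adj p q → H.Adj p r → H.Adj q r → False := by
    intro p q r hp hq hr e1 e2 e3
    have a1 := hb _ _ hp hq e1
    have a2 := hb _ _ hp hr e2
    have a3 := hb _ _ hq hr e3
    revert a1 a2 a3
    cases c p <;> cases c q <;> cases c r <;> simp
  have hxu' : H.Adj x u := (hu x hxu).symm
  obtain ⟨x1, x2, hx12, hfil⟩ := Finset.card_eq_two.1 hx2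
  have memf : ∀ d, (d ≠ u ∧ H.Adj x d) ↔ (d = x1 ∨ d = x2) := by
    intro d
    have : d ∈ (Finset.univ.erase u).filter (fun b => H.Adj x b) ↔ d ∈ ({x1, x2} : Finset α) := by
      rw [hfil]
    simpa using this
  obtain ⟨hx1u, hxx1⟩ := (memf x1).2 (Or.inl rfl)
  obtain ⟨hx2u, hxx2⟩ := (memf x2).2 (Or.inr rfl)
  have hx1y : x1 ≠ y := fun e => hxy (e ▸ hxx1)
  have hx2y : x2 ≠ y := fun e => hxy (e ▸ hxx2)
  have hx1x : x1 ≠ x := (H.ne_of_adj hxx1).symm
  have hx2x : x2 ≠ x := (H.ne_of_adj hxx2).symm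
  refine dPat_good H x (fun a b => (a = u ∨ a = x2) ∧ (b = u ∨ b = x2))
    (fun a b h => ⟨h.2, h.1⟩)
    (fun d => d = x1 ∨ d = x2 ∨ d = y ∨ d = u) (fun d => d = u ∨ d = x2) True
    (fun a b h => by rcases h.1 with e | e <;> rw [e] <;> assumption)
    (fun a h => by rcases h with e | e <;> rw [e] <;> assumption) ?_
  intro V J rel
  refine ⟨fun f => ?_⟩
  have hxz : ∀ d, (d = u ∨ d = x2) → H.Adj x d := by
    intro d h
    rcases h with e | e <;> rw [e] <;> assumption
  have hzP : ∀ d, (d = u ∨ d = x2) → (d = x1 ∨ d = x2 ∨ d = y ∨ d = u) := by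
    intro d h; tauto
  -- the clique
  have hKc : ∀ a b, a ≠ b →
      (f a = .hub ∨ (∃ v, f a = .sel v) ∨ ∃ j, ∃ d : {d : α // d ≠ x}, f a = .gad j d ∧
        (d.1 = u ∨ d.1 = x2)) →
      (f b = .hub ∨ (∃ v, f b = .sel v) ∨ ∃ j, ∃ d : {d : α // d ≠ x}, f b = .gad j d ∧
        (d.1 = u ∨ d.1 = x2)) → H.Adj a b := by
    intro a b hab ha hb'
    rcases ha with h | ⟨v1, h⟩ | ⟨j1, d1, h, hd1⟩ <;>
      rcases hb' with h' | ⟨v2, h'⟩ | ⟨j2, d2, h', hd2⟩
    · exact absurd (f.injective (h.trans h'.symm)) hab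
    · exact bd_hs f h h'
    · exact (bd_hg f h h').2 (Or.inl (hxz _ hd2))
    · exact (bd_hs f h' h).symm
    · exact bd_ss' f trivial hab h h'
    · rw [bd_sg f h h']
      by_cases hr : rel v1 j2
      · exact Or.inl ⟨hr, hzP _ hd2⟩
      · exact Or.inr ⟨hr, hd2⟩
    · exact ((bd_hg f h' h).2 (Or.inl (hxz _ hd1))).symm
    · symm
      rw [bd_sg f h' h]
      by_cases hr : rel v2 j1
      · exact Or.inl ⟨hr, hzP _ hd1⟩
      · exact Or.inr ⟨hr, hd1⟩
    · rw [bd_gg f h h']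
      by_cases hj : j1 = j2
      · refine Or.inl ⟨hj, ?_⟩
        rcases hd1 with e1 | e1 <;> rcases hd2 with e2 | e2
        · exact absurd (f.injective (by rw [h, h', hj, Subtype.ext (e1.trans e2.symm)])) hab
        · rw [e1, e2]; exact hu _ hx2u
        · rw [e1, e2]; exact (hu _ hx2u).symm
        · exact absurd (f.injective (by rw [h, h', hj, Subtype.ext (e1.trans e2.symm)])) hab
      · exact Or.inr ⟨hj, hd1, hd2⟩
  have hnK : ∀ w, ¬ (f w = .hub ∨ (∃ v, f w = .sel v) ∨ ∃ j, ∃ d : {d : α // d ≠ x},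
      f w = .gad j d ∧ (d.1 = u ∨ d.1 = x2)) →
      ∃ j, ∃ d : {d : α // d ≠ x}, f w = .gad j d ∧ d.1 ≠ u ∧ d.1 ≠ x2 := by
    intro w hw
    rcases hfw : f w with _ | v | ⟨j, d⟩
    · exact absurd (Or.inl hfw) hw
    · exact absurd (Or.inr (Or.inl ⟨v, hfw⟩)) hw
    · exact ⟨j, d, rfl, fun e => hw (Or.inr (Or.inr ⟨j, d, hfw, Or.inl e⟩)),
        fun e => hw (Or.inr (Or.inr ⟨j, d, hfw, Or.inr e⟩))⟩
  have hsplit := h2.split (fun w => f w = .hub ∨ (∃ v, f w = .sel v) ∨
      ∃ j, ∃ d : {d : α // d ≠ x}, f w = .gad j d ∧ (d.1 = u ∨ d.1 = x2))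
      (fun a b _ _ hab ha hb' => hKc a b hab ha hb')
  -- centre hub or sel
  have hsplit1 : (∀ w, w ≠ u → ∀ j (d : {d : α // d ≠ x}), f w = .gad j d → d.1 ≠ u → d.1 ≠ x2 →
      (d.1 = x1 ∨ d.1 = y)) → False := by
    intro hI
    refine hsplit ?_
    intro a b ha hb' hKa hKb hab
    obtain ⟨j, d, hd, hdu, hd2⟩ := hnK a hKa
    obtain ⟨j', d', hd', hdu', hd2'⟩ := hnK b hKb
    have e1 := hI a ha j d hd hdu hd2
    have e2 := hI b hb' j' d' hd' hdu' hd2'
    rcases (bd_gg f hd hd').1 hab with ⟨_, h⟩ | ⟨_, h⟩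
    · rcases e1 with e1 | e1 <;> rcases e2 with e2 | e2
      · rw [e1, e2] at h; exact H.ne_of_adj h rfl
      · rw [e1, e2] at h; exact hny _ hx1u hxx1 h.symm
      · rw [e1, e2] at h; exact hny _ hx1u hxx1 h
      · rw [e1, e2] at h; exact H.ne_of_adj h rfl
    · rcases h.1 with h | h
      · exact hdu h
      · exact hd2 h
  rcases hfu : f u with _ | v | ⟨j, d0⟩
  · refine hsplit1 ?_
    intro w hw j d hd hdu hd2
    rcases (bd_hg f hfu hd).1 (hu w hw) with h | h | h | h | h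
    · rcases (memf d.1).1 ⟨hdu, h⟩ with h | h
      · exact Or.inl h
      · exact absurd h hd2
    · exact Or.inl h
    · exact absurd h hd2
    · exact Or.inr h
    · exact absurd h hdu
  · refine hsplit1 ?_
    intro w hw j d hd hdu hd2
    rcases (bd_sg f hfu hd).1 (hu w hw) with ⟨_, h | h | h | h⟩ | ⟨_, h | h⟩
    · exact Or.inl h
    · exact absurd h hd2
    · exact Or.inr h
    · exact absurd h hdu
    · exact absurd h hdu
    · exact absurd h hd2
  · by_cases hd0u : d0.1 = u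
    · -- centre `u_j`
      let uu : {d : α // d ≠ x} := ⟨u, hxu.symm⟩
      let yy : {d : α // d ≠ x} := ⟨y, hyx⟩
      have hfu' : f u = .gad j uu := by rw [hfu]; congr 1; exact Subtype.ext hd0u
      have memV : ∀ a, a ∈ (Finset.univ.erase u : Finset α) ↔ a ≠ u := by intro a; simp
      have key : ∀ w, w ≠ u → (¬ ∃ d : {d : α // d ≠ x}, f w = .gad j d) →
          f w = .hub ∨ (∃ v, f w = .sel v) ∨ ∃ k, ∃ d : {d : α // d ≠ x}, k ≠ j ∧
            f w = .gad k d ∧ (d.1 = u ∨ d.1 = x2) := by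
        intro w hw hK
        rcases hfw : f w with _ | v' | ⟨k, d⟩
        · exact Or.inl rfl
        · exact Or.inr (Or.inl ⟨v', rfl⟩)
        · by_cases hkj : k = j
          · exact absurd ⟨d, by rw [hfw, hkj]⟩ hK
          · refine Or.inr (Or.inr ⟨k, d, hkj, rfl, ?_⟩)
            rcases (bd_gg f hfu' hfw).1 (hu w hw) with ⟨h, _⟩ | ⟨_, h⟩
            · exact absurd h.symm hkj
            · exact h.2
      have hclique : ∀ w w', w ≠ u → w' ≠ u → w ≠ w' →
          (¬ ∃ d : {d : α // d ≠ x}, f w = .gad j d) →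
          (¬ ∃ d : {d : α // d ≠ x}, f w' = .gad j d) → H.Adj w w' := by
        intro a b ha hb' hab hKa hKb
        refine hKc a b hab ?_ ?_
        · rcases key a ha hKa with h | h | ⟨k, d, _, h, h'⟩
          · exact Or.inl h
          · exact Or.inr (Or.inl h)
          · exact Or.inr (Or.inr ⟨k, d, h, h'⟩)
        · rcases key b hb' hKb with h | h | ⟨k, d, _, h, h'⟩
          · exact Or.inl h
          · exact Or.inr (Or.inl h)
          · exact Or.inr (Or.inr ⟨k, d, h, h'⟩)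
      -- outside vertices other than the hub are big or small
      have hbs : ∀ t, t ≠ u → (¬ ∃ d : {d : α // d ≠ x}, f t = .gad j d) → f t ≠ .hub →
          (∀ w (d : {d : α // d ≠ x}), f w = .gad j d → (d.1 = x1 ∨ d.1 = y ∨ d.1 = x2) →
            H.Adj t w) ∨
          (∀ w (d : {d : α // d ≠ x}), w ≠ u → f w = .gad j d → H.Adj t w → d.1 = x2) := by
        intro t ht hKt hth
        rcases key t ht hKt with h | ⟨v, h⟩ | ⟨k, d1, hk, h, hd1⟩
        · exact absurd h hth
        · by_cases hr : rel v j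
          · left
            intro w d hw hd
            rw [bd_sg f h hw]
            refine Or.inl ⟨hr, ?_⟩
            tauto
          · right
            intro w d hwu hw hadj
            rcases (bd_sg f h hw).1 hadj with ⟨h', _⟩ | ⟨_, h' | h'⟩
            · exact absurd h' hr
            · exfalso
              apply hwu
              apply f.injective
              rw [hw, hfu']; congr 1; exact Subtype.ext h'
            · exact h'
        · right
          intro w d hwu hw hadj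
          rcases (bd_gg f h hw).1 hadj with ⟨h', _⟩ | ⟨_, h'⟩
          · exact absurd h' hk
          · rcases h'.2 with h' | h'
            · exfalso
              apply hwu
              apply f.injective
              rw [hw, hfu']; congr 1; exact Subtype.ext h'
            · exact h'
      have hbx2 : ∀ t, t ≠ u → (¬ ∃ d : {d : α // d ≠ x}, f t = .gad j d) →
          ∀ w (d : {d : α // d ≠ x}), f w = .gad j d → d.1 = x2 → H.Adj t w := by
        intro t ht hKt w d hw hd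
        refine hKc t w ?_ ?_ (Or.inr (Or.inr ⟨j, d, hw, Or.inr hd⟩))
        · intro e; exact hKt ⟨d, by rw [e]; exact hw⟩
        · rcases key t ht hKt with h | h | ⟨k, d, _, h, h'⟩
          · exact Or.inl h
          · exact Or.inr (Or.inl h)
          · exact Or.inr (Or.inr ⟨k, d, h, h'⟩)
      have q1 : ∀ w, w ≠ u → (∃ d : {d : α // d ≠ x}, f w = .gad j d) →
          (cls yy (f w)).1 ≠ u ∧ (cls yy (f w)).1 ≠ x := by
        rintro w hw ⟨d, hd⟩
        rw [hd]
        refine ⟨fun e => hw (f.injective ?_), d.2⟩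
        rw [hd, hfu']; congr 1; exact Subtype.ext e
      have q2 : ∀ w w', (∃ d : {d : α // d ≠ x}, f w = .gad j d) →
          (∃ d : {d : α // d ≠ x}, f w' = .gad j d) →
          (cls yy (f w)).1 = (cls yy (f w')).1 → w = w' := by
        rintro w w' ⟨d, hd⟩ ⟨d', hd'⟩ e
        apply f.injective
        simp only [hd, hd', cls] at e
        rw [hd, hd']; congr 1; exact Subtype.ext e
      have q3 : ∀ w w', (∃ d : {d : α // d ≠ x}, f w = .gad j d) →
          (∃ d : {d : α // d ≠ x}, f w' = .gad j d) → H.Adj w w' →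
          H.Adj (cls yy (f w)).1 (cls yy (f w')).1 := by
        rintro w w' ⟨d, hd⟩ ⟨d', hd'⟩ h
        rw [hd, hd']
        rcases (bd_gg f hd hd').1 h with ⟨_, h⟩ | ⟨h, _⟩
        · exact h
        · exact absurd rfl h
      rcases bd_center hxu c hb (fun w => (cls yy (f w)).1)
        (fun w => ∃ d : {d : α // d ≠ x}, f w = .gad j d) q1 q2 q3 hclique with
        ⟨t, ht, htG, hall, hdeg, hsurj⟩ | ⟨t, t', ht, ht', htt, htG, htG', hadjt, hall, hdeg, hN⟩
      · by_cases hth : f t = .hub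
        · -- one gadget
          refine one_gadget f x id (fun d d' => Iff.rfl) (fun d hd => Or.inl hd) yy
            (Or.inr (Or.inr (Or.inr (Or.inl rfl)))) hxy j ?_
          intro w
          by_cases hwt : w = t
          · rw [hwt]; exact Or.inl hth
          by_cases hwu : w = u
          · rw [hwu]; exact Or.inr ⟨uu, hfu'⟩
          obtain ⟨d, hd⟩ := hall w hwu hwt
          exact Or.inr ⟨d, hd⟩
        · rcases hbs t ht htG hth with h | h
          · have hs : ∀ d, d ≠ u → d ≠ x → (d = x1 ∨ d = y ∨ d = x2) →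
                ∃ w, w ≠ u ∧ H.Adj t w ∧ (cls yy (f w)).1 = d := by
              intro d hdu hdx hd
              obtain ⟨w, hwu, ⟨d', hd'⟩, e⟩ := hsurj d hdu hdx
              refine ⟨w, hwu, h w d' hd' ?_, e⟩
              have e' : d'.1 = d := by
                have := e
                simp only [hd', cls] at this
                exact this
              rw [e']; exact hd
            obtain ⟨w1, hw1u, hw1, e1⟩ := hs x1 hx1u hx1x (Or.inl rfl)
            obtain ⟨w2, hw2u, hw2, e2⟩ := hs x2 hx2u hx2x (Or.inr (Or.inr rfl))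
            obtain ⟨w3, hw3u, hw3, e3⟩ := hs y hyu hyx (Or.inr (Or.inl rfl))
            have := three_le_dg (A := Finset.univ.erase u) ((memV w1).2 hw1u)
              ((memV w2).2 hw2u) ((memV w3).2 hw3u) hw1 hw2 hw3
              (fun e => hx12 (e1.symm.trans ((congrArg (fun w => (cls yy (f w)).1) e).trans e2))) (fun e => hx1y (e1.symm.trans ((congrArg (fun w => (cls yy (f w)).1) e).trans e3)))
              (fun e => hx2y (e2.symm.trans ((congrArg (fun w => (cls yy (f w)).1) e).trans e3)))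
            have := hmax t ht
            omega
          · have : dg H (Finset.univ.erase u) t ≤ 1 := by
              refine dg_le_one' ?_
              intro a ha b hb' hta htb
              rw [memV] at ha hb'
              obtain ⟨d, hd⟩ := hall a ha (H.ne_of_adj hta).symm
              obtain ⟨d', hd'⟩ := hall b hb' (H.ne_of_adj htb).symm
              have e1 := h a d ha hd hta
              have e2 := h b d' hb' hd' htb
              apply f.injective
              rw [hd, hd']; congr 1; exact Subtype.ext (e1.trans e2.symm)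
            omega
      · -- two outside vertices: `x2_j` is not used
        have hx2n : ∀ w (d : {d : α // d ≠ x}), w ≠ u → f w = .gad j d → d.1 ≠ x2 := by
          intro w d hw hd e
          have e1 := hbx2 t ht htG w d hd e
          have e2 := hbx2 t' ht' htG' w d hd e
          exact tri _ _ _ ht ht' hw hadjt e1 e2
        have hused : ∀ d, d ≠ u → d ≠ x → d ≠ x2 → ∃ w, w ≠ u ∧
            ∃ d' : {d : α // d ≠ x}, f w = .gad j d' ∧ d'.1 = d := by
          intro d hdu hdx hd2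
          obtain ⟨F, hF1, hF2⟩ := hN {d, x2} (by
            intro e he
            simp only [Finset.mem_insert, Finset.mem_singleton] at he
            rcases he with rfl | rfl
            · exact ⟨hdu, hdx⟩
            · exact ⟨hx2u, hx2x⟩)
          rw [Finset.card_pair hd2] at hF1
          have hFp : 0 < F.card := by omega
          obtain ⟨w, hw⟩ := Finset.card_pos.1 hFp
          obtain ⟨hwu, ⟨d', hd'⟩, hm⟩ := hF2 w hw
          refine ⟨w, hwu, d', hd', ?_⟩
          simp only [hd', cls, Finset.mem_insert, Finset.mem_singleton] at hm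
          rcases hm with hm | hm
          · exact hm
          · exact absurd hm (hx2n w d' hwu hd')
        obtain ⟨w1, hw1u, d1, hw1, hd1⟩ := hused x1 hx1u hx1x hx12
        obtain ⟨w3, hw3u, d3, hw3, hd3⟩ := hused y hyu hyx hx2y.symm
        have hw13 : w1 ≠ w3 := by
          intro e
          rw [e, hw3] at hw1
          injection hw1 with _ e'
          exact hx1y (by rw [← hd1, ← hd3, e'])
        have hbig : ∀ t t', t ≠ u → t' ≠ u → H.Adj t t' →
            (¬ ∃ d : {d : α // d ≠ x}, f t' = .gad j d) →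
            (∀ w (d : {d : α // d ≠ x}), f w = .gad j d → (d.1 = x1 ∨ d.1 = y ∨ d.1 = x2) →
            H.Adj t w) → False := by
          intro t t' ht ht' hadj hG' hall'
          have := three_le_dg (A := Finset.univ.erase u) ((memV t').2 ht')
              ((memV w1).2 hw1u) ((memV w3).2 hw3u) hadj (hall' w1 d1 hw1 (Or.inl hd1))
              (hall' w3 d3 hw3 (Or.inr (Or.inl hd3)))
              (fun e => hG' ⟨d1, by rw [e]; exact hw1⟩) (fun e => hG' ⟨d3, by rw [e]; exact hw3⟩)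
              hw13
          have := hmax t ht
          omega
        have hsmall : ∀ t t', t ≠ u → t' ≠ u → H.Adj t t' →
            (¬ ∃ d : {d : α // d ≠ x}, f t = .gad j d) →
            (¬ ∃ d : {d : α // d ≠ x}, f t' = .gad j d) →
            (∀ w, w ≠ u → w ≠ t → w ≠ t' → ∃ d : {d : α // d ≠ x}, f w = .gad j d) →
            dg H (Finset.univ.erase u) t ≤ 1 := by
          intro t t' ht ht' hadj hG hG' hall'
          by_cases hth : f t = .hub
          · exfalso
            refine hbig t t' ht ht' hadj hG' ?_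
            intro w d hw hd
            rw [bd_hg f hth hw]
            right
            tauto
          rcases hbs t ht hG hth with h | h
          · exact absurd h (fun h => hbig t t' ht ht' hadj hG' h)
          · refine dg_le_one (p := t') ?_
            intro b hb' htb
            rw [memV] at hb'
            by_contra hbt
            obtain ⟨d, hd⟩ := hall' b hb' (H.ne_of_adj htb).symm hbt
            exact hx2n b d hb' hd (h b d hb' hd htb)
        have h8 := hsmall t t' ht ht' hadjt htG htG' hall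
        have h9 := hsmall t' t ht' ht hadjt.symm htG' htG (fun w hw h1 h2 => hall w hw h2 h1)
        omega
    · -- other centres
      refine hsplit ?_
      intro a b ha hb' hKa hKb hab
      obtain ⟨k, d, hd, hdu, hd2⟩ := hnK a hKa
      obtain ⟨k', d', hd', hdu', hd2'⟩ := hnK b hKb
      have hkey : ∀ w k (d : {d : α // d ≠ x}), w ≠ u → f w = .gad k d → d.1 ≠ u → d.1 ≠ x2 →
          k = j ∧ H.Adj d0 d := by
        intro w k d hw hd hdu hd2
        rcases (bd_gg f hfu hd).1 (hu w hw) with ⟨h, h'⟩ | ⟨_, h⟩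
        · exact ⟨h.symm, h'⟩
        · rcases h.2 with h | h
          · exact absurd h hdu
          · exact absurd h hd2
      obtain ⟨hk, hdd⟩ := hkey a k d ha hd hdu hd2
      obtain ⟨hk', hdd'⟩ := hkey b k' d' hb' hd' hdu' hd2'
      rcases (bd_gg f hd hd').1 hab with ⟨_, h⟩ | ⟨h, _⟩
      · exact tri _ _ _ hd0u hdu hdu' hdd hdd' h
      · exact h (hk.trans hk'.symm)

/-! ### CK -/

structure CK (H : SimpleGraph α) (u x y y' z z' : α) : Prop where
  hu : ∀ w, w ≠ u → H.Adj u w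
  uniq : ∀ a b b', a ≠ u → b ≠ u → b' ≠ u → H.Adj a b → H.Adj a b' → b = b'
  xu : x ≠ u
  yu : y ≠ u
  y'u : y' ≠ u
  zu : z ≠ u
  z'u : z' ≠ u
  yy' : H.Adj y y'
  zz' : H.Adj z z'
  yz : y ≠ z
  yz' : y ≠ z'
  y'z : y' ≠ z
  y'z' : y' ≠ z'
  xy : x ≠ y
  xy' : x ≠ y'
  xz : x ≠ z
  xz' : x ≠ z'

/-- cross-gadget adjacency -/
def ckM (H : SimpleGraph α) (u x y y' z : α) (a b : α) : Prop :=
  (a = y ∧ b = y) ∨ (a = y ∧ b = y') ∨ (a = y' ∧ b = y) ∨ (a = y' ∧ b = z) ∨ (a = z ∧ b = y') ∨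
    ((a ≠ u ∧ H.Adj x a) ∧ b = u) ∨ (a = u ∧ (b ≠ u ∧ H.Adj x b))

lemma ckM_symm (H : SimpleGraph α) (u x y y' z : α) (a b : α) (h : ckM H u x y y' z a b) :
    ckM H u x y y' z b a := by
  unfold ckM at *
  tauto

namespace CK

variable {H : SimpleGraph α} {u x y y' z z' : α} (K : CK H u x y y' z z')

include K

lemma nxy : ¬ H.Adj x y := fun h => K.xy' (K.uniq y x y' K.yu K.xu K.y'u h.symm K.yy')
lemma nxy' : ¬ H.Adj x y' := fun h => K.xy (K.uniq y' x y K.y'u K.xu K.yu h.symm K.yy'.symm)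
lemma nxz : ¬ H.Adj x z := fun h => K.xz' (K.uniq z x z' K.zu K.xu K.z'u h.symm K.zz')
lemma nxz' : ¬ H.Adj x z' := fun h => K.xz (K.uniq z' x z K.z'u K.xu K.zu h.symm K.zz'.symm)
lemma nyy' : y ≠ y' := H.ne_of_adj K.yy'
lemma nzz' : z ≠ z' := H.ne_of_adj K.zz'

lemma M_y {a b : α} (h : ckM H u x y y' z a b) (ha : a = y) : b = y ∨ b = y' := by
  subst ha
  have h1 := K.nxy
  have h2 := K.nyy'
  have h3 := K.yz
  have h4 := K.yu
  unfold ckM at h
  tauto

lemma M_y' {a b : α} (h : ckM H u x y y' z a b) (ha : a = y') : b = y ∨ b = z := by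
  subst ha
  have h1 := K.nxy'
  have h2 := K.nyy'.symm
  have h3 := K.y'z
  have h4 := K.y'u
  unfold ckM at h
  tauto

lemma M_z {a b : α} (h : ckM H u x y y' z a b) (ha : a = z) : b = y' := by
  subst ha
  have h1 := K.nxz
  have h2 := K.yz.symm
  have h3 := K.y'z.symm
  have h4 := K.zu
  unfold ckM at h
  tauto

lemma M_u {a b : α} (h : ckM H u x y y' z a b) (ha : a = u) : b ≠ u ∧ H.Adj x b := by
  subst ha
  have h1 := K.yu.symm
  have h2 := K.y'u.symm
  have h3 := K.zu.symm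
  unfold ckM at h
  tauto

lemma M_x' {a b : α} (h : ckM H u x y y' z a b) (ha : a ≠ u) (hx : H.Adj x a) : b = u := by
  have h1 : a ≠ y := fun e => K.nxy (e ▸ hx)
  have h2 : a ≠ y' := fun e => K.nxy' (e ▸ hx)
  have h3 : a ≠ z := fun e => K.nxz (e ▸ hx)
  unfold ckM at h
  tauto

lemma M_o {a b : α} (h : ckM H u x y y' z a b) (h1 : a ≠ y) (h2 : a ≠ y') (h3 : a ≠ z)
    (h4 : a ≠ u) : H.Adj x a ∧ b = u := by
  unfold ckM at h
  tauto

lemma nbr_y {d : α} (hd : d ≠ u) (h : H.Adj y d) : d = y' :=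
  K.uniq y d y' K.yu hd K.y'u h K.yy'
lemma nbr_y' {d : α} (hd : d ≠ u) (h : H.Adj y' d) : d = y :=
  K.uniq y' d y K.y'u hd K.yu h K.yy'.symm
lemma nbr_z {d : α} (hd : d ≠ u) (h : H.Adj z d) : d = z' :=
  K.uniq z d z' K.zu hd K.z'u h K.zz'

/-- the embedding that penalises contractions inside the gadgets -/
lemma penal (c : α → Bool) (hb : ∀ a b, a ≠ u → b ≠ u → H.Adj a b → c a ≠ c b)
    (t d : {d : α // d ≠ x})
    (htd : (dPat H x (ckM H u x y y' z) (ckM_symm H u x y y' z) (fun d => d = y)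
      (fun _ => False) False).M t d) (hxd : ¬ H.Adj x d) :
    ∃ (w0 : α) (f : H ↪g (dPat H x (ckM H u x y y' z) (ckM_symm H u x y y' z) (fun d => d = y)
      (fun _ => False) False).graph (fun c => (dPat H x (ckM H u x y y' z)
      (ckM_symm H u x y y' z) (fun d => d = y) (fun _ => False) False).A c ∨
      (dPat H x (ckM H u x y y' z) (ckM_symm H u x y y' z) (fun d => d = y)
      (fun _ => False) False).M t c) (fun (_ : α) (_ : α) => False)),
      (∀ w, w ≠ w0 → H.Adj w0 w) ∧ f w0 = .hub := by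
  have hxu' : H.Adj x u := (K.hu x K.xu).symm
  obtain ⟨τ, hτu, hM1, hM2, hM3⟩ : ∃ τ : {d : α // d ≠ x}, τ.1 ≠ u ∧ ckM H u x y y' z t τ ∧
      ¬ ckM H u x y y' z τ τ ∧ ¬ ckM H u x y y' z u τ := by
    have htd' : ckM H u x y y' z t d := htd
    have h1 : t.1 ≠ y → t.1 ≠ y' → t.1 ≠ z → False := by
      intro h1 h2 h3
      by_cases h4 : t.1 = u
      · exact hxd (K.M_u htd' h4).2
      · have := (K.M_o htd' h1 h2 h3 h4).2
        rw [this] at hxd
        exact hxd hxu'
    by_cases ht : t.1 = y'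
    · refine ⟨⟨z, K.xz.symm⟩, K.zu, ?_, ?_, ?_⟩
      · exact Or.inr (Or.inr (Or.inr (Or.inl ⟨ht, rfl⟩)))
      · intro h; exact K.y'z.symm (K.M_z h rfl)
      · intro h; exact K.nxz (K.M_u h rfl).2
    · have ht' : t.1 = y ∨ t.1 = z := by tauto
      refine ⟨⟨y', K.xy'.symm⟩, K.y'u, ?_, ?_, ?_⟩
      · rcases ht' with h | h
        · exact Or.inr (Or.inl ⟨h, rfl⟩)
        · exact Or.inr (Or.inr (Or.inr (Or.inr (Or.inl ⟨h, rfl⟩))))
      · intro h
        rcases K.M_y' h rfl with e | e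
        · exact K.nyy'.symm e
        · exact K.y'z e
      · intro h; exact K.nxy' (K.M_u h rfl).2
  let uu : {d : α // d ≠ x} := ⟨u, K.xu.symm⟩
  have hMuu : ¬ ckM H u x y y' z u u := fun h => (K.M_u h rfl).1 rfl
  have hMτu : ¬ ckM H u x y y' z τ u := fun h => hM3 (ckM_symm H u x y y' z _ _ h)
  have hch : ∀ w, ∃ s : SV α α {d : α // d ≠ x}, (w = u ∧ s = .hub) ∨
      (w ≠ u ∧ (∀ b, b ≠ u → ¬ H.Adj w b) ∧ s = .sel w) ∨
      (∃ b, w ≠ u ∧ b ≠ u ∧ H.Adj w b ∧ c w = true ∧ s = .gad w uu) ∨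
      (∃ b, w ≠ u ∧ b ≠ u ∧ H.Adj w b ∧ c w = false ∧ s = .gad b τ) := by
    intro w
    by_cases hw : w = u
    · exact ⟨.hub, Or.inl ⟨hw, rfl⟩⟩
    by_cases hw' : ∃ b, b ≠ u ∧ H.Adj w b
    · obtain ⟨b, hbu, hwb⟩ := hw'
      rcases hc : c w with _ | _
      · exact ⟨.gad b τ, Or.inr (Or.inr (Or.inr ⟨b, hw, hbu, hwb, rfl, rfl⟩))⟩
      · exact ⟨.gad w uu, Or.inr (Or.inr (Or.inl ⟨b, hw, hbu, hwb, rfl, rfl⟩))⟩
    · push Not at hw'
      exact ⟨.sel w, Or.inr (Or.inl ⟨hw, hw', rfl⟩)⟩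
  choose φ hφ using hch
  have φinj : Function.Injective φ := by
    intro w w' e
    rcases hφ w with ⟨h1, h⟩ | ⟨h1, h2, h⟩ | ⟨b, h1, h2, h3, h4, h⟩ | ⟨b, h1, h2, h3, h4, h⟩ <;>
      rcases hφ w' with ⟨g1, g⟩ | ⟨g1, g2, g⟩ | ⟨b', g1, g2, g3, g4, g⟩ |
        ⟨b', g1, g2, g3, g4, g⟩ <;> rw [h, g] at e
    · rw [h1, g1]
    all_goals try (cases e; done)
    · injection e
    · injection e
    · exfalso
      injection e with _ e
      exact hτu (congrArg Subtype.val e).symm
    · exfalso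
      injection e with _ e
      exact hτu (congrArg Subtype.val e)
    · injection e with e _
      subst e
      exact K.uniq b w w' h2 h1 g1 h3.symm g3.symm
  refine ⟨u, ⟨⟨φ, φinj⟩, ?_⟩, K.hu, ?_⟩
  · intro w w'
    show ((dPat H x (ckM H u x y y' z) (ckM_symm H u x y y' z) (fun d => d = y)
      (fun _ => False) False).graph _ _).Adj (φ w) (φ w') ↔ H.Adj w w'
    rcases hφ w with ⟨h1, h⟩ | ⟨h1, h2, h⟩ | ⟨b, h1, h2, h3, h4, h⟩ | ⟨b, h1, h2, h3, h4, h⟩ <;>
      rcases hφ w' with ⟨g1, g⟩ | ⟨g1, g2, g⟩ | ⟨b', g1, g2, g3, g4, g⟩ |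
        ⟨b', g1, g2, g3, g4, g⟩ <;> rw [h, g]
    · rw [h1, g1]
      exact ⟨fun h => h.elim, fun h => (H.ne_of_adj h rfl).elim⟩
    · rw [h1]
      exact ⟨fun _ => K.hu _ g1, fun _ => trivial⟩
    · rw [h1]
      exact ⟨fun _ => K.hu _ g1, fun _ => Or.inl hxu'⟩
    · rw [h1]
      exact ⟨fun _ => K.hu _ g1, fun _ => Or.inr hM1⟩
    · rw [g1]
      exact ⟨fun _ => (K.hu _ h1).symm, fun _ => trivial⟩
    · exact ⟨fun e => e.2.elim, fun e => (h2 _ g1 e).elim⟩
    · refine ⟨fun e => ?_, fun e => (h2 _ g1 e).elim⟩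
      rcases e with ⟨e, _⟩ | ⟨_, e⟩ <;> exact e.elim
    · refine ⟨fun e => ?_, fun e => (h2 _ g1 e).elim⟩
      rcases e with ⟨e, _⟩ | ⟨_, e⟩ <;> exact e.elim
    · rw [g1]
      exact ⟨fun _ => (K.hu _ h1).symm, fun _ => Or.inl hxu'⟩
    · refine ⟨fun e => ?_, fun e => (g2 _ h1 e.symm).elim⟩
      rcases e with ⟨e, _⟩ | ⟨_, e⟩ <;> exact e.elim
    · constructor
      · rintro (⟨_, e⟩ | ⟨_, e⟩)
        · exact (H.ne_of_adj e rfl).elim
        · exact (hMuu e).elim
      · intro e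
        exact absurd (h4.trans g4.symm) (hb _ _ h1 g1 e)
    · constructor
      · rintro (⟨e, _⟩ | ⟨_, e⟩)
        · rw [e]; exact g3.symm
        · exact (hM3 e).elim
      · intro e
        have : w = b' := K.uniq w' w b' g1 h1 g2 e.symm g3
        exact Or.inl ⟨this, K.hu _ hτu⟩
    · rw [g1]
      exact ⟨fun _ => (K.hu _ h1).symm, fun _ => Or.inr hM1⟩
    · refine ⟨fun e => ?_, fun e => (g2 _ h1 e.symm).elim⟩
      rcases e with ⟨e, _⟩ | ⟨_, e⟩ <;> exact e.elim
    · constructor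
      · rintro (⟨e, _⟩ | ⟨_, e⟩)
        · rw [← e]; exact h3
        · exact (hMτu e).elim
      · intro e
        have : b = w' := K.uniq w b w' h1 h2 g1 h3 e
        exact Or.inl ⟨this, (K.hu _ hτu).symm⟩
    · constructor
      · rintro (⟨_, e⟩ | ⟨_, e⟩)
        · exact (H.ne_of_adj e rfl).elim
        · exact (hM2 e).elim
      · intro e
        exact absurd (h4.trans g4.symm) (hb _ _ h1 g1 e)
  · rcases hφ u with ⟨h1, h⟩ | ⟨h1, h2, h⟩ | ⟨b, h1, h2, h3, h4, h⟩ | ⟨b, h1, h2, h3, h4, h⟩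
    · exact h
    · exact absurd rfl h1
    · exact absurd rfl h1
    · exact absurd rfl h1

end CK

lemma three_props {A B C : Prop} (h1 : ¬ (A ↔ B)) (h2 : ¬ (A ↔ C)) (h3 : ¬ (B ↔ C)) : False := by
  by_cases hA : A
  · by_cases hB : B
    · exact h1 ⟨fun _ => hB, fun _ => hA⟩
    · by_cases hC : C
      · exact h2 ⟨fun _ => hC, fun _ => hA⟩
      · exact h3 ⟨fun h => absurd h hB, fun h => absurd h hC⟩
  · by_cases hB : B
    · by_cases hC : C
      · exact h3 ⟨fun _ => hC, fun _ => hB⟩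
      · exact h2 ⟨fun h => absurd h hA, fun h => absurd h hC⟩
    · exact h1 ⟨fun h => absurd h hA, fun h => absurd h hB⟩
section ckf
variable {H : SimpleGraph α} {u x y y' z z' : α} {rel : V → J → Prop}

/-- selectors and gadgets -/
lemma ck_sg (f : H ↪g (dPat H x (ckM H u x y y' z) (ckM_symm H u x y y' z) (fun d => d = y)
      (fun _ => False) False).graph (fun c => H.Adj x c ∨ c = y) rel)
    {a b : α} {v : V} {j : J} {d : {d : α // d ≠ x}} (ha : f a = .sel v) (hb : f b = .gad j d) :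
      (H.Adj a b ↔ (rel v j ∧ d.1 = y)) := by
  rw [bd_sg f ha hb]
  constructor
  · rintro (h | ⟨_, h⟩)
    · exact h
    · exact h.elim
  · exact fun h => Or.inl h

lemma ck_ss (f : H ↪g (dPat H x (ckM H u x y y' z) (ckM_symm H u x y y' z) (fun d => d = y)
      (fun _ => False) False).graph (fun c => H.Adj x c ∨ c = y) rel)
    {a b : α} {v v' : V} (ha : f a = .sel v) (hb : f b = .sel v') : ¬ H.Adj a b := by
  rw [bd_ss f ha hb]
  exact fun h => h.2

lemma ck_yy (f : H ↪g (dPat H x (ckM H u x y y' z) (ckM_symm H u x y y' z) (fun d => d = y)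
      (fun _ => False) False).graph (fun c => H.Adj x c ∨ c = y) rel)
    {a b : α} {j j' : J} {d d' : {d : α // d ≠ x}} (hab : a ≠ b) (hd : d.1 = y) (hd' : d'.1 = y)
      (ha : f a = .gad j d) (hb : f b = .gad j' d') : H.Adj a b :=
  bd_gg' f hab (hd.trans hd'.symm) (Or.inl ⟨hd, hd'⟩) ha hb

lemma CK.nex (K : CK H u x y y' z z') {d : α} (h : H.Adj x d) : d ≠ y ∧ d ≠ y' ∧ d ≠ z :=
  ⟨fun e => K.nxy (e ▸ h), fun e => K.nxy' (e ▸ h), fun e => K.nxz (e ▸ h)⟩

end ckf

lemma CK.free_hub [Fintype α] {H : SimpleGraph α} {u x y y' z z' : α} (K : CK H u x y y' z z')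
    {S : α → Prop} (h2 : TwoSides H u S)
    (hcase : (∀ b, b ≠ u → ¬ H.Adj x b) ∨ (∀ a, a ≠ u → ∃ b, b ≠ u ∧ H.Adj a b))
    (V J : Type) (rel : V → J → Prop)
    (f : H ↪g (dPat H x (ckM H u x y y' z) (ckM_symm H u x y y' z) (fun d => d = y)
      (fun _ => False) False).graph (fun c => H.Adj x c ∨ c = y) rel)
    (hfu : f u = .hub) : False := by
  have hxu' : H.Adj x u := (K.hu x K.xu).symm
  have hnxy := K.nxy
  let uu : {d : α // d ≠ x} := ⟨u, K.xu.symm⟩
  let yy : {d : α // d ≠ x} := ⟨y, K.xy.symm⟩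
  have key : ∀ w, w ≠ u → (∃ v, f w = .sel v) ∨ (∃ j, ∃ d : {d : α // d ≠ x},
      f w = .gad j d ∧ d.1 = u) ∨ (∃ j, ∃ d : {d : α // d ≠ x}, f w = .gad j d ∧ d.1 = y) ∨
      (∃ j, ∃ d : {d : α // d ≠ x}, f w = .gad j d ∧ d.1 ≠ u ∧ H.Adj x d) := by
    intro w hw
    rcases hfw : f w with _ | v | ⟨j, d⟩
    · exact absurd (f.injective (hfw.trans hfu.symm)) hw
    · exact Or.inl ⟨v, rfl⟩
    · by_cases hdu : d.1 = u
      · exact Or.inr (Or.inl ⟨j, d, rfl, hdu⟩)
      rcases (bd_hg f hfu hfw).1 (K.hu w hw) with h | h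
      · exact Or.inr (Or.inr (Or.inr ⟨j, d, rfl, hdu, h⟩))
      · exact Or.inr (Or.inr (Or.inl ⟨j, d, rfl, h⟩))
  -- an edge avoiding the clique joins U and X'
  have hedge : ∀ a b, a ≠ u → b ≠ u → H.Adj a b →
      (¬ ∃ j, ∃ d : {d : α // d ≠ x}, f a = .gad j d ∧ d.1 = y) →
      (¬ ∃ j, ∃ d : {d : α // d ≠ x}, f b = .gad j d ∧ d.1 = y) →
      ((∃ j, ∃ d : {d : α // d ≠ x}, f a = .gad j d ∧ d.1 = u) ∧
        (∃ j, ∃ d : {d : α // d ≠ x}, f b = .gad j d ∧ d.1 ≠ u ∧ H.Adj x d)) ∨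
      ((∃ j, ∃ d : {d : α // d ≠ x}, f b = .gad j d ∧ d.1 = u) ∧
        (∃ j, ∃ d : {d : α // d ≠ x}, f a = .gad j d ∧ d.1 ≠ u ∧ H.Adj x d)) := by
    intro a b ha hb hab hKa hKb
    rcases key a ha with ⟨v1, h1⟩ | ⟨j1, d1, h1, e1⟩ | h1 | ⟨j1, d1, h1, e1, g1⟩ <;>
      rcases key b hb with ⟨v2, h2⟩ | ⟨j2, d2, h2, e2⟩ | h2 | ⟨j2, d2, h2, e2, g2⟩
    · exact absurd hab (ck_ss f h1 h2)
    · exact absurd (e2.symm.trans ((ck_sg f h1 h2).1 hab).2).symm K.yu
    · exact absurd h2 hKb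
    · exact absurd ((ck_sg f h1 h2).1 hab).2 (K.nex g2).1
    · exact absurd (e1.symm.trans ((ck_sg f h2 h1).1 hab.symm).2).symm K.yu
    · exfalso
      rcases (bd_gg f h1 h2).1 hab with ⟨_, h⟩ | ⟨_, h⟩
      · rw [e1, e2] at h; exact H.ne_of_adj h rfl
      · exact (K.M_u h e1).1 e2
    · exact absurd h2 hKb
    · exact Or.inl ⟨⟨j1, d1, h1, e1⟩, ⟨j2, d2, h2, e2, g2⟩⟩
    · exact absurd h1 hKa
    · exact absurd h1 hKa
    · exact absurd h1 hKa
    · exact absurd h1 hKa
    · exact absurd ((ck_sg f h2 h1).1 hab.symm).2 (K.nex g1).1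
    · exact Or.inr ⟨⟨j2, d2, h2, e2⟩, ⟨j1, d1, h1, e1, g1⟩⟩
    · exact absurd h2 hKb
    · exfalso
      rcases (bd_gg f h1 h2).1 hab with ⟨_, h⟩ | ⟨_, h⟩
      · have := K.uniq d1.1 d2.1 x e1 e2 K.xu h g1.symm
        exact d2.2 this
      · exact e2 (K.M_x' h e1 g1)
  have hUX : ∀ a b, (∃ j, ∃ d : {d : α // d ≠ x}, f a = .gad j d ∧ d.1 = u) →
      (∃ j, ∃ d : {d : α // d ≠ x}, f b = .gad j d ∧ d.1 ≠ u ∧ H.Adj x d) → H.Adj a b := by
    rintro a b ⟨j1, d1, h1, e1⟩ ⟨j2, d2, h2, e2, g2⟩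
    rw [bd_gg f h1 h2]
    by_cases hj : j1 = j2
    · exact Or.inl ⟨hj, by rw [e1]; exact K.hu _ e2⟩
    · exact Or.inr ⟨hj, Or.inr (Or.inr (Or.inr (Or.inr (Or.inr (Or.inr ⟨e1, e2, g2⟩)))))⟩
  rcases hcase with hiso | hall
  · refine h2.split (fun w => ∃ j, ∃ d : {d : α // d ≠ x}, f w = .gad j d ∧ d.1 = y) ?_ ?_
    · rintro a b ha hb hab ⟨j1, d1, h1, e1⟩ ⟨j2, d2, h2, e2⟩
      exact ck_yy f hab e1 e2 h1 h2
    · intro a b ha hb hKa hKb hab
      rcases hedge a b ha hb hab hKa hKb with ⟨_, _, d, _, hd, hd'⟩ | ⟨_, _, d, _, hd, hd'⟩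
      · exact hiso _ hd hd'
      · exact hiso _ hd hd'
  · -- three edges
    obtain ⟨x', hx'u, hxx'⟩ := hall x K.xu
    obtain ⟨n1, n2, n3⟩ := K.nex hxx'
    have n4 : x' ≠ z' := fun e => K.nxz' (e ▸ hxx')
    -- two edges of different parts
    have anti : ∀ a b a' b', a ≠ u → b ≠ u → a' ≠ u → b' ≠ u → H.Adj a b → H.Adj a' b' →
        a ≠ a' → a ≠ b' → b ≠ a' → b ≠ b' →
        ¬ H.Adj a a' ∧ ¬ H.Adj a b' ∧ ¬ H.Adj b a' ∧ ¬ H.Adj b b' := by
      intro a b a' b' ha hb ha' hb' e e' k1 k2 k3 k4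
      refine ⟨fun h => k3 (K.uniq a b a' ha hb ha' e h), fun h => k4 (K.uniq a b b' ha hb hb' e h),
        fun h => k1 (K.uniq b a a' hb ha ha' e.symm h),
        fun h => k2 (K.uniq b a b' hb ha hb' e.symm h)⟩
    -- both meet the clique: impossible; both avoid it: impossible
    have both : ∀ a b a' b', a ≠ u → b ≠ u → a' ≠ u → b' ≠ u → H.Adj a b → H.Adj a' b' →
        a ≠ a' → a ≠ b' → b ≠ a' → b ≠ b' →
        ¬ (((∃ j, ∃ d : {d : α // d ≠ x}, f a = .gad j d ∧ d.1 = y) ∨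
          (∃ j, ∃ d : {d : α // d ≠ x}, f b = .gad j d ∧ d.1 = y)) ↔
          ((∃ j, ∃ d : {d : α // d ≠ x}, f a' = .gad j d ∧ d.1 = y) ∨
          (∃ j, ∃ d : {d : α // d ≠ x}, f b' = .gad j d ∧ d.1 = y))) := by
      intro a b a' b' ha hb ha' hb' e e' k1 k2 k3 k4 hiff
      obtain ⟨a1, a2, a3, a4⟩ := anti a b a' b' ha hb ha' hb' e e' k1 k2 k3 k4
      by_cases hc : (∃ j, ∃ d : {d : α // d ≠ x}, f a = .gad j d ∧ d.1 = y) ∨
          (∃ j, ∃ d : {d : α // d ≠ x}, f b = .gad j d ∧ d.1 = y)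
      · have hc' := hiff.1 hc
        rcases hc with ⟨j1, d1, h1, e1⟩ | ⟨j1, d1, h1, e1⟩ <;>
          rcases hc' with ⟨j2, d2, h2, e2⟩ | ⟨j2, d2, h2, e2⟩
        · exact a1 (ck_yy f k1 e1 e2 h1 h2)
        · exact a2 (ck_yy f k2 e1 e2 h1 h2)
        · exact a3 (ck_yy f k3 e1 e2 h1 h2)
        · exact a4 (ck_yy f k4 e1 e2 h1 h2)
      · have hc' := fun h => hc (hiff.2 h)
        rcases hedge a b ha hb e (fun h => hc (Or.inl h)) (fun h => hc (Or.inr h)) with
          ⟨p1, p2⟩ | ⟨p1, p2⟩ <;>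
        rcases hedge a' b' ha' hb' e' (fun h => hc' (Or.inl h)) (fun h => hc' (Or.inr h)) with
          ⟨q1, q2⟩ | ⟨q1, q2⟩
        · exact a2 (hUX _ _ p1 q2)
        · exact a1 (hUX _ _ p1 q2)
        · exact a4 (hUX _ _ p1 q2)
        · exact a3 (hUX _ _ p1 q2)
    have b1 := both x x' y y' K.xu hx'u K.yu K.y'u hxx' K.yy' K.xy K.xy' n1 n2
    have b2 := both x x' z z' K.xu hx'u K.zu K.z'u hxx' K.zz' K.xz K.xz' n3 n4
    have b3 := both y y' z z' K.yu K.y'u K.zu K.z'u K.yy' K.zz' K.yz K.yz' K.y'z K.y'z'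
    exact three_props b1 b2 b3

lemma CK.free_sel [Fintype α] {H : SimpleGraph α} {u x y y' z z' : α} (K : CK H u x y y' z z')
    {S : α → Prop} (h2 : TwoSides H u S)
    (V J : Type) (rel : V → J → Prop)
    (f : H ↪g (dPat H x (ckM H u x y y' z) (ckM_symm H u x y y' z) (fun d => d = y)
      (fun _ => False) False).graph (fun c => H.Adj x c ∨ c = y) rel)
    (v : V) (hfu : f u = .sel v) : False := by
  have hxu' : H.Adj x u := (K.hu x K.xu).symm
  have hnxy := K.nxy
  let uu : {d : α // d ≠ x} := ⟨u, K.xu.symm⟩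
  let yy : {d : α // d ≠ x} := ⟨y, K.xy.symm⟩
  have key : ∀ w, w ≠ u → f w = .hub ∨ (∃ j, ∃ d : {d : α // d ≠ x}, f w = .gad j d ∧
      d.1 = y) := by
    intro w hw
    rcases hfw : f w with _ | v' | ⟨j, d⟩
    · exact Or.inl rfl
    · exact absurd (K.hu w hw) (ck_ss f hfu hfw)
    · exact Or.inr ⟨j, d, rfl, ((ck_sg f hfu hfw).1 (K.hu w hw)).2⟩
  refine h2.split (fun _ => True) ?_ (fun _ _ _ _ h => absurd trivial h)
  intro a b ha hb hab _ _
  rcases key a ha with h1 | ⟨j1, d1, h1, e1⟩ <;> rcases key b hb with h2 | ⟨j2, d2, h2, e2⟩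
  · exact absurd (f.injective (h1.trans h2.symm)) hab
  · exact (bd_hg f h1 h2).2 (Or.inr e2)
  · exact ((bd_hg f h2 h1).2 (Or.inr e1)).symm
  · exact ck_yy f hab e1 e2 h1 h2

lemma CK.free_u [Fintype α] {H : SimpleGraph α} {u x y y' z z' : α} (K : CK H u x y y' z z')
    {S : α → Prop} (h2 : TwoSides H u S)
    (hcase : (∀ b, b ≠ u → ¬ H.Adj x b) ∨ (∀ a, a ≠ u → ∃ b, b ≠ u ∧ H.Adj a b))
    (V J : Type) (rel : V → J → Prop)
    (f : H ↪g (dPat H x (ckM H u x y y' z) (ckM_symm H u x y y' z) (fun d => d = y)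
      (fun _ => False) False).graph (fun c => H.Adj x c ∨ c = y) rel)
    (j : J) (d0 : {d : α // d ≠ x}) (hfu : f u = .gad j d0) (hd0u : d0.1 = u) : False := by
  have hxu' : H.Adj x u := (K.hu x K.xu).symm
  have hnxy := K.nxy
  let uu : {d : α // d ≠ x} := ⟨u, K.xu.symm⟩
  let yy : {d : α // d ≠ x} := ⟨y, K.xy.symm⟩
  have hfu' : f u = .gad j uu := by rw [hfu]; congr 1; exact Subtype.ext hd0u
  have key : ∀ w, w ≠ u → f w = .hub ∨ (∃ d : {d : α // d ≠ x}, f w = .gad j d) ∨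
      ∃ k, ∃ d : {d : α // d ≠ x}, k ≠ j ∧ f w = .gad k d ∧ d.1 ≠ u ∧ H.Adj x d := by
    intro w hw
    rcases hfw : f w with _ | v' | ⟨k, d⟩
    · exact Or.inl rfl
    · exfalso
      exact K.yu.symm (((ck_sg f hfw hfu').1 (K.hu w hw).symm).2)
    · by_cases hkj : k = j
      · subst hkj; exact Or.inr (Or.inl ⟨d, rfl⟩)
      · refine Or.inr (Or.inr ⟨k, d, hkj, rfl, ?_⟩)
        rcases (bd_gg f hfu' hfw).1 (K.hu w hw) with ⟨h, _⟩ | ⟨_, h⟩
        · exact absurd h.symm hkj
        · exact K.M_u h rfl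
  by_cases hX : ∃ w, w ≠ u ∧ ∃ k, ∃ d : {d : α // d ≠ x}, k ≠ j ∧ f w = .gad k d ∧
      d.1 ≠ u ∧ H.Adj x d
  · obtain ⟨w1, hw1u, k, d1, hk, hw1, hd1u, hd1⟩ := hX
    rcases hcase with hiso | hall
    · exact hiso _ hd1u hd1
    obtain ⟨w2, hw2u, hw12⟩ := hall w1 hw1u
    -- the neighbour of w1 is the hub
    have hw2 : f w2 = .hub := by
      rcases key w2 hw2u with h | ⟨d2, h⟩ | ⟨k2, d2, hk2, h, hd2u, hd2⟩
      · exact h
      · exfalso
        rcases (bd_gg f hw1 h).1 hw12 with ⟨h', _⟩ | ⟨_, h'⟩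
        · exact hk h'
        · have := K.M_x' h' hd1u hd1
          apply hw2u
          apply f.injective
          rw [h, hfu']; congr 1; exact Subtype.ext this
      · exfalso
        rcases (bd_gg f hw1 h).1 hw12 with ⟨_, h'⟩ | ⟨_, h'⟩
        · exact d2.2 (K.uniq d1.1 d2.1 x hd1u hd2u K.xu h' hd1.symm)
        · exact hd2u (K.M_x' h' hd1u hd1)
    have honly : ∀ w, w ≠ u → H.Adj w2 w → w = w1 := fun w hw h =>
      K.uniq w2 w w1 hw2u hw hw1u h hw12.symm
    obtain ⟨x', hx'u, hxx'⟩ := hall x K.xu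
    obtain ⟨n1, n2, n3⟩ := K.nex hxx'
    have hx'x : x' ≠ x := (H.ne_of_adj hxx').symm
    -- the rest of the image is in the gadget `j` and avoids x', y, y'
    have hrest : ∀ w, w ≠ u → w ≠ w1 → w ≠ w2 → ∃ d : {d : α // d ≠ x}, f w = .gad j d ∧
        d.1 ≠ u ∧ d.1 ≠ x' ∧ d.1 ≠ y := by
      intro w hw hww1 hww2
      rcases key w hw with h | ⟨d2, h⟩ | ⟨k2, d2, hk2, h, hd2u, hd2⟩
      · exact absurd (f.injective (h.trans hw2.symm)) hww2
      · refine ⟨d2, h, ?_, ?_, ?_⟩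
        · intro e
          apply hw
          apply f.injective
          rw [h, hfu']; congr 1; exact Subtype.ext e
        · intro e
          exact hww1 (honly w hw ((bd_hg f hw2 h).2 (Or.inl (by rw [e]; exact hxx'))))
        · intro e
          exact hww1 (honly w hw ((bd_hg f hw2 h).2 (Or.inr e)))
      · exact absurd (honly w hw ((bd_hg f hw2 h).2 (Or.inl hd2))) hww1
    have hrest' : ∀ w, w ≠ u → w ≠ w1 → w ≠ w2 → ∃ d : {d : α // d ≠ x}, f w = .gad j d ∧
        d.1 ≠ u ∧ d.1 ≠ x' ∧ d.1 ≠ y ∧ d.1 ≠ y' := by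
      intro w hw hww1 hww2
      obtain ⟨d, hd, e1, e2, e3⟩ := hrest w hw hww1 hww2
      refine ⟨d, hd, e1, e2, e3, ?_⟩
      intro e
      obtain ⟨w4, hw4u, hw4⟩ := hall w hw
      have h41 : w4 ≠ w1 := by
        intro h
        have := K.uniq w1 w w2 hw1u hw hw2u (h ▸ hw4.symm) hw12
        exact hww2 this
      have h42 : w4 ≠ w2 := by
        intro h
        have := K.uniq w2 w w1 hw2u hw hw1u (h ▸ hw4.symm) hw12.symm
        exact hww1 this
      obtain ⟨d', hd', e1', e2', e3'⟩ := hrest w4 hw4u h41 h42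
      rcases (bd_gg f hd hd').1 hw4 with ⟨_, h⟩ | ⟨h, _⟩
      · rw [e] at h
        exact e3' (K.nbr_y' e1' h)
      · exact h rfl
    -- counting
    let A : Finset α := ((Finset.univ.erase u).erase w1).erase w2
    let B : Finset α := ((((Finset.univ.erase u).erase x).erase x').erase y).erase y'
    have hw21 : w2 ≠ w1 := (H.ne_of_adj hw12).symm
    have cA : A.card + 2 = (Finset.univ.erase u : Finset α).card := by
      have h1 : ((Finset.univ.erase u).erase w1).card + 1 =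
          (Finset.univ.erase u : Finset α).card :=
        Finset.card_erase_add_one (Finset.mem_erase.2 ⟨hw1u, Finset.mem_univ _⟩)
      have h2 : A.card + 1 = ((Finset.univ.erase u).erase w1).card :=
        Finset.card_erase_add_one (Finset.mem_erase.2 ⟨hw21,
          Finset.mem_erase.2 ⟨hw2u, Finset.mem_univ _⟩⟩)
      omega
    have cB : B.card + 4 = (Finset.univ.erase u : Finset α).card := by
      have h1 : ((Finset.univ.erase u).erase x).card + 1 =
          (Finset.univ.erase u : Finset α).card :=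
        Finset.card_erase_add_one (Finset.mem_erase.2 ⟨K.xu, Finset.mem_univ _⟩)
      have h2 : (((Finset.univ.erase u).erase x).erase x').card + 1 =
          ((Finset.univ.erase u).erase x).card :=
        Finset.card_erase_add_one (Finset.mem_erase.2 ⟨hx'x,
          Finset.mem_erase.2 ⟨hx'u, Finset.mem_univ _⟩⟩)
      have h3 : ((((Finset.univ.erase u).erase x).erase x').erase y).card + 1 =
          (((Finset.univ.erase u).erase x).erase x').card :=
        Finset.card_erase_add_one (Finset.mem_erase.2 ⟨n1.symm, Finset.mem_erase.2 ⟨K.xy.symm,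
          Finset.mem_erase.2 ⟨K.yu, Finset.mem_univ _⟩⟩⟩)
      have h4 : B.card + 1 = ((((Finset.univ.erase u).erase x).erase x').erase y).card :=
        Finset.card_erase_add_one (Finset.mem_erase.2 ⟨K.nyy'.symm,
          Finset.mem_erase.2 ⟨n2.symm, Finset.mem_erase.2 ⟨K.xy'.symm,
          Finset.mem_erase.2 ⟨K.y'u, Finset.mem_univ _⟩⟩⟩⟩)
      omega
    have hle : A.card ≤ B.card := by
      refine Finset.card_le_card_of_injOn (fun w => (cls yy (f w)).1) ?_ ?_
      · intro w hw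
        have h5 : (w ≠ u ∧ w ≠ w1) ∧ w ≠ w2 := by simpa [A] using hw
        have hw' : w ≠ w2 ∧ w ≠ w1 ∧ w ≠ u := ⟨h5.2, h5.1.2, h5.1.1⟩
        obtain ⟨d, hd, e1, e2, e3, e4⟩ := hrest' w hw'.2.2 hw'.2.1 hw'.1
        show (cls yy (f w)).1 ∈ (B : Set α)
        rw [hd]
        have : (((d.1 ≠ u ∧ d.1 ≠ x) ∧ d.1 ≠ x') ∧ d.1 ≠ y) ∧ d.1 ≠ y' :=
            ⟨⟨⟨⟨e1, d.2⟩, e2⟩, e3⟩, e4⟩
        simpa [B, cls] using this
      · intro w hw w' hw' e
        have h5 : (w ≠ u ∧ w ≠ w1) ∧ w ≠ w2 := by simpa [A] using hw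
        have h1 : w ≠ w2 ∧ w ≠ w1 ∧ w ≠ u := ⟨h5.2, h5.1.2, h5.1.1⟩
        have h6 : (w' ≠ u ∧ w' ≠ w1) ∧ w' ≠ w2 := by simpa [A] using hw'
        have h1' : w' ≠ w2 ∧ w' ≠ w1 ∧ w' ≠ u := ⟨h6.2, h6.1.2, h6.1.1⟩
        obtain ⟨d, hd, _⟩ := hrest' w h1.2.2 h1.2.1 h1.1
        obtain ⟨d', hd', _⟩ := hrest' w' h1'.2.2 h1'.2.1 h1'.1
        apply f.injective
        simp only [hd, hd', cls] at e
        rw [hd, hd']; congr 1; exact Subtype.ext e
    omega
  · refine one_gadget f x id (fun d d' => Iff.rfl) (fun d hd => Or.inl hd) yy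
      (Or.inr rfl) hnxy j ?_
    intro w
    by_cases hwu : w = u
    · rw [hwu]; exact Or.inr ⟨uu, hfu'⟩
    rcases key w hwu with h | h | h
    · exact Or.inl h
    · exact Or.inr h
    · exact absurd ⟨w, hwu, h⟩ hX

lemma CK.free_y [Fintype α] {H : SimpleGraph α} {u x y y' z z' : α} (K : CK H u x y y' z z')
    {S : α → Prop} (h2 : TwoSides H u S)
    (V J : Type) (rel : V → J → Prop)
    (f : H ↪g (dPat H x (ckM H u x y y' z) (ckM_symm H u x y y' z) (fun d => d = y)
      (fun _ => False) False).graph (fun c => H.Adj x c ∨ c = y) rel)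
    (j : J) (d0 : {d : α // d ≠ x}) (hfu : f u = .gad j d0) (hd0y : d0.1 = y) : False := by
  have hxu' : H.Adj x u := (K.hu x K.xu).symm
  have hnxy := K.nxy
  let uu : {d : α // d ≠ x} := ⟨u, K.xu.symm⟩
  let yy : {d : α // d ≠ x} := ⟨y, K.xy.symm⟩
  have hsel : ∀ w v, f w = .sel v → w ≠ u → d0.1 = y := by
    intro w v hw hwu
    exact ((ck_sg f hw hfu).1 (K.hu w hwu).symm).2
  have hgad : ∀ w k (d : {d : α // d ≠ x}), w ≠ u → f w = .gad k d →
      (j = k ∧ H.Adj d0 d) ∨ (j ≠ k ∧ ckM H u x y y' z d0 d) := by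
    intro w k d hwu hw
    exact (bd_gg f hfu hw).1 (K.hu w hwu)
  have hhub : ∀ w, f w = .hub → w ≠ u → H.Adj x d0 ∨ d0.1 = y := by
    intro w hw hwu
    exact (bd_hg f hw hfu).1 (K.hu w hwu).symm
  have key : ∀ w, w ≠ u → f w = .hub ∨ (∃ v, f w = .sel v) ∨
      (∃ d : {d : α // d ≠ x}, f w = .gad j d ∧ d.1 = u) ∨
      (∃ k, ∃ d : {d : α // d ≠ x}, k ≠ j ∧ f w = .gad k d ∧ d.1 = y) ∨
      (∃ k, ∃ d : {d : α // d ≠ x}, f w = .gad k d ∧ d.1 = y') := by
    intro w hw
    rcases hfw : f w with _ | v' | ⟨k, d⟩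
    · exact Or.inl rfl
    · exact Or.inr (Or.inl ⟨v', rfl⟩)
    · rcases hgad w k d hw hfw with ⟨hk, h⟩ | ⟨hk, h⟩
      · by_cases hdu : d.1 = u
        · subst hk
          exact Or.inr (Or.inr (Or.inl ⟨d, rfl, hdu⟩))
        · rw [hd0y] at h
          exact Or.inr (Or.inr (Or.inr (Or.inr ⟨k, d, rfl, K.nbr_y hdu h⟩)))
      · rcases K.M_y h hd0y with e | e
        · exact Or.inr (Or.inr (Or.inr (Or.inl ⟨k, d, fun e => hk e.symm, rfl, e⟩)))
        · exact Or.inr (Or.inr (Or.inr (Or.inr ⟨k, d, rfl, e⟩)))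
  have hKc : ∀ a b, a ≠ b →
      (f a = .hub ∨ (∃ k, ∃ d : {d : α // d ≠ x}, k ≠ j ∧ f a = .gad k d ∧ d.1 = y)) →
      (f b = .hub ∨ (∃ k, ∃ d : {d : α // d ≠ x}, k ≠ j ∧ f b = .gad k d ∧ d.1 = y)) →
      H.Adj a b := by
    intro a b hab ha hb
    rcases ha with h1 | ⟨j1, d1, _, h1, e1⟩ <;> rcases hb with h2 | ⟨j2, d2, _, h2, e2⟩
    · exact absurd (f.injective (h1.trans h2.symm)) hab
    · exact (bd_hg f h1 h2).2 (Or.inr e2)
    · exact ((bd_hg f h2 h1).2 (Or.inr e1)).symm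
    · exact ck_yy f hab e1 e2 h1 h2
  -- an edge avoiding the clique is `u_j y'_j`
  have hedge : ∀ a b, a ≠ u → b ≠ u → H.Adj a b →
      ¬ (f a = .hub ∨ (∃ k, ∃ d : {d : α // d ≠ x}, k ≠ j ∧ f a = .gad k d ∧ d.1 = y)) →
      ¬ (f b = .hub ∨ (∃ k, ∃ d : {d : α // d ≠ x}, k ≠ j ∧ f b = .gad k d ∧ d.1 = y)) →
      ((∃ d : {d : α // d ≠ x}, f a = .gad j d ∧ d.1 = u) ∧
        (∃ d : {d : α // d ≠ x}, f b = .gad j d ∧ d.1 = y')) ∨
      ((∃ d : {d : α // d ≠ x}, f b = .gad j d ∧ d.1 = u) ∧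
        (∃ d : {d : α // d ≠ x}, f a = .gad j d ∧ d.1 = y')) := by
    have half : ∀ a b, b ≠ u → H.Adj a b → (∃ d : {d : α // d ≠ x}, f a = .gad j d ∧ d.1 = u) →
        (∃ k, ∃ d : {d : α // d ≠ x}, f b = .gad k d ∧ d.1 = y') →
        (∃ d : {d : α // d ≠ x}, f b = .gad j d ∧ d.1 = y') := by
      rintro a b hbu hab ⟨d, hd, e⟩ ⟨k, d', hd', e'⟩
      rcases (bd_gg f hd hd').1 hab with ⟨h, _⟩ | ⟨_, h⟩
      · subst h; exact ⟨d', hd', e'⟩
      · exfalso
        have := (K.M_u h e).2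
        rw [e'] at this
        exact K.nxy' this
    intro a b ha hb hab hKa hKb
    rcases key a ha with h1 | ⟨v1, h1⟩ | h1 | h1 | h1
    · exact absurd (Or.inl h1) hKa
    · exfalso
      rcases key b hb with h2 | ⟨v2, h2⟩ | ⟨d2, h2, e2⟩ | h2 | ⟨k2, d2, h2, e2⟩
      · exact hKb (Or.inl h2)
      · exact ck_ss f h1 h2 hab
      · exact K.yu (e2.symm.trans ((ck_sg f h1 h2).1 hab).2).symm
      · exact hKb (Or.inr h2)
      · exact K.nyy' (e2.symm.trans ((ck_sg f h1 h2).1 hab).2).symm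
    · rcases key b hb with h2 | ⟨v2, h2⟩ | ⟨d2, h2, e2⟩ | h2 | h2
      · exact absurd (Or.inl h2) hKb
      · exfalso
        obtain ⟨d1, h1, e1⟩ := h1
        exact K.yu (e1.symm.trans ((ck_sg f h2 h1).1 hab.symm).2).symm
      · exfalso
        obtain ⟨d1, h1, e1⟩ := h1
        apply H.ne_of_adj hab
        apply f.injective
        rw [h1, h2]; congr 1; exact Subtype.ext (e1.trans e2.symm)
      · exact absurd (Or.inr h2) hKb
      · exact Or.inl ⟨h1, half a b hb hab h1 h2⟩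
    · exact absurd (Or.inr h1) hKa
    · rcases key b hb with h2 | ⟨v2, h2⟩ | h2 | h2 | ⟨k2, d2, h2, e2⟩
      · exact absurd (Or.inl h2) hKb
      · exfalso
        obtain ⟨k1, d1, h1, e1⟩ := h1
        exact K.nyy' (e1.symm.trans ((ck_sg f h2 h1).1 hab.symm).2).symm
      · exact Or.inr ⟨h2, half b a ha hab.symm h2 h1⟩
      · exact absurd (Or.inr h2) hKb
      · exfalso
        obtain ⟨k1, d1, h1, e1⟩ := h1
        rcases (bd_gg f h1 h2).1 hab with ⟨_, h⟩ | ⟨_, h⟩
        · rw [e1, e2] at h; exact H.ne_of_adj h rfl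
        · rcases K.M_y' h e1 with e | e
          · exact K.nyy' (e.symm.trans e2)
          · exact K.y'z (e2.symm.trans e)
  -- a clique vertex is adjacent to `u_j` or `y'_j`
  have hmix : ∀ a b a', (f a = .hub ∨ (∃ k, ∃ d : {d : α // d ≠ x}, k ≠ j ∧
      f a = .gad k d ∧ d.1 = y)) → (∃ d : {d : α // d ≠ x}, f b = .gad j d ∧ d.1 = u) →
      (∃ d : {d : α // d ≠ x}, f a' = .gad j d ∧ d.1 = y') → H.Adj a b ∨ H.Adj a a' := by
    rintro a b a' (h | ⟨k, d, hk, h, e⟩) ⟨d1, h1, e1⟩ ⟨d2, h2, e2⟩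
    · left
      rw [bd_hg f h h1]
      left; rw [e1]; exact hxu'
    · right
      rw [bd_gg f h h2]
      exact Or.inr ⟨hk, Or.inr (Or.inl ⟨e, e2⟩)⟩
  refine h2.no2K2 ?_
  intro a b a' b' ha hb ha' hb' e e'
  by_contra hcon
  push Not at hcon
  obtain ⟨n1, n2, n3, n4, n5, n6, n7, n8⟩ := hcon
  have m5 : ¬ H.Adj a' a := fun h => n5 h.symm
  have m6 : ¬ H.Adj b' a := fun h => n6 h.symm
  have m7 : ¬ H.Adj a' b := fun h => n7 h.symm
  have m8 : ¬ H.Adj b' b := fun h => n8 h.symm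
  by_cases hc : (f a = .hub ∨ (∃ k, ∃ d : {d : α // d ≠ x}, k ≠ j ∧ f a = .gad k d ∧ d.1 = y)) ∨
      (f b = .hub ∨ (∃ k, ∃ d : {d : α // d ≠ x}, k ≠ j ∧ f b = .gad k d ∧ d.1 = y))
  · by_cases hc' : (f a' = .hub ∨ (∃ k, ∃ d : {d : α // d ≠ x}, k ≠ j ∧ f a' = .gad k d ∧
        d.1 = y)) ∨
        (f b' = .hub ∨ (∃ k, ∃ d : {d : α // d ≠ x}, k ≠ j ∧ f b' = .gad k d ∧ d.1 = y))
    · rcases hc with h | h <;> rcases hc' with h' | h'
      · exact n5 (hKc a a' n1 h h')
      · exact n6 (hKc a b' n2 h h')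
      · exact n7 (hKc b a' n3 h h')
      · exact n8 (hKc b b' n4 h h')
    · have hE := hedge a' b' ha' hb' e' (fun h => hc' (Or.inl h)) (fun h => hc' (Or.inr h))
      rcases hc with h | h <;> rcases hE with ⟨p, q⟩ | ⟨p, q⟩
      · exact (hmix _ _ _ h p q).elim n5 n6
      · exact (hmix _ _ _ h p q).elim n6 n5
      · exact (hmix _ _ _ h p q).elim n7 n8
      · exact (hmix _ _ _ h p q).elim n8 n7
  · have hE := hedge a b ha hb e (fun h => hc (Or.inl h)) (fun h => hc (Or.inr h))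
    by_cases hc' : (f a' = .hub ∨ (∃ k, ∃ d : {d : α // d ≠ x}, k ≠ j ∧ f a' = .gad k d ∧
        d.1 = y)) ∨
        (f b' = .hub ∨ (∃ k, ∃ d : {d : α // d ≠ x}, k ≠ j ∧ f b' = .gad k d ∧ d.1 = y))
    · rcases hc' with h | h <;> rcases hE with ⟨p, q⟩ | ⟨p, q⟩
      · exact (hmix _ _ _ h p q).elim m5 m7
      · exact (hmix _ _ _ h p q).elim m7 m5
      · exact (hmix _ _ _ h p q).elim m6 m8
      · exact (hmix _ _ _ h p q).elim m8 m6
    · have hE' := hedge a' b' ha' hb' e' (fun h => hc' (Or.inl h)) (fun h => hc' (Or.inr h))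
      have huq : ∀ a a', (∃ d : {d : α // d ≠ x}, f a = .gad j d ∧ d.1 = u) →
          (∃ d : {d : α // d ≠ x}, f a' = .gad j d ∧ d.1 = u) → a = a' := by
        rintro a a' ⟨d1, h1, e1⟩ ⟨d2, h2, e2⟩
        apply f.injective
        rw [h1, h2]; congr 1; exact Subtype.ext (e1.trans e2.symm)
      rcases hE with ⟨p, _⟩ | ⟨p, _⟩ <;> rcases hE' with ⟨p', _⟩ | ⟨p', _⟩
      · exact n1 (huq _ _ p p')
      · exact n2 (huq _ _ p p')
      · exact n3 (huq _ _ p p')
      · exact n4 (huq _ _ p p')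

lemma CK.free_y' [Fintype α] {H : SimpleGraph α} {u x y y' z z' : α} (K : CK H u x y y' z z')
    {S : α → Prop} (h2 : TwoSides H u S)
    (V J : Type) (rel : V → J → Prop)
    (f : H ↪g (dPat H x (ckM H u x y y' z) (ckM_symm H u x y y' z) (fun d => d = y)
      (fun _ => False) False).graph (fun c => H.Adj x c ∨ c = y) rel)
    (j : J) (d0 : {d : α // d ≠ x}) (hfu : f u = .gad j d0)
    (hd0y : d0.1 ≠ y) (hd0y' : d0.1 = y') : False := by
  have hxu' : H.Adj x u := (K.hu x K.xu).symm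
  have hnxy := K.nxy
  let uu : {d : α // d ≠ x} := ⟨u, K.xu.symm⟩
  let yy : {d : α // d ≠ x} := ⟨y, K.xy.symm⟩
  have hsel : ∀ w v, f w = .sel v → w ≠ u → d0.1 = y := by
    intro w v hw hwu
    exact ((ck_sg f hw hfu).1 (K.hu w hwu).symm).2
  have hgad : ∀ w k (d : {d : α // d ≠ x}), w ≠ u → f w = .gad k d →
      (j = k ∧ H.Adj d0 d) ∨ (j ≠ k ∧ ckM H u x y y' z d0 d) := by
    intro w k d hwu hw
    exact (bd_gg f hfu hw).1 (K.hu w hwu)
  have hhub : ∀ w, f w = .hub → w ≠ u → H.Adj x d0 ∨ d0.1 = y := by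
    intro w hw hwu
    exact (bd_hg f hw hfu).1 (K.hu w hwu).symm
  have key : ∀ w, w ≠ u → (∃ k, ∃ d : {d : α // d ≠ x}, f w = .gad k d ∧ d.1 = y) ∨
      (∃ d : {d : α // d ≠ x}, f w = .gad j d ∧ d.1 = u) ∨
      (∃ k, ∃ d : {d : α // d ≠ x}, k ≠ j ∧ f w = .gad k d ∧ d.1 = z) := by
    intro w hw
    rcases hfw : f w with _ | v' | ⟨k, d⟩
    · exfalso
      rcases hhub w hfw hw with h | h
      · rw [hd0y'] at h; exact K.nxy' h
      · exact hd0y h
    · exact absurd (hsel w v' hfw hw) hd0y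
    · rcases hgad w k d hw hfw with ⟨hk, h⟩ | ⟨hk, h⟩
      · by_cases hdu : d.1 = u
        · subst hk
          exact Or.inr (Or.inl ⟨d, rfl, hdu⟩)
        · rw [hd0y'] at h
          exact Or.inl ⟨k, d, rfl, K.nbr_y' hdu h⟩
      · rcases K.M_y' h hd0y' with e | e
        · exact Or.inl ⟨k, d, rfl, e⟩
        · exact Or.inr (Or.inr ⟨k, d, fun e => hk e.symm, rfl, e⟩)
  refine h2.split (fun w => ∃ k, ∃ d : {d : α // d ≠ x}, f w = .gad k d ∧ d.1 = y) ?_ ?_
  · rintro a b ha hb hab ⟨j1, d1, h1, e1⟩ ⟨j2, d2, h2, e2⟩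
    exact ck_yy f hab e1 e2 h1 h2
  · intro a b ha hb hKa hKb hab
    rcases key a ha with h | ⟨d1, h1, e1⟩ | ⟨k1, d1, hk1, h1, e1⟩
    · exact hKa h
    · rcases key b hb with h | ⟨d2, h2, e2⟩ | ⟨k2, d2, hk2, h2, e2⟩
      · exact hKb h
      · apply H.ne_of_adj hab
        apply f.injective
        rw [h1, h2]; congr 1; exact Subtype.ext (e1.trans e2.symm)
      · rcases (bd_gg f h1 h2).1 hab with ⟨h, _⟩ | ⟨_, h⟩
        · exact hk2 h.symm
        · have := (K.M_u h e1).2
          rw [e2] at this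
          exact K.nxz this
    · rcases key b hb with h | ⟨d2, h2, e2⟩ | ⟨k2, d2, hk2, h2, e2⟩
      · exact hKb h
      · rcases (bd_gg f h1 h2).1 hab with ⟨h, _⟩ | ⟨_, h⟩
        · exact hk1 h
        · exact K.y'u ((K.M_z h e1).symm.trans e2)
      · rcases (bd_gg f h1 h2).1 hab with ⟨_, h⟩ | ⟨_, h⟩
        · rw [e1, e2] at h; exact H.ne_of_adj h rfl
        · exact K.y'z ((K.M_z h e1).symm.trans e2)

lemma CK.free_z [Fintype α] {H : SimpleGraph α} {u x y y' z z' : α} (K : CK H u x y y' z z')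
    {S : α → Prop} (h2 : TwoSides H u S)
    (V J : Type) (rel : V → J → Prop)
    (f : H ↪g (dPat H x (ckM H u x y y' z) (ckM_symm H u x y y' z) (fun d => d = y)
      (fun _ => False) False).graph (fun c => H.Adj x c ∨ c = y) rel)
    (j : J) (d0 : {d : α // d ≠ x}) (hfu : f u = .gad j d0)
    (hd0y : d0.1 ≠ y) (hd0z : d0.1 = z) : False := by
  have hxu' : H.Adj x u := (K.hu x K.xu).symm
  have hnxy := K.nxy
  let uu : {d : α // d ≠ x} := ⟨u, K.xu.symm⟩
  let yy : {d : α // d ≠ x} := ⟨y, K.xy.symm⟩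
  have hsel : ∀ w v, f w = .sel v → w ≠ u → d0.1 = y := by
    intro w v hw hwu
    exact ((ck_sg f hw hfu).1 (K.hu w hwu).symm).2
  have hgad : ∀ w k (d : {d : α // d ≠ x}), w ≠ u → f w = .gad k d →
      (j = k ∧ H.Adj d0 d) ∨ (j ≠ k ∧ ckM H u x y y' z d0 d) := by
    intro w k d hwu hw
    exact (bd_gg f hfu hw).1 (K.hu w hwu)
  have hhub : ∀ w, f w = .hub → w ≠ u → H.Adj x d0 ∨ d0.1 = y := by
    intro w hw hwu
    exact (bd_hg f hw hfu).1 (K.hu w hwu).symm
  have key : ∀ w, w ≠ u → (∃ d : {d : α // d ≠ x}, f w = .gad j d ∧ d.1 = u) ∨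
      (∃ d : {d : α // d ≠ x}, f w = .gad j d ∧ d.1 = z') ∨
      (∃ k, ∃ d : {d : α // d ≠ x}, k ≠ j ∧ f w = .gad k d ∧ d.1 = y') := by
    intro w hw
    rcases hfw : f w with _ | v' | ⟨k, d⟩
    · exfalso
      rcases hhub w hfw hw with h | h
      · rw [hd0z] at h; exact K.nxz h
      · exact hd0y h
    · exact absurd (hsel w v' hfw hw) hd0y
    · rcases hgad w k d hw hfw with ⟨hk, h⟩ | ⟨hk, h⟩
      · by_cases hdu : d.1 = u
        · subst hk
          exact Or.inl ⟨d, rfl, hdu⟩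
        · rw [hd0z] at h
          subst hk
          exact Or.inr (Or.inl ⟨d, rfl, K.nbr_z hdu h⟩)
      · exact Or.inr (Or.inr ⟨k, d, fun e => hk e.symm, rfl, K.M_z h hd0z⟩)
  refine h2.split (fun w => ∃ d : {d : α // d ≠ x}, f w = .gad j d ∧ d.1 = u) ?_ ?_
  · rintro a b ha hb hab ⟨d1, h1, e1⟩ ⟨d2, h2, e2⟩
    exfalso
    apply hab
    apply f.injective
    rw [h1, h2]; congr 1; exact Subtype.ext (e1.trans e2.symm)
  · intro a b ha hb hKa hKb hab
    have hzy : ∀ d1 d2 : {d : α // d ≠ x}, d1.1 = z' → d2.1 = y' →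
        ¬ ckM H u x y y' z d1 d2 := by
      intro d1 d2 e1 e2 h
      have := ckM_symm H u x y y' z _ _ h
      rcases K.M_y' this e2 with e | e
      · exact K.yz' (e.symm.trans e1)
      · exact K.nzz' (e.symm.trans e1)
    rcases key a ha with h | ⟨d1, h1, e1⟩ | ⟨k1, d1, hk1, h1, e1⟩
    · exact hKa h
    · rcases key b hb with h | ⟨d2, h2, e2⟩ | ⟨k2, d2, hk2, h2, e2⟩
      · exact hKb h
      · apply H.ne_of_adj hab
        apply f.injective
        rw [h1, h2]; congr 1; exact Subtype.ext (e1.trans e2.symm)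
      · rcases (bd_gg f h1 h2).1 hab with ⟨h, _⟩ | ⟨_, h⟩
        · exact hk2 h.symm
        · exact hzy d1 d2 e1 e2 h
    · rcases key b hb with h | ⟨d2, h2, e2⟩ | ⟨k2, d2, hk2, h2, e2⟩
      · exact hKb h
      · rcases (bd_gg f h1 h2).1 hab with ⟨h, _⟩ | ⟨_, h⟩
        · exact hk1 h
        · exact hzy d2 d1 e2 e1 (ckM_symm H u x y y' z _ _ h)
      · rcases (bd_gg f h1 h2).1 hab with ⟨_, h⟩ | ⟨_, h⟩
        · rw [e1, e2] at h; exact H.ne_of_adj h rfl
        · rcases K.M_y' h e1 with e | e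
          · exact K.nyy' (e.symm.trans e2)
          · exact K.y'z (e2.symm.trans e)

lemma CK.free_x' [Fintype α] {H : SimpleGraph α} {u x y y' z z' : α} (K : CK H u x y y' z z')
    {S : α → Prop} (h2 : TwoSides H u S)
    (V J : Type) (rel : V → J → Prop)
    (f : H ↪g (dPat H x (ckM H u x y y' z) (ckM_symm H u x y y' z) (fun d => d = y)
      (fun _ => False) False).graph (fun c => H.Adj x c ∨ c = y) rel)
    (j : J) (d0 : {d : α // d ≠ x}) (hfu : f u = .gad j d0) (hd0u : d0.1 ≠ u)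
    (hd0y : d0.1 ≠ y) (hd0x : H.Adj x d0) : False := by
  have hxu' : H.Adj x u := (K.hu x K.xu).symm
  have hnxy := K.nxy
  let uu : {d : α // d ≠ x} := ⟨u, K.xu.symm⟩
  let yy : {d : α // d ≠ x} := ⟨y, K.xy.symm⟩
  have hsel : ∀ w v, f w = .sel v → w ≠ u → d0.1 = y := by
    intro w v hw hwu
    exact ((ck_sg f hw hfu).1 (K.hu w hwu).symm).2
  have hgad : ∀ w k (d : {d : α // d ≠ x}), w ≠ u → f w = .gad k d →
      (j = k ∧ H.Adj d0 d) ∨ (j ≠ k ∧ ckM H u x y y' z d0 d) := by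
    intro w k d hwu hw
    exact (bd_gg f hfu hw).1 (K.hu w hwu)
  have hhub : ∀ w, f w = .hub → w ≠ u → H.Adj x d0 ∨ d0.1 = y := by
    intro w hw hwu
    exact (bd_hg f hw hfu).1 (K.hu w hwu).symm
  have key : ∀ w, w ≠ u → f w = .hub ∨
      (∃ k, ∃ d : {d : α // d ≠ x}, f w = .gad k d ∧ d.1 = u) := by
    intro w hw
    rcases hfw : f w with _ | v' | ⟨k, d⟩
    · exact Or.inl rfl
    · exact absurd (hsel w v' hfw hw) hd0y
    · right
      rcases hgad w k d hw hfw with ⟨hk, h⟩ | ⟨hk, h⟩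
      · by_cases hdu : d.1 = u
        · exact ⟨k, d, rfl, hdu⟩
        · exact absurd (K.uniq d0.1 d.1 x hd0u hdu K.xu h hd0x.symm) d.2
      · exact ⟨k, d, rfl, K.M_x' h hd0u hd0x⟩
  refine h2.split (fun w => f w = .hub) ?_ ?_
  · intro a b ha hb hab h1 h2
    exact absurd (f.injective (h1.trans h2.symm)) hab
  · intro a b ha hb hKa hKb hab
    rcases key a ha with h | ⟨k1, d1, h1, e1⟩
    · exact hKa h
    rcases key b hb with h | ⟨k2, d2, h2, e2⟩
    · exact hKb h
    rcases (bd_gg f h1 h2).1 hab with ⟨_, h⟩ | ⟨_, h⟩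
    · rw [e1, e2] at h; exact H.ne_of_adj h rfl
    · exact (K.M_u h e1).1 e2

/-- the contracted graphs are `H`-free -/
lemma CK.free [Fintype α] {H : SimpleGraph α} {u x y y' z z' : α} (K : CK H u x y y' z z')
    {S : α → Prop} (h2 : TwoSides H u S)
    (hcase : (∀ b, b ≠ u → ¬ H.Adj x b) ∨ (∀ a, a ≠ u → ∃ b, b ≠ u ∧ H.Adj a b))
    (V J : Type) (rel : V → J → Prop)
    (f : H ↪g (dPat H x (ckM H u x y y' z) (ckM_symm H u x y y' z) (fun d => d = y)
      (fun _ => False) False).graph (fun c => H.Adj x c ∨ c = y) rel) : False := by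
  rcases hfu : f u with _ | v | ⟨j, d0⟩
  · exact K.free_hub h2 hcase V J rel f hfu
  · exact K.free_sel h2 V J rel f v hfu
  by_cases hd0u : d0.1 = u
  · exact K.free_u h2 hcase V J rel f j d0 hfu hd0u
  by_cases hd0y : d0.1 = y
  · exact K.free_y h2 V J rel f j d0 hfu hd0y
  by_cases hd0y' : d0.1 = y'
  · exact K.free_y' h2 V J rel f j d0 hfu hd0y hd0y'
  by_cases hd0z : d0.1 = z
  · exact K.free_z h2 V J rel f j d0 hfu hd0y hd0z
  by_cases hd0x : H.Adj x d0
  · exact K.free_x' h2 V J rel f j d0 hfu hd0u hd0y hd0x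
  have hxu' : H.Adj x u := (K.hu x K.xu).symm
  have hnxy := K.nxy
  let uu : {d : α // d ≠ x} := ⟨u, K.xu.symm⟩
  let yy : {d : α // d ≠ x} := ⟨y, K.xy.symm⟩
  have hsel : ∀ w v, f w = .sel v → w ≠ u → d0.1 = y := by
    intro w v hw hwu
    exact ((ck_sg f hw hfu).1 (K.hu w hwu).symm).2
  have hgad : ∀ w k (d : {d : α // d ≠ x}), w ≠ u → f w = .gad k d →
      (j = k ∧ H.Adj d0 d) ∨ (j ≠ k ∧ ckM H u x y y' z d0 d) := by
    intro w k d hwu hw
    exact (bd_gg f hfu hw).1 (K.hu w hwu)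
  have hhub : ∀ w, f w = .hub → w ≠ u → H.Adj x d0 ∨ d0.1 = y := by
    intro w hw hwu
    exact (bd_hg f hw hfu).1 (K.hu w hwu).symm
  refine one_gadget f x id (fun d d' => Iff.rfl) (fun d hd => Or.inl hd) yy
      (Or.inr rfl) hnxy j ?_
  intro w
  by_cases hwu : w = u
  · rw [hwu]; exact Or.inr ⟨d0, hfu⟩
  rcases hfw : f w with _ | v' | ⟨k, d⟩
  · exact Or.inl rfl
  · exact absurd (hsel w v' hfw hwu) hd0y
  · rcases hgad w k d hwu hfw with ⟨hk, h⟩ | ⟨hk, h⟩
    · subst hk; exact Or.inr ⟨d, rfl⟩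
    · exact absurd (K.M_o h hd0y hd0y' hd0z hd0u).1 hd0x

lemma bd_ck_pat [Fintype α] {H : SimpleGraph α} {u x y y' z z' : α} (K : CK H u x y y' z z')
    {S : α → Prop} (h2 : TwoSides H u S) (c : α → Bool)
    (hb : ∀ a b, a ≠ u → b ≠ u → H.Adj a b → c a ≠ c b)
    (hcase : (∀ b, b ≠ u → ¬ H.Adj x b) ∨ (∀ a, a ≠ u → ∃ b, b ≠ u ∧ H.Adj a b)) :
    HasPat H := by
  refine ⟨{d : α // d ≠ x}, inferInstance, dPat H x (ckM H u x y y' z)
    (ckM_symm H u x y y' z) (fun d => d = y) (fun _ => False) False, ⟨?_⟩⟩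
  exact {
    x := x
    δ := id
    inj := Function.injective_id
    hI := fun d d' => Iff.rfl
    hA := fun d => Iff.rfl
    hQ := fun d h => h.elim
    hQB := fun c h => h.elim
    penal := fun t d h hn => K.penal c hb t d h hn
    free := fun V J rel => ⟨fun f => K.free h2 hcase V J rel f⟩ }

theorem bd_ck [Fintype α] {H : SimpleGraph α} {u : α} {S : α → Prop}
    (hcard : 6 ≤ Fintype.card α)
    (hu : ∀ w, w ≠ u → H.Adj u w) (h2 : TwoSides H u S) (c : α → Bool)
    (hb : ∀ a b, a ≠ u → b ≠ u → H.Adj a b → c a ≠ c b)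
    (huniq : ∀ a b b', a ≠ u → b ≠ u → b' ≠ u → H.Adj a b → H.Adj a b' → b = b') : HasPat H := by
  obtain ⟨y, y', hyu, hy'u, hyy', hSy⟩ := h2.e1
  obtain ⟨z, z', hzu, hz'u, hzz', hSz⟩ := h2.e2
  have hSy' : S y' := (h2.hS _ _ hyu hy'u hyy').1 hSy
  have hSz' : ¬ S z' := fun h => hSz ((h2.hS _ _ hzu hz'u hzz').2 h)
  have mk : ∀ x, x ≠ u → x ≠ y → x ≠ y' → x ≠ z → x ≠ z' → CK H u x y y' z z' := by
    intro x h1 h3 h4 h5 h6
    exact {
      hu := hu
      uniq := huniq
      xu := h1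
      yu := hyu
      y'u := hy'u
      zu := hzu
      z'u := hz'u
      yy' := hyy'
      zz' := hzz'
      yz := fun e => hSz (e ▸ hSy)
      yz' := fun e => hSz' (e ▸ hSy)
      y'z := fun e => hSz (e ▸ hSy')
      y'z' := fun e => hSz' (e ▸ hSy')
      xy := h3
      xy' := h4
      xz := h5
      xz' := h6 }
  by_cases hiso : ∃ x, x ≠ u ∧ ∀ b, b ≠ u → ¬ H.Adj x b
  · obtain ⟨x, hxu, hx⟩ := hiso
    refine bd_ck_pat (mk x hxu ?_ ?_ ?_ ?_) h2 c hb (Or.inl hx)
    · intro e; exact hx y' hy'u (e ▸ hyy')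
    · intro e; exact hx y hyu (e ▸ hyy'.symm)
    · intro e; exact hx z' hz'u (e ▸ hzz')
    · intro e; exact hx z hzu (e ▸ hzz'.symm)
  · push Not at hiso
    have hex : ∃ x, x ∉ ({u, y, y', z, z'} : Finset α) := by
      by_contra hcon
      push Not at hcon
      have h1 : (Finset.univ : Finset α).card ≤ ({u, y, y', z, z'} : Finset α).card :=
        Finset.card_le_card (fun x _ => hcon x)
      have h3 : ({u, y, y', z, z'} : Finset α).card ≤ 5 := Finset.card_le_five
      rw [Finset.card_univ] at h1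
      omega
    obtain ⟨x, hx⟩ := hex
    simp only [Finset.mem_insert, Finset.mem_singleton, not_or] at hx
    exact bd_ck_pat (mk x hx.1 hx.2.1 hx.2.2.1 hx.2.2.2.1 hx.2.2.2.2) h2 c hb
      (Or.inr (fun a ha => hiso a ha))

theorem bip_disc [Fintype α] {H : SimpleGraph α} {u : α} (hcard : 6 ≤ Fintype.card α)
    (hu : ∀ w, w ≠ u → H.Adj u w)
    (hb : ∃ c : α → Bool, ∀ a b, a ≠ u → b ≠ u → H.Adj a b → c a ≠ c b)
    (h2 : ∃ S : α → Prop, (∀ a b, a ≠ u → b ≠ u → H.Adj a b → (S a ↔ S b)) ∧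
      (∃ a b, a ≠ u ∧ b ≠ u ∧ H.Adj a b ∧ S a) ∧ (∃ a b, a ≠ u ∧ b ≠ u ∧ H.Adj a b ∧ ¬ S a)) :
    HasPat H := by
  obtain ⟨c, hb⟩ := hb
  obtain ⟨S, hS, he1, he2⟩ := h2
  have h2 : TwoSides H u S := ⟨hS, he1, he2⟩
  obtain ⟨a0, b0, ha0, hb0, hab0, _⟩ := he1
  have memV : ∀ a, a ∈ (Finset.univ.erase u : Finset α) ↔ a ≠ u := by intro a; simp
  obtain ⟨x, hx, hmax⟩ := Finset.exists_max_image (Finset.univ.erase u)
    (fun t => dg H (Finset.univ.erase u) t) ⟨a0, (memV a0).2 ha0⟩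
  rw [memV] at hx
  have hmax' : ∀ t, t ≠ u → dg H (Finset.univ.erase u) t ≤ dg H (Finset.univ.erase u) x :=
    fun t ht => hmax t ((memV t).2 ht)
  rcases (by omega : 3 ≤ dg H (Finset.univ.erase u) x ∨ dg H (Finset.univ.erase u) x = 2 ∨
    dg H (Finset.univ.erase u) x ≤ 1) with h | h | h
  · exact bd_split3 hu h2 c hb x hx hmax' h
  · exact bd_split2 hu h2 c hb x hx hmax' h
  · refine bd_ck hcard hu h2 c hb ?_
    intro a b b' ha hbu hb'u h1 h3
    have h4 := (hmax' a ha).trans h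
    unfold dg at h4
    rw [Finset.card_le_one] at h4
    exact h4 b (Finset.mem_filter.2 ⟨(memV b).2 hbu, h1⟩) b'
      (Finset.mem_filter.2 ⟨(memV b').2 hb'u, h3⟩)

end HFC
end

section

open Classical

namespace HFC

variable {α V J : Type}

/-- One universal vertex, `H - u` bipartite with at most one non-trivial component: either there is
a pattern or the non-trivial component is a star or a double star. -/
theorem p1 [Fintype α] {H : SimpleGraph α} {u : α} (hu : ∀ w, w ≠ u → H.Adj u w)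
    (hnu : ∀ v, v ≠ u → ∃ w, w ≠ v ∧ w ≠ u ∧ ¬ H.Adj v w)
    (hb : ∃ c : α → Bool, ∀ a b, a ≠ u → b ≠ u → H.Adj a b → c a ≠ c b)
    (hone : ∀ S : α → Prop, (∀ a b, a ≠ u → b ≠ u → H.Adj a b → (S a ↔ S b)) →
      (∃ a b, a ≠ u ∧ b ≠ u ∧ H.Adj a b ∧ S a) → ∀ a b, a ≠ u → b ≠ u → H.Adj a b → S a)
    (hne : ∃ v, v ≠ u) :
    HasPat H ∨ ∃ p q, p ≠ u ∧ q ≠ u ∧ (p = q ∨ H.Adj p q) ∧
      ∀ a b, a ≠ u → b ≠ u → H.Adj a b → (a = p ∨ a = q ∨ b = p ∨ b = q) := by
  by_contra hcon
  push Not at hcon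
  obtain ⟨hno, hex⟩ := hcon
  -- triangle free
  have tri : ∀ a b c, a ≠ u → b ≠ u → c ≠ u → H.Adj a b → H.Adj b c → H.Adj a c → False := by
    obtain ⟨c, hc⟩ := hb
    intro a b d ha hb' hd hab hbd had
    have h1 := hc a b ha hb' hab
    have h2 := hc b d hb' hd hbd
    have h3 := hc a d ha hd had
    revert h1 h2 h3
    cases c a <;> cases c b <;> cases c d <;> simp
  obtain ⟨v0, hv0⟩ := hne
  obtain ⟨x, x', hxu, hx'u, hxx, -⟩ := hex v0 v0 hv0 hv0 (Or.inl rfl)
  have h1 : ¬ ∀ (V J : Type) (rel : V → J → Prop),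
    IsEmpty (H ↪g (allPat H x True).graph (fun c => H.Adj x c ∨ True) rel) :=
    fun h => hno (allPat_good H x True h)
  push Not at h1
  obtain ⟨V, J, rel, ⟨f⟩⟩ := h1
  have fadj : ∀ a b, ((allPat H x True).graph (fun c => H.Adj x c ∨ True) rel).Adj (f a) (f b) ↔
      H.Adj a b := fun a b => f.map_rel_iff
  have hhub : ∀ b, b ≠ u → f b ≠ .hub := by
    intro b hbu hb
    obtain ⟨w, hw, hwu, hbw⟩ := hnu b hbu
    apply hbw
    rw [← fadj, hb]
    rcases hfw : f w with _ | v | ⟨j, c⟩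
    · exact absurd (f.injective (hfw.trans hb.symm)) hw
    · trivial
    · exact Or.inr trivial
  have ss : ∀ a b v v', f a = .sel v → f b = .sel v' → a ≠ b → H.Adj a b := by
    intro a b v v' ha hb hab
    rw [← fadj, ha, hb]
    refine ⟨?_, trivial⟩
    rintro rfl
    exact hab (f.injective (ha.trans hb.symm))
  have sg : ∀ a b v j c, f a = .sel v → f b = .gad j c → (H.Adj a b ↔ rel v j) := by
    intro a b v j c ha hb
    rw [← fadj, ha, hb]
    constructor
    · rintro (⟨h, _⟩ | ⟨_, h⟩)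
      · exact h
      · exact h.elim
    · intro h; exact Or.inl ⟨h, trivial⟩
  have gg : ∀ a b j c j' c', f a = .gad j c → f b = .gad j' c' →
      (H.Adj a b ↔ j = j' ∧ H.Adj c.1 c'.1) := by
    intro a b j c j' c' ha hb
    rw [← fadj, ha, hb]
    constructor
    · rintro (h | ⟨_, h⟩)
      · exact h
      · exact h.elim
    · intro h; exact Or.inl h
  -- some vertex on an edge is a selector
  have hq : ∃ q q', q ≠ u ∧ q' ≠ u ∧ H.Adj q q' ∧ ∃ v, f q = .sel v := by
    by_contra hcon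
    push Not at hcon
    have hlab : ∀ a b, a ≠ u → b ≠ u → H.Adj a b → ∃ j c, f a = .gad j c := by
      intro a b ha hb hab
      rcases hfa : f a with _ | v | ⟨j, c⟩
      · exact absurd hfa (hhub a ha)
      · exact absurd hfa (hcon a b ha hb hab v)
      · exact ⟨j, c, rfl⟩
    obtain ⟨j, c0, hj⟩ := hlab x x' hxu hx'u hxx
    have hall := hone (fun a => ∃ c, f a = .gad j c) (by
      intro a b ha hb hab
      obtain ⟨ja, ca, hfa⟩ := hlab a b ha hb hab
      obtain ⟨jb, cb, hfb⟩ := hlab b a hb ha hab.symm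
      have := ((gg a b ja ca jb cb hfa hfb).1 hab).1
      subst this
      constructor
      · rintro ⟨c, hc⟩
        rw [hfa] at hc
        injection hc with h1 _
        exact ⟨cb, by rw [hfb, h1]⟩
      · rintro ⟨c, hc⟩
        rw [hfb] at hc
        injection hc with h1 _
        exact ⟨ca, by rw [hfa, h1]⟩) ⟨x, x', hxu, hx'u, hxx, c0, hj⟩
    let Cc : α → Prop := fun a => a ≠ u ∧ ∃ b, b ≠ u ∧ H.Adj a b
    have hall' : ∀ a, Cc a → ∃ c : {d : α // d ≠ x}, f a = .gad j c := by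
      rintro a ⟨ha, b, hb, hab⟩
      exact hall a b ha hb hab
    by_cases hu' : ∃ b c, Cc b ∧ f b = .gad j c ∧ c.1 = u
    · obtain ⟨b, c, hbC, hfb, hcu⟩ := hu'
      obtain ⟨a1, a2, h1, h2, h3, h4⟩ := hex b b hbC.1 hbC.1 (Or.inl rfl)
      have key : ∀ a, Cc a → a ≠ b → H.Adj b a := by
        intro a ha hab
        obtain ⟨ca, hfa⟩ := hall' a ha
        rw [gg b a j c j ca hfb hfa]
        refine ⟨rfl, ?_⟩
        rw [hcu]
        apply hu
        intro h
        exact hab (f.injective (by rw [hfa, hfb, Subtype.ext (h.trans hcu.symm)]))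
      exact tri b a1 a2 hbC.1 h1 h2 (key a1 ⟨h1, a2, h2, h3⟩ h4.1) h3
        (key a2 ⟨h2, a1, h1, h3.symm⟩ h4.2.2.1)
    · push Not at hu'
      have : ∀ a, ∃ c : α, Cc a → ∃ h : c ≠ x, f a = .gad j ⟨c, h⟩ := by
        intro a
        by_cases ha : Cc a
        · obtain ⟨c, hc⟩ := hall' a ha
          exact ⟨c.1, fun _ => ⟨c.2, hc⟩⟩
        · exact ⟨x, fun h => absurd h ha⟩
      choose g hg using this
      refine no_inj_set (fun a => Cc a ∧ a ≠ x) x (fun h => h.2 rfl) g ?_ ?_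
      · intro w hw
        have hw' : Cc w := by
          rcases hw with h | h
          · exact h.1
          · rw [h]; exact ⟨hxu, x', hx'u, hxx⟩
        obtain ⟨h1, h2⟩ := hg w hw'
        obtain ⟨hwu, b, hbu, hwb⟩ := hw'
        have hb' : Cc b := ⟨hbu, w, hwu, hwb.symm⟩
        obtain ⟨h3, h4⟩ := hg b hb'
        refine ⟨⟨hu' w _ ⟨hwu, b, hbu, hwb⟩ h2, g b, hu' b _ hb' h4, ?_⟩, h1⟩
        exact ((gg w b _ _ _ _ h2 h4).1 hwb).2
      · intro w w' hw hw' h
        have hwC : Cc w := by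
          rcases hw with h | h
          · exact h.1
          · rw [h]; exact ⟨hxu, x', hx'u, hxx⟩
        have hwC' : Cc w' := by
          rcases hw' with h | h
          · exact h.1
          · rw [h]; exact ⟨hxu, x', hx'u, hxx⟩
        obtain ⟨h1, h2⟩ := hg w hwC
        obtain ⟨h3, h4⟩ := hg w' hwC'
        apply f.injective
        rw [h2, h4]
        congr 1
        exact Subtype.ext h
  obtain ⟨q, q', hqu, hq'u, hqq, vq, hfq⟩ := hq
  -- second selector
  obtain ⟨p, hpu, hpq, hpsel⟩ : ∃ p, p ≠ u ∧ (p = q ∨ H.Adj p q) ∧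
      ∀ b v, b ≠ u → f b = .sel v → b = p ∨ b = q := by
    by_cases h : ∃ p v, p ≠ u ∧ p ≠ q ∧ f p = .sel v
    · obtain ⟨p, vp, hpu, hpq, hfp⟩ := h
      refine ⟨p, hpu, Or.inr (ss p q vp vq hfp hfq hpq), ?_⟩
      intro b v hbu hfb
      by_contra hcon
      push Not at hcon
      exact tri b p q hbu hpu hqu (ss b p v vp hfb hfp hcon.1) (ss p q vp vq hfp hfq hpq)
        (ss b q v vq hfb hfq hcon.2)
    · push Not at h
      exact ⟨q, hqu, Or.inl rfl, fun b v hbu hfb => by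
        by_contra hcon
        push Not at hcon
        exact h b v hbu hcon.1 hfb⟩
  obtain ⟨a, b, hau, hbu, hab, hap, haq, hbp, hbq⟩ := hex p q hpu hqu hpq
  have lab : ∀ a, a ≠ u → a ≠ p → a ≠ q → ∃ j c, f a = .gad j c := by
    intro a ha h1 h2
    rcases hfa : f a with _ | v | ⟨j, c⟩
    · exact absurd hfa (hhub a ha)
    · rcases hpsel a v ha hfa with h | h
      · exact absurd h h1
      · exact absurd h h2
    · exact ⟨j, c, rfl⟩
  obtain ⟨j, ca, hfa⟩ := lab a hau hap haq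
  obtain ⟨j', cb, hfb⟩ := lab b hbu hbp hbq
  have hjj := ((gg a b j ca j' cb hfa hfb).1 hab).1
  subst hjj
  by_cases hr : ∃ r v, r ≠ u ∧ f r = .sel v ∧ rel v j
  · obtain ⟨r, v, hru, hfr, hrel⟩ := hr
    exact tri r a b hru hau hbu ((sg r a v j ca hfr hfa).2 hrel) hab
      ((sg r b v j cb hfr hfb).2 hrel)
  · push Not at hr
    have hall := hone (fun a => ∃ c, f a = .gad j c) (by
      have key : ∀ a b, a ≠ u → b ≠ u → H.Adj a b → (∃ c, f a = .gad j c) →
          ∃ c, f b = .gad j c := by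
        rintro a b ha hb hab ⟨c, hc⟩
        rcases hfb : f b with _ | v | ⟨j', c'⟩
        · exact absurd hfb (hhub b hb)
        · exact absurd ((sg b a v j c hfb hc).1 hab.symm) (hr b v hb hfb)
        · have := ((gg a b j c j' c' hc hfb).1 hab).1
          subst this
          exact ⟨c', rfl⟩
      intro a b ha hb hab
      exact ⟨key a b ha hb hab, key b a hb ha hab.symm⟩) ⟨a, b, hau, hbu, hab, ca, hfa⟩
    obtain ⟨c, hc⟩ := hall q q' hqu hq'u hqq
    rw [hfq] at hc
    cases hc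

end HFC
end
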