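import Pool.Agent.Lib.HFC.Mg.G002
import Pool.Agent.Lib.HFC.Mg.G003
import Pool.Agent.Lib.HFC.Plain
import Pool.Agent.Lib.HFC.Mg.G001

section

open Classical

namespace HFC

variable {α V J : Type}

lemma count_false [Fintype α] {H : SimpleGraph α} {u : α} (E : α → Prop) (T : Finset α)
    (hTmax : ∀ T' : Finset α, (∀ a ∈ T', E a) → (∀ a ∈ T', ∀ b ∈ T', ¬ H.Adj a b) →
      T'.card ≤ T.card)
    (I0 : Finset α) (hI0 : ∀ a ∈ I0, ∀ b ∈ I0, ¬ H.Adj a b) (hI0u : ∀ a ∈ I0, a ≠ u)
    (hcard : I0.card = T.card + 3) (col : α → ℕ) (lab : α → α)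
    (h1 : ∀ w, w ≠ u → col w < 3)
    (h2 : ∀ w w', w ≠ u → w' ≠ u → w ≠ w' → ¬ H.Adj w w' → col w = col w' →
      col w = 2 ∧ lab w ≠ lab w' ∧ ¬ H.Adj (lab w) (lab w'))
    (h3 : ∀ w, w ≠ u → col w = 2 → E (lab w)) : False := by
  have hsum : I0.card = ∑ i ∈ Finset.range 3, (I0.filter (fun w => col w = i)).card :=
    Finset.card_eq_sum_card_fiberwise (fun w hw => by
      rw [Finset.coe_range]
      exact h1 w (hI0u w hw))
  rw [Finset.sum_range_succ, Finset.sum_range_succ, Finset.sum_range_succ,
    Finset.sum_range_zero] at hsum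
  have small : ∀ i, i ≠ 2 → (I0.filter (fun w => col w = i)).card ≤ 1 := by
    intro i hi
    rw [Finset.card_le_one]
    intro a ha b hb
    rw [Finset.mem_filter] at ha hb
    by_contra hab
    have := (h2 a b (hI0u a ha.1) (hI0u b hb.1) hab (hI0 a ha.1 b hb.1)
      (ha.2.trans hb.2.symm)).1
    exact hi (ha.2.symm.trans this)
  have e0 := small 0 (by norm_num)
  have e1 := small 1 (by norm_num)
  have e2 : (I0.filter (fun w => col w = 2)).card ≤ T.card := by
    have hinj : Set.InjOn lab (I0.filter (fun w => col w = 2) : Finset α) := by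
      intro a ha b hb hab
      have ha' := Finset.mem_filter.1 (Finset.mem_coe.1 ha)
      have hb' := Finset.mem_filter.1 (Finset.mem_coe.1 hb)
      by_contra hne
      exact (h2 a b (hI0u a ha'.1) (hI0u b hb'.1) hne (hI0 a ha'.1 b hb'.1)
        (ha'.2.trans hb'.2.symm)).2.1 hab
    rw [← Finset.card_image_of_injOn hinj]
    apply hTmax
    · intro a ha
      obtain ⟨w, hw, rfl⟩ := Finset.mem_image.1 ha
      rw [Finset.mem_filter] at hw
      exact h3 w (hI0u w hw.1) hw.2
    · intro a ha b hb
      obtain ⟨w, hw, rfl⟩ := Finset.mem_image.1 ha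
      obtain ⟨w', hw', rfl⟩ := Finset.mem_image.1 hb
      rw [Finset.mem_filter] at hw hw'
      by_cases hww : w = w'
      · rw [hww]; exact fun h => H.ne_of_adj h rfl
      · exact (h2 w w' (hI0u w hw.1) (hI0u w' hw'.1) hww (hI0 w hw.1 w' hw'.1)
          (hw.2.trans hw'.2.symm)).2.2
  omega

/-- classes: gadget `H - x` and auxiliary copies of the vertices in `E` -/
abbrev XC (α : Type) (x : α) (E : α → Prop) : Type := {d : α // d ≠ x} ⊕ {e : α // E e}

def xI (H : SimpleGraph α) (Z : α → Prop) {x : α} {E : α → Prop} :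
    XC α x E → XC α x E → Prop
  | .inl a, .inl b => H.Adj a.1 b.1
  | .inr a, .inr b => H.Adj a.1 b.1
  | .inl d, .inr e => d.1 = e.1 ∨ (Z d.1 ∧ H.Adj d.1 e.1)
  | .inr e, .inl d => d.1 = e.1 ∨ (Z d.1 ∧ H.Adj d.1 e.1)

def xM (H : SimpleGraph α) (S : α → Prop) {x : α} {E : α → Prop} :
    XC α x E → XC α x E → Prop
  | .inl a, .inl b => S a.1 ∧ S b.1
  | .inr a, .inr b => a.1 = b.1 ∨ H.Adj a.1 b.1
  | .inl _, .inr _ => False
  | .inr _, .inl _ => False

def xA (H : SimpleGraph α) {x : α} {E : α → Prop} : XC α x E → Prop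
  | .inl a => H.Adj x a.1
  | .inr _ => True

def xP (y : α) {x : α} {E : α → Prop} : XC α x E → Prop
  | .inl a => a.1 = y
  | .inr _ => False

def xPat (H : SimpleGraph α) (x y : α) (Z S E : α → Prop) : Pat (XC α x E) where
  I := xI H Z
  M := xM H S
  A := xA H
  P := xP y
  Q _ := False
  T := True
  I_symm a b h := by
    rcases a with a | a <;> rcases b with b | b <;> simp only [xI] at h ⊢
    · exact h.symm
    · exact h
    · exact h
    · exact h.symm
  I_irrefl a h := by
    rcases a with a | a <;> exact (H.ne_of_adj h) rfl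
  M_symm a b h := by
    rcases a with a | a <;> rcases b with b | b <;> simp only [xM] at h ⊢
    · exact ⟨h.2, h.1⟩
    · exact h.imp Eq.symm (fun h => h.symm)

theorem xi [Fintype α] {H : SimpleGraph α} {u x y0 z0 : α} {Z : α → Prop}
    (hu : ∀ w, w ≠ u → H.Adj u w) (hxu : x ≠ u) (hx : ∀ w, H.Adj x w → w = u)
    (hyu : y0 ≠ u) (hyx : y0 ≠ x) (hz0 : Z z0) (hZu : ¬ Z u) (hZx : ¬ Z x) (hZy : ¬ Z y0)
    (hZZ : ∀ a b, Z a → Z b → a ≠ b → H.Adj a b)
    (hyz : ¬ H.Adj y0 z0)
    (hyE : ∀ e, e ≠ u → e ≠ x → e ≠ y0 → ¬ Z e → ¬ H.Adj y0 e)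
    (hzE : ∀ e, e ≠ u → e ≠ x → e ≠ y0 → ¬ Z e → ¬ H.Adj z0 e)
    (hNE : ∀ z e e', Z z → e ≠ u → e ≠ x → e ≠ y0 → ¬ Z e → e' ≠ u → e' ≠ x → e' ≠ y0 → ¬ Z e' →
      H.Adj z e → H.Adj z e' → ¬ H.Adj e e')
    (hEne : ∃ e, e ≠ u ∧ e ≠ x ∧ e ≠ y0 ∧ ¬ Z e) : HasPat H := by
  let E : α → Prop := fun e => e ≠ u ∧ e ≠ x ∧ e ≠ y0 ∧ ¬ Z e
  let S : α → Prop := fun a => a = u ∨ a = y0 ∨ Z a
  have hSE : ∀ a, S a → ¬ E a := by
    rintro a (h | h | h) ⟨h1, h2, h3, h4⟩
    · exact h1 h
    · exact h3 h
    · exact h4 h
  have hcases : ∀ a, a ≠ x → S a ∨ E a := by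
    intro a ha
    by_cases h1 : a = u
    · exact Or.inl (Or.inl h1)
    by_cases h2 : a = y0
    · exact Or.inl (Or.inr (Or.inl h2))
    by_cases h3 : Z a
    · exact Or.inl (Or.inr (Or.inr h3))
    · exact Or.inr ⟨h1, ha, h2, h3⟩
  have hux : H.Adj x u := (hu x hxu).symm
  refine ⟨XC α x E, inferInstance, xPat H x y0 Z S E, ⟨?_⟩⟩
  refine {
    x := x
    δ := Sum.inl
    inj := Sum.inl_injective
    hI := fun d d' => Iff.rfl
    hA := fun d => Iff.rfl
    hQ := fun d h => h.elim
    hQB := fun c h => h.elim
    penal := ?_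
    free := ?_ }
  · intro t d hM hnd
    have ht : ∀ a : {d : α // d ≠ x}, S a.1 → (xPat H x y0 Z S E).M t (.inl a) := by
      intro a ha
      rcases t with t | t
      · exact ⟨hM.1, ha⟩
      · exact hM.elim
    let φ : α → SV α α (XC α x E) := fun w =>
      if w = u then .hub else if h : w = x then .sel u else
        if h' : E w then .gad u (.inr ⟨w, h'⟩) else .gad u (.inl ⟨w, h⟩)
    have φu : φ u = .hub := by simp [φ]
    have φx : φ x = .sel u := by simp [φ, hxu]
    have φE : ∀ w (h : E w), φ w = .gad u (.inr ⟨w, h⟩) := by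
      intro w h
      simp only [φ]
      rw [if_neg h.1, dif_neg h.2.1, dif_pos h]
    have φS : ∀ w (h : w ≠ x), w ≠ u → ¬ E w → φ w = .gad u (.inl ⟨w, h⟩) := by
      intro w h h1 h2
      simp only [φ]
      rw [if_neg h1, dif_neg h, dif_neg h2]
    have htri : ∀ w, w = u ∨ w = x ∨ (∃ h : E w, φ w = .gad u (.inr ⟨w, h⟩)) ∨
        (∃ h : w ≠ x, w ≠ u ∧ S w ∧ φ w = .gad u (.inl ⟨w, h⟩)) := by
      intro w
      by_cases h1 : w = u
      · exact Or.inl h1
      by_cases h2 : w = x
      · exact Or.inr (Or.inl h2)
      by_cases h3 : E w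
      · exact Or.inr (Or.inr (Or.inl ⟨h3, φE w h3⟩))
      · exact Or.inr (Or.inr (Or.inr ⟨h2, h1, (hcases w h2).resolve_right h3, φS w h2 h1 h3⟩))
    refine ⟨u, ⟨⟨φ, ?_⟩, ?_⟩, hu, φu⟩
    · intro a b hab
      rcases htri a with rfl | rfl | ⟨h1, h1'⟩ | ⟨h1, h1u, h1S, h1'⟩
      · rcases htri b with rfl | rfl | ⟨h2, h2'⟩ | ⟨h2, h2u, h2S, h2'⟩
        · rfl
        · rw [φu, φx] at hab; exact absurd hab (by simp)
        · rw [φu, h2'] at hab; exact absurd hab (by simp)
        · rw [φu, h2'] at hab; exact absurd hab (by simp)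
      · rcases htri b with rfl | rfl | ⟨h2, h2'⟩ | ⟨h2, h2u, h2S, h2'⟩
        · rw [φu, φx] at hab; exact absurd hab (by simp)
        · rfl
        · rw [φx, h2'] at hab; exact absurd hab (by simp)
        · rw [φx, h2'] at hab; exact absurd hab (by simp)
      · rcases htri b with rfl | rfl | ⟨h2, h2'⟩ | ⟨h2, h2u, h2S, h2'⟩
        · rw [φu, h1'] at hab; exact absurd hab (by simp)
        · rw [φx, h1'] at hab; exact absurd hab (by simp)
        · rw [h1', h2'] at hab
          injection hab with _ h
          injection h with h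
          exact congrArg Subtype.val h
        · rw [h1', h2'] at hab
          injection hab with _ h
          exact absurd h (by simp)
      · rcases htri b with rfl | rfl | ⟨h2, h2'⟩ | ⟨h2, h2u, h2S, h2'⟩
        · rw [φu, h1'] at hab; exact absurd hab (by simp)
        · rw [φx, h1'] at hab; exact absurd hab (by simp)
        · rw [h1', h2'] at hab
          injection hab with _ h
          exact absurd h (by simp)
        · rw [h1', h2'] at hab
          injection hab with _ h
          injection h with h
          exact congrArg Subtype.val h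
    · intro a b
      show ((xPat H x y0 Z S E).graph _ _).Adj (φ a) (φ b) ↔ H.Adj a b
      have hxne : ∀ w, w ≠ u → ¬ H.Adj x w := fun w h h' => h (hx w h')
      rcases htri a with h1 | h1 | ⟨h1, h1'⟩ | ⟨h1, h1u, h1S, h1'⟩
      · rcases htri b with h2 | h2 | ⟨h2, h2'⟩ | ⟨h2, h2u, h2S, h2'⟩
        · rw [h1, h2, φu]; simp
        · rw [h1, h2, φu, φx]
          exact ⟨fun _ => hux.symm, fun _ => trivial⟩
        · rw [h1, φu, h2']
          exact ⟨fun _ => hu b h2.1, fun _ => Or.inl trivial⟩
        · rw [h1, φu, h2']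
          exact ⟨fun _ => hu b h2u, fun _ => Or.inr (ht _ h2S)⟩
      · rcases htri b with h2 | h2 | ⟨h2, h2'⟩ | ⟨h2, h2u, h2S, h2'⟩
        · rw [h1, h2, φu, φx]
          exact ⟨fun _ => hux, fun _ => trivial⟩
        · rw [h1, h2, φx]; simp
        · rw [h1, φx, h2']
          constructor
          · rintro (⟨h, _⟩ | ⟨_, h⟩) <;> exact h.elim
          · intro h; exact absurd h (hxne b h2.1)
        · rw [h1, φx, h2']
          constructor
          · rintro (⟨h, _⟩ | ⟨_, h⟩) <;> exact h.elim
          · intro h; exact absurd h (hxne b h2u)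
      · rcases htri b with h2 | h2 | ⟨h2, h2'⟩ | ⟨h2, h2u, h2S, h2'⟩
        · rw [h2, φu, h1']
          exact ⟨fun _ => (hu a h1.1).symm, fun _ => Or.inl trivial⟩
        · rw [h2, φx, h1']
          constructor
          · rintro (⟨h, _⟩ | ⟨_, h⟩) <;> exact h.elim
          · intro h; exact absurd h.symm (hxne a h1.1)
        · rw [h1', h2']
          constructor
          · rintro (⟨_, h⟩ | ⟨h, _⟩)
            · exact h
            · exact absurd rfl h
          · intro h; exact Or.inl ⟨rfl, h⟩
        · rw [h1', h2']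
          constructor
          · rintro (⟨_, h⟩ | ⟨h, _⟩)
            · rcases h with h | ⟨_, h⟩
              · exact absurd (show S a from (show b = a from h) ▸ h2S) (fun h' => hSE a h' h1)
              · exact h.symm
            · exact absurd rfl h
          · intro h
            refine Or.inl ⟨rfl, Or.inr ⟨?_, h.symm⟩⟩
            rcases h2S with h3 | h3 | h3
            · exact absurd h3 h2u
            · rw [h3] at h
              exact absurd h.symm (hyE a h1.1 h1.2.1 h1.2.2.1 h1.2.2.2)
            · exact h3
      · rcases htri b with h2 | h2 | ⟨h2, h2'⟩ | ⟨h2, h2u, h2S, h2'⟩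
        · rw [h2, φu, h1']
          exact ⟨fun _ => (hu a h1u).symm, fun _ => Or.inr (ht _ h1S)⟩
        · rw [h2, φx, h1']
          constructor
          · rintro (⟨h, _⟩ | ⟨_, h⟩) <;> exact h.elim
          · intro h; exact absurd h.symm (hxne a h1u)
        · rw [h1', h2']
          constructor
          · rintro (⟨_, h⟩ | ⟨h, _⟩)
            · rcases h with h | ⟨_, h⟩
              · exact absurd (show S b from (show a = b from h) ▸ h1S) (fun h' => hSE b h' h2)
              · exact h
            · exact absurd rfl h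
          · intro h
            refine Or.inl ⟨rfl, Or.inr ⟨?_, h⟩⟩
            rcases h1S with h3 | h3 | h3
            · exact absurd h3 h1u
            · rw [h3] at h
              exact absurd h (hyE b h2.1 h2.2.1 h2.2.2.1 h2.2.2.2)
            · exact h3
        · rw [h1', h2']
          constructor
          · rintro (⟨_, h⟩ | ⟨h, _⟩)
            · exact h
            · exact absurd rfl h
          · intro h; exact Or.inl ⟨rfl, h⟩
  · intro V J rel
    refine ⟨fun f => ?_⟩
    obtain ⟨e0, he0⟩ := hEne
    have he0 : E e0 := he0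
    -- a largest independent set of E
    obtain ⟨T, hTE, hTi, hTmax⟩ : ∃ T : Finset α, (∀ a ∈ T, E a) ∧
        (∀ a ∈ T, ∀ b ∈ T, ¬ H.Adj a b) ∧ (∀ T' : Finset α, (∀ a ∈ T', E a) →
          (∀ a ∈ T', ∀ b ∈ T', ¬ H.Adj a b) → T'.card ≤ T.card) := by
      obtain ⟨T, hT, hmax⟩ := Finset.exists_max_image
        ((Finset.univ : Finset (Finset α)).filter
          (fun T => (∀ a ∈ T, E a) ∧ (∀ a ∈ T, ∀ b ∈ T, ¬ H.Adj a b))) (fun T => T.card)
        ⟨∅, by simp⟩
      rw [Finset.mem_filter] at hT
      refine ⟨T, hT.2.1, hT.2.2, fun T' h1 h2 => hmax T' ?_⟩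
      rw [Finset.mem_filter]
      exact ⟨Finset.mem_univ _, h1, h2⟩
    have hz0u : z0 ≠ u := fun h => hZu (h ▸ hz0)
    have hz0x : z0 ≠ x := fun h => hZx (h ▸ hz0)
    have hz0y : z0 ≠ y0 := fun h => hZy (h ▸ hz0)
    have hxE : ¬ E x := fun h => h.2.1 rfl
    have hy0E : ¬ E y0 := fun h => h.2.2.1 rfl
    have hz0E : ¬ E z0 := fun h => h.2.2.2 hz0
    have hxn : ∀ w, w ≠ u → ¬ H.Adj x w := fun w h h' => h (hx w h')
    have hyn : ∀ e, E e → ¬ H.Adj y0 e := fun e h => hyE e h.1 h.2.1 h.2.2.1 h.2.2.2
    have hzn : ∀ e, E e → ¬ H.Adj z0 e := fun e h => hzE e h.1 h.2.1 h.2.2.1 h.2.2.2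
    let I0 : Finset α := insert x (insert y0 (insert z0 T))
    have hI0card : I0.card = T.card + 3 := by
      have a1 : z0 ∉ T := fun h => hz0E (hTE z0 h)
      have a2 : y0 ∉ insert z0 T := by
        rw [Finset.mem_insert, not_or]
        exact ⟨fun h => hz0y h.symm, fun h => hy0E (hTE y0 h)⟩
      have a3 : x ∉ insert y0 (insert z0 T) := by
        rw [Finset.mem_insert, Finset.mem_insert, not_or, not_or]
        exact ⟨fun h => hyx h.symm, fun h => hz0x h.symm, fun h => hxE (hTE x h)⟩
      rw [Finset.card_insert_of_notMem a3, Finset.card_insert_of_notMem a2,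
        Finset.card_insert_of_notMem a1]
    have hI0u : ∀ a ∈ I0, a ≠ u := by
      intro a ha
      simp only [I0, Finset.mem_insert] at ha
      rcases ha with h | h | h | h
      · rw [h]; exact hxu
      · rw [h]; exact hyu
      · rw [h]; exact hz0u
      · exact (hTE a h).1
    have hI0 : ∀ a ∈ I0, ∀ b ∈ I0, ¬ H.Adj a b := by
      have hself : ∀ a, ¬ H.Adj a a := fun a h => H.ne_of_adj h rfl
      have hxI : ∀ b ∈ I0, ¬ H.Adj x b := fun b hb => hxn b (hI0u b hb)
      have hyI : ∀ b ∈ I0, ¬ H.Adj y0 b := by
        intro b hb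
        simp only [I0, Finset.mem_insert] at hb
        rcases hb with h | h | h | h
        · rw [h]; exact fun h' => hxn y0 hyu h'.symm
        · rw [h]; exact hself _
        · rw [h]; exact hyz
        · exact hyn b (hTE b h)
      have hzI : ∀ b ∈ I0, ¬ H.Adj z0 b := by
        intro b hb
        simp only [I0, Finset.mem_insert] at hb
        rcases hb with h | h | h | h
        · rw [h]; exact fun h' => hxn z0 hz0u h'.symm
        · rw [h]; exact fun h' => hyz h'.symm
        · rw [h]; exact hself _
        · exact hzn b (hTE b h)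
      intro a ha b hb hab
      have ha' := ha
      have hb' := hb
      simp only [I0, Finset.mem_insert] at ha' hb'
      rcases ha' with h | h | h | h
      · rw [h] at hab; exact hxI b hb hab
      · rw [h] at hab; exact hyI b hb hab
      · rw [h] at hab; exact hzI b hb hab
      · rcases hb' with h' | h' | h' | h'
        · rw [h'] at hab; exact hxI a ha hab.symm
        · rw [h'] at hab; exact hyI a ha hab.symm
        · rw [h'] at hab; exact hzI a ha hab.symm
        · exact hTi a h b h' hab
    have fadj : ∀ a b, ((xPat H x y0 Z S E).graph (fun c => (xPat H x y0 Z S E).A c ∨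
      (xPat H x y0 Z S E).P c) rel).Adj (f a) (f b) ↔ H.Adj a b := fun a b => f.map_rel_iff
    -- adjacency tables
    have ss : ∀ a b v v', f a = .sel v → f b = .sel v' → a ≠ b → H.Adj a b := by
      intro a b v v' ha hb hab
      rw [← fadj, ha, hb]
      refine ⟨?_, trivial⟩
      rintro rfl
      exact hab (f.injective (ha.trans hb.symm))
    have hs : ∀ a b v, f a = .hub → f b = .sel v → H.Adj a b := by
      intro a b v ha hb
      rw [← fadj, ha, hb]; trivial
    have hl : ∀ a b j d, f a = .hub → f b = .gad j (.inl d) →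
        (H.Adj a b ↔ d.1 = u ∨ d.1 = y0) := by
      intro a b j d ha hb
      rw [← fadj, ha, hb]
      constructor
      · rintro (h | h)
        · exact Or.inl (hx _ h)
        · exact Or.inr h
      · rintro (h | h)
        · exact Or.inl (show H.Adj x d.1 by rw [h]; exact hux)
        · exact Or.inr h
    have hr : ∀ a b j e, f a = .hub → f b = .gad j (.inr e) → H.Adj a b := by
      intro a b j e ha hb
      rw [← fadj, ha, hb]
      exact Or.inl trivial
    have sl : ∀ a b v j d, f a = .sel v → f b = .gad j (.inl d) → H.Adj a b → d.1 = y0 := by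
      intro a b v j d ha hb h
      rw [← fadj, ha, hb] at h
      rcases h with ⟨_, h⟩ | ⟨_, h⟩
      · exact h
      · exact h.elim
    have sr : ∀ a b v j e, f a = .sel v → f b = .gad j (.inr e) → ¬ H.Adj a b := by
      intro a b v j e ha hb h
      rw [← fadj, ha, hb] at h
      rcases h with ⟨_, h⟩ | ⟨_, h⟩ <;> exact h
    have ll : ∀ a b j d j' d', f a = .gad j (.inl d) → f b = .gad j' (.inl d') →
        (H.Adj a b ↔ (j = j' ∧ H.Adj d.1 d'.1) ∨ (j ≠ j' ∧ S d.1 ∧ S d'.1)) := by
      intro a b j d j' d' ha hb
      rw [← fadj, ha, hb]; rfl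
    have rr : ∀ a b j d j' d', f a = .gad j (.inr d) → f b = .gad j' (.inr d') →
        (H.Adj a b ↔ (j = j' ∧ H.Adj d.1 d'.1) ∨ (j ≠ j' ∧ (d.1 = d'.1 ∨ H.Adj d.1 d'.1))) := by
      intro a b j d j' d' ha hb
      rw [← fadj, ha, hb]; rfl
    have lr : ∀ a b j d j' e, f a = .gad j (.inl d) → f b = .gad j' (.inr e) →
        (H.Adj a b ↔ (j = j' ∧ (d.1 = e.1 ∨ (Z d.1 ∧ H.Adj d.1 e.1)))) := by
      intro a b j d j' e ha hb
      rw [← fadj, ha, hb]
      constructor
      · rintro (h | ⟨_, h⟩)
        · exact h
        · exact h.elim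
      · exact fun h => Or.inl h
    have hh : ∀ a b, f a = .hub → f b = .hub → a = b := fun a b ha hb =>
      f.injective (ha.trans hb.symm)
    have diffl : ∀ a b j d j' d', f a = .gad j (.inl d) → f b = .gad j' (.inl d') → a ≠ b →
        j = j' → d.1 ≠ d'.1 := by
      rintro a b j d j' d' ha hb hab rfl hd
      exact hab (f.injective (by rw [ha, hb, Subtype.ext hd]))
    have diffr : ∀ a b j d j' d', f a = .gad j (.inr d) → f b = .gad j' (.inr d') → a ≠ b →
        j = j' → d.1 ≠ d'.1 := by
      rintro a b j d j' d' ha hb hab rfl hd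
      exact hab (f.injective (by rw [ha, hb, Subtype.ext hd]))
    -- copies of u and y0 form a clique, copies of Z form a clique
    have cuy : ∀ a b j d j' d', f a = .gad j (.inl d) → f b = .gad j' (.inl d') → a ≠ b →
        (d.1 = u ∨ d.1 = y0) → (d'.1 = u ∨ d'.1 = y0) → H.Adj a b := by
      intro a b j d j' d' ha hb hab hd hd'
      rw [ll a b j d j' d' ha hb]
      by_cases hjj : j = j'
      · left
        refine ⟨hjj, ?_⟩
        have hne := diffl a b j d j' d' ha hb hab hjj
        rcases hd with h | h
        · rw [h]; exact hu _ (fun e => hne (h.trans e.symm))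
        · rcases hd' with h' | h'
          · rw [h']; exact (hu _ (fun e => hne (e.trans h'.symm))).symm
          · exact absurd (h.trans h'.symm) hne
      · right
        refine ⟨hjj, ?_, ?_⟩
        · rcases hd with h | h
          · exact Or.inl h
          · exact Or.inr (Or.inl h)
        · rcases hd' with h | h
          · exact Or.inl h
          · exact Or.inr (Or.inl h)
    have cz : ∀ a b j d j' d', f a = .gad j (.inl d) → f b = .gad j' (.inl d') → a ≠ b →
        Z d.1 → Z d'.1 → H.Adj a b := by
      intro a b j d j' d' ha hb hab hd hd'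
      rw [ll a b j d j' d' ha hb]
      by_cases hjj : j = j'
      · exact Or.inl ⟨hjj, hZZ _ _ hd hd' (diffl a b j d j' d' ha hb hab hjj)⟩
      · exact Or.inr ⟨hjj, Or.inr (Or.inr hd), Or.inr (Or.inr hd')⟩
    -- auxiliary copies that are not adjacent carry independent labels
    have crr : ∀ a b j d j' d', f a = .gad j (.inr d) → f b = .gad j' (.inr d') → a ≠ b →
        ¬ H.Adj a b → d.1 ≠ d'.1 ∧ ¬ H.Adj d.1 d'.1 := by
      intro a b j d j' d' ha hb hab hn
      rw [rr a b j d j' d' ha hb] at hn
      by_cases hjj : j = j'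
      · exact ⟨diffr a b j d j' d' ha hb hab hjj, fun h => hn (Or.inl ⟨hjj, h⟩)⟩
      · exact ⟨fun h => hn (Or.inr ⟨hjj, Or.inl h⟩), fun h => hn (Or.inr ⟨hjj, Or.inr h⟩)⟩
    rcases hfu : f u with _ | v0 | ⟨j0, d0 | k0⟩
    · -- (a) the hub
      refine count_false (u := u) E T hTmax I0 hI0 hI0u hI0card
        (fun w => match f w with
          | .hub => 0
          | .sel _ => 0
          | .gad _ (.inl _) => 1
          | .gad _ (.inr _) => 2)
        (fun w => match f w with
          | .gad _ (.inr e) => e.1
          | _ => e0) ?_ ?_ ?_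
      · intro w _
        rcases hw : f w with _ | v | ⟨j, d | e⟩ <;> simp
      · intro w w' hwu hwu' hww hn hcc
        rcases hw : f w with _ | v | ⟨j, d | e⟩
        · exact absurd (hh w u hw hfu) hwu
        · rcases hw' : f w' with _ | v' | ⟨j', d' | e'⟩
          · exact absurd (hh w' u hw' hfu) hwu'
          · exact absurd (ss w w' v v' hw hw' hww) hn
          · simp [hw, hw'] at hcc
          · simp [hw, hw'] at hcc
        · rcases hw' : f w' with _ | v' | ⟨j', d' | e'⟩
          · exact absurd (hh w' u hw' hfu) hwu'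
          · simp [hw, hw'] at hcc
          · exact absurd (cuy w w' j d j' d' hw hw' hww ((hl u w j d hfu hw).1 (hu w hwu))
              ((hl u w' j' d' hfu hw').1 (hu w' hwu'))) hn
          · simp [hw, hw'] at hcc
        · rcases hw' : f w' with _ | v' | ⟨j', d' | e'⟩
          · exact absurd (hh w' u hw' hfu) hwu'
          · simp [hw, hw'] at hcc
          · simp [hw, hw'] at hcc
          · exact ⟨rfl, crr w w' j e j' e' hw hw' hww hn⟩
      · intro w _ hc
        rcases hw : f w with _ | v | ⟨j, d | e⟩
        · simp [hw] at hc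
        · simp [hw] at hc
        · simp [hw] at hc
        · exact e.2
    · -- (b) a selector
      refine count_false (u := u) E T hTmax I0 hI0 hI0u hI0card
        (fun w => match f w with
          | .hub => 0
          | .sel _ => 0
          | .gad _ _ => 1)
        (fun _ => e0) ?_ ?_ ?_
      · intro w _
        rcases hw : f w with _ | v | ⟨j, d⟩ <;> simp
      · intro w w' hwu hwu' hww hn hcc
        rcases hw : f w with _ | v | ⟨j, d | e⟩
        · rcases hw' : f w' with _ | v' | ⟨j', d' | e'⟩
          · exact absurd (hh w w' hw hw') hww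
          · exact absurd (hs w w' v' hw hw') hn
          · simp [hw, hw'] at hcc
          · simp [hw, hw'] at hcc
        · rcases hw' : f w' with _ | v' | ⟨j', d' | e'⟩
          · exact absurd (hs w' w v hw' hw).symm hn
          · exact absurd (ss w w' v v' hw hw' hww) hn
          · simp [hw, hw'] at hcc
          · simp [hw, hw'] at hcc
        · rcases hw' : f w' with _ | v' | ⟨j', d' | e'⟩
          · simp [hw, hw'] at hcc
          · simp [hw, hw'] at hcc
          · exact absurd (cuy w w' j d j' d' hw hw' hww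
              (Or.inr (sl u w v0 j d hfu hw (hu w hwu)))
              (Or.inr (sl u w' v0 j' d' hfu hw' (hu w' hwu')))) hn
          · exact absurd (hu w' hwu') (sr u w' v0 j' e' hfu hw')
        · exact absurd (hu w hwu) (sr u w v0 j e hfu hw)
      · intro w _ hc
        rcases hw : f w with _ | v | ⟨j, d⟩ <;> simp [hw] at hc
    · -- gadget vertices
      rcases hcases d0.1 d0.2 with hS | hE
      · rcases hS with hd | hd | hd
        · -- (c) a copy of u
          have hin : ∀ w, w ≠ u → f w = .hub ∨ (∃ j d, f w = .gad j (.inl d) ∧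
              ((S d.1) ∨ (j = j0 ∧ E d.1))) := by
            intro w hwu
            rcases hw : f w with _ | v | ⟨j, d | e⟩
            · exact Or.inl rfl
            · have := sl w u v j0 d0 hw hfu (hu w hwu).symm
              exact absurd (this.symm.trans hd) hyu
            · right
              refine ⟨j, d, rfl, ?_⟩
              rcases (ll u w j0 d0 j d hfu hw).1 (hu w hwu) with ⟨h1, _⟩ | ⟨_, _, h2⟩
              · rcases hcases d.1 d.2 with h | h
                · exact Or.inl h
                · exact Or.inr ⟨h1.symm, h⟩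
              · exact Or.inl h2
            · exfalso
              rcases (lr u w j0 d0 j e hfu hw).1 (hu w hwu) with ⟨_, h | ⟨h, _⟩⟩
              · exact e.2.1 (h.symm.trans hd)
              · rw [hd] at h; exact hZu h
          refine count_false (u := u) E T hTmax I0 hI0 hI0u hI0card
            (fun w => match f w with
              | .hub => 0
              | .sel _ => 0
              | .gad _ (.inl d) => if d.1 = u ∨ d.1 = y0 then 0 else if Z d.1 then 1 else 2
              | .gad _ (.inr _) => 0)
            (fun w => match f w with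
              | .gad _ (.inl d) => d.1
              | _ => e0) ?_ ?_ ?_
          · intro w _
            rcases hw : f w with _ | v | ⟨j, d | e⟩ <;> simp only <;> (try norm_num)
            split_ifs <;> norm_num
          · intro w w' hwu hwu' hww hn hcc
            rcases hin w hwu with hw | ⟨j, d, hw, hd1⟩
            · rcases hin w' hwu' with hw' | ⟨j', d', hw', hd1'⟩
              · exact absurd (hh w w' hw hw') hww
              · simp only [hw, hw'] at hcc
                by_cases h1 : d'.1 = u ∨ d'.1 = y0
                · exact absurd ((hl w w' j' d' hw hw').2 h1) hn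
                · rw [if_neg h1] at hcc; split_ifs at hcc <;> omega
            · rcases hin w' hwu' with hw' | ⟨j', d', hw', hd1'⟩
              · simp only [hw, hw'] at hcc
                by_cases h1 : d.1 = u ∨ d.1 = y0
                · exact absurd ((hl w' w j d hw' hw).2 h1).symm hn
                · rw [if_neg h1] at hcc; split_ifs at hcc <;> omega
              · simp only [hw, hw'] at hcc ⊢
                by_cases h1 : d.1 = u ∨ d.1 = y0
                · by_cases h2 : d'.1 = u ∨ d'.1 = y0
                  · exact absurd (cuy w w' j d j' d' hw hw' hww h1 h2) hn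
                  · rw [if_pos h1, if_neg h2] at hcc; split_ifs at hcc <;> omega
                · by_cases h2 : d'.1 = u ∨ d'.1 = y0
                  · rw [if_neg h1, if_pos h2] at hcc; split_ifs at hcc <;> omega
                  · rw [if_neg h1, if_neg h2] at hcc
                    rw [if_neg h1]
                    by_cases h3 : Z d.1
                    · by_cases h4 : Z d'.1
                      · exact absurd (cz w w' j d j' d' hw hw' hww h3 h4) hn
                      · rw [if_pos h3, if_neg h4] at hcc; omega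
                    · by_cases h4 : Z d'.1
                      · rw [if_neg h3, if_pos h4] at hcc; omega
                      · rw [if_neg h3]
                        have q1 : j = j0 := by
                          rcases hd1 with (h | h | h) | h
                          · exact absurd (Or.inl h) h1
                          · exact absurd (Or.inr h) h1
                          · exact absurd h h3
                          · exact h.1
                        have q2 : j' = j0 := by
                          rcases hd1' with (h | h | h) | h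
                          · exact absurd (Or.inl h) h2
                          · exact absurd (Or.inr h) h2
                          · exact absurd h h4
                          · exact h.1
                        have hjj : j = j' := q1.trans q2.symm
                        refine ⟨rfl, diffl w w' j d j' d' hw hw' hww hjj, fun h => hn ?_⟩
                        exact (ll w w' j d j' d' hw hw').2 (Or.inl ⟨hjj, h⟩)
          · intro w hwu hc
            rcases hin w hwu with hw | ⟨j, d, hw, hd1⟩
            · simp [hw] at hc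
            · simp only [hw] at hc ⊢
              by_cases h1 : d.1 = u ∨ d.1 = y0
              · rw [if_pos h1] at hc; omega
              · rw [if_neg h1] at hc
                by_cases h3 : Z d.1
                · rw [if_pos h3] at hc; omega
                · rcases hd1 with (h | h | h) | h
                  · exact absurd (Or.inl h) h1
                  · exact absurd (Or.inr h) h1
                  · exact absurd h h3
                  · exact h.2
        · -- (d) a copy of y0
          have hin : ∀ w, w ≠ u → f w = .hub ∨ (∃ v, f w = .sel v) ∨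
              (∃ j d, f w = .gad j (.inl d) ∧ S d.1) := by
            intro w hwu
            rcases hw : f w with _ | v | ⟨j, d | e⟩
            · exact Or.inl rfl
            · exact Or.inr (Or.inl ⟨v, rfl⟩)
            · right; right
              refine ⟨j, d, rfl, ?_⟩
              rcases (ll u w j0 d0 j d hfu hw).1 (hu w hwu) with ⟨_, h1⟩ | ⟨_, _, h2⟩
              · rcases hcases d.1 d.2 with h | h
                · exact h
                · rw [hd] at h1; exact absurd h1 (hyn _ h)
              · exact h2
            · exfalso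
              rcases (lr u w j0 d0 j e hfu hw).1 (hu w hwu) with ⟨_, h | ⟨h, _⟩⟩
              · exact e.2.2.2.1 (h.symm.trans hd)
              · rw [hd] at h; exact hZy h
          refine count_false (u := u) E T hTmax I0 hI0 hI0u hI0card
            (fun w => match f w with
              | .hub => 0
              | .sel _ => 0
              | .gad _ (.inl d) => if d.1 = u ∨ d.1 = y0 then 1 else 2
              | .gad _ (.inr _) => 0)
            (fun _ => e0) ?_ ?_ ?_
          · intro w _
            rcases hw : f w with _ | v | ⟨j, d | e⟩ <;> simp only <;> (try norm_num)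
            split_ifs <;> norm_num
          · intro w w' hwu hwu' hww hn hcc
            exfalso
            rcases hin w hwu with hw | ⟨v, hw⟩ | ⟨j, d, hw, hd1⟩
            · rcases hin w' hwu' with hw' | ⟨v', hw'⟩ | ⟨j', d', hw', hd1'⟩
              · exact hww (hh w w' hw hw')
              · exact hn (hs w w' v' hw hw')
              · simp only [hw, hw'] at hcc; split_ifs at hcc <;> omega
            · rcases hin w' hwu' with hw' | ⟨v', hw'⟩ | ⟨j', d', hw', hd1'⟩
              · exact hn (hs w' w v hw' hw).symm
              · exact hn (ss w w' v v' hw hw' hww)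
              · simp only [hw, hw'] at hcc; split_ifs at hcc <;> omega
            · rcases hin w' hwu' with hw' | ⟨v', hw'⟩ | ⟨j', d', hw', hd1'⟩
              · simp only [hw, hw'] at hcc; split_ifs at hcc <;> omega
              · simp only [hw, hw'] at hcc; split_ifs at hcc <;> omega
              · simp only [hw, hw'] at hcc
                by_cases h1 : d.1 = u ∨ d.1 = y0
                · by_cases h2 : d'.1 = u ∨ d'.1 = y0
                  · exact hn (cuy w w' j d j' d' hw hw' hww h1 h2)
                  · rw [if_pos h1, if_neg h2] at hcc; omega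
                · by_cases h2 : d'.1 = u ∨ d'.1 = y0
                  · rw [if_neg h1, if_pos h2] at hcc; omega
                  · have h3 : Z d.1 := by
                      rcases hd1 with h | h | h
                      · exact absurd (Or.inl h) h1
                      · exact absurd (Or.inr h) h1
                      · exact h
                    have h4 : Z d'.1 := by
                      rcases hd1' with h | h | h
                      · exact absurd (Or.inl h) h2
                      · exact absurd (Or.inr h) h2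
                      · exact h
                    exact hn (cz w w' j d j' d' hw hw' hww h3 h4)
          · intro w _ _; exact he0
        · -- (e) a copy of a vertex of Z
          have hin : ∀ w, w ≠ u → (∃ j d, f w = .gad j (.inl d) ∧
              (S d.1 ∨ (j = j0 ∧ E d.1 ∧ H.Adj d0.1 d.1))) ∨
              (∃ e, f w = .gad j0 (.inr e) ∧ H.Adj d0.1 e.1) := by
            intro w hwu
            rcases hw : f w with _ | v | ⟨j, d | e⟩
            · exfalso
              rcases (hl w u j0 d0 hw hfu).1 (hu w hwu).symm with h | h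
              · rw [h] at hd; exact hZu hd
              · rw [h] at hd; exact hZy hd
            · exfalso
              have := sl w u v j0 d0 hw hfu (hu w hwu).symm
              rw [this] at hd; exact hZy hd
            · left
              refine ⟨j, d, rfl, ?_⟩
              rcases (ll u w j0 d0 j d hfu hw).1 (hu w hwu) with ⟨h1, h2⟩ | ⟨_, _, h2⟩
              · rcases hcases d.1 d.2 with h | h
                · exact Or.inl h
                · exact Or.inr ⟨h1.symm, h, h2⟩
              · exact Or.inl h2
            · right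
              rcases (lr u w j0 d0 j e hfu hw).1 (hu w hwu) with ⟨h1, h | ⟨_, h⟩⟩
              · exact absurd (show Z e.1 from h ▸ hd) e.2.2.2.2
              · exact ⟨e, by rw [h1], h⟩
          have hNE' : ∀ e e', E e → E e' → H.Adj d0.1 e → H.Adj d0.1 e' → ¬ H.Adj e e' :=
            fun e e' h1 h2 h3 h4 => hNE d0.1 e e' hd h1.1 h1.2.1 h1.2.2.1 h1.2.2.2 h2.1 h2.2.1
              h2.2.2.1 h2.2.2.2 h3 h4
          refine count_false (u := u) E T hTmax I0 hI0 hI0u hI0card
            (fun w => match f w with
              | .hub => 0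
              | .sel _ => 0
              | .gad _ (.inl d) => if d.1 = u ∨ d.1 = y0 then 0 else if Z d.1 then 1 else 2
              | .gad _ (.inr _) => 2)
            (fun w => match f w with
              | .gad _ (.inl d) => d.1
              | .gad _ (.inr e) => e.1
              | _ => e0) ?_ ?_ ?_
          · intro w _
            rcases hw : f w with _ | v | ⟨j, d | e⟩ <;> simp only <;> (try norm_num)
            split_ifs <;> norm_num
          · intro w w' hwu hwu' hww hn hcc
            -- the E type vertices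
            have hE1 : ∀ (j : J) (d : {d : α // d ≠ x}), ¬ (d.1 = u ∨ d.1 = y0) → ¬ Z d.1 →
                (S d.1 ∨ (j = j0 ∧ E d.1 ∧ H.Adj d0.1 d.1)) →
                (j = j0 ∧ E d.1 ∧ H.Adj d0.1 d.1) := by
              intro j d h1 h2 h3
              rcases h3 with (h | h | h) | h
              · exact absurd (Or.inl h) h1
              · exact absurd (Or.inr h) h1
              · exact absurd h h2
              · exact h
            rcases hin w hwu with ⟨j, d, hw, hd1⟩ | ⟨e, hw, hd1⟩
            · rcases hin w' hwu' with ⟨j', d', hw', hd1'⟩ | ⟨e', hw', hd1'⟩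
              · simp only [hw, hw'] at hcc ⊢
                by_cases h1 : d.1 = u ∨ d.1 = y0
                · by_cases h2 : d'.1 = u ∨ d'.1 = y0
                  · exact absurd (cuy w w' j d j' d' hw hw' hww h1 h2) hn
                  · rw [if_pos h1, if_neg h2] at hcc; split_ifs at hcc <;> omega
                · by_cases h2 : d'.1 = u ∨ d'.1 = y0
                  · rw [if_neg h1, if_pos h2] at hcc; split_ifs at hcc <;> omega
                  · rw [if_neg h1, if_neg h2] at hcc
                    rw [if_neg h1]
                    by_cases h3 : Z d.1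
                    · by_cases h4 : Z d'.1
                      · exact absurd (cz w w' j d j' d' hw hw' hww h3 h4) hn
                      · rw [if_pos h3, if_neg h4] at hcc; omega
                    · by_cases h4 : Z d'.1
                      · rw [if_neg h3, if_pos h4] at hcc; omega
                      · rw [if_neg h3]
                        have q1 := hE1 j d h1 h3 hd1
                        have q2 := hE1 j' d' h2 h4 hd1'
                        have hjj : j = j' := q1.1.trans q2.1.symm
                        exact ⟨rfl, diffl w w' j d j' d' hw hw' hww hjj,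
                          hNE' _ _ q1.2.1 q2.2.1 q1.2.2 q2.2.2⟩
              · simp only [hw, hw'] at hcc ⊢
                by_cases h1 : d.1 = u ∨ d.1 = y0
                · rw [if_pos h1] at hcc; omega
                · rw [if_neg h1] at hcc ⊢
                  by_cases h3 : Z d.1
                  · rw [if_pos h3] at hcc; omega
                  · rw [if_neg h3]
                    have q1 := hE1 j d h1 h3 hd1
                    refine ⟨rfl, fun h => hn ?_, hNE' _ _ q1.2.1 e'.2 q1.2.2 hd1'⟩
                    exact (lr w w' j d j0 e' hw hw').2 ⟨q1.1, Or.inl h⟩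
            · rcases hin w' hwu' with ⟨j', d', hw', hd1'⟩ | ⟨e', hw', hd1'⟩
              · simp only [hw, hw'] at hcc ⊢
                by_cases h1 : d'.1 = u ∨ d'.1 = y0
                · rw [if_pos h1] at hcc; omega
                · rw [if_neg h1] at hcc
                  by_cases h3 : Z d'.1
                  · rw [if_pos h3] at hcc; omega
                  · have q1 := hE1 j' d' h1 h3 hd1'
                    refine ⟨trivial, fun h => hn ?_, hNE' _ _ e.2 q1.2.1 hd1 q1.2.2⟩
                    exact ((lr w' w j' d' j0 e hw' hw).2 ⟨q1.1, Or.inl h.symm⟩).symm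
              · simp only [hw, hw']
                exact ⟨trivial, crr w w' j0 e j0 e' hw hw' hww hn⟩
          · intro w hwu hc
            rcases hin w hwu with ⟨j, d, hw, hd1⟩ | ⟨e, hw, hd1⟩
            · simp only [hw] at hc ⊢
              by_cases h1 : d.1 = u ∨ d.1 = y0
              · rw [if_pos h1] at hc; omega
              · rw [if_neg h1] at hc
                by_cases h3 : Z d.1
                · rw [if_pos h3] at hc; omega
                · rcases hd1 with (h | h | h) | h
                  · exact absurd (Or.inl h) h1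
                  · exact absurd (Or.inr h) h1
                  · exact absurd h h3
                  · exact h.2.1
            · simp only [hw]
              exact e.2
      · -- (f) a copy of a vertex of E
        have hin : ∀ w, w ≠ u → (∃ d, f w = .gad j0 (.inl d) ∧ d.1 ≠ y0) ∨
            f w = .gad j0 (.inr ⟨d0.1, hE⟩) := by
          intro w hwu
          rcases hw : f w with _ | v | ⟨j, d | e⟩
          · exfalso
            rcases (hl w u j0 d0 hw hfu).1 (hu w hwu).symm with h | h
            · exact hE.1 h
            · exact hE.2.2.1 h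
          · exfalso
            exact hE.2.2.1 (sl w u v j0 d0 hw hfu (hu w hwu).symm)
          · left
            rcases (ll u w j0 d0 j d hfu hw).1 (hu w hwu) with ⟨h1, h2⟩ | ⟨_, h1, _⟩
            · refine ⟨d, by rw [h1], fun h => ?_⟩
              rw [h] at h2
              exact hyn _ hE h2.symm
            · exact absurd hE (hSE _ h1)
          · right
            rcases (lr u w j0 d0 j e hfu hw).1 (hu w hwu) with ⟨h1, h | ⟨h, _⟩⟩
            · rw [h1]
              congr 2
              exact Subtype.ext h.symm
            · exact absurd h hE.2.2.2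
        refine count_false (u := u) E T hTmax I0 hI0 hI0u hI0card
          (fun w => match f w with
            | .hub => 0
            | .sel _ => 0
            | .gad _ (.inl d) => if E d.1 then 2 else 0
            | .gad _ (.inr _) => 1)
          (fun w => match f w with
            | .gad _ (.inl d) => d.1
            | _ => e0) ?_ ?_ ?_
        · intro w _
          rcases hw : f w with _ | v | ⟨j, d | e⟩ <;> simp only <;> (try norm_num)
          split_ifs <;> norm_num
        · intro w w' hwu hwu' hww hn hcc
          rcases hin w hwu with ⟨d, hw, hd1⟩ | hw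
          · rcases hin w' hwu' with ⟨d', hw', hd1'⟩ | hw'
            · have hne := diffl w w' j0 d j0 d' hw hw' hww rfl
              simp only [hw, hw'] at hcc ⊢
              by_cases h1 : E d.1
              · by_cases h2 : E d'.1
                · rw [if_pos h1]
                  exact ⟨rfl, hne, fun h => hn ((ll w w' j0 d j0 d' hw hw').2
                    (Or.inl ⟨rfl, h⟩))⟩
                · rw [if_pos h1, if_neg h2] at hcc; omega
              · by_cases h2 : E d'.1
                · rw [if_neg h1, if_pos h2] at hcc; omega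
                · exfalso
                  apply hn
                  refine (ll w w' j0 d j0 d' hw hw').2 (Or.inl ⟨rfl, ?_⟩)
                  rcases (hcases d.1 d.2).resolve_right h1 with h | h | h
                  · rw [h]; exact hu _ (fun e => hne (h.trans e.symm))
                  · exact absurd h hd1
                  · rcases (hcases d'.1 d'.2).resolve_right h2 with h' | h' | h'
                    · rw [h']; exact (hu _ (fun e => hne (e.trans h'.symm))).symm
                    · exact absurd h' hd1'
                    · exact hZZ _ _ h h' hne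
            · simp only [hw, hw'] at hcc; split_ifs at hcc <;> omega
          · rcases hin w' hwu' with ⟨d', hw', hd1'⟩ | hw'
            · simp only [hw, hw'] at hcc; split_ifs at hcc <;> omega
            · exact absurd (f.injective (hw.trans hw'.symm)) hww
        · intro w hwu hc
          rcases hin w hwu with ⟨d, hw, hd1⟩ | hw
          · simp only [hw] at hc ⊢
            by_contra h
            rw [if_neg h] at hc; omega
          · simp [hw] at hc
    · -- (g) an auxiliary vertex
      have hin : ∀ w, w ≠ u → f w = .hub ∨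
          (∃ d, f w = .gad j0 (.inl d) ∧ (d.1 = k0.1 ∨ (Z d.1 ∧ H.Adj d.1 k0.1))) ∨
          (∃ j e, f w = .gad j (.inr e)) := by
        intro w hwu
        rcases hw : f w with _ | v | ⟨j, d | e⟩
        · exact Or.inl rfl
        · exact absurd (hu w hwu).symm (sr w u v j0 k0 hw hfu)
        · right; left
          have := (lr w u j d j0 k0 hw hfu).1 (hu w hwu).symm
          exact ⟨d, by rw [this.1], this.2⟩
        · exact Or.inr (Or.inr ⟨j, e, rfl⟩)
      refine count_false (u := u) E T hTmax I0 hI0 hI0u hI0card
        (fun w => match f w with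
          | .hub => 0
          | .sel _ => 0
          | .gad _ (.inl _) => 1
          | .gad _ (.inr _) => 2)
        (fun w => match f w with
          | .gad _ (.inr e) => e.1
          | _ => e0) ?_ ?_ ?_
      · intro w _
        rcases hw : f w with _ | v | ⟨j, d | e⟩ <;> simp
      · intro w w' hwu hwu' hww hn hcc
        rcases hin w hwu with hw | ⟨d, hw, hd1⟩ | ⟨j, e, hw⟩
        · rcases hin w' hwu' with hw' | ⟨d', hw', hd1'⟩ | ⟨j', e', hw'⟩
          · exact absurd (hh w w' hw hw') hww
          · simp [hw, hw'] at hcc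
          · simp [hw, hw'] at hcc
        · rcases hin w' hwu' with hw' | ⟨d', hw', hd1'⟩ | ⟨j', e', hw'⟩
          · simp [hw, hw'] at hcc
          · exfalso
            apply hn
            have hne := diffl w w' j0 d j0 d' hw hw' hww rfl
            refine (ll w w' j0 d j0 d' hw hw').2 (Or.inl ⟨rfl, ?_⟩)
            rcases hd1 with h | ⟨h, h1⟩
            · rcases hd1' with h' | ⟨h', h1'⟩
              · exact absurd (h.trans h'.symm) hne
              · rw [h]; exact h1'.symm
            · rcases hd1' with h' | ⟨h', h1'⟩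
              · rw [h']; exact h1
              · exact hZZ _ _ h h' hne
          · simp [hw, hw'] at hcc
        · rcases hin w' hwu' with hw' | ⟨d', hw', hd1'⟩ | ⟨j', e', hw'⟩
          · simp [hw, hw'] at hcc
          · simp [hw, hw'] at hcc
          · simp only [hw, hw']
            exact ⟨trivial, crr w w' j e j' e' hw hw' hww hn⟩
      · intro w hwu hc
        rcases hin w hwu with hw | ⟨d, hw, hd1⟩ | ⟨j, e, hw⟩
        · simp [hw] at hc
        · simp [hw] at hc
        · simp only [hw]
          exact e.2

end HFC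
end

section

open Classical
open Pool.Agent.OWF

namespace HFC

/-- codes of vertices -/
abbrev Cd : Type := ℕ × ℕ × ℕ × ℕ

def eC : Cd → List Bool := eP eN (eP eN (eP eN eN))

section tables
variable {α : Type} {ea : α → List Bool}

/-- a predicate on `C` read through an enumeration of `C` -/
noncomputable def tab1 {C : Type} {m : ℕ} (e : C ≃ Fin m) (S : C → Prop) (c : ℕ) : Bool :=
  if h : c < m then decide (S (e.symm ⟨c, h⟩)) else false

noncomputable def tab2 {C : Type} {m : ℕ} (e : C ≃ Fin m) (S : C → C → Prop) (c c' : ℕ) : Bool :=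
  if h : c < m then (if h' : c' < m then decide (S (e.symm ⟨c, h⟩) (e.symm ⟨c', h'⟩)) else false)
  else false

theorem tab1_val {C : Type} {m : ℕ} (e : C ≃ Fin m) (S : C → Prop) (c : C) :
    tab1 e S (e c).1 = decide (S c) := by
  unfold tab1
  rw [dif_pos (e c).2]
  simp

theorem tab2_val {C : Type} {m : ℕ} (e : C ≃ Fin m) (S : C → C → Prop) (c c' : C) :
    tab2 e S (e c).1 (e c').1 = decide (S c c') := by
  unfold tab2
  rw [dif_pos (e c).2, dif_pos (e c').2]
  simp

theorem pf_tab1 {C : Type} {m : ℕ} (e : C ≃ Fin m) (S : C → Prop) {x : α → ℕ}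
    (hx : PF ea eN x) : PF ea eB (fun a => tab1 e S (x a)) := by
  refine PF.finTab m (tab1 e S) ?_ hx
  intro c hc
  unfold tab1
  rw [dif_neg (by omega)]

theorem pf_tab2 {C : Type} {m : ℕ} (e : C ≃ Fin m) (S : C → C → Prop) {x y : α → ℕ}
    (hx : PF ea eN x) (hy : PF ea eN y) : PF ea eB (fun a => tab2 e S (x a) (y a)) := by
  refine PF.finTab2 m (tab2 e S) ?_ m ?_ hx hy
  · intro c c' hc
    unfold tab2
    rw [dif_neg (by omega)]
  · intro c c' hc
    unfold tab2
    by_cases h : c < m
    · rw [dif_pos h, dif_neg (by omega)]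
    · rw [dif_neg h]

end tables

section plain
variable {C : Type} {m : ℕ}

/-- adjacency of codes of the plain scheme -/
noncomputable def adjP (e : C ≃ Fin m) (p : Pat C) (d : Dat) (x y : Cd) : Bool :=
  ((decide (x.1 = 0) && (decide (y.1 = 1) || decide (y.1 = 2))) ||
   ((decide (y.1 = 0) && (decide (x.1 = 1) || decide (x.1 = 2))) ||
   ((decide (x.1 = 0) && (decide (y.1 = 3) && tab1 e p.A y.2.2.2)) ||
   ((decide (y.1 = 0) && (decide (x.1 = 3) && tab1 e p.A x.2.2.2)) ||
   (((decide (x.1 = 1) || decide (x.1 = 2)) && ((decide (y.1 = 1) || decide (y.1 = 2)) &&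
      (decide p.T && !(decide (x.1 = y.1) && decide (x.2.1 = y.2.1))))) ||
   ((decide (x.1 = 1) && (decide (y.1 = 3) &&
      (((decide (x.2.1 = y.2.1) || bitAt d.1 d.2.2 x.2.1 y.2.1) && tab1 e p.P y.2.2.2) ||
       (!(decide (x.2.1 = y.2.1) || bitAt d.1 d.2.2 x.2.1 y.2.1) && tab1 e p.Q y.2.2.2)))) ||
   ((decide (y.1 = 1) && (decide (x.1 = 3) &&
      (((decide (y.2.1 = x.2.1) || bitAt d.1 d.2.2 y.2.1 x.2.1) && tab1 e p.P x.2.2.2) ||
       (!(decide (y.2.1 = x.2.1) || bitAt d.1 d.2.2 y.2.1 x.2.1) && tab1 e p.Q x.2.2.2)))) ||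
   ((decide (x.1 = 2) && (decide (y.1 = 3) && tab1 e p.Q y.2.2.2)) ||
   ((decide (y.1 = 2) && (decide (x.1 = 3) && tab1 e p.Q x.2.2.2)) ||
   (decide (x.1 = 3) && (decide (y.1 = 3) &&
      (((decide (x.2.1 = y.2.1) && decide (x.2.2.1 = y.2.2.1)) && tab2 e p.I x.2.2.2 y.2.2.2) ||
       (!(decide (x.2.1 = y.2.1) && decide (x.2.2.1 = y.2.2.1)) &&
          tab2 e p.M x.2.2.2 y.2.2.2)))))))))))))

theorem pf_adjP (e : C ≃ Fin m) (p : Pat C) :
    PF (eP eD (eP eC eC)) eB (fun q => adjP e p q.1 q.2.1 q.2.2) := by
  have hd : PF (eP eD (eP eC eC)) eD (fun q => q.1) := PF.fst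
  have hx : PF (eP eD (eP eC eC)) eC (fun q => q.2.1) := PF.fst.comp PF.snd
  have hy : PF (eP eD (eP eC eC)) eC (fun q => q.2.2) := PF.snd.comp PF.snd
  have x1 : PF (eP eD (eP eC eC)) eN (fun q => q.2.1.1) := PF.fst' hx
  have x2 : PF (eP eD (eP eC eC)) eN (fun q => q.2.1.2.1) := PF.fst' (PF.snd' hx)
  have x3 : PF (eP eD (eP eC eC)) eN (fun q => q.2.1.2.2.1) := PF.fst' (PF.snd' (PF.snd' hx))
  have x4 : PF (eP eD (eP eC eC)) eN (fun q => q.2.1.2.2.2) := PF.snd' (PF.snd' (PF.snd' hx))
  have y1 : PF (eP eD (eP eC eC)) eN (fun q => q.2.2.1) := PF.fst' hy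
  have y2 : PF (eP eD (eP eC eC)) eN (fun q => q.2.2.2.1) := PF.fst' (PF.snd' hy)
  have y3 : PF (eP eD (eP eC eC)) eN (fun q => q.2.2.2.2.1) := PF.fst' (PF.snd' (PF.snd' hy))
  have y4 : PF (eP eD (eP eC eC)) eN (fun q => q.2.2.2.2.2) := PF.snd' (PF.snd' (PF.snd' hy))
  have cx : ∀ t : ℕ, PF (eP eD (eP eC eC)) eB (fun q => decide (q.2.1.1 = t)) :=
    fun t => PF.eqN x1 (PF.const t)
  have cy : ∀ t : ℕ, PF (eP eD (eP eC eC)) eB (fun q => decide (q.2.2.1 = t)) :=
    fun t => PF.eqN y1 (PF.const t)
  have dxy := (PF.eqN x2 y2).or (pf_bitAt hd x2 y2)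
  have dyx := (PF.eqN y2 x2).or (pf_bitAt hd y2 x2)
  have same := (PF.eqN x2 y2).and (PF.eqN x3 y3)
  refine ((cx 0).and ((cy 1).or (cy 2))).or
    (((cy 0).and ((cx 1).or (cx 2))).or
    (((cx 0).and ((cy 3).and (pf_tab1 e p.A y4))).or
    (((cy 0).and ((cx 3).and (pf_tab1 e p.A x4))).or
    ((((cx 1).or (cx 2)).and (((cy 1).or (cy 2)).and
      ((PF.const (decide p.T)).and (((PF.eqN x1 y1).and (PF.eqN x2 y2)).not)))).or
    (((cx 1).and ((cy 3).and ((dxy.and (pf_tab1 e p.P y4)).or (dxy.not.and (pf_tab1 e p.Q y4))))).or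
    (((cy 1).and ((cx 3).and ((dyx.and (pf_tab1 e p.P x4)).or (dyx.not.and (pf_tab1 e p.Q x4))))).or
    (((cx 2).and ((cy 3).and (pf_tab1 e p.Q y4))).or
    (((cy 2).and ((cx 3).and (pf_tab1 e p.Q x4))).or
    ((cx 3).and ((cy 3).and ((same.and (pf_tab2 e p.I x4 y4)).or
      (same.not.and (pf_tab2 e p.M x4 y4)))))))))))))

/-- list of vertex codes -/
def listP (m s : ℕ) (d : Dat) : List Cd :=
  (0, 0, 0, 0) :: ((List.range d.1).map (fun i => (1, i, 0, 0)) ++
    ((List.range (2 * d.2.1 + s)).map (fun r => (2, r, 0, 0)) ++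
      (List.range d.1).flatMap (fun i => (List.range (2 * d.2.1 + s)).flatMap (fun r =>
        (List.range m).map (fun c => (3, i, r, c))))))

theorem pf_listP (m s : ℕ) : PF eD (eL eC) (listP m s) := by
  have hn : PF eD eN (fun d => d.1) := PF.fst
  have hk : PF eD eN (fun d => d.2.1) := PF.fst' PF.snd
  have hR : PF eD eN (fun d => 2 * d.2.1 + s) := ((PF.const 2).mul hk).add (PF.const s)
  have h1 : PF eD (eL eC) (fun d => (List.range d.1).map (fun i => (1, i, 0, 0))) :=
    PF.map (ee := eS) (env := fun _ => []) (f := fun _ i => ((1, i, 0, 0) : Cd))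
      ((PF.const 1).pair (PF.snd.pair ((PF.const 0).pair (PF.const 0)))) (PF.const [])
      (PF.range hn)
  have h2 : PF eD (eL eC) (fun d => (List.range (2 * d.2.1 + s)).map (fun r => (2, r, 0, 0))) :=
    PF.map (ee := eS) (env := fun _ => []) (f := fun _ r => ((2, r, 0, 0) : Cd))
      ((PF.const 2).pair (PF.snd.pair ((PF.const 0).pair (PF.const 0)))) (PF.const [])
      (PF.range hR)
  have h3 : PF (eP (eP eN eN) eN) (eL eC) (fun q => (List.range m).map (fun c => (3, q.1.2, q.2, c))) :=
    PF.map (ee := eP eN eN) (env := fun q : (ℕ × ℕ) × ℕ => (q.1.2, q.2))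
      (f := fun q c => ((3, q.1, q.2, c) : Cd))
      ((PF.const 3).pair ((PF.fst.comp PF.fst).pair ((PF.snd.comp PF.fst).pair PF.snd)))
      ((PF.snd.comp PF.fst).pair PF.snd) (PF.const (List.range m))
  have h4 : PF (eP eN eN) (eL eC) (fun q => (List.range q.1).flatMap (fun r =>
      (List.range m).map (fun c => (3, q.2, r, c)))) :=
    PF.flatMap (ee := eP eN eN) (env := fun q : ℕ × ℕ => q)
      (f := fun q r => (List.range m).map (fun c => ((3, q.2, r, c) : Cd))) h3 PF.id
      (PF.range PF.fst)
  have h5 : PF eD (eL eC) (fun d => (List.range d.1).flatMap (fun i =>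
      (List.range (2 * d.2.1 + s)).flatMap (fun r =>
        (List.range m).map (fun c => (3, i, r, c))))) :=
    PF.flatMap (ee := eN) (env := fun d : Dat => 2 * d.2.1 + s)
      (f := fun R i => (List.range R).flatMap (fun r =>
        (List.range m).map (fun c => ((3, i, r, c) : Cd)))) h4 hR (PF.range hn)
  exact PF.consL (PF.const _) (PF.appendL h1 (PF.appendL h2 h5))

/-- list of vertices -/
noncomputable def vertsP (e : C ≃ Fin m) (n R : ℕ) : List (SV (Fin n ⊕ Fin R) (Fin n × Fin R) C) :=
  .hub :: ((List.finRange n).map (fun i => .sel (.inl i)) ++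
    ((List.finRange R).map (fun r => .sel (.inr r)) ++
      (List.finRange n).flatMap (fun i => (List.finRange R).flatMap (fun r =>
        (List.finRange m).map (fun c => .gad (i, r) (e.symm c))))))

theorem vertsP_mem (e : C ≃ Fin m) (n R : ℕ) (v) : v ∈ vertsP e n R := by
  unfold vertsP
  rcases v with _ | (i | r) | ⟨⟨i, r⟩, c⟩
  · exact List.mem_cons_self
  · apply List.mem_cons_of_mem
    apply List.mem_append_left
    exact List.mem_map.2 ⟨i, List.mem_finRange i, rfl⟩
  · apply List.mem_cons_of_mem
    apply List.mem_append_right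
    apply List.mem_append_left
    exact List.mem_map.2 ⟨r, List.mem_finRange r, rfl⟩
  · apply List.mem_cons_of_mem
    apply List.mem_append_right
    apply List.mem_append_right
    refine List.mem_flatMap.2 ⟨i, List.mem_finRange i, List.mem_flatMap.2 ⟨r, List.mem_finRange r,
      List.mem_map.2 ⟨e c, List.mem_finRange _, by simp⟩⟩⟩

theorem vertsP_nodup (e : C ≃ Fin m) (n R : ℕ) : (vertsP e n R).Nodup := by
  unfold vertsP
  rw [List.nodup_cons]
  constructor
  · simp
  rw [List.nodup_append]
  refine ⟨?_, ?_, ?_⟩
  · refine List.Nodup.map ?_ (List.nodup_finRange n)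
    intro a b h
    injection h with h
    exact Sum.inl_injective h
  · rw [List.nodup_append]
    refine ⟨?_, ?_, ?_⟩
    · refine List.Nodup.map ?_ (List.nodup_finRange R)
      intro a b h
      injection h with h
      exact Sum.inr_injective h
    · rw [List.nodup_flatMap]
      constructor
      · intro i _
        rw [List.nodup_flatMap]
        constructor
        · intro r _
          refine List.Nodup.map ?_ (List.nodup_finRange m)
          intro a b h
          injection h with _ h
          exact e.symm.injective h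
        · refine List.Nodup.pairwise_of_forall_ne (List.nodup_finRange R) ?_
          intro r _ r' _ hne
          rw [Function.onFun, List.disjoint_left]
          intro v h1 h2
          obtain ⟨c, _, rfl⟩ := List.mem_map.1 h1
          obtain ⟨c', _, h3⟩ := List.mem_map.1 h2
          injection h3 with h3 _
          exact hne (Prod.ext_iff.1 h3).2.symm
      · refine List.Nodup.pairwise_of_forall_ne (List.nodup_finRange n) ?_
        intro i _ i' _ hne
        rw [Function.onFun, List.disjoint_left]
        intro v h1 h2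
        obtain ⟨r, _, h1⟩ := List.mem_flatMap.1 h1
        obtain ⟨r', _, h2⟩ := List.mem_flatMap.1 h2
        obtain ⟨c, _, rfl⟩ := List.mem_map.1 h1
        obtain ⟨c', _, h3⟩ := List.mem_map.1 h2
        injection h3 with h3 _
        exact hne (Prod.ext_iff.1 h3).1.symm
    · intro a ha b hb hab
      subst hab
      obtain ⟨r, _, rfl⟩ := List.mem_map.1 ha
      obtain ⟨i, _, hb⟩ := List.mem_flatMap.1 hb
      obtain ⟨r', _, hb⟩ := List.mem_flatMap.1 hb
      obtain ⟨c, _, hb⟩ := List.mem_map.1 hb
      cases hb
  · intro a ha b hb hab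
    subst hab
    obtain ⟨r, _, rfl⟩ := List.mem_map.1 ha
    rcases List.mem_append.1 hb with hb | hb
    · obtain ⟨r', _, hb⟩ := List.mem_map.1 hb
      injection hb with hb
      cases hb
    · obtain ⟨i, _, hb⟩ := List.mem_flatMap.1 hb
      obtain ⟨r', _, hb⟩ := List.mem_flatMap.1 hb
      obtain ⟨c, _, hb⟩ := List.mem_map.1 hb
      cases hb

/-- code of a vertex -/
def codeP (e : C ≃ Fin m) (n R : ℕ) : SV (Fin n ⊕ Fin R) (Fin n × Fin R) C → Cd
  | .hub => (0, 0, 0, 0)
  | .sel (.inl i) => (1, i.1, 0, 0)
  | .sel (.inr r) => (2, r.1, 0, 0)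
  | .gad j c => (3, j.1.1, j.2.1, (e c).1)

theorem vertsP_code (e : C ≃ Fin m) (s : ℕ) (n : ℕ) (Γ : SimpleGraph (Fin n)) (k : ℕ) :
    (vertsP e n (2 * k + s)).map (codeP e n (2 * k + s)) = listP m s (dat Γ k) := by
  unfold vertsP listP dat
  have hr : ∀ (N : ℕ) (β : Type) (f : ℕ → β), (List.finRange N).map (fun i => f i.1) =
      (List.range N).map f := by
    intro N β f
    have : (List.range N) = (List.finRange N).map Fin.val := by simp
    rw [this, List.map_map]
    rfl
  have hf : ∀ (N : ℕ) (β : Type) (f : ℕ → List β), (List.finRange N).flatMap (fun i => f i.1) =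
      (List.range N).flatMap f := by
    intro N β f
    have : (List.range N) = (List.finRange N).map Fin.val := by simp
    rw [this, List.flatMap_map]
  simp only [List.map_cons, List.map_append, List.map_map, List.map_flatMap, codeP,
    Function.comp_def, Equiv.apply_symm_apply]
  rw [hr n _ (fun i => ((1, i, 0, 0) : Cd)), hr (2 * k + s) _ (fun r => ((2, r, 0, 0) : Cd))]
  congr 3
  rw [← hf n]
  congr 1
  funext i
  rw [← hf (2 * k + s)]
  congr 1
  funext r
  rw [← hr m]

theorem adjP_correct (e : C ≃ Fin m) (p : Pat C) (n : ℕ) (Γ : SimpleGraph (Fin n)) (k R : ℕ)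
    (v v' : SV (Fin n ⊕ Fin R) (Fin n × Fin R) C) :
    adjP e p (dat Γ k) (codeP e n R v) (codeP e n R v') = decide ((p.inst Γ R).Adj v v') := by
  rw [Bool.eq_iff_iff, decide_eq_true_eq]
  rcases v with _ | (i | r) | ⟨⟨i, r⟩, c⟩ <;> rcases v' with _ | (i' | r') | ⟨⟨i', r'⟩, c'⟩ <;>
    simp only [adjP, Bool.or_eq_true, Bool.and_eq_true, decide_eq_true_eq, Bool.not_eq_true',
      Bool.eq_false_iff, ne_eq] <;>
    simp [codeP, Pat.inst, dat, bitAt_mat, tab1_val, tab2_val, domRel, Fin.ext_iff] <;>
    tauto

end plain

theorem plain_poly {C : Type} [Fintype C] (p : Pat C) (s : ℕ) :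
    ∃ r : List Bool → List Bool, PolyTM r ∧
      ∀ (n : ℕ) (Γ : SimpleGraph (Fin n)) (k : ℕ), ∃ (m : ℕ) (G' : SimpleGraph (Fin m)),
        r (enc Γ k) = enc G' k ∧ Nonempty (G' ≃g p.inst Γ (2 * k + s)) := by
  let e := Fintype.equivFin C
  exact poly_scheme (pf_listP (Fintype.card C) s) (pf_adjP e p)
    (fun n k => SV (Fin n ⊕ Fin (2 * k + s)) (Fin n × Fin (2 * k + s)) C)
    (fun n Γ k => p.inst Γ (2 * k + s))
    (fun n k => vertsP e n (2 * k + s)) (fun n k => vertsP_nodup e n _)
    (fun n k v => vertsP_mem e n _ v) (fun n k => codeP e n (2 * k + s))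
    (fun n Γ k => vertsP_code e s n Γ k)
    (fun n Γ k v v' => adjP_correct e p n Γ k _ v v')

end HFC
end

section

open Classical
open Pool.Agent.OWF

namespace HFC

/-- codes of vertices of the coloured scheme -/
abbrev Ce : Type := ℕ × ℕ × ℕ × ℕ × ℕ

def eE : Ce → List Bool := eP eN (eP eN (eP eN (eP eN eN)))

section f2
variable {C : Type} {m : ℕ}

/-- adjacency of codes of the coloured scheme: `tA` classes adjacent to the hub, `tM` the class of
selectors, `tQ` the cross classes, `tI` adjacency in a gadget -/
noncomputable def adjF (e : C ≃ Fin m) (tA tM tQ : C → Prop) (tI : C → C → Prop) (d : Dat)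
    (x y : Ce) : Bool :=
  ((decide (x.1 = 0) && decide (y.1 = 1)) ||
  ((decide (y.1 = 0) && decide (x.1 = 1)) ||
  ((decide (x.1 = 0) && ((decide (y.1 = 2) || decide (y.1 = 3)) && tab1 e tA y.2.2.2.2)) ||
  ((decide (y.1 = 0) && ((decide (x.1 = 2) || decide (x.1 = 3)) && tab1 e tA x.2.2.2.2)) ||
  ((decide (x.1 = 1) && (decide (y.1 = 1) &&
      !(decide (x.2.1 = y.2.1) && decide (x.2.2.1 = y.2.2.1)))) ||
  ((decide (x.1 = 1) && (decide (y.1 = 2) && (tab1 e tM y.2.2.2.2 &&
      (decide (x.2.2.1 = y.2.1) || bitAt d.1 d.2.2 x.2.2.1 y.2.1)))) ||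
  ((decide (y.1 = 1) && (decide (x.1 = 2) && (tab1 e tM x.2.2.2.2 &&
      (decide (y.2.2.1 = x.2.1) || bitAt d.1 d.2.2 y.2.2.1 x.2.1)))) ||
  ((decide (x.1 = 1) && (decide (y.1 = 3) && (tab1 e tM y.2.2.2.2 && decide (x.2.1 = y.2.1)))) ||
  ((decide (y.1 = 1) && (decide (x.1 = 3) && (tab1 e tM x.2.2.2.2 && decide (y.2.1 = x.2.1)))) ||
  ((decide (x.1 = 2) && (decide (y.1 = 2) &&
      ((decide (x.2.1 = y.2.1) && tab2 e tI x.2.2.2.2 y.2.2.2.2) ||
       (!(decide (x.2.1 = y.2.1)) && (tab1 e tQ x.2.2.2.2 && tab1 e tQ y.2.2.2.2))))) ||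
  (decide (x.1 = 3) && (decide (y.1 = 3) &&
      (((decide (x.2.1 = y.2.1) && (decide (x.2.2.1 = y.2.2.1) &&
          decide (x.2.2.2.1 = y.2.2.2.1))) && tab2 e tI x.2.2.2.2 y.2.2.2.2) ||
       (!(decide (x.2.1 = y.2.1) && (decide (x.2.2.1 = y.2.2.1) &&
          decide (x.2.2.2.1 = y.2.2.2.1))) &&
         (decide (x.2.1 = y.2.1) && (tab1 e tM x.2.2.2.2 && tab1 e tM y.2.2.2.2))))))))))))))))

theorem pf_adjF (e : C ≃ Fin m) (tA tM tQ : C → Prop) (tI : C → C → Prop) :
    PF (eP eD (eP eE eE)) eB (fun q => adjF e tA tM tQ tI q.1 q.2.1 q.2.2) := by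
  have hd : PF (eP eD (eP eE eE)) eD (fun q => q.1) := PF.fst
  have hx : PF (eP eD (eP eE eE)) eE (fun q => q.2.1) := PF.fst.comp PF.snd
  have hy : PF (eP eD (eP eE eE)) eE (fun q => q.2.2) := PF.snd.comp PF.snd
  have x1 : PF (eP eD (eP eE eE)) eN (fun q => q.2.1.1) := PF.fst' hx
  have x2 : PF (eP eD (eP eE eE)) eN (fun q => q.2.1.2.1) := PF.fst' (PF.snd' hx)
  have x3 : PF (eP eD (eP eE eE)) eN (fun q => q.2.1.2.2.1) := PF.fst' (PF.snd' (PF.snd' hx))
  have x4 : PF (eP eD (eP eE eE)) eN (fun q => q.2.1.2.2.2.1) :=
    PF.fst' (PF.snd' (PF.snd' (PF.snd' hx)))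
  have x5 : PF (eP eD (eP eE eE)) eN (fun q => q.2.1.2.2.2.2) :=
    PF.snd' (PF.snd' (PF.snd' (PF.snd' hx)))
  have y1 : PF (eP eD (eP eE eE)) eN (fun q => q.2.2.1) := PF.fst' hy
  have y2 : PF (eP eD (eP eE eE)) eN (fun q => q.2.2.2.1) := PF.fst' (PF.snd' hy)
  have y3 : PF (eP eD (eP eE eE)) eN (fun q => q.2.2.2.2.1) := PF.fst' (PF.snd' (PF.snd' hy))
  have y4 : PF (eP eD (eP eE eE)) eN (fun q => q.2.2.2.2.2.1) :=
    PF.fst' (PF.snd' (PF.snd' (PF.snd' hy)))
  have y5 : PF (eP eD (eP eE eE)) eN (fun q => q.2.2.2.2.2.2) :=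
    PF.snd' (PF.snd' (PF.snd' (PF.snd' hy)))
  have cx : ∀ t : ℕ, PF (eP eD (eP eE eE)) eB (fun q => decide (q.2.1.1 = t)) :=
    fun t => PF.eqN x1 (PF.const t)
  have cy : ∀ t : ℕ, PF (eP eD (eP eE eE)) eB (fun q => decide (q.2.2.1 = t)) :=
    fun t => PF.eqN y1 (PF.const t)
  have e22 := PF.eqN x2 y2
  have e33 := PF.eqN x3 y3
  have e44 := PF.eqN x4 y4
  have same3 := e22.and (e33.and e44)
  refine ((cx 0).and (cy 1)).or
    (((cy 0).and (cx 1)).or
    (((cx 0).and (((cy 2).or (cy 3)).and (pf_tab1 e tA y5))).or
    (((cy 0).and (((cx 2).or (cx 3)).and (pf_tab1 e tA x5))).or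
    (((cx 1).and ((cy 1).and ((e22.and e33).not))).or
    (((cx 1).and ((cy 2).and ((pf_tab1 e tM y5).and ((PF.eqN x3 y2).or (pf_bitAt hd x3 y2))))).or
    (((cy 1).and ((cx 2).and ((pf_tab1 e tM x5).and ((PF.eqN y3 x2).or (pf_bitAt hd y3 x2))))).or
    (((cx 1).and ((cy 3).and ((pf_tab1 e tM y5).and e22))).or
    (((cy 1).and ((cx 3).and ((pf_tab1 e tM x5).and (PF.eqN y2 x2)))).or
    (((cx 2).and ((cy 2).and ((e22.and (pf_tab2 e tI x5 y5)).or
      (e22.not.and ((pf_tab1 e tQ x5).and (pf_tab1 e tQ y5)))))).or
    ((cx 3).and ((cy 3).and ((same3.and (pf_tab2 e tI x5 y5)).or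
      (same3.not.and (e22.and ((pf_tab1 e tM x5).and (pf_tab1 e tM y5))))))))))))))))

/-- list of vertex codes of the coloured scheme -/
def listF (m s : ℕ) (d : Dat) : List Ce :=
  (0, 0, 0, 0, 0) :: ((List.range d.2.1).flatMap (fun l => (List.range d.1).map (fun i =>
      (1, l, i, 0, 0))) ++
    ((List.range d.1).flatMap (fun j => (List.range m).map (fun c => (2, j, 0, 0, c))) ++
      (List.range d.2.1).flatMap (fun l => (List.range (2 * d.2.1 + s)).flatMap (fun r =>
        (List.range d.1).flatMap (fun w => (List.range m).map (fun c => (3, l, r, w, c)))))))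

theorem pf_listF (m s : ℕ) : PF eD (eL eE) (listF m s) := by
  have hn : PF eD eN (fun d => d.1) := PF.fst
  have hk : PF eD eN (fun d => d.2.1) := PF.fst' PF.snd
  have hR : PF eD eN (fun d => 2 * d.2.1 + s) := ((PF.const 2).mul hk).add (PF.const s)
  have h1 : PF eD (eL eE) (fun d => (List.range d.2.1).flatMap (fun l =>
      (List.range d.1).map (fun i => (1, l, i, 0, 0)))) := by
    have h : PF (eP eN eN) (eL eE) (fun q => (List.range q.1).map (fun i => (1, q.2, i, 0, 0))) :=
      PF.map (ee := eN) (env := fun q : ℕ × ℕ => q.2)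
        (f := fun l i => ((1, l, i, 0, 0) : Ce))
        ((PF.const 1).pair (PF.fst.pair (PF.snd.pair ((PF.const 0).pair (PF.const 0)))))
        PF.snd (PF.range PF.fst)
    exact PF.flatMap (ee := eN) (env := fun d : Dat => d.1)
      (f := fun n l => (List.range n).map (fun i => ((1, l, i, 0, 0) : Ce))) h hn (PF.range hk)
  have h2 : PF eD (eL eE) (fun d => (List.range d.1).flatMap (fun j =>
      (List.range m).map (fun c => (2, j, 0, 0, c)))) := by
    have h : PF (eP eS eN) (eL eE) (fun q => (List.range m).map (fun c => (2, q.2, 0, 0, c))) :=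
      PF.map (ee := eN) (env := fun q : List Bool × ℕ => q.2)
        (f := fun j c => ((2, j, 0, 0, c) : Ce))
        ((PF.const 2).pair (PF.fst.pair ((PF.const 0).pair ((PF.const 0).pair PF.snd))))
        PF.snd (PF.const (List.range m))
    exact PF.flatMap (ee := eS) (env := fun _ : Dat => [])
      (f := fun _ j => (List.range m).map (fun c => ((2, j, 0, 0, c) : Ce))) h (PF.const [])
      (PF.range hn)
  have h3 : PF eD (eL eE) (fun d => (List.range d.2.1).flatMap (fun l =>
      (List.range (2 * d.2.1 + s)).flatMap (fun r => (List.range d.1).flatMap (fun w =>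
        (List.range m).map (fun c => (3, l, r, w, c)))))) := by
    have g1 : PF (eP (eP eN eN) eN) (eL eE)
        (fun q => (List.range m).map (fun c => (3, q.1.1, q.1.2, q.2, c))) :=
      PF.map (ee := eP (eP eN eN) eN) (env := fun q : (ℕ × ℕ) × ℕ => q)
        (f := fun q c => ((3, q.1.1, q.1.2, q.2, c) : Ce))
        ((PF.const 3).pair ((PF.fst.comp (PF.fst.comp PF.fst)).pair
          ((PF.snd.comp (PF.fst.comp PF.fst)).pair ((PF.snd.comp PF.fst).pair PF.snd))))
        PF.id (PF.const (List.range m))
    have g2 : PF (eP (eP eN eN) eN) (eL eE)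
        (fun q => (List.range q.1.1).flatMap (fun w => (List.range m).map (fun c =>
          (3, q.1.2, q.2, w, c)))) :=
      PF.flatMap (ee := eP eN eN) (env := fun q : (ℕ × ℕ) × ℕ => (q.1.2, q.2))
        (f := fun q w => (List.range m).map (fun c => ((3, q.1, q.2, w, c) : Ce))) g1
        ((PF.snd.comp PF.fst).pair PF.snd) (PF.range (PF.fst.comp PF.fst))
    have g3 : PF (eP (eP eN eN) eN) (eL eE)
        (fun q => (List.range q.1.2).flatMap (fun r => (List.range q.1.1).flatMap (fun w =>
          (List.range m).map (fun c => (3, q.2, r, w, c))))) :=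
      PF.flatMap (ee := eP eN eN) (env := fun q : (ℕ × ℕ) × ℕ => (q.1.1, q.2))
        (f := fun q r => (List.range q.1).flatMap (fun w =>
          (List.range m).map (fun c => ((3, q.2, r, w, c) : Ce)))) g2
        ((PF.fst.comp PF.fst).pair PF.snd) (PF.range (PF.snd.comp PF.fst))
    exact PF.flatMap (ee := eP eN eN) (env := fun d : Dat => (d.1, 2 * d.2.1 + s))
      (f := fun q l => (List.range q.2).flatMap (fun r => (List.range q.1).flatMap (fun w =>
          (List.range m).map (fun c => ((3, l, r, w, c) : Ce))))) g3 (hn.pair hR) (PF.range hk)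
  exact PF.consL (PF.const _) (PF.appendL h1 (PF.appendL h2 h3))

end f2

section verts
variable {C : Type} {m : ℕ}

/-- list of vertices of the coloured scheme -/
noncomputable def vertsF (e : C ≃ Fin m) (n k R : ℕ) :
    List (SV (Fin k × Fin n) (Fin n ⊕ (Fin k × Fin R × Fin n)) C) :=
  .hub :: ((List.finRange k).flatMap (fun l => (List.finRange n).map (fun i => .sel (l, i))) ++
    ((List.finRange n).flatMap (fun j => (List.finRange m).map (fun c =>
        .gad (.inl j) (e.symm c))) ++
      (List.finRange k).flatMap (fun l => (List.finRange R).flatMap (fun r =>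
        (List.finRange n).flatMap (fun w => (List.finRange m).map (fun c =>
          .gad (.inr (l, r, w)) (e.symm c)))))))

theorem vertsF_mem (e : C ≃ Fin m) (n k R : ℕ) (v) : v ∈ vertsF e n k R := by
  unfold vertsF
  rcases v with _ | ⟨l, i⟩ | ⟨j | ⟨l, r, w⟩, c⟩
  · exact List.mem_cons_self
  · apply List.mem_cons_of_mem
    apply List.mem_append_left
    exact List.mem_flatMap.2 ⟨l, List.mem_finRange l, List.mem_map.2 ⟨i, List.mem_finRange i, rfl⟩⟩
  · apply List.mem_cons_of_mem
    apply List.mem_append_right
    apply List.mem_append_left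
    exact List.mem_flatMap.2 ⟨j, List.mem_finRange j,
      List.mem_map.2 ⟨e c, List.mem_finRange _, by simp⟩⟩
  · apply List.mem_cons_of_mem
    apply List.mem_append_right
    apply List.mem_append_right
    exact List.mem_flatMap.2 ⟨l, List.mem_finRange l, List.mem_flatMap.2 ⟨r, List.mem_finRange r,
      List.mem_flatMap.2 ⟨w, List.mem_finRange w,
        List.mem_map.2 ⟨e c, List.mem_finRange _, by simp⟩⟩⟩⟩

/-- a flatMap is duplicate free if the lists are and different indices give different values -/
theorem nodup_flatMap_of {β γ : Type} {l : List β} (hl : l.Nodup) {f : β → List γ}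
    (hf : ∀ b, (f b).Nodup) (hd : ∀ b b' v, v ∈ f b → v ∈ f b' → b = b') :
    (l.flatMap f).Nodup := by
  rw [List.nodup_flatMap]
  refine ⟨fun b _ => hf b, ?_⟩
  refine List.Nodup.pairwise_of_forall_ne hl ?_
  intro b _ b' _ hne
  rw [Function.onFun, List.disjoint_left]
  intro v h1 h2
  exact hne (hd b b' v h1 h2)

theorem vertsF_nodup (e : C ≃ Fin m) (n k R : ℕ) : (vertsF e n k R).Nodup := by
  unfold vertsF
  rw [List.nodup_cons]
  constructor
  · simp
  rw [List.nodup_append]
  refine ⟨?_, ?_, ?_⟩
  · refine nodup_flatMap_of (List.nodup_finRange k) ?_ ?_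
    · intro l
      refine List.Nodup.map ?_ (List.nodup_finRange n)
      intro a b h
      injection h with h
      exact (Prod.ext_iff.1 h).2
    · intro l l' v h1 h2
      obtain ⟨i, _, rfl⟩ := List.mem_map.1 h1
      obtain ⟨i', _, h3⟩ := List.mem_map.1 h2
      injection h3 with h3
      exact (Prod.ext_iff.1 h3).1.symm
  · rw [List.nodup_append]
    refine ⟨?_, ?_, ?_⟩
    · refine nodup_flatMap_of (List.nodup_finRange n) ?_ ?_
      · intro j
        refine List.Nodup.map ?_ (List.nodup_finRange m)
        intro a b h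
        injection h with _ h
        exact e.symm.injective h
      · intro j j' v h1 h2
        obtain ⟨i, _, rfl⟩ := List.mem_map.1 h1
        obtain ⟨i', _, h3⟩ := List.mem_map.1 h2
        injection h3 with h3 _
        exact (Sum.inl_injective h3).symm
    · refine nodup_flatMap_of (List.nodup_finRange k) ?_ ?_
      · intro l
        refine nodup_flatMap_of (List.nodup_finRange R) ?_ ?_
        · intro r
          refine nodup_flatMap_of (List.nodup_finRange n) ?_ ?_
          · intro w
            refine List.Nodup.map ?_ (List.nodup_finRange m)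
            intro a b h
            injection h with _ h
            exact e.symm.injective h
          · intro w w' v h1 h2
            obtain ⟨i, _, rfl⟩ := List.mem_map.1 h1
            obtain ⟨i', _, h3⟩ := List.mem_map.1 h2
            injection h3 with h3 _
            have := Sum.inr_injective h3
            simp only [Prod.mk.injEq] at this
            exact this.2.2.symm
        · intro r r' v h1 h2
          obtain ⟨w, _, h1⟩ := List.mem_flatMap.1 h1
          obtain ⟨w', _, h2⟩ := List.mem_flatMap.1 h2
          obtain ⟨i, _, rfl⟩ := List.mem_map.1 h1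
          obtain ⟨i', _, h3⟩ := List.mem_map.1 h2
          injection h3 with h3 _
          have := Sum.inr_injective h3
          simp only [Prod.mk.injEq] at this
          exact this.2.1.symm
      · intro l l' v h1 h2
        obtain ⟨r, _, h1⟩ := List.mem_flatMap.1 h1
        obtain ⟨r', _, h2⟩ := List.mem_flatMap.1 h2
        obtain ⟨w, _, h1⟩ := List.mem_flatMap.1 h1
        obtain ⟨w', _, h2⟩ := List.mem_flatMap.1 h2
        obtain ⟨i, _, rfl⟩ := List.mem_map.1 h1
        obtain ⟨i', _, h3⟩ := List.mem_map.1 h2
        injection h3 with h3 _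
        have := Sum.inr_injective h3
        simp only [Prod.mk.injEq] at this
        exact this.1.symm
    · intro a ha b hb hab
      subst hab
      obtain ⟨j, _, ha⟩ := List.mem_flatMap.1 ha
      obtain ⟨c, _, rfl⟩ := List.mem_map.1 ha
      obtain ⟨l, _, hb⟩ := List.mem_flatMap.1 hb
      obtain ⟨r, _, hb⟩ := List.mem_flatMap.1 hb
      obtain ⟨w, _, hb⟩ := List.mem_flatMap.1 hb
      obtain ⟨c', _, hb⟩ := List.mem_map.1 hb
      injection hb with hb _
      cases hb
  · intro a ha b hb hab
    subst hab
    obtain ⟨l, _, ha⟩ := List.mem_flatMap.1 ha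
    obtain ⟨i, _, rfl⟩ := List.mem_map.1 ha
    rcases List.mem_append.1 hb with hb | hb
    · obtain ⟨j, _, hb⟩ := List.mem_flatMap.1 hb
      obtain ⟨c, _, hb⟩ := List.mem_map.1 hb
      cases hb
    · obtain ⟨l, _, hb⟩ := List.mem_flatMap.1 hb
      obtain ⟨r, _, hb⟩ := List.mem_flatMap.1 hb
      obtain ⟨w, _, hb⟩ := List.mem_flatMap.1 hb
      obtain ⟨c', _, hb⟩ := List.mem_map.1 hb
      cases hb

/-- code of a vertex of the coloured scheme -/
def codeF (e : C ≃ Fin m) (n k R : ℕ) :
    SV (Fin k × Fin n) (Fin n ⊕ (Fin k × Fin R × Fin n)) C → Ce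
  | .hub => (0, 0, 0, 0, 0)
  | .sel s => (1, s.1.1, s.2.1, 0, 0)
  | .gad (.inl j) c => (2, j.1, 0, 0, (e c).1)
  | .gad (.inr t) c => (3, t.1.1, t.2.1.1, t.2.2.1, (e c).1)

theorem vertsF_code (e : C ≃ Fin m) (s : ℕ) (n : ℕ) (Γ : SimpleGraph (Fin n)) (k : ℕ) :
    (vertsF e n k (2 * k + s)).map (codeF e n k (2 * k + s)) = listF m s (dat Γ k) := by
  unfold vertsF listF dat
  have hr : ∀ (N : ℕ) (β : Type) (f : ℕ → β), (List.finRange N).map (fun i => f i.1) =
      (List.range N).map f := by
    intro N β f
    have : (List.range N) = (List.finRange N).map Fin.val := by simp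
    rw [this, List.map_map]
    rfl
  have hf : ∀ (N : ℕ) (β : Type) (f : ℕ → List β), (List.finRange N).flatMap (fun i => f i.1) =
      (List.range N).flatMap f := by
    intro N β f
    have : (List.range N) = (List.finRange N).map Fin.val := by simp
    rw [this, List.flatMap_map]
  simp only [List.map_cons, List.map_append, List.map_map, List.map_flatMap, codeF,
    Function.comp_def, Equiv.apply_symm_apply]
  congr 1
  congr 1
  · rw [← hf k]
    congr 1
    funext l
    rw [← hr n]
  congr 1
  · rw [← hf n]
    congr 1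
    funext j
    rw [← hr m]
  · rw [← hf k]
    congr 1
    funext l
    rw [← hf (2 * k + s)]
    congr 1
    funext r
    rw [← hf n]
    congr 1
    funext w
    rw [← hr m]

end verts

theorem adjF_correct {α : Type} {m0 : ℕ} (H : SimpleGraph α) (p q m : α)
    (e : {d : α // d ≠ p} ≃ Fin m0) (n : ℕ) (Γ : SimpleGraph (Fin n)) (k R : ℕ)
    (v v' : SV (Fin k × Fin n) (Fin n ⊕ (Fin k × Fin R × Fin n)) {d : α // d ≠ p}) :
    adjF e (fun d => H.Adj p d) (fun d => d.1 = m) (fun d => d.1 = m ∨ d.1 = q)
      (fun d d' => H.Adj d d') (dat Γ k) (codeF e n k R v) (codeF e n k R v') =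
      decide ((f2Graph H p q m Γ k R).Adj v v') := by
  rw [Bool.eq_iff_iff, decide_eq_true_eq]
  rcases v with _ | ⟨l, i⟩ | ⟨j | ⟨l, r, w⟩, c⟩ <;>
    rcases v' with _ | ⟨l', i'⟩ | ⟨j' | ⟨l', r', w'⟩, c'⟩ <;>
    simp only [adjF, Bool.or_eq_true, Bool.and_eq_true, decide_eq_true_eq, Bool.not_eq_true',
      Bool.eq_false_iff, ne_eq] <;>
    simp [codeF, f2Graph, f2adj, dat, bitAt_mat, tab1_val, tab2_val, Fin.ext_iff]

theorem f2_poly {α : Type} [Fintype α] (H : SimpleGraph α) (p q m : α) (s : ℕ) :
    ∃ r : List Bool → List Bool, PolyTM r ∧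
      ∀ (n : ℕ) (Γ : SimpleGraph (Fin n)) (k : ℕ), ∃ (N : ℕ) (G' : SimpleGraph (Fin N)),
        r (enc Γ k) = enc G' k ∧ Nonempty (G' ≃g f2Graph H p q m Γ k (2 * k + s)) := by
  let e := Fintype.equivFin {d : α // d ≠ p}
  exact poly_scheme (pf_listF (Fintype.card {d : α // d ≠ p}) s)
    (pf_adjF e (fun d => H.Adj p d) (fun d => d.1 = m) (fun d => d.1 = m ∨ d.1 = q)
      (fun d d' => H.Adj d d'))
    (fun n k => SV (Fin k × Fin n) (Fin n ⊕ (Fin k × Fin (2 * k + s) × Fin n)) {d : α // d ≠ p})
    (fun n Γ k => f2Graph H p q m Γ k (2 * k + s))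
    (fun n k => vertsF e n k (2 * k + s)) (fun n k => vertsF_nodup e n k _)
    (fun n k v => vertsF_mem e n k _ v) (fun n k => codeF e n k (2 * k + s))
    (fun n Γ k => vertsF_code e s n Γ k)
    (fun n Γ k v v' => adjF_correct H p q m e n Γ k _ v v')

end HFC
end
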