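import Pool.Agent.Lib.HFC.Mg.G002
import Pool.Agent.Lib.HFC.SP

section

open Classical

namespace HFC

variable {α V J : Type}

/-- An injective self map of a finite graph that preserves edges reflects them. -/
lemma reflect_of_adj [Finite α] (H : SimpleGraph α) (φ : α → α) (hφ : Function.Injective φ)
    (h : ∀ w w', H.Adj w w' → H.Adj (φ w) (φ w')) : ∀ w w', H.Adj (φ w) (φ w') → H.Adj w w' := by
  have hbij : Function.Bijective φ := Finite.injective_iff_bijective.1 hφ
  let e := Equiv.ofBijective φ hbij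
  have h1 : ∀ a b, H.Adj (e.symm a) (e.symm b) → H.Adj a b := by
    intro a b hab
    have := h _ _ hab
    rwa [show φ (e.symm a) = a from e.apply_symm_apply a,
      show φ (e.symm b) = b from e.apply_symm_apply b] at this
  have h2 := adj_of_reflect H e.symm e.symm.injective h1
  intro w w' hw
  have := h2 _ _ hw
  rwa [show e.symm (φ w) = w from e.symm_apply_apply w,
    show e.symm (φ w') = w' from e.symm_apply_apply w'] at this

/-- A vertex of `H - u` with four independent neighbours, or two adjacent vertices with two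
private leaves each. -/
def Big (H : SimpleGraph α) (u : α) : Prop :=
  (∃ c a1 a2 a3 a4, c ≠ u ∧ a1 ≠ u ∧ a2 ≠ u ∧ a3 ≠ u ∧ a4 ≠ u ∧
    H.Adj c a1 ∧ H.Adj c a2 ∧ H.Adj c a3 ∧ H.Adj c a4 ∧
    a1 ≠ a2 ∧ a1 ≠ a3 ∧ a1 ≠ a4 ∧ a2 ≠ a3 ∧ a2 ≠ a4 ∧ a3 ≠ a4 ∧
    ¬ H.Adj a1 a2 ∧ ¬ H.Adj a1 a3 ∧ ¬ H.Adj a1 a4 ∧ ¬ H.Adj a2 a3 ∧ ¬ H.Adj a2 a4 ∧
    ¬ H.Adj a3 a4) ∨
  (∃ c1 c2 l1 l2 m1 m2, c1 ≠ u ∧ c2 ≠ u ∧ l1 ≠ u ∧ l2 ≠ u ∧ m1 ≠ u ∧ m2 ≠ u ∧
    H.Adj c1 c2 ∧ H.Adj c1 l1 ∧ H.Adj c1 l2 ∧ H.Adj c2 m1 ∧ H.Adj c2 m2 ∧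
    ¬ H.Adj c2 l1 ∧ ¬ H.Adj c2 l2 ∧ ¬ H.Adj c1 m1 ∧ ¬ H.Adj c1 m2 ∧
    l1 ≠ l2 ∧ m1 ≠ m2 ∧ ¬ H.Adj l1 l2 ∧ ¬ H.Adj m1 m2 ∧
    ¬ H.Adj l1 m1 ∧ ¬ H.Adj l1 m2 ∧ ¬ H.Adj l2 m1 ∧ ¬ H.Adj l2 m2)

lemma big_false {H : SimpleGraph α} {u : α} (col : α → ℕ) (hc : ∀ a, a ≠ u → col a < 4)
    (K0 : ∀ a b, a ≠ u → b ≠ u → a ≠ b → col a = 0 → col b = 0 → H.Adj a b)
    (N1 : ∀ w a b, w ≠ u → a ≠ u → b ≠ u → H.Adj w a → H.Adj w b → a ≠ b → col a = col b →
      H.Adj a b)
    (T : ∀ w, w ≠ u →
      (∃ m1 m2, m1 < 4 ∧ m2 < 4 ∧ m1 ≠ m2 ∧ ∀ a, a ≠ u → H.Adj w a → col a ≠ m1 ∧ col a ≠ m2) ∨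
      (∃ m, (m = 2 ∨ m = 3) ∧ (∀ a, a ≠ u → H.Adj w a → col a ≠ m) ∧
        (col w = 1 ∨ (col w = 0 ∧ ∀ a, a ≠ u → a ≠ w → col a = 1 → H.Adj w a))))
    (big : Big H u) : False := by
  rcases big with ⟨c, a1, a2, a3, a4, hcu, h1, h2, h3, h4, e1, e2, e3, e4, n12, n13, n14, n23,
    n24, n34, d12, d13, d14, d23, d24, d34⟩ | ⟨c1, c2, l1, l2, m1, m2, hc1, hc2, hl1, hl2, hm1,
    hm2, e, el1, el2, em1, em2, pl1, pl2, pm1, pm2, hl, hm, dl, dm, d11, d12, d21, d22⟩
  · have c12 : col a1 ≠ col a2 := fun h => d12 (N1 c a1 a2 hcu h1 h2 e1 e2 n12 h)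
    have c13 : col a1 ≠ col a3 := fun h => d13 (N1 c a1 a3 hcu h1 h3 e1 e3 n13 h)
    have c14 : col a1 ≠ col a4 := fun h => d14 (N1 c a1 a4 hcu h1 h4 e1 e4 n14 h)
    have c23 : col a2 ≠ col a3 := fun h => d23 (N1 c a2 a3 hcu h2 h3 e2 e3 n23 h)
    have c24 : col a2 ≠ col a4 := fun h => d24 (N1 c a2 a4 hcu h2 h4 e2 e4 n24 h)
    have c34 : col a3 ≠ col a4 := fun h => d34 (N1 c a3 a4 hcu h3 h4 e3 e4 n34 h)
    have b1 := hc a1 h1
    have b2 := hc a2 h2
    have b3 := hc a3 h3
    have b4 := hc a4 h4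
    rcases T c hcu with ⟨m1, m2, hm1, hm2, hm, hmiss⟩ | ⟨m, hm, hmiss, _⟩
    · have k1 := (hmiss a1 h1 e1).1
      have k2 := (hmiss a2 h2 e2).1
      have k3 := (hmiss a3 h3 e3).1
      have k4 := (hmiss a4 h4 e4).1
      omega
    · have k1 := hmiss a1 h1 e1
      have k2 := hmiss a2 h2 e2
      have k3 := hmiss a3 h3 e3
      have k4 := hmiss a4 h4 e4
      omega
  · have nc2l1 : c2 ≠ l1 := by rintro rfl; exact dl (by
      exact absurd rfl (fun h : c2 = c2 => by
        have := d11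
        exact this em1))
    have nc2l2 : c2 ≠ l2 := by rintro rfl; exact d21 em1
    have nc1m1 : c1 ≠ m1 := by rintro rfl; exact d11 el1.symm
    have nc1m2 : c1 ≠ m2 := by rintro rfl; exact d12 el1.symm
    have q1 : col c2 ≠ col l1 := fun h => pl1 (N1 c1 c2 l1 hc1 hc2 hl1 e el1 nc2l1 h)
    have q2 : col c2 ≠ col l2 := fun h => pl2 (N1 c1 c2 l2 hc1 hc2 hl2 e el2 nc2l2 h)
    have q3 : col l1 ≠ col l2 := fun h => dl (N1 c1 l1 l2 hc1 hl1 hl2 el1 el2 hl h)
    have r1 : col c1 ≠ col m1 := fun h => pm1 (N1 c2 c1 m1 hc2 hc1 hm1 e.symm em1 nc1m1 h)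
    have r2 : col c1 ≠ col m2 := fun h => pm2 (N1 c2 c1 m2 hc2 hc1 hm2 e.symm em2 nc1m2 h)
    have r3 : col m1 ≠ col m2 := fun h => dm (N1 c2 m1 m2 hc2 hm1 hm2 em1 em2 hm h)
    have b1 := hc c1 hc1
    have b2 := hc c2 hc2
    have b3 := hc l1 hl1
    have b4 := hc l2 hl2
    have b5 := hc m1 hm1
    have b6 := hc m2 hm2
    rcases T c1 hc1 with ⟨s1, s2, hs1, hs2, hs, hmiss⟩ | ⟨s, hs, hmiss, hA⟩
    · have k1 := hmiss c2 hc2 e
      have k2 := hmiss l1 hl1 el1
      have k3 := hmiss l2 hl2 el2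
      omega
    · rcases T c2 hc2 with ⟨s1, s2, hs1, hs2, hs', hmiss'⟩ | ⟨s', hs', hmiss', hB⟩
      · have k1 := hmiss' c1 hc1 e.symm
        have k2 := hmiss' m1 hm1 em1
        have k3 := hmiss' m2 hm2 em2
        omega
      · have k1 := hmiss c2 hc2 e
        have k2 := hmiss l1 hl1 el1
        have k3 := hmiss l2 hl2 el2
        have k4 := hmiss' c1 hc1 e.symm
        have k5 := hmiss' m1 hm1 em1
        have k6 := hmiss' m2 hm2 em2
        rcases hB with hB | ⟨hB, hB'⟩
        · rcases hA with hA | ⟨hA, hA'⟩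
          · -- both colour one: one leaf of each has colour zero
            have hz1 : col l1 = 0 ∨ col l2 = 0 := by omega
            have hz2 : col m1 = 0 ∨ col m2 = 0 := by omega
            have x11 : l1 ≠ m1 := by rintro rfl; exact pm1 el1
            have x12 : l1 ≠ m2 := by rintro rfl; exact pm2 el1
            have x21 : l2 ≠ m1 := by rintro rfl; exact pm1 el2
            have x22 : l2 ≠ m2 := by rintro rfl; exact pm2 el2
            rcases hz1 with z1 | z1 <;> rcases hz2 with z2 | z2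
            · exact d11 (K0 _ _ hl1 hm1 x11 z1 z2)
            · exact d12 (K0 _ _ hl1 hm2 x12 z1 z2)
            · exact d21 (K0 _ _ hl2 hm1 x21 z1 z2)
            · exact d22 (K0 _ _ hl2 hm2 x22 z1 z2)
          · -- c1 is the hub
            have hz2 : col m1 = 1 ∨ col m2 = 1 := by omega
            rcases hz2 with z2 | z2
            · exact pm1 (hA' m1 hm1 nc1m1.symm z2)
            · exact pm2 (hA' m2 hm2 nc1m2.symm z2)
        · have hz1 : col l1 = 1 ∨ col l2 = 1 := by omega
          rcases hz1 with z1 | z1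
          · exact pl1 (hB' l1 hl1 nc2l1.symm z1)
          · exact pl2 (hB' l2 hl2 nc2l2.symm z1)

/-- classes of the pattern: gadget `H - x` and an auxiliary copy of `H - u` -/
abbrev UC (α : Type) (u x : α) : Type := {d : α // d ≠ x} ⊕ {e : α // e ≠ u}

def uI (H : SimpleGraph α) {u x : α} : UC α u x → UC α u x → Prop
  | .inl a, .inl b => H.Adj a.1 b.1
  | .inr a, .inr b => H.Adj a.1 b.1
  | .inl _, .inr _ => False
  | .inr _, .inl _ => False

def uS {u x : α} (y : α) : UC α u x → Prop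
  | .inl a => a.1 = y
  | .inr a => a.1 = x

def uA (H : SimpleGraph α) {u x : α} : UC α u x → Prop
  | .inl a => H.Adj x a.1
  | .inr a => a.1 ≠ x

def uP {u x : α} (y : α) : UC α u x → Prop
  | .inl a => a.1 = y
  | .inr _ => False

def uPat (H : SimpleGraph α) (u x y : α) : Pat (UC α u x) where
  I := uI H
  M a b := uS y a ∧ uS y b
  A := uA H
  P := uP y
  Q _ := False
  T := True
  I_symm a b h := by
    rcases a with a | a <;> rcases b with b | b <;> simp only [uI] at h ⊢
    · exact h.symm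
    · exact h.symm
  I_irrefl a h := by
    rcases a with a | a <;> exact (H.ne_of_adj h) rfl
  M_symm a b h := ⟨h.2, h.1⟩

noncomputable def ucol {u x : α} (y : α) : SV V J (UC α u x) → ℕ
  | .hub => 0
  | .sel _ => 0
  | .gad _ (.inl d) => if d.1 = y then 1 else 3
  | .gad _ (.inr e) => if e.1 = x then 2 else 3

theorem upd2 [Fintype α] {H : SimpleGraph α} {u x y : α} (hu : ∀ w, w ≠ u → H.Adj u w)
    (hxu : x ≠ u) (hxy : x ≠ y) (hnxy : ¬ H.Adj x y)
    (hconn : (H.induce {w | w ≠ u}).Preconnected)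
    (hNy : ∀ a b, H.Adj y a → H.Adj y b → a ≠ b → H.Adj a b)
    (hNx : ∀ a b, H.Adj x a → H.Adj x b → a ≠ b → H.Adj a b)
    (hbig : Big H u) : HasPat H := by
  refine ⟨UC α u x, inferInstance, uPat H u x y, ⟨?_⟩⟩
  refine {
    x := x
    δ := Sum.inl
    inj := Sum.inl_injective
    hI := fun d d' => Iff.rfl
    hA := fun d => Iff.rfl
    hQ := fun d h => h.elim
    hQB := fun c h => h.elim
    penal := ?_
    free := ?_ }
  · intro t d hM hnd
    refine ⟨u, ⟨⟨fun w => if h : w = u then .hub else .gad u (.inr ⟨w, h⟩), ?_⟩, ?_⟩, hu, ?_⟩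
    · intro a b hab
      by_cases ha : a = u <;> by_cases hb : b = u
      · rw [ha, hb]
      · simp [ha, hb] at hab
      · simp [ha, hb] at hab
      · simpa [ha, hb] using hab
    · intro a b
      show ((uPat H u x y).graph _ _).Adj (if h : a = u then .hub else .gad u (.inr ⟨a, h⟩))
        (if h : b = u then .hub else .gad u (.inr ⟨b, h⟩)) ↔ _
      have hB : ∀ e : {e : α // e ≠ u}, (uPat H u x y).A (.inr e) ∨
          (uPat H u x y).M t (.inr e) := by
        intro e
        by_cases he : e.1 = x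
        · exact Or.inr ⟨hM.1, he⟩
        · exact Or.inl he
      by_cases ha : a = u <;> by_cases hb : b = u
      · simp [ha, hb]
      · simp only [ha, hb, dif_pos, dif_neg, not_false_eq_true]
        exact ⟨fun _ => hu b hb, fun _ => hB _⟩
      · simp only [ha, hb, dif_pos, dif_neg, not_false_eq_true]
        exact ⟨fun _ => (hu a ha).symm, fun _ => hB _⟩
      · simp only [ha, hb, dif_neg, not_false_eq_true, adj_gad_gad]
        constructor
        · rintro (⟨_, h⟩ | ⟨h, _⟩)
          · exact h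
          · exact absurd rfl h
        · intro h; exact Or.inl ⟨trivial, h⟩
    · simp
  · intro V J rel
    refine ⟨fun f => ?_⟩
    have fadj : ∀ a b, ((uPat H u x y).graph (fun c => (uPat H u x y).A c ∨
      (uPat H u x y).P c) rel).Adj (f a) (f b) ↔ H.Adj a b := fun a b => f.map_rel_iff
    -- adjacency tables
    have ss : ∀ a b v v', f a = .sel v → f b = .sel v' → a ≠ b → H.Adj a b := by
      intro a b v v' ha hb hab
      rw [← fadj, ha, hb]
      refine ⟨?_, trivial⟩
      rintro rfl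
      exact hab (f.injective (ha.trans hb.symm))
    have hs : ∀ a b v, f a = .hub → f b = .sel v → H.Adj a b := by
      intro a b v ha hb
      rw [← fadj, ha, hb]; trivial
    have hl : ∀ a b j d, f a = .hub → f b = .gad j (.inl d) →
        (H.Adj a b ↔ H.Adj x d.1 ∨ d.1 = y) := by
      intro a b j d ha hb
      rw [← fadj, ha, hb]; rfl
    have hr : ∀ a b j e, f a = .hub → f b = .gad j (.inr e) → (H.Adj a b ↔ e.1 ≠ x) := by
      intro a b j e ha hb
      rw [← fadj, ha, hb]
      exact ⟨fun h => h.elim id (fun h => h.elim), fun h => Or.inl h⟩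
    have sl : ∀ a b v j d, f a = .sel v → f b = .gad j (.inl d) → H.Adj a b → d.1 = y := by
      intro a b v j d ha hb h
      rw [← fadj, ha, hb] at h
      rcases h with ⟨_, h⟩ | ⟨_, h⟩
      · exact h
      · exact h.elim
    have sr : ∀ a b v j e, f a = .sel v → f b = .gad j (.inr e) → ¬ H.Adj a b := by
      intro a b v j e ha hb h
      rw [← fadj, ha, hb] at h
      rcases h with ⟨_, h⟩ | ⟨_, h⟩ <;> exact h
    have ll : ∀ a b j d j' d', f a = .gad j (.inl d) → f b = .gad j' (.inl d') →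
        (H.Adj a b ↔ (j = j' ∧ H.Adj d.1 d'.1) ∨ (j ≠ j' ∧ d.1 = y ∧ d'.1 = y)) := by
      intro a b j d j' d' ha hb
      rw [← fadj, ha, hb]; rfl
    have rr : ∀ a b j d j' d', f a = .gad j (.inr d) → f b = .gad j' (.inr d') →
        (H.Adj a b ↔ (j = j' ∧ H.Adj d.1 d'.1) ∨ (j ≠ j' ∧ d.1 = x ∧ d'.1 = x)) := by
      intro a b j d j' d' ha hb
      rw [← fadj, ha, hb]; rfl
    have lr : ∀ a b j d j' e, f a = .gad j (.inl d) → f b = .gad j' (.inr e) →
        (H.Adj a b ↔ (j ≠ j' ∧ d.1 = y ∧ e.1 = x)) := by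
      intro a b j d j' e ha hb
      rw [← fadj, ha, hb]
      constructor
      · rintro (⟨_, h⟩ | h)
        · exact h.elim
        · exact h
      · exact fun h => Or.inr h
    have hh : ∀ a b, f a = .hub → f b = .hub → a = b := fun a b ha hb =>
      f.injective (ha.trans hb.symm)
    -- distinct vertices with images of the same class lie in distinct gadgets
    have diffl : ∀ a b j d j' d', f a = .gad j (.inl d) → f b = .gad j' (.inl d') → a ≠ b →
        d.1 = d'.1 → j ≠ j' := by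
      rintro a b j d j' d' ha hb hab hd rfl
      exact hab (f.injective (by rw [ha, hb, Subtype.ext hd]))
    have diffr : ∀ a b j d j' d', f a = .gad j (.inr d) → f b = .gad j' (.inr d') → a ≠ b →
        d.1 = d'.1 → j ≠ j' := by
      rintro a b j d j' d' ha hb hab hd rfl
      exact hab (f.injective (by rw [ha, hb, Subtype.ext hd]))
    let col : α → ℕ := fun w => ucol y (f w)
    have colhub : ∀ a, f a = .hub → col a = 0 := by intro a ha; simp only [col, ha, ucol]
    have colsel : ∀ a v, f a = .sel v → col a = 0 := by intro a v ha; simp only [col, ha, ucol]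
    have coll : ∀ a j d, f a = .gad j (.inl d) → col a = if d.1 = y then 1 else 3 := by
      intro a j d ha; simp only [col, ha, ucol]
    have colr : ∀ a j e, f a = .gad j (.inr e) → col a = if e.1 = x then 2 else 3 := by
      intro a j e ha; simp only [col, ha, ucol]
    have hc : ∀ a, a ≠ u → col a < 4 := by
      intro a _
      rcases ha : f a with _ | v | ⟨j, d | e⟩
      · rw [colhub a ha]; omega
      · rw [colsel a v ha]; omega
      · rw [coll a j d ha]; split_ifs <;> omega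
      · rw [colr a j e ha]; split_ifs <;> omega
    have K0 : ∀ a b, a ≠ u → b ≠ u → a ≠ b → col a = 0 → col b = 0 → H.Adj a b := by
      intro a b _ _ hab hca hcb
      rcases ha : f a with _ | v | ⟨j, d | e⟩
      · rcases hb : f b with _ | v' | ⟨j', d' | e'⟩
        · exact absurd (hh a b ha hb) hab
        · exact hs a b v' ha hb
        · rw [coll b j' d' hb] at hcb; split_ifs at hcb
        · rw [colr b j' e' hb] at hcb; split_ifs at hcb
      · rcases hb : f b with _ | v' | ⟨j', d' | e'⟩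
        · exact (hs b a v hb ha).symm
        · exact ss a b v v' ha hb hab
        · rw [coll b j' d' hb] at hcb; split_ifs at hcb
        · rw [colr b j' e' hb] at hcb; split_ifs at hcb
      · rw [coll a j d ha] at hca; split_ifs at hca
      · rw [colr a j e ha] at hca; split_ifs at hca
    -- colours one and two
    have K1 : ∀ a b, a ≠ b → col a = 1 → col b = 1 → H.Adj a b := by
      intro a b hab hca hcb
      rcases ha : f a with _ | v | ⟨j, d | e⟩
      · rw [colhub a ha] at hca; omega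
      · rw [colsel a v ha] at hca; omega
      · rw [coll a j d ha] at hca
        rcases hb : f b with _ | v' | ⟨j', d' | e'⟩
        · rw [colhub b hb] at hcb; omega
        · rw [colsel b v' hb] at hcb; omega
        · rw [coll b j' d' hb] at hcb
          have h1 : d.1 = y := by by_contra h; simp [h] at hca
          have h2 : d'.1 = y := by by_contra h; simp [h] at hcb
          rw [ll a b j d j' d' ha hb]
          exact Or.inr ⟨diffl a b j d j' d' ha hb hab (h1.trans h2.symm), h1, h2⟩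
        · rw [colr b j' e' hb] at hcb; split_ifs at hcb <;> omega
      · rw [colr a j e ha] at hca; split_ifs at hca <;> omega
    have K2 : ∀ a b, a ≠ b → col a = 2 → col b = 2 → H.Adj a b := by
      intro a b hab hca hcb
      rcases ha : f a with _ | v | ⟨j, d | e⟩
      · rw [colhub a ha] at hca; omega
      · rw [colsel a v ha] at hca; omega
      · rw [coll a j d ha] at hca; split_ifs at hca <;> omega
      · rw [colr a j e ha] at hca
        rcases hb : f b with _ | v' | ⟨j', d' | e'⟩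
        · rw [colhub b hb] at hcb; omega
        · rw [colsel b v' hb] at hcb; omega
        · rw [coll b j' d' hb] at hcb; split_ifs at hcb <;> omega
        · rw [colr b j' e' hb] at hcb
          have h1 : e.1 = x := by by_contra h; simp [h] at hca
          have h2 : e'.1 = x := by by_contra h; simp [h] at hcb
          rw [rr a b j e j' e' ha hb]
          exact Or.inr ⟨diffr a b j e j' e' ha hb hab (h1.trans h2.symm), h1, h2⟩
    -- shape of a vertex of colour three
    have sh3 : ∀ a, col a = 3 → (∃ j d, f a = .gad j (.inl d) ∧ d.1 ≠ y) ∨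
        (∃ j e, f a = .gad j (.inr e) ∧ e.1 ≠ x) := by
      intro a hca
      rcases ha : f a with _ | v | ⟨j, d | e⟩
      · rw [colhub a ha] at hca; omega
      · rw [colsel a v ha] at hca; omega
      · rw [coll a j d ha] at hca
        refine Or.inl ⟨j, d, rfl, ?_⟩
        intro h; simp [h] at hca
      · rw [colr a j e ha] at hca
        refine Or.inr ⟨j, e, rfl, ?_⟩
        intro h; simp [h] at hca
    have mkN1 : (∀ w a b, w ≠ u → a ≠ u → b ≠ u → H.Adj w a → H.Adj w b → a ≠ b → col a = 3 →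
        col b = 3 → H.Adj a b) → ∀ w a b, w ≠ u → a ≠ u → b ≠ u → H.Adj w a → H.Adj w b →
        a ≠ b → col a = col b → H.Adj a b := by
      intro h3 w a b hw ha hb hwa hwb hab hcc
      have := hc a ha
      rcases (by omega : col a = 0 ∨ col a = 1 ∨ col a = 2 ∨ col a = 3) with h | h | h | h
      · exact K0 a b ha hb hab h (hcc ▸ h)
      · exact K1 a b hab h (hcc ▸ h)
      · exact K2 a b hab h (hcc ▸ h)
      · exact h3 w a b hw ha hb hwa hwb hab h (hcc ▸ h)
    rcases hfu : f u with _ | v0 | ⟨j0, d0 | e0⟩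
    · -- the centre is the hub
      by_cases haux : ∃ w j e, w ≠ u ∧ f w = .gad j (.inr e)
      · obtain ⟨w0, j, e0, hw0, hfw0⟩ := haux
        have hall : ∀ w, w ≠ u → ∃ e : {e : α // e ≠ u}, f w = .gad j (.inr e) ∧ e.1 ≠ x := by
          by_contra hcon
          push Not at hcon
          obtain ⟨w1, hw1, hcon⟩ := hcon
          obtain ⟨a, b, ⟨ea, hea⟩, hb, hab⟩ := exists_cross hconn
            (fun v => ∃ e : {e : α // e ≠ u}, f v.1 = .gad j (.inr e))
            (a := ⟨w0, hw0⟩) (b := ⟨w1, hw1⟩) ⟨e0, hfw0⟩ (by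
              rintro ⟨e, he⟩
              exact (hr u w1 j e hfu he).1 (hu w1 hw1) (hcon e he))
          have hab' : H.Adj a.1 b.1 := hab
          apply hb
          have hea' : ea.1 ≠ x := (hr u a.1 j ea hfu hea).1 (hu _ a.2)
          rcases hfb : f b.1 with _ | v | ⟨j', d' | e'⟩
          · exact absurd (hh _ _ hfb hfu) b.2
          · exact absurd hab'.symm (sr _ _ _ _ _ hfb hea)
          · exact absurd ((lr _ _ _ _ _ _ hfb hea).1 hab'.symm).2.2 hea'
          · rcases (rr _ _ _ _ _ _ hea hfb).1 hab' with ⟨h1, _⟩ | ⟨_, h1, _⟩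
            · exact ⟨e', by rw [h1]⟩
            · exact absurd h1 hea'
        have : Nonempty {e : α // e ≠ u} := ⟨⟨x, hxu⟩⟩
        choose! g hg using hall
        refine no_inj_set (fun w => w ≠ u ∧ w ≠ x) x (fun h => h.2 rfl) (fun w => (g w).1) ?_ ?_
        · intro w hw
          have hwu : w ≠ u := by
            rcases hw with h | h
            · exact h.1
            · rw [h]; exact hxu
          exact ⟨(g w).2, (hg w hwu).2⟩
        · intro w w' hw hw' h
          have hwu : w ≠ u := by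
            rcases hw with h | h
            · exact h.1
            · rw [h]; exact hxu
          have hwu' : w' ≠ u := by
            rcases hw' with h | h
            · exact h.1
            · rw [h]; exact hxu
          apply f.injective
          rw [(hg w hwu).1, (hg w' hwu').1, Subtype.ext h]
      · push Not at haux
        have no2 : ∀ a, a ≠ u → col a ≠ 2 := by
          intro a ha h
          rcases hfa : f a with _ | v | ⟨j, d | e⟩
          · rw [colhub a hfa] at h; omega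
          · rw [colsel a v hfa] at h; omega
          · rw [coll a j d hfa] at h; split_ifs at h <;> omega
          · exact haux a j e ha hfa
        refine big_false (u := u) col hc K0 (mkN1 ?_) ?_ hbig
        · intro w a b hw ha hb hwa hwb hab hca hcb
          rcases sh3 a hca with ⟨j, d, hfa, hd⟩ | ⟨j, e, hfa, _⟩
          · rcases sh3 b hcb with ⟨j', d', hfb, hd'⟩ | ⟨j', e, hfb, _⟩
            · have hxd : H.Adj x d.1 := ((hl u a j d hfu hfa).1 (hu a ha)).resolve_right hd
              have hxd' : H.Adj x d'.1 := ((hl u b j' d' hfu hfb).1 (hu b hb)).resolve_right hd'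
              have same : ∀ a j d, f a = .gad j (.inl d) → d.1 ≠ y → H.Adj w a →
                  ∃ dw, f w = .gad j (.inl dw) := by
                intro a j d hfa hd hwa
                rcases hfw : f w with _ | v | ⟨jw, dw | ew⟩
                · exact absurd (hh w u hfw hfu) hw
                · exact absurd (sl w a v j d hfw hfa hwa) hd
                · rcases (ll w a jw dw j d hfw hfa).1 hwa with ⟨h1, _⟩ | ⟨_, _, h2⟩
                  · exact ⟨dw, by rw [h1]⟩
                  · exact absurd h2 hd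
                · exact absurd hfw (haux w jw ew hw)
              obtain ⟨d1, h1⟩ := same a j d hfa hd hwa
              obtain ⟨d2, h2⟩ := same b j' d' hfb hd' hwb
              rw [h1] at h2
              injection h2 with h3 _
              subst h3
              rw [ll a b j d j d' hfa hfb]
              refine Or.inl ⟨rfl, hNx _ _ hxd hxd' ?_⟩
              intro h
              exact hab (f.injective (by rw [hfa, hfb, Subtype.ext h]))
            · exact absurd hfb (haux b j' e hb)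
          · exact absurd hfa (haux a j e ha)
        · intro w hw
          rcases hfw : f w with _ | v | ⟨jw, dw | ew⟩
          · exact absurd (hh w u hfw hfu) hw
          · left
            refine ⟨2, 3, by omega, by omega, by omega, fun a ha hwa => ⟨no2 a ha, ?_⟩⟩
            intro h3
            rcases sh3 a h3 with ⟨j, d, hfa, hd⟩ | ⟨j, e, hfa, _⟩
            · exact hd (sl w a v j d hfw hfa hwa)
            · exact haux a j e ha hfa
          · by_cases hd : dw.1 = y
            · right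
              exact ⟨2, Or.inl rfl, fun a ha _ => no2 a ha, Or.inl (by
                rw [coll w jw dw hfw]; simp [hd])⟩
            · left
              refine ⟨0, 2, by omega, by omega, by omega, fun a ha hwa => ⟨?_, no2 a ha⟩⟩
              intro h0
              rcases hfa : f a with _ | v | ⟨j, d | e⟩
              · exact ha (hh a u hfa hfu)
              · exact hd (sl a w v jw dw hfa hfw hwa.symm)
              · rw [coll a j d hfa] at h0; split_ifs at h0
              · rw [colr a j e hfa] at h0; split_ifs at h0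
          · exact absurd hfw (haux w jw ew hw)
    · -- the centre is a selector
      have no2 : ∀ a, a ≠ u → col a ≠ 2 ∧ col a ≠ 3 := by
        intro a ha
        have hua := hu a ha
        rcases hfa : f a with _ | v | ⟨j, d | e⟩
        · rw [colhub a hfa]; omega
        · rw [colsel a v hfa]; omega
        · rw [coll a j d hfa]
          have := sl u a v0 j d hfu hfa hua
          simp [this]
        · exact absurd hua (sr u a v0 j e hfu hfa)
      refine big_false (u := u) col hc K0 (mkN1 ?_) ?_ hbig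
      · intro w a b hw ha hb hwa hwb hab hca hcb
        exact absurd hca (no2 a ha).2
      · intro w hw
        left
        exact ⟨2, 3, by omega, by omega, by omega, fun a ha _ => no2 a ha⟩
    · by_cases hd0 : d0.1 = y
      · -- the centre is a `y` vertex
        have hlx : ∀ a j d, a ≠ u → f a = .gad j (.inl d) → d.1 ≠ y → j = j0 ∧ H.Adj y d.1 := by
          intro a j d ha hfa hd
          rcases (ll u a j0 d0 j d hfu hfa).1 (hu a ha) with ⟨h1, h2⟩ | ⟨_, _, h2⟩
          · rw [hd0] at h2; exact ⟨h1.symm, h2⟩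
          · exact absurd h2 hd
        have hly : ∀ a j d, a ≠ u → f a = .gad j (.inl d) → d.1 = y → j ≠ j0 := by
          intro a j d ha hfa hd
          exact diffl a u j d j0 d0 hfa hfu ha (hd.trans hd0.symm)
        have hrx : ∀ a j e, a ≠ u → f a = .gad j (.inr e) → j ≠ j0 ∧ e.1 = x := by
          intro a j e ha hfa
          have := (lr u a j0 d0 j e hfu hfa).1 (hu a ha)
          exact ⟨fun h => this.1 h.symm, this.2.2⟩
        refine big_false (u := u) col hc K0 (mkN1 ?_) ?_ hbig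
        · intro w a b hw ha hb hwa hwb hab hca hcb
          rcases sh3 a hca with ⟨j, d, hfa, hd⟩ | ⟨j, e, hfa, he⟩
          · rcases sh3 b hcb with ⟨j', d', hfb, hd'⟩ | ⟨j', e, hfb, he⟩
            · obtain ⟨e1, e2⟩ := hlx a j d ha hfa hd
              obtain ⟨e3, e4⟩ := hlx b j' d' hb hfb hd'
              subst e1; subst e3
              rw [ll a b _ d _ d' hfa hfb]
              refine Or.inl ⟨rfl, hNy _ _ e2 e4 ?_⟩
              intro h
              exact hab (f.injective (by rw [hfa, hfb, Subtype.ext h]))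
            · exact absurd (hrx b j' e hb hfb).2 he
          · exact absurd (hrx a j e ha hfa).2 he
        · intro w hw
          rcases hfw : f w with _ | v | ⟨jw, dw | ew⟩
          · right
            refine ⟨2, Or.inl rfl, ?_, Or.inr ⟨colhub w hfw, ?_⟩⟩
            · intro a ha hwa h2
              rcases hfa : f a with _ | v | ⟨j, d | e⟩
              · rw [colhub a hfa] at h2; omega
              · rw [colsel a v hfa] at h2; omega
              · rw [coll a j d hfa] at h2; split_ifs at h2 <;> omega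
              · exact (hr w a j e hfw hfa).1 hwa (hrx a j e ha hfa).2
            · intro a ha haw h1
              rcases hfa : f a with _ | v | ⟨j, d | e⟩
              · rw [colhub a hfa] at h1; omega
              · rw [colsel a v hfa] at h1; omega
              · rw [coll a j d hfa] at h1
                have h1 : d.1 = y := by by_contra h; simp [h] at h1
                exact (hl w a j d hfw hfa).2 (Or.inr h1)
              · rw [colr a j e hfa] at h1; split_ifs at h1 <;> omega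
          · left
            refine ⟨2, 3, by omega, by omega, by omega, fun a ha hwa => ?_⟩
            rcases hfa : f a with _ | v' | ⟨j, d | e⟩
            · rw [colhub a hfa]; omega
            · rw [colsel a v' hfa]; omega
            · rw [coll a j d hfa]
              have := sl w a v j d hfw hfa hwa
              simp [this]
            · exact absurd hwa (sr w a v j e hfw hfa)
          · by_cases hd : dw.1 = y
            · right
              refine ⟨3, Or.inr rfl, ?_, Or.inl (by rw [coll w jw dw hfw]; simp [hd])⟩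
              intro a ha hwa h3
              rcases sh3 a h3 with ⟨j, d, hfa, hd'⟩ | ⟨j, e, hfa, he⟩
              · rcases (ll w a jw dw j d hfw hfa).1 hwa with ⟨h1, _⟩ | ⟨_, _, h2⟩
                · have e1 := (hlx a j d ha hfa hd').1
                  exact hly w jw dw hw hfw hd (h1.trans e1)
                · exact hd' h2
              · exact he (hrx a j e ha hfa).2
            · left
              refine ⟨1, 2, by omega, by omega, by omega, fun a ha hwa => ?_⟩
              rcases hfa : f a with _ | v' | ⟨j, d | e⟩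
              · rw [colhub a hfa]; omega
              · rw [colsel a v' hfa]; omega
              · rw [coll a j d hfa]
                by_cases hd' : d.1 = y
                · rcases (ll w a jw dw j d hfw hfa).1 hwa with ⟨h1, _⟩ | ⟨_, h2, _⟩
                  · have e1 := (hlx w jw dw hw hfw hd).1
                    exact absurd (h1.symm.trans e1) (hly a j d ha hfa hd')
                  · exact absurd h2 hd
                · simp [hd']
              · have := (lr w a jw dw j e hfw hfa).1 hwa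
                exact absurd this.2.1 hd
          · left
            have hx' := (hrx w jw ew hw hfw).2
            refine ⟨0, 3, by omega, by omega, by omega, fun a ha hwa => ?_⟩
            rcases hfa : f a with _ | v' | ⟨j, d | e⟩
            · exact absurd hx' ((hr a w jw ew hfa hfw).1 hwa.symm)
            · exact absurd hwa.symm (sr a w v' jw ew hfa hfw)
            · rw [coll a j d hfa]
              have := ((lr a w j d jw ew hfa hfw).1 hwa.symm).2.1
              simp [this]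
            · rw [colr a j e hfa]
              have := (hrx a j e ha hfa).2
              simp [this]
      · -- the centre is another gadget vertex
        refine one_gadget f x Sum.inl (fun d d' => Iff.rfl) (fun d h => Or.inl h) ⟨y, hxy.symm⟩
          (Or.inr rfl) hnxy j0 ?_
        intro w
        by_cases hwu : w = u
        · rw [hwu]; exact Or.inr ⟨d0, hfu⟩
        have huw := hu w hwu
        rcases hfw : f w with _ | v | ⟨jw, dw | ew⟩
        · exact Or.inl rfl
        · exact absurd (sl w u v j0 d0 hfw hfu huw.symm) hd0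
        · rcases (ll u w j0 d0 jw dw hfu hfw).1 huw with ⟨h1, _⟩ | ⟨_, h2, _⟩
          · exact Or.inr ⟨dw, by rw [h1]⟩
          · exact absurd h2 hd0
        · exact absurd ((lr u w j0 d0 jw ew hfu hfw).1 huw).2.1 hd0
    · by_cases he0 : e0.1 = x
      · -- the centre is a `ζ` vertex
        have nohub : ∀ a, a ≠ u → f a ≠ .hub := by
          intro a ha hfa
          exact (hr a u j0 e0 hfa hfu).1 (hu a ha).symm he0
        have nosel : ∀ a v, a ≠ u → f a ≠ .sel v := by
          intro a v ha hfa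
          exact sr a u v j0 e0 hfa hfu (hu a ha).symm
        have hly : ∀ a j d, a ≠ u → f a = .gad j (.inl d) → d.1 = y := by
          intro a j d ha hfa
          exact ((lr a u j d j0 e0 hfa hfu).1 (hu a ha).symm).2.1
        have hre : ∀ a j e, a ≠ u → f a = .gad j (.inr e) → e.1 ≠ x → j = j0 ∧ H.Adj x e.1 := by
          intro a j e ha hfa he
          rcases (rr u a j0 e0 j e hfu hfa).1 (hu a ha) with ⟨h1, h2⟩ | ⟨_, _, h2⟩
          · rw [he0] at h2; exact ⟨h1.symm, h2⟩
          · exact absurd h2 he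
        refine big_false (u := u) col hc K0 (mkN1 ?_) ?_ hbig
        · intro w a b hw ha hb hwa hwb hab hca hcb
          rcases sh3 a hca with ⟨j, d, hfa, hd⟩ | ⟨j, e, hfa, he⟩
          · exact absurd (hly a j d ha hfa) hd
          · rcases sh3 b hcb with ⟨j', d', hfb, hd'⟩ | ⟨j', e', hfb, he'⟩
            · exact absurd (hly b j' d' hb hfb) hd'
            · obtain ⟨e1, e2⟩ := hre a j e ha hfa he
              obtain ⟨e3, e4⟩ := hre b j' e' hb hfb he'
              subst e1; subst e3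
              rw [rr a b _ e _ e' hfa hfb]
              refine Or.inl ⟨rfl, hNx _ _ e2 e4 ?_⟩
              intro h
              exact hab (f.injective (by rw [hfa, hfb, Subtype.ext h]))
        · intro w hw
          left
          have no0 : ∀ a, a ≠ u → col a ≠ 0 := by
            intro a ha h0
            rcases hfa : f a with _ | v' | ⟨j, d | e⟩
            · exact nohub a ha hfa
            · exact nosel a v' ha hfa
            · rw [coll a j d hfa] at h0; split_ifs at h0
            · rw [colr a j e hfa] at h0; split_ifs at h0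
          rcases hfw : f w with _ | v | ⟨jw, dw | ew⟩
          · exact absurd hfw (nohub w hw)
          · exact absurd hfw (nosel w v hw)
          · refine ⟨0, 3, by omega, by omega, by omega, fun a ha hwa => ⟨no0 a ha, ?_⟩⟩
            intro h3
            rcases sh3 a h3 with ⟨j, d, hfa, hd'⟩ | ⟨j, e, hfa, he⟩
            · exact hd' (hly a j d ha hfa)
            · exact he ((lr w a jw dw j e hfw hfa).1 hwa).2.2
          · by_cases he : ew.1 = x
            · refine ⟨0, 3, by omega, by omega, by omega, fun a ha hwa => ⟨no0 a ha, ?_⟩⟩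
              intro h3
              rcases sh3 a h3 with ⟨j, d, hfa, hd'⟩ | ⟨j, e, hfa, he'⟩
              · exact hd' (hly a j d ha hfa)
              · have hj := (hre a j e ha hfa he').1
                rcases (rr w a jw ew j e hfw hfa).1 hwa with ⟨h1, _⟩ | ⟨_, _, h2⟩
                · exact diffr w u jw ew j0 e0 hfw hfu hw (he.trans he0.symm) (h1.trans hj)
                · exact he' h2
            · refine ⟨0, 1, by omega, by omega, by omega, fun a ha hwa => ⟨no0 a ha, ?_⟩⟩
              intro h1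
              rcases hfa : f a with _ | v' | ⟨j, d | e⟩
              · exact nohub a ha hfa
              · exact nosel a v' ha hfa
              · exact he ((lr a w j d jw ew hfa hfw).1 hwa.symm).2.2
              · rw [colr a j e hfa] at h1; split_ifs at h1 <;> omega
      · -- the centre is in the auxiliary copy
        have hall : ∀ w, ∃ a : α, (a = u ∧ f w = .hub) ∨ ∃ h : a ≠ u, f w = .gad j0 (.inr ⟨a, h⟩) := by
          intro w
          by_cases hwu : w = u
          · rw [hwu]; exact ⟨e0.1, Or.inr ⟨e0.2, hfu⟩⟩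
          have huw := hu w hwu
          rcases hfw : f w with _ | v | ⟨jw, dw | ew⟩
          · exact ⟨u, Or.inl ⟨rfl, rfl⟩⟩
          · exact absurd huw.symm (sr w u v j0 e0 hfw hfu)
          · exact absurd ((lr w u jw dw j0 e0 hfw hfu).1 huw.symm).2.2 he0
          · rcases (rr u w j0 e0 jw ew hfu hfw).1 huw with ⟨h1, _⟩ | ⟨_, h2, _⟩
            · exact ⟨ew.1, Or.inr ⟨ew.2, by rw [h1]⟩⟩
            · exact absurd h2 he0
        choose φ hφ using hall
        have φinj : Function.Injective φ := by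
          intro w w' h
          apply f.injective
          rcases hφ w with ⟨h1, h2⟩ | ⟨h1, h2⟩
          · rcases hφ w' with ⟨h1', h2'⟩ | ⟨h1', h2'⟩
            · rw [h2, h2']
            · exact absurd (h ▸ h1) h1'
          · rcases hφ w' with ⟨h1', h2'⟩ | ⟨h1', h2'⟩
            · exact absurd (h ▸ h1') h1
            · rw [h2, h2']
              congr 2
              exact Subtype.ext h
        have hpres : ∀ w w', H.Adj w w' → H.Adj (φ w) (φ w') := by
          intro w w' h
          rcases hφ w with ⟨h1, h2⟩ | ⟨h1, h2⟩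
          · rcases hφ w' with ⟨h1', h2'⟩ | ⟨h1', h2'⟩
            · exact absurd (hh w w' h2 h2') (H.ne_of_adj h)
            · rw [h1]; exact hu _ h1'
          · rcases hφ w' with ⟨h1', h2'⟩ | ⟨h1', h2'⟩
            · rw [h1']; exact (hu _ h1).symm
            · rcases (rr w w' _ _ _ _ h2 h2').1 h with ⟨_, h3⟩ | ⟨h3, _⟩
              · exact h3
              · exact absurd rfl h3
        have hrefl := reflect_of_adj H φ φinj hpres
        have hsurj : Function.Surjective φ := Finite.injective_iff_surjective.1 φinj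
        obtain ⟨a, ha⟩ := hsurj u
        obtain ⟨b, hb⟩ := hsurj x
        have hab : H.Adj a b := hrefl a b (by rw [ha, hb]; exact hu x hxu)
        have hfa : f a = .hub := by
          rcases hφ a with ⟨_, h⟩ | ⟨h, _⟩
          · exact h
          · exact absurd ha h
        rcases hφ b with ⟨h1, _⟩ | ⟨h1, h2⟩
        · exact hxu (hb.symm.trans h1)
        · exact (hr a b j0 _ hfa h2).1 hab hb

end HFC
end

section

open Classical

namespace HFC

variable {α V J : Type}

lemma exists_not_mem_of_card [Fintype α] (s : Finset α) (hs : s.card < Fintype.card α) :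
    ∃ a, a ∉ s := by
  by_contra h
  push Not at h
  have : s = Finset.univ := Finset.eq_univ_of_forall h
  rw [this, Finset.card_univ] at hs
  omega

lemma hasPat_of_tab [Fintype α] {H : SimpleGraph α} (hcard : Fintype.card α = 6)
    (G : SimpleGraph (Fin 6)) (hG : HasPat G) (φ : Fin 6 → α) (hφ : Function.Injective φ)
    (h : ∀ i j, i < j → (G.Adj i j ↔ H.Adj (φ i) (φ j))) : HasPat H := by
  have hbij : Function.Bijective φ := by
    rw [Fintype.bijective_iff_injective_and_card]
    exact ⟨hφ, by simp [hcard]⟩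
  refine HasPat.of_iso (⟨Equiv.ofBijective φ hbij, ?_⟩ : G ≃g H) hG
  intro i j
  show H.Adj (φ i) (φ j) ↔ G.Adj i j
  rcases lt_trichotomy i j with hij | hij | hij
  · exact (h i j hij).symm
  · subst hij
    exact ⟨fun h => absurd rfl (H.ne_of_adj h), fun h => absurd rfl (G.ne_of_adj h)⟩
  · rw [H.adj_comm, G.adj_comm]
    exact (h j i hij).symm

lemma inj6 {a0 a1 a2 a3 a4 a5 : α} (h01 : a0 ≠ a1) (h02 : a0 ≠ a2) (h03 : a0 ≠ a3)
    (h04 : a0 ≠ a4) (h05 : a0 ≠ a5) (h12 : a1 ≠ a2) (h13 : a1 ≠ a3) (h14 : a1 ≠ a4)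
    (h15 : a1 ≠ a5) (h23 : a2 ≠ a3) (h24 : a2 ≠ a4) (h25 : a2 ≠ a5) (h34 : a3 ≠ a4)
    (h35 : a3 ≠ a5) (h45 : a4 ≠ a5) : Function.Injective ![a0, a1, a2, a3, a4, a5] := by
  intro i j
  fin_cases i <;> fin_cases j <;> simp [*, Ne.symm, h01.symm, h02.symm, h03.symm, h04.symm,
    h05.symm, h12.symm, h13.symm, h14.symm, h15.symm, h23.symm, h24.symm, h25.symm, h34.symm,
    h35.symm, h45.symm]

lemma preconn_of_univ {H : SimpleGraph α} {u v : α} (huv : u ≠ v)
    (hv : ∀ w, w ≠ v → H.Adj v w) : (H.induce {w | w ≠ u}).Preconnected := by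
  have key : ∀ a : {w | w ≠ u}, (H.induce {w | w ≠ u}).Reachable ⟨v, huv.symm⟩ a := by
    intro a
    by_cases h : a.1 = v
    · have : a = ⟨v, huv.symm⟩ := Subtype.ext h
      rw [this]
    · exact SimpleGraph.Adj.reachable (show H.Adj v a.1 from hv a.1 h)
  intro a b
  exact (key a).symm.trans (key b)

theorem s2_case [Fintype α] {H : SimpleGraph α} (hcard : 6 ≤ Fintype.card α) {u1 u2 : α}
    (h12 : u1 ≠ u2) (hu1 : ∀ w, w ≠ u1 → H.Adj u1 w) (hu2 : ∀ w, w ≠ u2 → H.Adj u2 w)
    (hnc : ∃ a b, a ≠ b ∧ ¬ H.Adj a b) : HasPat H := by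
  by_cases hA : ∀ q, q ≠ u1 → q ≠ u2 → ∃ a, a ≠ u1 ∧ a ≠ u2 ∧ H.Adj q a
  · obtain ⟨x, y, hxy, hnxy⟩ := hnc
    exact u2_lemma h12 hu1 hu2 hxy hnxy (Or.inl hA)
  push Not at hA
  obtain ⟨x, hx1, hx2, hx⟩ := hA
  have hNx : ∀ w, H.Adj x w → w = u1 ∨ w = u2 := by
    intro w hw
    by_contra hcon
    push Not at hcon
    exact hx w hcon.1 hcon.2 hw
  have fresh : ∀ s : Finset α, s.card ≤ 5 → ∃ a, a ∉ s := fun s hs =>
    exists_not_mem_of_card s (by omega)
  by_cases hB : ∃ a b c d, a ≠ u1 ∧ a ≠ u2 ∧ b ≠ u1 ∧ b ≠ u2 ∧ c ≠ u1 ∧ c ≠ u2 ∧ d ≠ u1 ∧ d ≠ u2 ∧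
          H.Adj a b ∧ H.Adj c d ∧ a ≠ c ∧ a ≠ d
  · obtain ⟨y, hy⟩ := fresh {u1, u2, x} (by
      have := Finset.card_le_three (a := u1) (b := u2) (c := x); omega)
    simp only [Finset.mem_insert, Finset.mem_singleton, not_or] at hy
    refine u2_lemma h12 hu1 hu2 (Ne.symm hy.2.2) ?_ (Or.inr ⟨hNx, hB⟩)
    intro h
    rcases hNx y h with h | h
    · exact hy.1 h
    · exact hy.2.1 h
  push Not at hB
  have hconn := preconn_of_univ (H := H) h12 hu2
  -- at most one edge outside the two universal vertices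
  by_cases hedge : ∃ a b, a ≠ u1 ∧ a ≠ u2 ∧ b ≠ u1 ∧ b ≠ u2 ∧ H.Adj a b
  · obtain ⟨a, b, ha1, ha2, hb1, hb2, hab⟩ := hedge
    have hne : a ≠ b := H.ne_of_adj hab
    -- every other edge is `ab`
    have honly : ∀ c d, c ≠ u1 → c ≠ u2 → d ≠ u1 → d ≠ u2 → H.Adj c d →
        (c = a ∨ c = b) := by
      intro c d hc1 hc2 hd1 hd2 hcd
      by_contra hcon
      push Not at hcon
      exact hcon.2 (hB c d a b hc1 hc2 hd1 hd2 ha1 ha2 hb1 hb2 hcd hab hcon.1)
    have iso : ∀ c, c ≠ u1 → c ≠ u2 → c ≠ a → c ≠ b → ∀ w, H.Adj c w → w = u1 ∨ w = u2 := by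
      intro c hc1 hc2 hca hcb w hcw
      by_contra hcon
      push Not at hcon
      rcases honly c w hc1 hc2 hcon.1 hcon.2 hcw with h | h
      · exact hca h
      · exact hcb h
    have hNa : ∀ w, H.Adj a w → w = u1 ∨ w = u2 ∨ w = b := by
      intro w haw
      by_contra hcon
      push Not at hcon
      rcases honly w a hcon.1 hcon.2.1 ha1 ha2 haw.symm with h | h
      · exact H.ne_of_adj haw h.symm
      · exact hcon.2.2 h
    obtain ⟨i1, hi1⟩ := fresh {u1, u2, a, b} (by
      have := Finset.card_le_four (a := u1) (b := u2) (c := a) (d := b); omega)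
    obtain ⟨i2, hi2⟩ := fresh {u1, u2, a, b, i1} Finset.card_le_five
    simp only [Finset.mem_insert, Finset.mem_singleton, not_or] at hi1 hi2
    obtain ⟨hi11, hi12, hi1a, hi1b⟩ := hi1
    obtain ⟨hi21, hi22, hi2a, hi2b, hi2i⟩ := hi2
    have hI1 := iso i1 hi11 hi12 hi1a hi1b
    have hI2 := iso i2 hi21 hi22 hi2a hi2b
    have nadj : ∀ i w, (∀ w, H.Adj i w → w = u1 ∨ w = u2) → w ≠ u1 → w ≠ u2 → ¬ H.Adj i w := by
      intro i w hi hw1 hw2 h
      rcases hi w h with h | h
      · exact hw1 h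
      · exact hw2 h
    by_cases h7 : 7 ≤ Fintype.card α
    · obtain ⟨i3, hi3⟩ := exists_not_mem_of_card (α := α) {u1, u2, a, b, i1, i2} (by
        have := Finset.card_le_six (a := u1) (b := u2) (c := a) (d := b) (e := i1) (f := i2)
        omega)
      simp only [Finset.mem_insert, Finset.mem_singleton, not_or] at hi3
      obtain ⟨hi31, hi32, hi3a, hi3b, hi3i1, hi3i2⟩ := hi3
      have hI3 := iso i3 hi31 hi32 hi3a hi3b
      refine upd2 (u := u1) (x := a) (y := i1) hu1 ha1 (Ne.symm hi1a)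
        (fun h => nadj i1 a hI1 ha1 ha2 h.symm) hconn ?_ ?_ ?_
      · intro c d hc hd hcd
        rcases hI1 c hc with rfl | rfl
        · exact hu1 d hcd.symm
        · exact hu2 d hcd.symm
      · intro c d hc hd hcd
        rcases hNa c hc with rfl | rfl | rfl
        · exact hu1 d hcd.symm
        · exact hu2 d hcd.symm
        · rcases hNa d hd with rfl | rfl | rfl
          · exact (hu1 c hcd).symm
          · exact (hu2 c hcd).symm
          · exact absurd rfl hcd
      · left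
        exact ⟨u2, a, i1, i2, i3, h12.symm, ha1, hi11, hi21, hi31, hu2 a ha2, hu2 i1 hi12,
          hu2 i2 hi22, hu2 i3 hi32, Ne.symm hi1a, Ne.symm hi2a, Ne.symm hi3a, Ne.symm hi2i,
          Ne.symm hi3i1, Ne.symm hi3i2, fun h => nadj i1 a hI1 ha1 ha2 h.symm,
          fun h => nadj i2 a hI2 ha1 ha2 h.symm, fun h => nadj i3 a hI3 ha1 ha2 h.symm,
          nadj i1 i2 hI1 hi21 hi22, nadj i1 i3 hI1 hi31 hi32, nadj i2 i3 hI2 hi31 hi32⟩
    · have hc6 : Fintype.card α = 6 := by omega
      refine hasPat_of_tab hc6 GC2 hasPat_GC2 ![i1, i2, a, b, u1, u2]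
        (inj6 (Ne.symm hi2i) hi1a hi1b hi11 hi12 hi2a hi2b hi21 hi22 hne ha1 ha2 hb1 hb2 h12) ?_
      have e01 : ¬ H.Adj i1 i2 := nadj i1 i2 hI1 hi21 hi22
      have e02 : ¬ H.Adj i1 a := nadj i1 a hI1 ha1 ha2
      have e03 : ¬ H.Adj i1 b := nadj i1 b hI1 hb1 hb2
      have e04 : H.Adj i1 u1 := (hu1 i1 hi11).symm
      have e05 : H.Adj i1 u2 := (hu2 i1 hi12).symm
      have e12 : ¬ H.Adj i2 a := nadj i2 a hI2 ha1 ha2
      have e13 : ¬ H.Adj i2 b := nadj i2 b hI2 hb1 hb2
      have e14 : H.Adj i2 u1 := (hu1 i2 hi21).symm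
      have e15 : H.Adj i2 u2 := (hu2 i2 hi22).symm
      have e24 : H.Adj a u1 := (hu1 a ha1).symm
      have e25 : H.Adj a u2 := (hu2 a ha2).symm
      have e34 : H.Adj b u1 := (hu1 b hb1).symm
      have e35 : H.Adj b u2 := (hu2 b hb2).symm
      have e45 : H.Adj u1 u2 := hu1 u2 h12.symm
      intro i j hij
      rw [GC2_adj]
      fin_cases i <;> fin_cases j <;> first
        | exact absurd hij (by decide)
        | simp [e01, e02, e03, e04, e05, e12, e13, e14, e15, hab, e24, e25, e34, e35, e45]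
  · push Not at hedge
    have iso : ∀ c, c ≠ u1 → c ≠ u2 → ∀ w, H.Adj c w → w = u1 ∨ w = u2 := by
      intro c hc1 hc2 w hcw
      by_contra hcon
      push Not at hcon
      exact hedge c w hc1 hc2 hcon.1 hcon.2 hcw
    obtain ⟨i1, hi1⟩ := fresh {u1, u2} (by
      have := Finset.card_le_two (a := u1) (b := u2); omega)
    obtain ⟨i2, hi2⟩ := fresh {u1, u2, i1} (by
      have := Finset.card_le_three (a := u1) (b := u2) (c := i1); omega)
    obtain ⟨i3, hi3⟩ := fresh {u1, u2, i1, i2} (by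
      have := Finset.card_le_four (a := u1) (b := u2) (c := i1) (d := i2); omega)
    obtain ⟨i4, hi4⟩ := fresh {u1, u2, i1, i2, i3} Finset.card_le_five
    simp only [Finset.mem_insert, Finset.mem_singleton, not_or] at hi1 hi2 hi3 hi4
    obtain ⟨a1, a2⟩ := hi1
    obtain ⟨b1, b2, b3⟩ := hi2
    obtain ⟨c1, c2, c3, c4⟩ := hi3
    obtain ⟨d1, d2, d3, d4, d5⟩ := hi4
    have cl : ∀ i, i ≠ u1 → i ≠ u2 → ∀ a b, H.Adj i a → H.Adj i b → a ≠ b → H.Adj a b := by
      intro i h1 h2 a b ha hb hab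
      rcases iso i h1 h2 a ha with rfl | rfl
      · exact hu1 b hab.symm
      · exact hu2 b hab.symm
    refine upd2 (u := u1) (x := i1) (y := i2) hu1 a1 (Ne.symm b3)
      (hedge i1 i2 a1 a2 b1 b2) hconn (cl i2 b1 b2) (cl i1 a1 a2) ?_
    left
    exact ⟨u2, i1, i2, i3, i4, h12.symm, a1, b1, c1, d1, hu2 _ a2, hu2 _ b2, hu2 _ c2, hu2 _ d2,
      Ne.symm b3, Ne.symm c3, Ne.symm d3, Ne.symm c4, Ne.symm d4, Ne.symm d5,
      hedge _ _ a1 a2 b1 b2, hedge _ _ a1 a2 c1 c2, hedge _ _ a1 a2 d1 d2,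
      hedge _ _ b1 b2 c1 c2, hedge _ _ b1 b2 d1 d2, hedge _ _ c1 c2 d1 d2⟩

/-- `H - u` is a double star with centres `p` and `q`. -/
structure DSU (H : SimpleGraph α) (u p q : α) : Prop where
  pu : p ≠ u
  qu : q ≠ u
  pq : H.Adj p q
  one : ∀ w, w ≠ u → w ≠ p → w ≠ q → (H.Adj p w ↔ ¬ H.Adj q w)
  ind : ∀ w w', w ≠ u → w' ≠ u → w ≠ p → w ≠ q → w' ≠ p → w' ≠ q → ¬ H.Adj w w'

lemma DSU.swap {H : SimpleGraph α} {u p q : α} (h : DSU H u p q) : DSU H u q p := by
  refine ⟨h.qu, h.pu, h.pq.symm, ?_, ?_⟩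
  · intro w h1 h2 h3
    have := h.one w h1 h3 h2
    tauto
  · intro w w' h1 h2 h3 h4 h5 h6
    exact h.ind w w' h1 h2 h4 h3 h6 h5

lemma DSU.preconn {H : SimpleGraph α} {u p q : α} (h : DSU H u p q) :
    (H.induce {w | w ≠ u}).Preconnected := by
  have key : ∀ a : {w | w ≠ u}, (H.induce {w | w ≠ u}).Reachable ⟨p, h.pu⟩ a := by
    have hq : (H.induce {w | w ≠ u}).Reachable ⟨p, h.pu⟩ ⟨q, h.qu⟩ :=
      SimpleGraph.Adj.reachable (show H.Adj p q from h.pq)
    intro a
    by_cases h1 : a.1 = p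
    · have : a = ⟨p, h.pu⟩ := Subtype.ext h1
      rw [this]
    by_cases h2 : a.1 = q
    · have : a = ⟨q, h.qu⟩ := Subtype.ext h2
      rw [this]; exact hq
    by_cases h3 : H.Adj q a.1
    · exact hq.trans (SimpleGraph.Adj.reachable (show H.Adj q a.1 from h3))
    · exact SimpleGraph.Adj.reachable (show H.Adj p a.1 from (h.one a.1 a.2 h1 h2).2 h3)
  intro a b
  exact (key a).symm.trans (key b)

/-- neighbourhood of a leaf -/
lemma DSU.leaf {H : SimpleGraph α} {u p q : α} (h : DSU H u p q) {w : α}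
    (h1 : w ≠ u) (h2 : w ≠ p) (h3 : w ≠ q) (h4 : H.Adj p w) :
    ∀ a, H.Adj w a → a = u ∨ a = p := by
  intro a ha
  by_contra hcon
  push Not at hcon
  by_cases haq : a = q
  · rw [haq] at ha
    exact (h.one w h1 h2 h3).1 h4 ha.symm
  · exact h.ind w a h1 hcon.1 h2 h3 hcon.2 haq ha

lemma DSU.three [Fintype α] {H : SimpleGraph α} {u p q : α} (hu : ∀ w, w ≠ u → H.Adj u w)
    (h : DSU H u p q) {l1 l2 l3 : α} (hl1 : l1 ≠ u ∧ l1 ≠ p ∧ l1 ≠ q ∧ H.Adj p l1)
    (hl2 : l2 ≠ u ∧ l2 ≠ p ∧ l2 ≠ q ∧ H.Adj p l2) (hl3 : l3 ≠ u ∧ l3 ≠ p ∧ l3 ≠ q ∧ H.Adj p l3)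
    (h12 : l1 ≠ l2) (h13 : l1 ≠ l3) (h23 : l2 ≠ l3) : HasPat H := by
  obtain ⟨a1, a2, a3, a4⟩ := hl1
  obtain ⟨b1, b2, b3, b4⟩ := hl2
  obtain ⟨c1, c2, c3, c4⟩ := hl3
  have cl : ∀ w, w ≠ u → w ≠ p → w ≠ q → H.Adj p w → ∀ a b, H.Adj w a → H.Adj w b → a ≠ b →
      H.Adj a b := by
    intro w h1 h2 h3 h4 a b ha hb hab
    rcases h.leaf h1 h2 h3 h4 a ha with rfl | rfl
    · exact hu b hab.symm
    · rcases h.leaf h1 h2 h3 h4 b hb with rfl | rfl
      · exact (hu a hab).symm
      · exact absurd rfl hab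
  refine upd2 (u := u) (x := l1) (y := l2) hu a1 h12 (h.ind _ _ a1 b1 a2 a3 b2 b3) h.preconn
    (cl l2 b1 b2 b3 b4) (cl l1 a1 a2 a3 a4) ?_
  left
  exact ⟨p, l1, l2, l3, q, h.pu, a1, b1, c1, h.qu, a4, b4, c4, h.pq, h12, h13, a3, h23, b3, c3,
    h.ind _ _ a1 b1 a2 a3 b2 b3, h.ind _ _ a1 c1 a2 a3 c2 c3,
    fun e => (h.one l1 a1 a2 a3).1 a4 e.symm, h.ind _ _ b1 c1 b2 b3 c2 c3,
    fun e => (h.one l2 b1 b2 b3).1 b4 e.symm, fun e => (h.one l3 c1 c2 c3).1 c4 e.symm⟩

lemma DSU.twotwo [Fintype α] {H : SimpleGraph α} {u p q : α} (hu : ∀ w, w ≠ u → H.Adj u w)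
    (h : DSU H u p q) {l1 l2 m1 m2 : α} (hl1 : l1 ≠ u ∧ l1 ≠ p ∧ l1 ≠ q ∧ H.Adj p l1)
    (hl2 : l2 ≠ u ∧ l2 ≠ p ∧ l2 ≠ q ∧ H.Adj p l2) (hm1 : m1 ≠ u ∧ m1 ≠ p ∧ m1 ≠ q ∧ ¬ H.Adj p m1)
    (hm2 : m2 ≠ u ∧ m2 ≠ p ∧ m2 ≠ q ∧ ¬ H.Adj p m2)
    (h12 : l1 ≠ l2) (hm12 : m1 ≠ m2) : HasPat H := by
  obtain ⟨a1, a2, a3, a4⟩ := hl1
  obtain ⟨b1, b2, b3, b4⟩ := hl2
  obtain ⟨c1, c2, c3, c4⟩ := hm1
  obtain ⟨d1, d2, d3, d4⟩ := hm2
  have cl : ∀ w, w ≠ u → w ≠ p → w ≠ q → H.Adj p w → ∀ a b, H.Adj w a → H.Adj w b → a ≠ b →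
      H.Adj a b := by
    intro w h1 h2 h3 h4 a b ha hb hab
    rcases h.leaf h1 h2 h3 h4 a ha with rfl | rfl
    · exact hu b hab.symm
    · rcases h.leaf h1 h2 h3 h4 b hb with rfl | rfl
      · exact (hu a hab).symm
      · exact absurd rfl hab
  have qm : ∀ w, w ≠ u → w ≠ p → w ≠ q → ¬ H.Adj p w → H.Adj q w := by
    intro w h1 h2 h3 h4
    by_contra h5
    exact h4 ((h.one w h1 h2 h3).2 h5)
  refine upd2 (u := u) (x := l1) (y := l2) hu a1 h12 (h.ind _ _ a1 b1 a2 a3 b2 b3) h.preconn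
    (cl l2 b1 b2 b3 b4) (cl l1 a1 a2 a3 a4) ?_
  right
  exact ⟨p, q, l1, l2, m1, m2, h.pu, h.qu, a1, b1, c1, d1, h.pq, a4, b4, qm m1 c1 c2 c3 c4,
    qm m2 d1 d2 d3 d4, (h.one l1 a1 a2 a3).1 a4, (h.one l2 b1 b2 b3).1 b4, c4, d4, h12, hm12,
    h.ind _ _ a1 b1 a2 a3 b2 b3, h.ind _ _ c1 d1 c2 c3 d2 d3, h.ind _ _ a1 c1 a2 a3 c2 c3,
    h.ind _ _ a1 d1 a2 a3 d2 d3, h.ind _ _ b1 c1 b2 b3 c2 c3, h.ind _ _ b1 d1 b2 b3 d2 d3⟩

/-- six vertices, `H - u` is the double star with two leaves at `p` and one at `q` -/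
lemma DSU.six [Fintype α] {H : SimpleGraph α} {u p q : α} (hu : ∀ w, w ≠ u → H.Adj u w)
    (h : DSU H u p q) (hc6 : Fintype.card α = 6) {l1 l2 m : α}
    (hl1 : l1 ≠ u ∧ l1 ≠ p ∧ l1 ≠ q ∧ H.Adj p l1)
    (hl2 : l2 ≠ u ∧ l2 ≠ p ∧ l2 ≠ q ∧ H.Adj p l2) (hm : m ≠ u ∧ m ≠ p ∧ m ≠ q ∧ ¬ H.Adj p m)
    (h12 : l1 ≠ l2) : HasPat H := by
  obtain ⟨a1, a2, a3, a4⟩ := hl1
  obtain ⟨b1, b2, b3, b4⟩ := hl2
  obtain ⟨c1, c2, c3, c4⟩ := hm
  have hml1 : m ≠ l1 := by rintro rfl; exact c4 a4
  have hml2 : m ≠ l2 := by rintro rfl; exact c4 b4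
  have hpq : p ≠ q := H.ne_of_adj h.pq
  refine hasPat_of_tab hc6 G21 hasPat_G21 ![m, l1, l2, q, p, u]
    (inj6 hml1 hml2 c3 c2 c1 h12 a3 a2 a1 b3 b2 b1 hpq.symm h.qu h.pu) ?_
  have e01 : ¬ H.Adj m l1 := h.ind _ _ c1 a1 c2 c3 a2 a3
  have e02 : ¬ H.Adj m l2 := h.ind _ _ c1 b1 c2 c3 b2 b3
  have e03 : H.Adj m q := by
    by_contra h5
    exact c4 ((h.one m c1 c2 c3).2 (fun e => h5 e.symm))
  have e04 : ¬ H.Adj m p := fun e => c4 e.symm
  have e05 : H.Adj m u := (hu m c1).symm
  have e12 : ¬ H.Adj l1 l2 := h.ind _ _ a1 b1 a2 a3 b2 b3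
  have e13 : ¬ H.Adj l1 q := fun e => (h.one l1 a1 a2 a3).1 a4 e.symm
  have e14 : H.Adj l1 p := a4.symm
  have e15 : H.Adj l1 u := (hu l1 a1).symm
  have e23 : ¬ H.Adj l2 q := fun e => (h.one l2 b1 b2 b3).1 b4 e.symm
  have e24 : H.Adj l2 p := b4.symm
  have e25 : H.Adj l2 u := (hu l2 b1).symm
  have e34 : H.Adj q p := h.pq.symm
  have e35 : H.Adj q u := (hu q h.qu).symm
  have e45 : H.Adj p u := (hu p h.pu).symm
  intro i j hij
  rw [G21_adj]
  fin_cases i <;> fin_cases j <;> first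
    | exact absurd hij (by decide)
    | simp [e01, e02, e03, e04, e05, e12, e13, e14, e15, e23, e24, e25, e34, e35, e45]

theorem dsu_case [Fintype α] {H : SimpleGraph α} {u p q : α} (hcard : 6 ≤ Fintype.card α)
    (hu : ∀ w, w ≠ u → H.Adj u w) (h : DSU H u p q)
    (hl : ∃ w, w ≠ u ∧ w ≠ p ∧ w ≠ q ∧ H.Adj p w)
    (hm : ∃ w, w ≠ u ∧ w ≠ p ∧ w ≠ q ∧ ¬ H.Adj p w) : HasPat H := by
  let A : Finset α := Finset.univ.filter (fun w => w ≠ u ∧ w ≠ p ∧ w ≠ q ∧ H.Adj p w)
  let B : Finset α := Finset.univ.filter (fun w => w ≠ u ∧ w ≠ p ∧ w ≠ q ∧ ¬ H.Adj p w)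
  have hA : ∀ w, w ∈ A ↔ (w ≠ u ∧ w ≠ p ∧ w ≠ q ∧ H.Adj p w) := fun w => by simp [A]
  have hB : ∀ w, w ∈ B ↔ (w ≠ u ∧ w ≠ p ∧ w ≠ q ∧ ¬ H.Adj p w) := fun w => by simp [B]
  have hA1 : 1 ≤ A.card := by
    obtain ⟨w, hw⟩ := hl
    exact Finset.card_pos.2 ⟨w, (hA w).2 hw⟩
  have hB1 : 1 ≤ B.card := by
    obtain ⟨w, hw⟩ := hm
    exact Finset.card_pos.2 ⟨w, (hB w).2 hw⟩
  have hdisj : Disjoint A B := by
    rw [Finset.disjoint_left]
    intro w h1 h2
    exact ((hB w).1 h2).2.2.2 ((hA w).1 h1).2.2.2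
  have hpq : p ≠ q := H.ne_of_adj h.pq
  have hsum : A.card + B.card + 3 = Fintype.card α := by
    have h3 : ({u, p, q} : Finset α).card = 3 := by
      rw [Finset.card_eq_three]
      exact ⟨u, p, q, h.pu.symm, h.qu.symm, hpq, rfl⟩
    have hd2 : Disjoint (A ∪ B) {u, p, q} := by
      rw [Finset.disjoint_left]
      intro w h1 h2
      simp only [Finset.mem_insert, Finset.mem_singleton] at h2
      have hw : w ≠ u ∧ w ≠ p ∧ w ≠ q := by
        rcases Finset.mem_union.1 h1 with h1 | h1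
        · exact ⟨((hA w).1 h1).1, ((hA w).1 h1).2.1, ((hA w).1 h1).2.2.1⟩
        · exact ⟨((hB w).1 h1).1, ((hB w).1 h1).2.1, ((hB w).1 h1).2.2.1⟩
      rcases h2 with h2 | h2 | h2
      · exact hw.1 h2
      · exact hw.2.1 h2
      · exact hw.2.2 h2
    have huniv : (A ∪ B) ∪ {u, p, q} = Finset.univ := by
      apply Finset.eq_univ_of_forall
      intro w
      simp only [Finset.mem_union, hA, hB, Finset.mem_insert, Finset.mem_singleton]
      by_cases h1 : w = u
      · tauto
      by_cases h2 : w = p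
      · tauto
      by_cases h3 : w = q
      · tauto
      by_cases h4 : H.Adj p w <;> tauto
    rw [← Finset.card_univ, ← huniv, Finset.card_union_of_disjoint hd2,
      Finset.card_union_of_disjoint hdisj, h3]
  have three : ∀ S : Finset α, 3 ≤ S.card → ∃ a b c, a ∈ S ∧ b ∈ S ∧ c ∈ S ∧ a ≠ b ∧ a ≠ c ∧
      b ≠ c := by
    intro S hS
    obtain ⟨T, hT, hT3⟩ := Finset.exists_subset_card_eq hS
    obtain ⟨a, b, c, hab, hac, hbc, rfl⟩ := Finset.card_eq_three.1 hT3
    exact ⟨a, b, c, hT (by simp), hT (by simp), hT (by simp), hab, hac, hbc⟩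
  have two : ∀ S : Finset α, 2 ≤ S.card → ∃ a b, a ∈ S ∧ b ∈ S ∧ a ≠ b := by
    intro S hS
    obtain ⟨a, ha, b, hb, hab⟩ := Finset.one_lt_card.1 hS
    exact ⟨a, b, ha, hb, hab⟩
  -- leaves at q in the swapped description
  have qm : ∀ w, w ≠ u ∧ w ≠ p ∧ w ≠ q ∧ ¬ H.Adj p w → w ≠ u ∧ w ≠ q ∧ w ≠ p ∧ H.Adj q w := by
    rintro w ⟨h1, h2, h3, h4⟩
    refine ⟨h1, h3, h2, ?_⟩
    by_contra h5
    exact h4 ((h.one w h1 h2 h3).2 h5)
  have pm : ∀ w, w ≠ u ∧ w ≠ p ∧ w ≠ q ∧ H.Adj p w → w ≠ u ∧ w ≠ q ∧ w ≠ p ∧ ¬ H.Adj q w := by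
    rintro w ⟨h1, h2, h3, h4⟩
    exact ⟨h1, h3, h2, (h.one w h1 h2 h3).1 h4⟩
  by_cases h3A : 3 ≤ A.card
  · obtain ⟨a, b, c, ha, hb, hc, hab, hac, hbc⟩ := three A h3A
    exact h.three hu ((hA a).1 ha) ((hA b).1 hb) ((hA c).1 hc) hab hac hbc
  by_cases h3B : 3 ≤ B.card
  · obtain ⟨a, b, c, ha, hb, hc, hab, hac, hbc⟩ := three B h3B
    exact h.swap.three hu (qm a ((hB a).1 ha)) (qm b ((hB b).1 hb)) (qm c ((hB c).1 hc))
      hab hac hbc
  by_cases h7 : 7 ≤ Fintype.card α
  · obtain ⟨a, b, ha, hb, hab⟩ := two A (by omega)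
    obtain ⟨c, d, hc, hd, hcd⟩ := two B (by omega)
    exact h.twotwo hu ((hA a).1 ha) ((hA b).1 hb) ((hB c).1 hc) ((hB d).1 hd) hab hcd
  have hc6 : Fintype.card α = 6 := by omega
  by_cases h2A : 2 ≤ A.card
  · obtain ⟨a, b, ha, hb, hab⟩ := two A h2A
    obtain ⟨c, hc⟩ := hm
    exact h.six hu hc6 ((hA a).1 ha) ((hA b).1 hb) hc hab
  · obtain ⟨a, b, ha, hb, hab⟩ := two B (by omega)
    obtain ⟨c, hc⟩ := hl
    exact h.swap.six hu hc6 (qm a ((hB a).1 ha)) (qm b ((hB b).1 hb)) (pm c hc) hab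

/-- the case of one universal vertex, connected rest -/
theorem s1_conn [Fintype α] {H : SimpleGraph α} {u : α} (hcard : 6 ≤ Fintype.card α)
    (hu : ∀ w, w ≠ u → H.Adj u w)
    (hc : (H.induce {w | w ≠ u}).Preconnected)
    (hnu : ∀ v, v ≠ u → ∃ w, w ≠ v ∧ w ≠ u ∧ ¬ H.Adj v w) : HasPat H := by
  have hne : Nonempty {w : α // w ≠ u} := by
    obtain ⟨a, ha⟩ := exists_not_mem_of_card (α := α) {u} (by simp; omega)
    exact ⟨⟨a, by simpa using ha⟩⟩
  rcases s1c_case hu hc hne hnu with h | ⟨q, K, hE⟩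
  · exact h
  have hE' := excU_of hu hE
  set K' : α → Prop := fun w => ∃ h : w ≠ u, K ⟨w, h⟩ with hK'
  by_cases h2 : ∃ k k', K' k ∧ K' k' ∧ k ≠ k'
  · exact qLI_s1 hu hE' h2
  push Not at h2
  by_cases hX : ∃ x1 x2, x1 ≠ u ∧ H.Adj q.1 x1 ∧ ¬ K' x1 ∧ x2 ≠ u ∧ H.Adj q.1 x2 ∧ ¬ K' x2 ∧
      H.Adj x1 x2
  · obtain ⟨x1, x2, h1, h3, h4, h5, h6, h7, h8⟩ := hX
    exact mrule hu hE' h1 h3 h4 h5 h6 h7 h8
  push Not at hX
  obtain ⟨p, hp⟩ := hE'.Kne
  have hKp : ∀ k, K' k → k = p := fun k hk => h2 k p hk hp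
  have hDS : DSU H u p q.1 := by
    refine ⟨hE'.Ku p hp, hE'.qu, (hE'.Kq p hp).symm, ?_, ?_⟩
    · intro w hwu hwp hwq
      by_cases hqw : H.Adj q.1 w
      · have hKw : ¬ K' w := fun h => hwp (hKp w h)
        have := hE'.XK w p hwu hqw hKw hp
        tauto
      · have := hE'.KL p w hp hwq hqw
        tauto
    · intro w w' hwu hwu' hwp hwq hwp' hwq'
      have hKw : ¬ K' w := fun h => hwp (hKp w h)
      have hKw' : ¬ K' w' := fun h => hwp' (hKp w' h)
      by_cases hqw : H.Adj q.1 w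
      · by_cases hqw' : H.Adj q.1 w'
        · exact hX w w' hwu hqw hKw hwu' hqw' hKw'
        · exact fun h => hE'.XL w w' hwu hqw hKw hwq' hqw' h.symm
      · by_cases hqw' : H.Adj q.1 w'
        · exact fun h => hE'.XL w' w hwu' hqw' hKw' hwq hqw h
        · exact hE'.LL w w' hwq hwq' hqw hqw'
  refine dsu_case hcard hu hDS ?_ ?_
  · obtain ⟨l, hl, hql⟩ := hE'.Lne
    have hlu : l ≠ u := by rintro rfl; exact hql (hu _ hE'.qu).symm
    have hlp : l ≠ p := by rintro rfl; exact hql (hE'.Kq l hp)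
    exact ⟨l, hlu, hlp, hl, hE'.KL p l hp hl hql⟩
  · obtain ⟨w, hwu, hqw, hKw⟩ := hE'.Xne
    exact ⟨w, hwu, fun e => hKw (e ▸ hp), (H.ne_of_adj hqw).symm, hE'.XK w p hwu hqw hKw hp⟩

end HFC
end
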